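import Pool.Agent.RL51.Defs

/-!
# RL51.Basic: derivatives, conjugation, reality (task RL51-Basic)

All statements are for `w` in the strip `|Im w| < π`, where `bb q w = 1 - q + q e^w` lies in
`Complex.slitPlane`: if `Im w ≠ 0` then `Im (bb q w) = q e^{Re w} sin (Im w) ≠ 0`, and if
`Im w = 0` then `bb q w = 1 - q + q e^{Re w} > 0` is real.
-/

open Finset Polynomial

namespace Pool.Agent.RL51

lemma bR_pos {q : ℝ} (h0 : 0 < q) (h1 : q < 1) (x : ℝ) : 0 < bR q x := by
  have := mul_pos h0 (Real.exp_pos x)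
  simp only [bR]
  linarith

lemma bb_slit {q : ℝ} (h0 : 0 < q) (h1 : q < 1) {w : ℂ} (hw : |w.im| < Real.pi) :
    bb q w ∈ Complex.slitPlane := by
  rw [Complex.mem_slitPlane_iff]
  by_cases him : w.im = 0
  · left
    have h2 := mul_pos h0 (Real.exp_pos w.re)
    have : (bb q w).re = 1 - q + q * Real.exp w.re := by
      simp [bb, Complex.exp_re, him]
    rw [this]
    linarith
  · right
    have : (bb q w).im = q * (Real.exp w.re * Real.sin w.im) := by
      simp [bb, Complex.exp_im]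
    rw [this]
    have hw' := abs_lt.mp hw
    have hs : Real.sin w.im ≠ 0 := by
      intro h
      exact him ((Real.sin_eq_zero_iff_of_lt_of_lt hw'.1 hw'.2).mp h)
    exact mul_ne_zero h0.ne' (mul_ne_zero (Real.exp_pos _).ne' hs)

lemma bb_ne {q : ℝ} (h0 : 0 < q) (h1 : q < 1) {w : ℂ} (hw : |w.im| < Real.pi) : bb q w ≠ 0 :=
  Complex.slitPlane_ne_zero (bb_slit h0 h1 hw)

/-- real points -/
lemma bb_ofReal (q x : ℝ) : bb q (x : ℂ) = (bR q x : ℂ) := by
  simp only [bb, bR]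
  push_cast
  ring

variable {ι : Type} [Fintype ι]

lemma gen_ne {p : ι → ℝ} (hp : Adm p) {w : ℂ} (hw : |w.im| < Real.pi) : gen p w ≠ 0 := by
  rw [gen, Finset.prod_ne_zero_iff]
  intro i _
  exact bb_ne (hp i).1 (hp i).2 hw

lemma exp_EE {p : ι → ℝ} (hp : Adm p) {w : ℂ} (hw : |w.im| < Real.pi) :
    Complex.exp (EE p w) = gen p w := by
  rw [EE, gen, Complex.exp_sum]
  refine Finset.prod_congr rfl (fun i _ => ?_)
  exact Complex.exp_log (bb_ne (hp i).1 (hp i).2 hw)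

lemma hasDerivAt_bb (q : ℝ) (w : ℂ) : HasDerivAt (bb q) ((q : ℂ) * Complex.exp w) w := by
  have h := ((Complex.hasDerivAt_exp w).const_mul (q : ℂ)).const_add (1 - (q : ℂ))
  exact h

lemma hasDerivAt_log_bb {q : ℝ} (h0 : 0 < q) (h1 : q < 1) {w : ℂ} (hw : |w.im| < Real.pi) :
    HasDerivAt (fun z => Complex.log (bb q z)) (k1 q w) w :=
  (hasDerivAt_bb q w).clog (bb_slit h0 h1 hw)

lemma hasDerivAt_k1 {q : ℝ} (h0 : 0 < q) (h1 : q < 1) {w : ℂ} (hw : |w.im| < Real.pi) :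
    HasDerivAt (k1 q) (s1 q w) w := by
  have hne := bb_ne h0 h1 hw
  have h := ((Complex.hasDerivAt_exp w).const_mul (q : ℂ)).div (hasDerivAt_bb q w) hne
  have e : ((q : ℂ) * Complex.exp w * bb q w - (q : ℂ) * Complex.exp w * ((q : ℂ) * Complex.exp w))
      / bb q w ^ 2 = s1 q w := by
    simp only [s1]
    congr 1
    simp only [bb]
    ring
  rw [e] at h
  exact h

lemma hasDerivAt_s1 {q : ℝ} (h0 : 0 < q) (h1 : q < 1) {w : ℂ} (hw : |w.im| < Real.pi) :
    HasDerivAt (s1 q) (d1 q w) w := by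
  have hne := bb_ne h0 h1 hw
  have h := ((Complex.hasDerivAt_exp w).const_mul ((q : ℂ) * (1 - (q : ℂ)))).div
    ((hasDerivAt_bb q w).pow 2) (pow_ne_zero 2 hne)
  have e : ((q : ℂ) * (1 - (q : ℂ)) * Complex.exp w * bb q w ^ 2 -
      (q : ℂ) * (1 - (q : ℂ)) * Complex.exp w *
        (((2 : ℕ) : ℂ) * bb q w ^ (2 - 1) * ((q : ℂ) * Complex.exp w))) / (bb q w ^ 2) ^ 2
      = d1 q w := by
    simp only [d1, s1, k1]
    field_simp
    push_cast
    ring
  rw [← e]
  exact h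

/-! derivatives.  For one factor: `bb' = q e^w`, `(log bb)' = k1`, `k1' = s1`, `s1' = d1`
(`k1' = (q e^w (1 - q + q e^w) - (q e^w)^2)/bb^2 = q (1-q) e^w / bb^2`, and
`s1'/s1 = 1 - 2 bb'/bb = 1 - 2 k1`). -/

lemma hasDerivAt_EE {p : ι → ℝ} (hp : Adm p) {w : ℂ} (hw : |w.im| < Real.pi) :
    HasDerivAt (EE p) (kap p w) w := by
  have h := HasDerivAt.fun_sum (u := (Finset.univ : Finset ι))
    (A := fun i z => Complex.log (bb (p i) z)) (A' := fun i => k1 (p i) w) (x := w)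
    (fun i _ => hasDerivAt_log_bb (hp i).1 (hp i).2 hw)
  exact h

lemma hasDerivAt_kap {p : ι → ℝ} (hp : Adm p) {w : ℂ} (hw : |w.im| < Real.pi) :
    HasDerivAt (kap p) (ss p w) w := by
  have h := HasDerivAt.fun_sum (u := (Finset.univ : Finset ι))
    (A := fun i z => k1 (p i) z) (A' := fun i => s1 (p i) w) (x := w)
    (fun i _ => hasDerivAt_k1 (hp i).1 (hp i).2 hw)
  exact h

lemma hasDerivAt_ss {p : ι → ℝ} (hp : Adm p) {w : ℂ} (hw : |w.im| < Real.pi) :
    HasDerivAt (ss p) (dd p w) w := by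
  have h := HasDerivAt.fun_sum (u := (Finset.univ : Finset ι))
    (A := fun i z => s1 (p i) z) (A' := fun i => d1 (p i) w) (x := w)
    (fun i _ => hasDerivAt_s1 (hp i).1 (hp i).2 hw)
  exact h

/-! conjugation -/

lemma bb_conj (q : ℝ) (w : ℂ) : bb q ((starRingEnd ℂ) w) = (starRingEnd ℂ) (bb q w) := by
  simp only [bb, map_add, map_sub, map_mul, map_one, Complex.conj_ofReal, Complex.exp_conj]

lemma k1_conj (q : ℝ) (w : ℂ) : k1 q ((starRingEnd ℂ) w) = (starRingEnd ℂ) (k1 q w) := by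
  simp only [k1, bb_conj, map_div₀, map_mul, Complex.conj_ofReal, Complex.exp_conj]

lemma s1_conj (q : ℝ) (w : ℂ) : s1 q ((starRingEnd ℂ) w) = (starRingEnd ℂ) (s1 q w) := by
  simp only [s1, bb_conj, map_div₀, map_mul, map_sub, map_one, map_pow, Complex.conj_ofReal,
    Complex.exp_conj]

lemma gen_conj (p : ι → ℝ) (w : ℂ) : gen p ((starRingEnd ℂ) w) = (starRingEnd ℂ) (gen p w) := by
  simp only [gen, map_prod, bb_conj]

lemma kap_conj (p : ι → ℝ) (w : ℂ) : kap p ((starRingEnd ℂ) w) = (starRingEnd ℂ) (kap p w) := by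
  simp only [kap, map_sum, k1_conj]

lemma ss_conj (p : ι → ℝ) (w : ℂ) : ss p ((starRingEnd ℂ) w) = (starRingEnd ℂ) (ss p w) := by
  simp only [ss, map_sum, s1_conj]

/-- `Complex.log` commutes with conjugation off the negative axis. -/
lemma EE_conj {p : ι → ℝ} (hp : Adm p) {w : ℂ} (hw : |w.im| < Real.pi) :
    EE p ((starRingEnd ℂ) w) = (starRingEnd ℂ) (EE p w) := by
  simp only [EE, map_sum]
  refine Finset.sum_congr rfl (fun i _ => ?_)
  rw [bb_conj]
  exact Complex.log_conj _ (Complex.slitPlane_arg_ne_pi (bb_slit (hp i).1 (hp i).2 hw))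

/-- `ell (conj w) = conj (ell w)`: conjugate the integral and substitute `θ ↦ -θ`. -/
lemma ell_conj (p : ι → ℝ) (w : ℂ) : ell p ((starRingEnd ℂ) w) = (starRingEnd ℂ) (ell p w) := by
  simp only [ell, map_mul, map_div₀, map_one, map_ofNat, Complex.conj_ofReal]
  congr 1
  rw [← intervalIntegral.intervalIntegral_conj]
  have h := intervalIntegral.integral_comp_neg (a := -Real.pi) (b := Real.pi)
    (fun θ : ℝ => gen p ((starRingEnd ℂ) w + θ * Complex.I) / gen p ((starRingEnd ℂ) w) *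
        Complex.exp (-(kap p ((starRingEnd ℂ) w) * (θ * Complex.I))))
  rw [neg_neg] at h
  rw [← h]
  refine intervalIntegral.integral_congr (fun θ _ => ?_)
  simp only [map_mul, map_div₀, ← gen_conj, ← Complex.exp_conj, map_neg, map_add,
    Complex.conj_ofReal, Complex.conj_I, ← kap_conj, Complex.ofReal_neg]
  ring_nf

lemma kap_im_ofReal (p : ι → ℝ) (x : ℝ) : (kap p (x : ℂ)).im = 0 := by
  have h := kap_conj p (x : ℂ)
  rw [Complex.conj_ofReal] at h
  exact Complex.conj_eq_iff_im.mp h.symm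

lemma EE_im_ofReal {p : ι → ℝ} (hp : Adm p) (x : ℝ) : (EE p (x : ℂ)).im = 0 := by
  have h := EE_conj hp (w := (x : ℂ)) (by simpa using Real.pi_pos)
  rw [Complex.conj_ofReal] at h
  exact Complex.conj_eq_iff_im.mp h.symm

lemma EE_zero (p : ι → ℝ) : EE p 0 = 0 := by
  simp [EE, bb]

/-- `gen p x` is a positive real for real `x`. -/
lemma gen_ofReal (p : ι → ℝ) (x : ℝ) : gen p (x : ℂ) = ((∏ i, bR (p i) x : ℝ) : ℂ) := by
  simp only [gen, bb_ofReal]
  push_cast
  rfl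

lemma VV_nonneg {p : ι → ℝ} (hp : Adm p) : 0 ≤ VV p := by
  refine Finset.sum_nonneg (fun i _ => ?_)
  exact mul_nonneg (hp i).1.le (sub_nonneg.mpr (hp i).2.le)

end Pool.Agent.RL51
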