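import Pool.Agent.RL51.WinE
import Pool.Agent.LExp.Contour

/-!
# RL51.Contour: the alternating sum as a contour integral (task RL51-Contour)

Apply `Pool.Agent.LExp.contour` to the rectangle `[-A, B] × [-φ, φ]`, `φ = π/r`, with `U = kap p`,
`U' = ss p`, `H = Fj p r j`, `a = -A`, `b = B`, `a' = -6φ`, `b' = 6φ`, `h = φ`, `h' = 2φ` (on the bigger
rectangle `|Re w|, |Im w| ≤ 6 φ ≤ 1/5` and `‖w‖ ≤ √40 φ < 1/5`, `Re ss ≥ 0.8 V > 0` by `re_ss_ge`;
`kap` is real on the real axis).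
It gives points `ζ k ∈ (-A, B)` with `kap (ζ k) = k` and
`∑_{k ∈ Icc N1 N2} (-1)^k Fj (ζ k) = 1/(2πi) rectInt (Fj * ss * (π/sin (π kap))) (-A) B φ`.
By `Hf_eq`, `Fj (ζ k) = PP p k ^ r (k - c)^j`.  The integrand is `Gj`.
* the side `Im w = φ`: `1/sin z = -2 i e^{iz}/(1 - e^{2iz})`, so
  `Gj (u + iφ) = -2πi * (integrand of Zj)` and `-∫ Gj (u + iφ) du = 2πi Zj`.
* the side `Im w = -φ`: `Gj (conj w) = conj (Gj w)` (`Gj_conj`),
  so `∫ Gj (u - iφ) du = conj (-2πi Zj) = 2πi conj Zj`.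
Divide by `2πi`.
-/

open Finset Polynomial

namespace Pool.Agent.RL51

variable {ι : Type} [Fintype ι]

/-- `Hf_conj`, `kap_conj`, `ss_conj`, `cc` real -/
lemma Gj_conj {p : ι → ℝ} {r : ℝ} (hB : Big p r) (j : ℕ) {w : ℂ} (hw : w ∈ Box r) :
    Gj p r j ((starRingEnd ℂ) w) = (starRingEnd ℂ) (Gj p r j w) := by
  have hφ := phi_le hB.hr
  have h1 : |w.re| ≤ 1 / 5 := hw.1.trans (by linarith)
  have h2 : |w.im| ≤ 1 / 5 := hw.2.trans (by linarith)
  unfold Gj Fj
  rw [Hf_conj hB.adm hB.V156 r h1 h2, kap_conj, ss_conj]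
  have hs : Complex.sin ((Real.pi : ℂ) * (starRingEnd ℂ) (kap p w)) =
      (starRingEnd ℂ) (Complex.sin ((Real.pi : ℂ) * kap p w)) := by
    rw [← Complex.sin_conj, map_mul, Complex.conj_ofReal]
  rw [hs]
  simp only [map_mul, map_div₀, map_pow, map_sub, Complex.conj_ofReal]

/-- the reciprocal of the sine in terms of exponentials -/
lemma inv_sin_eq (z : ℂ) : (Complex.sin z)⁻¹ =
    -2 * Complex.I * (Complex.exp (Complex.I * z) / (1 - Complex.exp (2 * (Complex.I * z)))) := by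
  have hE : Complex.exp (Complex.I * z) ≠ 0 := Complex.exp_ne_zero _
  have hD : 1 - Complex.exp (2 * (Complex.I * z)) =
      (-2 * Complex.I * Complex.exp (Complex.I * z)) * Complex.sin z := by
    have e1 : Complex.exp (2 * (Complex.I * z)) =
        Complex.exp (Complex.I * z) * Complex.exp (Complex.I * z) := by
      rw [← Complex.exp_add]
      ring_nf
    have e2 : Complex.exp (-z * Complex.I) * Complex.exp (Complex.I * z) = 1 := by
      rw [← Complex.exp_add]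
      have : -z * Complex.I + Complex.I * z = 0 := by ring
      rw [this, Complex.exp_zero]
    have e3 : Complex.exp (z * Complex.I) = Complex.exp (Complex.I * z) := by
      rw [mul_comm]
    rw [Complex.sin, e1, e3]
    have hI : Complex.I * Complex.I = -1 := Complex.I_mul_I
    calc 1 - Complex.exp (Complex.I * z) * Complex.exp (Complex.I * z)
        = Complex.exp (-z * Complex.I) * Complex.exp (Complex.I * z) -
            Complex.exp (Complex.I * z) * Complex.exp (Complex.I * z) := by rw [e2]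
      _ = -(Complex.I * Complex.I) * (Complex.exp (-z * Complex.I) * Complex.exp (Complex.I * z) -
            Complex.exp (Complex.I * z) * Complex.exp (Complex.I * z)) := by rw [hI]; ring
      _ = _ := by ring
  have h2 : (-2 * Complex.I * Complex.exp (Complex.I * z)) ≠ 0 :=
    mul_ne_zero (mul_ne_zero (by norm_num) Complex.I_ne_zero) hE
  rw [hD]
  by_cases hs : Complex.sin z = 0
  · rw [hs]; simp
  · field_simp

/-- the integrand on the upper side -/
lemma Gj_line (p : ι → ℝ) (r : ℝ) (j : ℕ) (w : ℂ) :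
    Gj p r j w = (-2 * (Real.pi : ℂ) * Complex.I) * (Fj p r j w * ss p w *
      Complex.exp ((Real.pi : ℂ) * Complex.I * kap p w) /
        (1 - Complex.exp (2 * (Real.pi : ℂ) * Complex.I * kap p w))) := by
  have h := inv_sin_eq ((Real.pi : ℂ) * kap p w)
  have e1 : Complex.I * ((Real.pi : ℂ) * kap p w) = (Real.pi : ℂ) * Complex.I * kap p w := by ring
  have e2 : 2 * ((Real.pi : ℂ) * Complex.I * kap p w) =
      2 * (Real.pi : ℂ) * Complex.I * kap p w := by ring
  rw [e1, e2] at h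
  rw [Gj, div_eq_mul_inv, h]
  ring

theorem contour {p : ι → ℝ} {r A B : ℝ} {N1 N2 : ℕ} (hB : Big p r) (hW : Win p r A B N1 N2)
    (j : ℕ) :
    ((∑ k ∈ Icc N1 N2, (-1 : ℝ) ^ k * (PP p k ^ r * ((k : ℝ) - cc p r) ^ j) : ℝ) : ℂ) =
      Zj p r A B j + (starRingEnd ℂ) (Zj p r A B j) +
        (1 / (2 * (Real.pi : ℂ))) *
          (∫ y in (-(Real.pi / r))..(Real.pi / r), Gj p r j ((B : ℂ) + y * Complex.I)) -
        (1 / (2 * (Real.pi : ℂ))) *
          (∫ y in (-(Real.pi / r))..(Real.pi / r), Gj p r j (((-A : ℝ) : ℂ) + y * Complex.I)) := by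
  have hφ0 := phi_pos hB.hr
  have hφ := phi_le hB.hr
  have hV := hB.V156
  have hp := hB.adm
  set φ : ℝ := Real.pi / r with hφd
  have hA1 : 4 * φ ≤ A := hW.hA1
  have hA2 : A ≤ 5 * φ := hW.hA2
  have hB1 : 4 * φ ≤ B := hW.hB1
  have hB2 : B ≤ 5 * φ := hW.hB2
  have hbig : ∀ z : ℂ, -(6 * φ) < z.re → z.re < 6 * φ → |z.im| < 2 * φ →
      ‖z‖ < 1 / 5 ∧ |z.re| ≤ 1 / 5 ∧ |z.im| ≤ 1 / 5 := by
    intro z h1 h2 h3
    have h4 : |z.re| < 6 * φ := abs_lt.2 ⟨h1, h2⟩
    have h5 := Complex.norm_le_abs_re_add_abs_im z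
    refine ⟨?_, ?_, ?_⟩ <;> linarith
  obtain ⟨ζ, hζ, hsum⟩ := Pool.Agent.LExp.contour (U := kap p) (U' := ss p) (H := Fj p r j)
    (a := -A) (b := B) (a' := -(6 * φ)) (b' := 6 * φ) (h := φ) (h' := 2 * φ)
    (by linarith) (by linarith) (by linarith) hφ0 (by linarith)
    (fun z h1 h2 h3 => hasDerivAt_kap hp (im_lt_pi_of (hbig z h1 h2 h3).2.2))
    (fun z h1 h2 h3 => by
      have h4 := hbig z h1 h2 h3
      have h5 : DifferentiableAt ℂ (Hf p r) z := differentiableAt_Hf hp hV r h4.1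
      have h6 : DifferentiableAt ℂ (kap p) z :=
        (hasDerivAt_kap hp (im_lt_pi_of h4.2.2)).differentiableAt
      exact h5.mul ((h6.sub_const _).pow j))
    (fun z h1 h2 h3 => by
      have h4 := hbig z h1 h2 h3
      have h5 := re_ss_ge hp h4.2.1 h4.2.2
      linarith)
    (fun x _ _ => kap_im_ofReal p x)
    (A := N1) (B := N2) hW.hN1 hW.hN2
  have hL : ((∑ k ∈ Icc N1 N2, (-1 : ℝ) ^ k * (PP p k ^ r * ((k : ℝ) - cc p r) ^ j) : ℝ) : ℂ) =
      ∑ k ∈ Icc N1 N2, (-1) ^ k * Fj p r j (ζ k) := by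
    rw [Complex.ofReal_sum]
    refine Finset.sum_congr rfl fun k hk => ?_
    obtain ⟨z1, z2, z3⟩ := hζ k hk
    have h5 : |ζ k| ≤ 1 / 5 := abs_le.2 ⟨by linarith, by linarith⟩
    rw [Fj, Hf_eq hp hV r h5 z3, z3]
    push_cast
    ring
  rw [hL, hsum]
  have hG : (fun z => Fj p r j z * ss p z * ((Real.pi : ℂ) / Complex.sin ((Real.pi : ℂ) * kap p z)))
      = Gj p r j := by
    funext z
    rw [Gj]
    ring
  rw [hG, Pool.Agent.LExp.rectInt]
  -- upper side
  have hup : (∫ x in (-A)..B, Gj p r j ((x : ℂ) + ((φ : ℝ) : ℂ) * Complex.I)) =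
      (-2 * (Real.pi : ℂ) * Complex.I) * Zj p r A B j := by
    rw [Zj, ← intervalIntegral.integral_const_mul]
    congr 1
    funext x
    rw [Gj_line, wi]
  have hlow : (∫ x in (-A)..B, Gj p r j ((x : ℂ) + ((-φ : ℝ) : ℂ) * Complex.I)) =
      (starRingEnd ℂ) (∫ x in (-A)..B, Gj p r j ((x : ℂ) + ((φ : ℝ) : ℂ) * Complex.I)) := by
    have hle : -A ≤ B := by linarith
    have h1 : (∫ x in (-A)..B, Gj p r j ((x : ℂ) + ((-φ : ℝ) : ℂ) * Complex.I)) =
        ∫ x in (-A)..B, (starRingEnd ℂ) (Gj p r j ((x : ℂ) + ((φ : ℝ) : ℂ) * Complex.I)) := by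
      refine intervalIntegral.integral_congr fun x hx => ?_
      rw [Set.uIcc_of_le hle] at hx
      have hx' : (x : ℂ) + ((φ : ℝ) : ℂ) * Complex.I ∈ Box r := by
        refine ⟨?_, ?_⟩
        · have : ((x : ℂ) + ((φ : ℝ) : ℂ) * Complex.I).re = x := by simp
          rw [this]
          exact abs_le.2 ⟨by linarith [hx.1], by linarith [hx.2]⟩
        · have : ((x : ℂ) + ((φ : ℝ) : ℂ) * Complex.I).im = φ := by simp
          rw [this, abs_of_pos hφ0]
      rw [← Gj_conj hB j hx']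
      congr 1
      simp
    rw [h1, intervalIntegral.integral_of_le hle, intervalIntegral.integral_of_le hle,
      integral_conj]
  rw [hlow, hup]
  have hπ : (Real.pi : ℂ) ≠ 0 := Complex.ofReal_ne_zero.2 Real.pi_ne_zero
  have hI : Complex.I ≠ 0 := Complex.I_ne_zero
  have hc : (starRingEnd ℂ) (-2 * (Real.pi : ℂ) * Complex.I * Zj p r A B j) =
      2 * (Real.pi : ℂ) * Complex.I * (starRingEnd ℂ) (Zj p r A B j) := by
    simp only [map_mul, map_neg, Complex.conj_ofReal, Complex.conj_I, conj_two']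
    ring
  rw [hc]
  field_simp
  ring

end Pool.Agent.RL51
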