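import Mathlib

/-!
# RL51.Cov1: moments for strongly log-concave weights (task RL51-Cov1)

Let `ρ u = exp (Re G u)` on `[-A, B]`, where `Re G` is strongly concave: `Re G1` (`G1 = G'`) decreases
with slope at least `(3/4) a`.  Put `v = 4/(3a)`.
* `mode`: `Re G1 (4 b0/(3a)) ≤ b0 - b0 = 0 ≤ Re G1 (-4 b0/(3a))` and IVT for the continuous `Re G1`.
* `mom2`, `mom4`: with `s = u - m`, `s * (-Re G1 u) ≥ (3/4) a s^2` (`Re G1 m = 0`).  Integrate
  `d/du (s^(2k+1) ρ) = (2k+1) s^(2k) ρ + s^(2k+1) Re G1 ρ` over `[-A, B]`: the boundary terms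
  `(B - m)^(2k+1) ρ B - (-A - m)^(2k+1) ρ (-A)` are `≥ 0`, so
  `(3/4) a ∫ s^(2k+2) ρ ≤ (2k+1) ∫ s^(2k) ρ` for `k = 0, 1`.
* `mom1`: `|u| ≤ |m| + |s|` and `∫ |s| ρ ≤ √(∫ s^2 ρ) √(∫ ρ)`
  (or `|s| ≤ (√v + s^2/√v)/2`).
* `cov_low`: `h u = Re G u + Re G (-u)` has derivative `Re G1 u - Re G1 (-u) ≥ -(5/2) a u` for `u ≥ 0`, so
  `h u ≥ 2 Re G 0 - (5/4) a u^2`, `ρ u + ρ (-u) ≥ 2 exp (h u/2) ≥ 2 exp (Re G 0 - 5/8)` for
  `0 ≤ u ≤ 1/√a`; integrate over `[0, 1/√a]`: `∫ ρ ≥ (2/√a) e^{-5/8} exp (Re G 0)`,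
  `2 e^{-5/8} ≥ 1.07`.
-/

open MeasureTheory

namespace Pool.Agent.RL51

/-- hypotheses on the exponent -/
structure CovHyp (a A B b0 : ℝ) (G G1 : ℝ → ℂ) : Prop where
  ha : 0 < a
  hA : 0 < A
  hB : 0 < B
  hder : ∀ u ∈ Set.Icc (-A) B, HasDerivAt G (G1 u) u
  hcont : ContinuousOn G1 (Set.Icc (-A) B)
  hmono : ∀ u ∈ Set.Icc (-A) B, ∀ t ∈ Set.Icc (-A) B, t ≤ u →
    (G1 u).re - (G1 t).re ≤ -(3 / 4 * a * (u - t))
  hb0 : |(G1 0).re| ≤ b0
  hbA : 4 * b0 / (3 * a) < A
  hbB : 4 * b0 / (3 * a) < B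

section aux

variable {a A B b0 : ℝ} {G G1 : ℝ → ℂ}

theorem CovHyp.hasDerivAt_re (h : CovHyp a A B b0 G G1) {u : ℝ} (hu : u ∈ Set.Icc (-A) B) :
    HasDerivAt (fun u => (G u).re) (G1 u).re u := by
  have := (h.hder u hu)
  exact (Complex.reCLM.hasFDerivAt.comp_hasDerivAt u this)

theorem CovHyp.continuousOn_re1 (h : CovHyp a A B b0 G G1) :
    ContinuousOn (fun u => (G1 u).re) (Set.Icc (-A) B) :=
  Complex.continuous_re.comp_continuousOn h.hcont

theorem CovHyp.continuousOn_re (h : CovHyp a A B b0 G G1) :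
    ContinuousOn (fun u => (G u).re) (Set.Icc (-A) B) := fun u hu =>
  (h.hasDerivAt_re hu).continuousAt.continuousWithinAt

theorem CovHyp.continuousOn_rho (h : CovHyp a A B b0 G G1) :
    ContinuousOn (fun u => Real.exp (G u).re) (Set.Icc (-A) B) :=
  Real.continuous_exp.comp_continuousOn h.continuousOn_re

theorem CovHyp.hAB (h : CovHyp a A B b0 G G1) : -A ≤ B := by
  have := h.hA; have := h.hB; linarith

theorem CovHyp.b0_nonneg (h : CovHyp a A B b0 G G1) : 0 ≤ b0 := (abs_nonneg _).trans h.hb0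

theorem CovHyp.intble (h : CovHyp a A B b0 G G1) {f : ℝ → ℝ} (hf : ContinuousOn f (Set.Icc (-A) B)) :
    IntervalIntegrable f volume (-A) B := by
  apply ContinuousOn.intervalIntegrable
  rwa [Set.uIcc_of_le h.hAB]

/-- the moment recursion -/
theorem CovHyp.mom_step (h : CovHyp a A B b0 G G1) {m : ℝ}
    (hm : m ∈ Set.Icc (-A) B) (hm0 : (G1 m).re = 0) (k : ℕ) :
    ∫ u in (-A)..B, (u - m) ^ (2 * k + 2) * Real.exp (G u).re ≤
      (2 * k + 1) * (4 / (3 * a)) * ∫ u in (-A)..B, (u - m) ^ (2 * k) * Real.exp (G u).re := by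
  have ha := h.ha
  have hder : ∀ u ∈ Set.uIcc (-A) B, HasDerivAt (fun u => (u - m) ^ (2 * k + 1) * Real.exp (G u).re)
      ((2 * k + 1) * (u - m) ^ (2 * k) * Real.exp (G u).re +
        (u - m) ^ (2 * k + 1) * (Real.exp (G u).re * (G1 u).re)) u := by
    intro u hu
    rw [Set.uIcc_of_le h.hAB] at hu
    have h1 : HasDerivAt (fun u : ℝ => (u - m) ^ (2 * k + 1)) ((2 * k + 1) * (u - m) ^ (2 * k)) u := by
      have := ((hasDerivAt_id u).sub_const m).fun_pow (2 * k + 1)
      simpa using this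
    exact h1.mul (h.hasDerivAt_re hu).exp
  have hc1 : ContinuousOn (fun u => (2 * k + 1) * (u - m) ^ (2 * k) * Real.exp (G u).re)
      (Set.Icc (-A) B) := by
    refine ContinuousOn.mul ?_ h.continuousOn_rho
    fun_prop
  have hc2 : ContinuousOn (fun u => (u - m) ^ (2 * k + 1) * (Real.exp (G u).re * (G1 u).re))
      (Set.Icc (-A) B) := by
    refine ContinuousOn.mul ?_ (h.continuousOn_rho.mul h.continuousOn_re1)
    fun_prop
  have hc3 : ContinuousOn (fun u => (u - m) ^ (2 * k + 2) * Real.exp (G u).re)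
      (Set.Icc (-A) B) := by
    refine ContinuousOn.mul ?_ h.continuousOn_rho
    fun_prop
  have hc4 : ContinuousOn (fun u => (u - m) ^ (2 * k) * Real.exp (G u).re)
      (Set.Icc (-A) B) := by
    refine ContinuousOn.mul ?_ h.continuousOn_rho
    fun_prop
  have hint := intervalIntegral.integral_eq_sub_of_hasDerivAt hder
    ((h.intble hc1).add (h.intble hc2))
  have hb1 : 0 ≤ (B - m) ^ (2 * k + 1) * Real.exp (G B).re :=
    mul_nonneg (pow_nonneg (by linarith [hm.2]) _) (Real.exp_pos _).le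
  have hb2 : (-A - m) ^ (2 * k + 1) * Real.exp (G (-A)).re ≤ 0 := by
    refine mul_nonpos_of_nonpos_of_nonneg ?_ (Real.exp_pos _).le
    exact Odd.pow_nonpos ⟨k, rfl⟩ (by linarith [hm.1])
  have hpt : ∀ u ∈ Set.Icc (-A) B, (u - m) ^ (2 * k + 1) * (Real.exp (G u).re * (G1 u).re) ≤
      -(3 / 4 * a) * ((u - m) ^ (2 * k + 2) * Real.exp (G u).re) := by
    intro u hu
    have hs : (u - m) * (G1 u).re ≤ -(3 / 4 * a) * (u - m) ^ 2 := by
      rcases le_total m u with h1 | h1
      · have := h.hmono u hu m hm h1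
        rw [hm0] at this
        nlinarith [sub_nonneg.2 h1]
      · have := h.hmono m hm u hu h1
        rw [hm0] at this
        nlinarith [sub_nonneg.2 h1]
    have h2 : 0 ≤ (u - m) ^ (2 * k) * Real.exp (G u).re :=
      mul_nonneg (Even.pow_nonneg ⟨k, by ring⟩ _) (Real.exp_pos _).le
    calc (u - m) ^ (2 * k + 1) * (Real.exp (G u).re * (G1 u).re)
        = ((u - m) ^ (2 * k) * Real.exp (G u).re) * ((u - m) * (G1 u).re) := by ring
      _ ≤ ((u - m) ^ (2 * k) * Real.exp (G u).re) * (-(3 / 4 * a) * (u - m) ^ 2) :=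
          mul_le_mul_of_nonneg_left hs h2
      _ = _ := by ring
  have hle : ∫ u in (-A)..B, (u - m) ^ (2 * k + 1) * (Real.exp (G u).re * (G1 u).re) ≤
      ∫ u in (-A)..B, -(3 / 4 * a) * ((u - m) ^ (2 * k + 2) * Real.exp (G u).re) :=
    intervalIntegral.integral_mono_on h.hAB (h.intble hc2) ((h.intble hc3).const_mul _) hpt
  rw [intervalIntegral.integral_const_mul] at hle
  have hsplit : (∫ u in (-A)..B, ((2 * k + 1) * (u - m) ^ (2 * k) * Real.exp (G u).re +
        (u - m) ^ (2 * k + 1) * (Real.exp (G u).re * (G1 u).re))) =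
      (2 * k + 1) * (∫ u in (-A)..B, (u - m) ^ (2 * k) * Real.exp (G u).re) +
      ∫ u in (-A)..B, (u - m) ^ (2 * k + 1) * (Real.exp (G u).re * (G1 u).re) := by
    rw [intervalIntegral.integral_add (h.intble hc1) (h.intble hc2),
      ← intervalIntegral.integral_const_mul]
    congr 1
    refine intervalIntegral.integral_congr fun u _ => ?_
    ring
  rw [hsplit] at hint
  set I2 := ∫ u in (-A)..B, (u - m) ^ (2 * k + 2) * Real.exp (G u).re
  set I0 := ∫ u in (-A)..B, (u - m) ^ (2 * k) * Real.exp (G u).re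
  have hfin : 3 / 4 * a * I2 ≤ (2 * k + 1) * I0 := by linarith
  have h34 : (2 * (k : ℝ) + 1) * (4 / (3 * a)) * I0 = (4 / (3 * a)) * ((2 * k + 1) * I0) := by ring
  rw [h34]
  calc I2 = 4 / (3 * a) * (3 / 4 * a * I2) := by field_simp
    _ ≤ _ := mul_le_mul_of_nonneg_left hfin (by positivity)

end aux

theorem mode {a A B b0 : ℝ} {G G1 : ℝ → ℂ} (h : CovHyp a A B b0 G G1) :
    ∃ m ∈ Set.Icc (-A) B, |m| ≤ 4 * b0 / (3 * a) ∧ (G1 m).re = 0 := by
  have ha := h.ha
  have hb := h.b0_nonneg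
  set c := 4 * b0 / (3 * a) with hc
  have hc0 : 0 ≤ c := by positivity
  have hca : 3 / 4 * a * c = b0 := by rw [hc]; field_simp
  have hcA := h.hbA
  have hcB := h.hbB
  have h0 : (0 : ℝ) ∈ Set.Icc (-A) B := ⟨by linarith [h.hA], h.hB.le⟩
  have hcm : c ∈ Set.Icc (-A) B := ⟨by linarith [h.hA], by linarith⟩
  have hcn : -c ∈ Set.Icc (-A) B := ⟨by linarith, by linarith [h.hB]⟩
  have hab := abs_le.1 h.hb0
  have h1 : (G1 c).re ≤ 0 := by
    have := h.hmono c hcm 0 h0 hc0
    nlinarith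
  have h2 : 0 ≤ (G1 (-c)).re := by
    have := h.hmono 0 h0 (-c) hcn (by linarith)
    nlinarith
  have hsub : Set.Icc (-c) c ⊆ Set.Icc (-A) B := Set.Icc_subset_Icc hcn.1 hcm.2
  have hivt := intermediate_value_Icc' (show -c ≤ c by linarith) (h.continuousOn_re1.mono hsub)
  obtain ⟨m, hm, hm0⟩ := hivt ⟨h1, h2⟩
  exact ⟨m, hsub hm, abs_le.2 hm, hm0⟩

theorem mom2 {a A B b0 : ℝ} {G G1 : ℝ → ℂ} (h : CovHyp a A B b0 G G1) {m : ℝ}
    (hm : m ∈ Set.Icc (-A) B) (hm0 : (G1 m).re = 0) :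
    ∫ u in (-A)..B, (u - m) ^ 2 * Real.exp (G u).re ≤
      4 / (3 * a) * ∫ u in (-A)..B, Real.exp (G u).re := by
  have := h.mom_step hm hm0 0
  simpa using this

theorem mom4 {a A B b0 : ℝ} {G G1 : ℝ → ℂ} (h : CovHyp a A B b0 G G1) {m : ℝ}
    (hm : m ∈ Set.Icc (-A) B) (hm0 : (G1 m).re = 0) :
    ∫ u in (-A)..B, (u - m) ^ 4 * Real.exp (G u).re ≤
      3 * (4 / (3 * a)) ^ 2 * ∫ u in (-A)..B, Real.exp (G u).re := by
  have ha := h.ha
  have h1 := h.mom_step hm hm0 1
  have h2 := mom2 h hm hm0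
  norm_num at h1
  calc _ ≤ _ := h1
    _ ≤ 3 * (4 / (3 * a)) * (4 / (3 * a) * ∫ u in (-A)..B, Real.exp (G u).re) := by
        exact mul_le_mul_of_nonneg_left h2 (by positivity)
    _ = _ := by ring

theorem mom1 {a A B b0 : ℝ} {G G1 : ℝ → ℂ} (h : CovHyp a A B b0 G G1) :
    ∫ u in (-A)..B, |u| * Real.exp (G u).re ≤
      (4 * b0 / (3 * a) + Real.sqrt (4 / (3 * a))) * ∫ u in (-A)..B, Real.exp (G u).re := by
  have ha := h.ha
  obtain ⟨m, hm, hmb, hm0⟩ := mode h
  have h2 := mom2 h hm hm0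
  set v := 4 / (3 * a) with hv
  have hvpos : 0 < v := by positivity
  have hsv : 0 < Real.sqrt v := Real.sqrt_pos.2 hvpos
  have hsq : Real.sqrt v * Real.sqrt v = v := Real.mul_self_sqrt hvpos.le
  set w := Real.sqrt v with hw
  have hI0 : 0 ≤ ∫ u in (-A)..B, Real.exp (G u).re :=
    intervalIntegral.integral_nonneg h.hAB fun u _ => (Real.exp_pos _).le
  have hc0 : ContinuousOn (fun u => |u| * Real.exp (G u).re) (Set.Icc (-A) B) :=
    (continuous_abs.continuousOn).mul h.continuousOn_rho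
  have hc1 : ContinuousOn (fun u => (4 * b0 / (3 * a) + w / 2) * Real.exp (G u).re)
      (Set.Icc (-A) B) := continuousOn_const.mul h.continuousOn_rho
  have hc2 : ContinuousOn (fun u => (1 / (2 * w)) * ((u - m) ^ 2 * Real.exp (G u).re))
      (Set.Icc (-A) B) := by
    refine continuousOn_const.mul (ContinuousOn.mul ?_ h.continuousOn_rho)
    fun_prop
  have hle : ∫ u in (-A)..B, |u| * Real.exp (G u).re ≤
      ∫ u in (-A)..B, ((4 * b0 / (3 * a) + w / 2) * Real.exp (G u).re +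
        (1 / (2 * w)) * ((u - m) ^ 2 * Real.exp (G u).re)) := by
    refine intervalIntegral.integral_mono_on h.hAB (h.intble hc0)
      ((h.intble hc1).add (h.intble hc2)) fun u _ => ?_
    have e1 : |u| ≤ |m| + |u - m| := by
      have := abs_add_le m (u - m)
      simpa using this
    have e2 : |u - m| ≤ w / 2 + 1 / (2 * w) * (u - m) ^ 2 := by
      have h3 : 0 ≤ (|u - m| - w) ^ 2 := sq_nonneg _
      have h4 : |u - m| ^ 2 = (u - m) ^ 2 := sq_abs _
      have h5 : 2 * w * |u - m| ≤ w * w + (u - m) ^ 2 := by nlinarith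
      have h6 : w / 2 + 1 / (2 * w) * (u - m) ^ 2 = (w * w + (u - m) ^ 2) / (2 * w) := by
        field_simp
      rw [h6, le_div_iff₀ (by positivity)]
      linarith
    have hex := Real.exp_pos (G u).re
    have : |u| ≤ 4 * b0 / (3 * a) + w / 2 + 1 / (2 * w) * (u - m) ^ 2 := by linarith
    calc |u| * Real.exp (G u).re
        ≤ (4 * b0 / (3 * a) + w / 2 + 1 / (2 * w) * (u - m) ^ 2) * Real.exp (G u).re :=
          mul_le_mul_of_nonneg_right this hex.le
      _ = _ := by ring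
  rw [intervalIntegral.integral_add (h.intble hc1) (h.intble hc2),
    intervalIntegral.integral_const_mul, intervalIntegral.integral_const_mul] at hle
  have h7 : 1 / (2 * w) * ∫ u in (-A)..B, (u - m) ^ 2 * Real.exp (G u).re ≤
      w / 2 * ∫ u in (-A)..B, Real.exp (G u).re := by
    calc _ ≤ 1 / (2 * w) * (v * ∫ u in (-A)..B, Real.exp (G u).re) :=
          mul_le_mul_of_nonneg_left h2 (by positivity)
      _ = w / 2 * ∫ u in (-A)..B, Real.exp (G u).re := by
          rw [← hsq]; field_simp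
  calc _ ≤ _ := hle
    _ ≤ (4 * b0 / (3 * a) + w / 2) * (∫ u in (-A)..B, Real.exp (G u).re) +
        w / 2 * ∫ u in (-A)..B, Real.exp (G u).re := by linarith
    _ = _ := by ring

theorem exp_58 : Real.exp (5 / 8) ≤ 1.8691 := by
  have h1 : Real.exp (5 / 8) ^ 8 = Real.exp 1 ^ 5 := by
    rw [← Real.exp_nat_mul, ← Real.exp_nat_mul]; norm_num
  have h2 : Real.exp 1 ^ 5 < 2.7182818286 ^ 5 :=
    pow_lt_pow_left₀ Real.exp_one_lt_d9 (Real.exp_pos _).le (by norm_num)
  by_contra hcon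
  push Not at hcon
  have h3 : (1.8691 : ℝ) ^ 8 < Real.exp (5 / 8) ^ 8 :=
    pow_lt_pow_left₀ hcon (by norm_num) (by norm_num)
  rw [h1] at h3
  have h4 := h3.trans h2
  norm_num at h4

theorem cov_low {a A B b0 : ℝ} {G G1 : ℝ → ℂ} (h : CovHyp a A B b0 G G1)
    (hlow : ∀ u ∈ Set.Icc (-A) B, ∀ t ∈ Set.Icc (-A) B, t ≤ u →
      -(5 / 4 * a * (u - t)) ≤ (G1 u).re - (G1 t).re)
    (hA1 : 1 ≤ a * A ^ 2) (hB1 : 1 ≤ a * B ^ 2) :
    107 / 100 * Real.exp (G 0).re / Real.sqrt a ≤ ∫ u in (-A)..B, Real.exp (G u).re := by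
  have ha := h.ha
  have hsa : 0 < Real.sqrt a := Real.sqrt_pos.2 ha
  have hsq : Real.sqrt a * Real.sqrt a = a := Real.mul_self_sqrt ha.le
  set w := 1 / Real.sqrt a with hw
  have hw0 : 0 < w := by positivity
  have haw : a * w ^ 2 = 1 := by
    rw [hw, div_pow, one_pow, sq, hsq]; field_simp
  have hwA : w ≤ A := by
    by_contra hcon
    push Not at hcon
    have : a * A ^ 2 < a * w ^ 2 := by
      apply mul_lt_mul_of_pos_left _ ha
      exact pow_lt_pow_left₀ hcon h.hA.le (by norm_num)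
    linarith
  have hwB : w ≤ B := by
    by_contra hcon
    push Not at hcon
    have : a * B ^ 2 < a * w ^ 2 := by
      apply mul_lt_mul_of_pos_left _ ha
      exact pow_lt_pow_left₀ hcon h.hB.le (by norm_num)
    linarith
  -- lower bound of the even part
  have hmem : ∀ u ∈ Set.Icc 0 w, u ∈ Set.Icc (-A) B := fun u hu =>
    ⟨by linarith [hu.1, h.hA], by linarith [hu.2]⟩
  have hmem' : ∀ u ∈ Set.Icc 0 w, -u ∈ Set.Icc (-A) B := fun u hu =>
    ⟨by linarith [hu.2], by linarith [hu.1, h.hB]⟩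
  have hkder : ∀ u ∈ Set.Icc 0 w, HasDerivAt
      (fun u => (G u).re + (G (-u)).re + 5 / 4 * a * u ^ 2)
      ((G1 u).re - (G1 (-u)).re + 5 / 2 * a * u) u := by
    intro u hu
    have h1 := h.hasDerivAt_re (hmem u hu)
    have h2 : HasDerivAt (fun u => (G (-u)).re) ((G1 (-u)).re * (-1)) u :=
      HasDerivAt.comp (h := fun u : ℝ => -u) (h₂ := fun x => (G x).re) u
        (h.hasDerivAt_re (hmem' u hu)) (hasDerivAt_neg u)
    have h3 : HasDerivAt (fun u : ℝ => 5 / 4 * a * u ^ 2) (5 / 4 * a * (2 * u)) u := by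
      have := (hasDerivAt_pow 2 u).const_mul (5 / 4 * a)
      simpa using this
    have h4 := (h1.add h2).add h3
    refine h4.congr_deriv ?_
    ring
  have hmono : MonotoneOn (fun u => (G u).re + (G (-u)).re + 5 / 4 * a * u ^ 2) (Set.Icc 0 w) := by
    refine monotoneOn_of_deriv_nonneg (convex_Icc _ _)
      (fun u hu => (hkder u hu).continuousAt.continuousWithinAt)
      (fun u hu => ?_) (fun u hu => ?_)
    · rw [interior_Icc] at hu
      exact (hkder u ⟨hu.1.le, hu.2.le⟩).differentiableAt.differentiableWithinAt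
    · rw [interior_Icc] at hu
      have hu' : u ∈ Set.Icc 0 w := ⟨hu.1.le, hu.2.le⟩
      rw [(hkder u hu').deriv]
      have := hlow u (hmem u hu') (-u) (hmem' u hu') (by linarith [hu.1])
      nlinarith
  have hlowpt : ∀ u ∈ Set.Icc 0 w,
      2 * Real.exp ((G 0).re - 5 / 8) ≤ Real.exp (G u).re + Real.exp (G (-u)).re := by
    intro u hu
    have h1 := hmono (Set.left_mem_Icc.2 hw0.le) hu hu.1
    simp only [neg_zero] at h1
    have h2 : a * u ^ 2 ≤ 1 := by
      rw [← haw]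
      exact mul_le_mul_of_nonneg_left (pow_le_pow_left₀ hu.1 hu.2 2) ha.le
    have h3 : 2 * ((G 0).re - 5 / 8) ≤ (G u).re + (G (-u)).re := by nlinarith
    have h4 : (G 0).re - 5 / 8 ≤ ((G u).re + (G (-u)).re) / 2 := by linarith
    have h5 := Real.exp_le_exp.2 h4
    have h6 : 2 * Real.exp (((G u).re + (G (-u)).re) / 2) ≤
        Real.exp (G u).re + Real.exp (G (-u)).re := by
      have e1 : Real.exp (((G u).re + (G (-u)).re) / 2) =
          Real.exp ((G u).re / 2) * Real.exp ((G (-u)).re / 2) := by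
        rw [← Real.exp_add]; congr 1; ring
      have e2 : Real.exp (G u).re = Real.exp ((G u).re / 2) ^ 2 := by
        rw [← Real.exp_nat_mul]; congr 1; push_cast; ring
      have e3 : Real.exp (G (-u)).re = Real.exp ((G (-u)).re / 2) ^ 2 := by
        rw [← Real.exp_nat_mul]; congr 1; push_cast; ring
      rw [e1, e2, e3]
      nlinarith [sq_nonneg (Real.exp ((G u).re / 2) - Real.exp ((G (-u)).re / 2))]
    linarith
  have hcont0 : ContinuousOn (fun u => Real.exp (G u).re) (Set.uIcc 0 w) := by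
    rw [Set.uIcc_of_le hw0.le]
    exact h.continuousOn_rho.mono fun u hu => hmem u hu
  have hcontn : ContinuousOn (fun u => Real.exp (G (-u)).re) (Set.uIcc 0 w) := by
    rw [Set.uIcc_of_le hw0.le]
    exact h.continuousOn_rho.comp (continuous_neg.continuousOn) fun u hu => hmem' u hu
  have hI1 : w * (2 * Real.exp ((G 0).re - 5 / 8)) ≤
      ∫ u in (0 : ℝ)..w, (Real.exp (G u).re + Real.exp (G (-u)).re) := by
    have h1 : ∫ _u in (0 : ℝ)..w, (2 * Real.exp ((G 0).re - 5 / 8)) =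
        w * (2 * Real.exp ((G 0).re - 5 / 8)) := by
      rw [intervalIntegral.integral_const]; simp
    rw [← h1]
    exact intervalIntegral.integral_mono_on hw0.le intervalIntegrable_const
      (hcont0.intervalIntegrable.add hcontn.intervalIntegrable) hlowpt
  have hI2 : ∫ u in (0 : ℝ)..w, (Real.exp (G u).re + Real.exp (G (-u)).re) =
      ∫ u in (-w)..w, Real.exp (G u).re := by
    rw [intervalIntegral.integral_add hcont0.intervalIntegrable hcontn.intervalIntegrable]
    have h2 : ∫ u in (0 : ℝ)..w, Real.exp (G (-u)).re = ∫ u in (-w)..0, Real.exp (G u).re := by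
      have := intervalIntegral.integral_comp_neg (a := (0 : ℝ)) (b := w)
        (fun u => Real.exp (G u).re)
      simpa using this
    have hcm : ContinuousOn (fun u => Real.exp (G u).re) (Set.uIcc (-w) 0) := by
      rw [Set.uIcc_of_le (by linarith)]
      exact h.continuousOn_rho.mono fun u hu =>
        ⟨by linarith [hu.1], by linarith [hu.2, h.hB]⟩
    rw [h2, add_comm]
    exact intervalIntegral.integral_add_adjacent_intervals hcm.intervalIntegrable
      hcont0.intervalIntegrable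
  have hI3 : ∫ u in (-w)..w, Real.exp (G u).re ≤ ∫ u in (-A)..B, Real.exp (G u).re := by
    refine intervalIntegral.integral_mono_interval (by linarith) (by linarith) hwB ?_
      (h.intble h.continuousOn_rho)
    exact Filter.Eventually.of_forall fun u => (Real.exp_pos _).le
  have hexp : 107 / 100 ≤ 2 * Real.exp (-(5 / 8)) := by
    rw [Real.exp_neg]
    have h1 := exp_58
    have h2 : 0 < Real.exp (5 / 8) := Real.exp_pos _
    have h3 : 2 * (Real.exp (5 / 8))⁻¹ = 2 / Real.exp (5 / 8) := by ring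
    rw [h3, le_div_iff₀ h2]
    nlinarith
  calc 107 / 100 * Real.exp (G 0).re / Real.sqrt a
      = w * (107 / 100 * Real.exp (G 0).re) := by rw [hw]; ring
    _ ≤ w * (2 * Real.exp (-(5 / 8)) * Real.exp (G 0).re) := by
        refine mul_le_mul_of_nonneg_left ?_ hw0.le
        exact mul_le_mul_of_nonneg_right hexp (Real.exp_pos _).le
    _ = w * (2 * Real.exp ((G 0).re - 5 / 8)) := by
        rw [sub_eq_add_neg, Real.exp_add]; ring
    _ ≤ _ := (hI1.trans_eq hI2).trans hI3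

end Pool.Agent.RL51
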