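import Pool.Agent.RL51.Cov1

/-!
# RL51.Cov2: the covariance inequality (task RL51-Cov2)

Write `ρ = exp (Re G)`, `Θ = Im G`, `κ = X + iY`, `Z0 = ∫ e^G`, `Z1 = ∫ e^G κ`, `v = 4/(3a)`,
`L = L0 + L1 * 4 b0/(3a)`, `Δ = Θ u - Θ t`.  Then
`Im (Z1 conj Z0) = ∬ ρ(u) ρ(t) (cos Δ Y(u) + sin Δ X(u))
   = (1/2) ∬ ρ ρ (cos Δ (Y(u) + Y(t)) + sin Δ (X(u) - X(t)))` (symmetrise)
`≥ ∬ ρ ρ (y0 - (y1/2) Δ^2 - (c1/2) |Δ| |u - t|)` (`cos Δ ≥ 1 - Δ^2/2`, `0 ≤ y0 ≤ Y ≤ y1`).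
Let `m` be the mode (`mode`), `s = u - m`, `s' = t - m`.  `|Δ| ≤ ∫_t^u |Im G1| ≤
(L0 + L1 (|u| + |t|)/2) |u - t| ≤ (L + L1 (|s| + |s'|)/2) |s - s'|`.
With the normalised weight (`E` = expectation for `ρ ⊗ ρ/(∫ρ)^2`) and `mom2`, `mom4`:
* `E (s - s')^2 ≤ 2 E s^2 ≤ 2 v` (as `E s s' = (E s)^2 ≥ 0`);
* `((|s| + |s'|)/2)^2 (s - s')^2 ≤ (s^2 + s'^2)^2`, with expectation `≤ 6 v^2 + 2 v^2 = 8 v^2`;
* so `E Δ^2 ≤ 2 L^2 * 2 v + 2 L1^2 * 8 v^2`;
* `((|s| + |s'|)/2) (s - s')^2 ≤ (√48 √v x^2 + y^2/(√48 √v))/2` with `x = (|s| + |s'|)/2`,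
  `y = (s - s')^2`; `E x^2 ≤ v`, `E y^2 ≤ E 8 (s^4 + s'^4) ≤ 48 v^2`; so the expectation is
  at most `√48 v √v ≤ 7 v √v`, and `E |Δ| |u - t| ≤ 2 L v + 7 L1 v √v`.
-/

open MeasureTheory

namespace Pool.Agent.RL51

/-- a nonnegative finite sum of products integrates to a nonnegative sum of products of integrals -/
theorem bilin_nonneg {n : ℕ} {x y : ℝ} (hxy : x ≤ y) (f g : Fin n → ℝ → ℝ)
    (hf : ∀ i, ContinuousOn (f i) (Set.Icc x y)) (hg : ∀ i, ContinuousOn (g i) (Set.Icc x y))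
    (h : ∀ u ∈ Set.Icc x y, ∀ t ∈ Set.Icc x y, 0 ≤ ∑ i, f i u * g i t) :
    0 ≤ ∑ i, (∫ u in x..y, f i u) * (∫ t in x..y, g i t) := by
  have hfi : ∀ i, IntervalIntegrable (f i) volume x y := fun i =>
    ContinuousOn.intervalIntegrable (by rw [Set.uIcc_of_le hxy]; exact hf i)
  have hgi : ∀ i, IntervalIntegrable (g i) volume x y := fun i =>
    ContinuousOn.intervalIntegrable (by rw [Set.uIcc_of_le hxy]; exact hg i)
  have h1 : ∀ u ∈ Set.Icc x y, 0 ≤ ∑ i, f i u * (∫ t in x..y, g i t) := by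
    intro u hu
    have e : ∑ i, f i u * (∫ t in x..y, g i t) = ∫ t in x..y, ∑ i, f i u * g i t := by
      rw [intervalIntegral.integral_finsetSum]
      · exact Finset.sum_congr rfl fun i _ => (intervalIntegral.integral_const_mul _ _).symm
      · exact fun i _ => (hgi i).const_mul _
    rw [e]
    exact intervalIntegral.integral_nonneg hxy fun t ht => h u hu t ht
  have e : ∑ i, (∫ u in x..y, f i u) * (∫ t in x..y, g i t) =
      ∫ u in x..y, ∑ i, f i u * (∫ t in x..y, g i t) := by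
    rw [intervalIntegral.integral_finsetSum]
    · exact Finset.sum_congr rfl fun i _ => (intervalIntegral.integral_mul_const _ _).symm
    · exact fun i _ => (hfi i).mul_const _
  rw [e]
  exact intervalIntegral.integral_nonneg hxy h1

theorem integral_re' {x y : ℝ} (hxy : x ≤ y) {f : ℝ → ℂ} (hf : ContinuousOn f (Set.Icc x y)) :
    (∫ u in x..y, f u).re = ∫ u in x..y, (f u).re := by
  have hfi : IntervalIntegrable f volume x y :=
    ContinuousOn.intervalIntegrable (by rw [Set.uIcc_of_le hxy]; exact hf)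
  exact (Complex.reCLM.intervalIntegral_comp_comm hfi).symm

theorem integral_im' {x y : ℝ} (hxy : x ≤ y) {f : ℝ → ℂ} (hf : ContinuousOn f (Set.Icc x y)) :
    (∫ u in x..y, f u).im = ∫ u in x..y, (f u).im := by
  have hfi : IntervalIntegrable f volume x y :=
    ContinuousOn.intervalIntegrable (by rw [Set.uIcc_of_le hxy]; exact hf)
  exact (Complex.imCLM.intervalIntegral_comp_comm hfi).symm

/-- the phase difference -/
theorem phase_le {x y L0 L1 : ℝ} {G G1 : ℝ → ℂ}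
    (hder : ∀ u ∈ Set.Icc x y, HasDerivAt G (G1 u) u) (hL1 : 0 ≤ L1)
    (hIm : ∀ u ∈ Set.Icc x y, |(G1 u).im| ≤ L0 + L1 * |u|) :
    ∀ u ∈ Set.Icc x y, ∀ t ∈ Set.Icc x y,
      |(G u).im - (G t).im| ≤ (L0 + L1 * ((|u| + |t|) / 2)) * |u - t| := by
  intro u hu t ht
  have hmem : ∀ θ ∈ Set.Icc (0 : ℝ) 1, t + θ * (u - t) ∈ Set.Icc x y := by
    intro θ hθ
    constructor
    · nlinarith [hθ.1, hθ.2, hu.1, ht.1, mul_nonneg hθ.1 (sub_nonneg.2 hu.1),
        mul_nonneg (sub_nonneg.2 hθ.2) (sub_nonneg.2 ht.1)]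
    · nlinarith [hθ.1, hθ.2, hu.2, ht.2, mul_nonneg hθ.1 (sub_nonneg.2 hu.2),
        mul_nonneg (sub_nonneg.2 hθ.2) (sub_nonneg.2 ht.2)]
  have hd : ∀ θ ∈ Set.Icc (0 : ℝ) 1,
      HasDerivAt (fun θ : ℝ => (G (t + θ * (u - t))).im - (G t).im)
        ((G1 (t + θ * (u - t))).im * (u - t)) θ := by
    intro θ hθ
    have h1 : HasDerivAt (fun θ : ℝ => t + θ * (u - t)) (u - t) θ := by
      simpa using ((hasDerivAt_id θ).mul_const (u - t)).const_add t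
    have h2 := (hder _ (hmem θ hθ)).scomp θ h1
    have h3 : HasDerivAt (fun θ : ℝ => Complex.imCLM ((G ∘ fun θ : ℝ => t + θ * (u - t)) θ))
        (Complex.imCLM ((u - t) • G1 (t + θ * (u - t)))) θ :=
      Complex.imCLM.hasFDerivAt.comp_hasDerivAt θ h2
    have h4 := h3.sub_const (G t).im
    simpa [mul_comm] using h4
  have key := image_norm_le_of_norm_deriv_right_le_deriv_boundary
    (f := fun θ : ℝ => (G (t + θ * (u - t))).im - (G t).im)
    (f' := fun θ : ℝ => (G1 (t + θ * (u - t))).im * (u - t)) (a := 0) (b := 1)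
    (fun θ hθ => (hd θ hθ).continuousAt.continuousWithinAt)
    (fun θ hθ => (hd θ ⟨hθ.1, hθ.2.le⟩).hasDerivWithinAt)
    (B := fun θ => (L0 * θ + L1 * (θ * |t| + θ ^ 2 * ((|u| - |t|) / 2))) * |u - t|)
    (B' := fun θ => (L0 + L1 * (|t| + 2 * θ * ((|u| - |t|) / 2))) * |u - t|)
    (by simp)
    (by
      intro θ
      have a1 : HasDerivAt (fun θ : ℝ => L0 * θ) L0 θ := by
        simpa using (hasDerivAt_id θ).const_mul L0
      have a2 : HasDerivAt (fun θ : ℝ => θ * |t|) |t| θ := by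
        simpa using (hasDerivAt_id θ).mul_const |t|
      have a3 : HasDerivAt (fun θ : ℝ => θ ^ 2 * ((|u| - |t|) / 2))
          (2 * θ * ((|u| - |t|) / 2)) θ := by
        simpa using (hasDerivAt_pow 2 θ).mul_const ((|u| - |t|) / 2)
      exact (a1.add ((a2.add a3).const_mul L1)).mul_const _)
    (by
      intro θ hθ
      have hθ' : θ ∈ Set.Icc (0 : ℝ) 1 := ⟨hθ.1, hθ.2.le⟩
      simp only [Real.norm_eq_abs, abs_mul]
      refine mul_le_mul_of_nonneg_right ?_ (abs_nonneg _)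
      refine (hIm _ (hmem θ hθ')).trans ?_
      have : |t + θ * (u - t)| ≤ |t| + 2 * θ * ((|u| - |t|) / 2) := by
        have e : t + θ * (u - t) = (1 - θ) * t + θ * u := by ring
        rw [e]
        refine (abs_add_le _ _).trans ?_
        rw [abs_mul, abs_mul, abs_of_nonneg (sub_nonneg.2 hθ'.2), abs_of_nonneg hθ'.1]
        linarith
      nlinarith)
    (x := 1) ⟨zero_le_one, le_rfl⟩
  simp only [Real.norm_eq_abs, one_mul, one_pow, mul_one] at key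
  have e : t + (u - t) = u := by ring
  rw [e] at key
  refine key.trans (le_of_eq ?_)
  ring

/-- the pointwise inequality -/
theorem cov_ptw {w r L L1 c1 y0 y1 s s' Δ Y Y' X X' : ℝ} (hw : 0 < w) (hr : w * r = 1)
    (_hL : 0 ≤ L) (hL1 : 0 ≤ L1) (hc1 : 0 ≤ c1) (hy0 : 0 ≤ y0)
    (hΔ : |Δ| ≤ (L + L1 * ((|s| + |s'|) / 2)) * |s - s'|) (hX : |X - X'| ≤ c1 * |s - s'|)
    (hY : y0 ≤ Y) (hY' : y0 ≤ Y') (hY1 : Y ≤ y1) (hY1' : Y' ≤ y1) :
    0 ≤ 1 / 2 * (Real.cos Δ * (Y + Y') + Real.sin Δ * (X - X')) -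
      (y0 - y1 * L ^ 2 * (s - s') ^ 2 - y1 * L1 ^ 2 * (s ^ 2 + s' ^ 2) ^ 2 -
        c1 / 2 * (L * (s - s') ^ 2 + L1 * (7 * w / 4 * (s ^ 2 + s' ^ 2) +
          4 / 7 * r * (s ^ 4 + s' ^ 4)))) := by
  have hr0 : 0 < r := by
    by_contra hcon
    push Not at hcon
    nlinarith
  obtain ⟨d, hd⟩ : ∃ d, d = |s - s'| := ⟨_, rfl⟩
  obtain ⟨x, hx⟩ : ∃ x, x = (|s| + |s'|) / 2 := ⟨_, rfl⟩
  have hd0 : 0 ≤ d := hd ▸ abs_nonneg _
  have hx0 : 0 ≤ x := by rw [hx]; positivity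
  have hd2 : d ^ 2 = (s - s') ^ 2 := by rw [hd]; exact sq_abs _
  have hx2 : x ^ 2 ≤ (s ^ 2 + s' ^ 2) / 2 := by
    rw [hx]
    nlinarith [sq_nonneg (|s| - |s'|), sq_abs s, sq_abs s']
  rw [← hd, ← hx] at hΔ
  rw [← hd] at hX
  have hcos : 1 - Δ ^ 2 / 2 ≤ Real.cos Δ := Real.one_sub_sq_div_two_le_cos
  have hsin : |Real.sin Δ| ≤ |Δ| := Real.abs_sin_le_abs
  have hΔ2 : Δ ^ 2 ≤ 2 * L ^ 2 * (s - s') ^ 2 + 2 * L1 ^ 2 * (s ^ 2 + s' ^ 2) ^ 2 := by
    have h1 : Δ ^ 2 ≤ ((L + L1 * x) * d) ^ 2 := by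
      rw [← sq_abs]
      exact pow_le_pow_left₀ (abs_nonneg _) hΔ 2
    have h2 : x ^ 2 * d ^ 2 ≤ (s ^ 2 + s' ^ 2) ^ 2 := by
      rw [hd2]
      have h3 : (s - s') ^ 2 ≤ 2 * (s ^ 2 + s' ^ 2) := by nlinarith [sq_nonneg (s + s')]
      calc x ^ 2 * (s - s') ^ 2 ≤ (s ^ 2 + s' ^ 2) / 2 * (2 * (s ^ 2 + s' ^ 2)) :=
            mul_le_mul hx2 h3 (sq_nonneg _) (by positivity)
        _ = (s ^ 2 + s' ^ 2) ^ 2 := by ring
    have h4 : ((L + L1 * x) * d) ^ 2 ≤ 2 * L ^ 2 * d ^ 2 + 2 * L1 ^ 2 * (x ^ 2 * d ^ 2) := by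
      have : 0 ≤ ((L - L1 * x) * d) ^ 2 := sq_nonneg _
      linarith
    have h5 : L1 ^ 2 * (x ^ 2 * d ^ 2) ≤ L1 ^ 2 * (s ^ 2 + s' ^ 2) ^ 2 :=
      mul_le_mul_of_nonneg_left h2 (sq_nonneg _)
    rw [← hd2]
    linarith
  have hprod : |Δ| * d ≤ L * (s - s') ^ 2 + L1 * (7 * w / 4 * (s ^ 2 + s' ^ 2) +
      4 / 7 * r * (s ^ 4 + s' ^ 4)) := by
    have h1 : |Δ| * d ≤ (L + L1 * x) * d * d := mul_le_mul_of_nonneg_right hΔ hd0
    have h2 : x * d ^ 2 ≤ 7 * w / 4 * (s ^ 2 + s' ^ 2) + 4 / 7 * r * (s ^ 4 + s' ^ 4) := by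
      have h3 : x * d ^ 2 ≤ (7 * w * x ^ 2 + r / 7 * (d ^ 2) ^ 2) / 2 := by
        have h4 : 0 ≤ w * (7 * x - r * d ^ 2) ^ 2 := by positivity
        have h5 : w * (7 * x - r * d ^ 2) ^ 2 =
            49 * w * x ^ 2 - 14 * (w * r) * (x * d ^ 2) + (w * r) * r * (d ^ 2) ^ 2 := by ring
        rw [hr] at h5
        linarith
      have h6 : (d ^ 2) ^ 2 ≤ 8 * (s ^ 4 + s' ^ 4) := by
        rw [hd2]
        nlinarith [sq_nonneg (s + s'), sq_nonneg (s ^ 2 - s' ^ 2), sq_nonneg (s - s'),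
          sq_nonneg (s ^ 2 - s' ^ 2 ), mul_nonneg (sq_nonneg (s + s')) (sq_nonneg (s - s')),
          mul_nonneg (sq_nonneg (s + s')) (sq_nonneg (s + s'))]
      have h7 : 7 * w * x ^ 2 ≤ 7 * w * ((s ^ 2 + s' ^ 2) / 2) :=
        mul_le_mul_of_nonneg_left hx2 (by positivity)
      have h8 : r / 7 * (d ^ 2) ^ 2 ≤ r / 7 * (8 * (s ^ 4 + s' ^ 4)) :=
        mul_le_mul_of_nonneg_left h6 (by positivity)
      linarith
    have h9 : L1 * (x * d ^ 2) ≤ L1 * (7 * w / 4 * (s ^ 2 + s' ^ 2) +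
        4 / 7 * r * (s ^ 4 + s' ^ 4)) := mul_le_mul_of_nonneg_left h2 hL1
    rw [← hd2]
    have h10 : (L + L1 * x) * d * d = L * d ^ 2 + L1 * (x * d ^ 2) := by ring
    linarith
  have hS : -(|Δ| * (c1 * d)) ≤ Real.sin Δ * (X - X') := by
    have h1 : |Real.sin Δ * (X - X')| ≤ |Δ| * (c1 * d) := by
      rw [abs_mul]
      exact mul_le_mul hsin hX (abs_nonneg _) (abs_nonneg _)
    linarith [neg_abs_le (Real.sin Δ * (X - X'))]
  have hC : 2 * y0 - y1 * Δ ^ 2 ≤ Real.cos Δ * (Y + Y') := by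
    have h1 : (1 - Δ ^ 2 / 2) * (Y + Y') ≤ Real.cos Δ * (Y + Y') :=
      mul_le_mul_of_nonneg_right hcos (by linarith)
    have h2 : Δ ^ 2 / 2 * (Y + Y') ≤ Δ ^ 2 / 2 * (2 * y1) :=
      mul_le_mul_of_nonneg_left (by linarith) (by positivity)
    linarith
  have hy1 : 0 ≤ y1 := by linarith
  have h1 : y1 * Δ ^ 2 ≤ y1 * (2 * L ^ 2 * (s - s') ^ 2 + 2 * L1 ^ 2 * (s ^ 2 + s' ^ 2) ^ 2) :=
    mul_le_mul_of_nonneg_left hΔ2 hy1
  have h2 : c1 * (|Δ| * d) ≤ c1 * (L * (s - s') ^ 2 + L1 * (7 * w / 4 * (s ^ 2 + s' ^ 2) +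
      4 / 7 * r * (s ^ 4 + s' ^ 4))) := mul_le_mul_of_nonneg_left hprod hc1
  linarith

theorem cov_main {a A B b0 L0 L1 c1 y0 y1 : ℝ} {G G1 κ : ℝ → ℂ} (h : CovHyp a A B b0 G G1)
    (hκ : ContinuousOn κ (Set.Icc (-A) B)) (hL0 : 0 ≤ L0) (hL1 : 0 ≤ L1) (hc1 : 0 ≤ c1)
    (hy0 : 0 ≤ y0)
    (hIm : ∀ u ∈ Set.Icc (-A) B, |(G1 u).im| ≤ L0 + L1 * |u|)
    (hX : ∀ u ∈ Set.Icc (-A) B, ∀ t ∈ Set.Icc (-A) B, |(κ u).re - (κ t).re| ≤ c1 * |u - t|)
    (hY0 : ∀ u ∈ Set.Icc (-A) B, y0 ≤ (κ u).im) (hY1 : ∀ u ∈ Set.Icc (-A) B, (κ u).im ≤ y1) :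
    (∫ u in (-A)..B, Real.exp (G u).re) ^ 2 *
        (y0 - y1 / 2 * (4 * (L0 + L1 * (4 * b0 / (3 * a))) ^ 2 * (4 / (3 * a)) +
            16 * L1 ^ 2 * (4 / (3 * a)) ^ 2) -
          c1 / 2 * (2 * (L0 + L1 * (4 * b0 / (3 * a))) * (4 / (3 * a)) +
            7 * L1 * (4 / (3 * a)) * Real.sqrt (4 / (3 * a)))) ≤
      ((∫ u in (-A)..B, Complex.exp (G u) * κ u) *
        (starRingEnd ℂ) (∫ u in (-A)..B, Complex.exp (G u))).im := by
  obtain ⟨m, hmI, hmb, hm0⟩ := mode h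
  have hM2 := mom2 h hmI hm0
  have hM4 := mom4 h hmI hm0
  have hAB : -A ≤ B := by linarith [h.hA, h.hB]
  have hv : 0 < 4 / (3 * a) := by have := h.ha; positivity
  obtain ⟨v, hvdef⟩ : ∃ v, v = 4 / (3 * a) := ⟨_, rfl⟩
  obtain ⟨M, hMdef⟩ : ∃ M, M = 4 * b0 / (3 * a) := ⟨_, rfl⟩
  rw [← hvdef] at hM2 hM4 hv ⊢
  rw [← hMdef] at hmb ⊢
  obtain ⟨w, hwdef⟩ : ∃ w, w = Real.sqrt v := ⟨_, rfl⟩
  have hw : 0 < w := by rw [hwdef]; exact Real.sqrt_pos.2 hv
  have hw2 : w ^ 2 = v := by rw [hwdef]; exact Real.sq_sqrt hv.le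
  rw [← hwdef]
  obtain ⟨L, hLdef⟩ : ∃ L, L = L0 + L1 * M := ⟨_, rfl⟩
  rw [← hLdef]
  have hM : 0 ≤ M := (abs_nonneg _).trans hmb
  have hL : 0 ≤ L := by rw [hLdef]; positivity
  have hy1 : 0 ≤ y1 := by
    have h0 : (0 : ℝ) ∈ Set.Icc (-A) B := ⟨by linarith [h.hA], h.hB.le⟩
    linarith [hY0 0 h0, hY1 0 h0]
  have hG : ContinuousOn G (Set.Icc (-A) B) := fun u hu =>
    (h.hder u hu).continuousAt.continuousWithinAt
  have hre : ContinuousOn (fun u => (G u).re) (Set.Icc (-A) B) :=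
    Complex.continuous_re.comp_continuousOn hG
  have him : ContinuousOn (fun u => (G u).im) (Set.Icc (-A) B) :=
    Complex.continuous_im.comp_continuousOn hG
  have hρ : ContinuousOn (fun u => Real.exp (G u).re) (Set.Icc (-A) B) :=
    Real.continuous_exp.comp_continuousOn hre
  have hc : ContinuousOn (fun u => Real.cos (G u).im) (Set.Icc (-A) B) :=
    Real.continuous_cos.comp_continuousOn him
  have hs : ContinuousOn (fun u => Real.sin (G u).im) (Set.Icc (-A) B) :=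
    Real.continuous_sin.comp_continuousOn him
  have hXc : ContinuousOn (fun u => (κ u).re) (Set.Icc (-A) B) :=
    Complex.continuous_re.comp_continuousOn hκ
  have hYc : ContinuousOn (fun u => (κ u).im) (Set.Icc (-A) B) :=
    Complex.continuous_im.comp_continuousOn hκ
  have hsm : ∀ k : ℕ, ContinuousOn (fun u : ℝ => (u - m) ^ k) (Set.Icc (-A) B) := fun k =>
    (by fun_prop : Continuous fun u : ℝ => (u - m) ^ k).continuousOn
  have hexp : ContinuousOn (fun u => Complex.exp (G u)) (Set.Icc (-A) B) :=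
    Complex.continuous_exp.comp_continuousOn hG
  have hrc : ContinuousOn (fun u => Real.exp (G u).re * Real.cos (G u).im)
    (Set.Icc (-A) B) := hρ.mul hc
  have hrs : ContinuousOn (fun u => Real.exp (G u).re * Real.sin (G u).im)
    (Set.Icc (-A) B) := hρ.mul hs
  have hrcY : ContinuousOn (fun u => Real.exp (G u).re * Real.cos (G u).im * (κ u).im)
    (Set.Icc (-A) B) := hrc.mul hYc
  have hrsY : ContinuousOn (fun u => Real.exp (G u).re * Real.sin (G u).im * (κ u).im)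
    (Set.Icc (-A) B) := hrs.mul hYc
  have hrcX : ContinuousOn (fun u => Real.exp (G u).re * Real.cos (G u).im * (κ u).re)
    (Set.Icc (-A) B) := hrc.mul hXc
  have hrsX : ContinuousOn (fun u => Real.exp (G u).re * Real.sin (G u).im * (κ u).re)
    (Set.Icc (-A) B) := hrs.mul hXc
  have hexpκ : ContinuousOn (fun u => Complex.exp (G u) * κ u) (Set.Icc (-A) B) := hexp.mul hκ
  have hi : ∀ {f : ℝ → ℝ}, ContinuousOn f (Set.Icc (-A) B) →
      IntervalIntegrable f volume (-A) B := fun hf =>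
    ContinuousOn.intervalIntegrable (by rw [Set.uIcc_of_le hAB]; exact hf)
  -- names for the integrals
  obtain ⟨C, hCd⟩ : ∃ C, C = ∫ u in (-A)..B, Real.exp (G u).re * Real.cos (G u).im := ⟨_, rfl⟩
  obtain ⟨S, hSd⟩ : ∃ S, S = ∫ u in (-A)..B, Real.exp (G u).re * Real.sin (G u).im := ⟨_, rfl⟩
  obtain ⟨CY, hCYd⟩ : ∃ CY : ℝ, CY = ∫ u in (-A)..B, Real.exp (G u).re * Real.cos (G u).im *
    (κ u).im := ⟨_, rfl⟩
  obtain ⟨SY, hSYd⟩ : ∃ SY, SY = ∫ u in (-A)..B, Real.exp (G u).re * Real.sin (G u).im *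
    (κ u).im := ⟨_, rfl⟩
  obtain ⟨CX, hCXd⟩ : ∃ CX, CX = ∫ u in (-A)..B, Real.exp (G u).re * Real.cos (G u).im *
    (κ u).re := ⟨_, rfl⟩
  obtain ⟨SX, hSXd⟩ : ∃ SX, SX = ∫ u in (-A)..B, Real.exp (G u).re * Real.sin (G u).im *
    (κ u).re := ⟨_, rfl⟩
  have hZ0r : (∫ u in (-A)..B, Complex.exp (G u)).re = C := by
    rw [integral_re' hAB hexp, hCd]
    exact intervalIntegral.integral_congr fun u _ => Complex.exp_re _
  have hZ0i : (∫ u in (-A)..B, Complex.exp (G u)).im = S := by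
    rw [integral_im' hAB hexp, hSd]
    exact intervalIntegral.integral_congr fun u _ => Complex.exp_im _
  have hZ1r : (∫ u in (-A)..B, Complex.exp (G u) * κ u).re = CX - SY := by
    rw [integral_re' hAB hexpκ, hCXd, hSYd, ← intervalIntegral.integral_sub
      (hi hrcX) (hi hrsY)]
    refine intervalIntegral.integral_congr fun u _ => ?_
    simp only [Complex.mul_re, Complex.exp_re, Complex.exp_im]
  have hZ1i : (∫ u in (-A)..B, Complex.exp (G u) * κ u).im = CY + SX := by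
    rw [integral_im' hAB hexpκ, hCYd, hSXd, ← intervalIntegral.integral_add
      (hi hrcY) (hi hrsX)]
    refine intervalIntegral.integral_congr fun u _ => ?_
    simp only [Complex.mul_im, Complex.exp_re, Complex.exp_im]
  have hLHS : ((∫ u in (-A)..B, Complex.exp (G u) * κ u) *
        (starRingEnd ℂ) (∫ u in (-A)..B, Complex.exp (G u))).im =
      C * (CY + SX) - S * (CX - SY) := by
    rw [Complex.mul_im, Complex.conj_re, Complex.conj_im, hZ0r, hZ0i, hZ1r, hZ1i]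
    ring
  rw [hLHS]
  obtain ⟨R0, hR0d⟩ : ∃ R0, R0 = ∫ u in (-A)..B, Real.exp (G u).re := ⟨_, rfl⟩
  obtain ⟨R1, hR1d⟩ : ∃ R1, R1 = ∫ u in (-A)..B, (u - m) ^ 1 * Real.exp (G u).re := ⟨_, rfl⟩
  obtain ⟨R2, hR2d⟩ : ∃ R2, R2 = ∫ u in (-A)..B, (u - m) ^ 2 * Real.exp (G u).re := ⟨_, rfl⟩
  obtain ⟨R4, hR4d⟩ : ∃ R4, R4 = ∫ u in (-A)..B, (u - m) ^ 4 * Real.exp (G u).re := ⟨_, rfl⟩
  rw [← hR0d, ← hR2d] at hM2
  rw [← hR0d, ← hR4d] at hM4
  rw [← hR0d]
  have hR0 : 0 ≤ R0 := by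
    rw [hR0d]
    exact intervalIntegral.integral_nonneg hAB fun u _ => (Real.exp_pos _).le
  have hR2 : 0 ≤ R2 := by
    rw [hR2d]
    exact intervalIntegral.integral_nonneg hAB fun u _ =>
      mul_nonneg (sq_nonneg _) (Real.exp_pos _).le
  obtain ⟨r, hrd⟩ : ∃ r, r = w⁻¹ := ⟨_, rfl⟩
  have hwr : w * r = 1 := by rw [hrd]; exact mul_inv_cancel₀ hw.ne'
  have hr0 : 0 < r := by rw [hrd]; positivity
  -- coefficients
  obtain ⟨K2, hK2⟩ : ∃ K2, K2 = y1 * L ^ 2 + c1 / 2 * L + c1 / 2 * L1 * (7 * w / 4) := ⟨_, rfl⟩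
  obtain ⟨K1, hK1⟩ : ∃ K1, K1 = y1 * L ^ 2 + c1 / 2 * L := ⟨_, rfl⟩
  obtain ⟨K4, hK4⟩ : ∃ K4, K4 = y1 * L1 ^ 2 + c1 / 2 * L1 * (4 / 7 * r) := ⟨_, rfl⟩
  obtain ⟨K3, hK3⟩ : ∃ K3, K3 = y1 * L1 ^ 2 := ⟨_, rfl⟩
  have hs1 : ContinuousOn (fun u => (u - m) ^ 1 * Real.exp (G u).re) (Set.Icc (-A) B) :=
    (hsm 1).mul hρ
  have hs2 : ContinuousOn (fun u => (u - m) ^ 2 * Real.exp (G u).re) (Set.Icc (-A) B) :=
    (hsm 2).mul hρ
  have hs4 : ContinuousOn (fun u => (u - m) ^ 4 * Real.exp (G u).re) (Set.Icc (-A) B) :=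
    (hsm 4).mul hρ
  have hmain := bilin_nonneg (n := 15) hAB
    ![fun u => 1 / 2 * (Real.exp (G u).re * Real.cos (G u).im * (κ u).im),
      fun u => 1 / 2 * (Real.exp (G u).re * Real.cos (G u).im),
      fun u => 1 / 2 * (Real.exp (G u).re * Real.sin (G u).im * (κ u).im),
      fun u => 1 / 2 * (Real.exp (G u).re * Real.sin (G u).im),
      fun u => 1 / 2 * (Real.exp (G u).re * Real.sin (G u).im * (κ u).re),
      fun u => -(1 / 2) * (Real.exp (G u).re * Real.sin (G u).im),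
      fun u => -(1 / 2) * (Real.exp (G u).re * Real.cos (G u).im * (κ u).re),
      fun u => 1 / 2 * (Real.exp (G u).re * Real.cos (G u).im),
      fun u => -y0 * Real.exp (G u).re,
      fun u => K2 * ((u - m) ^ 2 * Real.exp (G u).re),
      fun u => -(2 * K1) * ((u - m) ^ 1 * Real.exp (G u).re),
      fun u => K2 * Real.exp (G u).re,
      fun u => K4 * ((u - m) ^ 4 * Real.exp (G u).re),
      fun u => 2 * K3 * ((u - m) ^ 2 * Real.exp (G u).re),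
      fun u => K4 * Real.exp (G u).re]
    ![fun u => Real.exp (G u).re * Real.cos (G u).im,
      fun u => Real.exp (G u).re * Real.cos (G u).im * (κ u).im,
      fun u => Real.exp (G u).re * Real.sin (G u).im,
      fun u => Real.exp (G u).re * Real.sin (G u).im * (κ u).im,
      fun u => Real.exp (G u).re * Real.cos (G u).im,
      fun u => Real.exp (G u).re * Real.cos (G u).im * (κ u).re,
      fun u => Real.exp (G u).re * Real.sin (G u).im,
      fun u => Real.exp (G u).re * Real.sin (G u).im * (κ u).re,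
      fun u => Real.exp (G u).re,
      fun u => Real.exp (G u).re,
      fun u => (u - m) ^ 1 * Real.exp (G u).re,
      fun u => (u - m) ^ 2 * Real.exp (G u).re,
      fun u => Real.exp (G u).re,
      fun u => (u - m) ^ 2 * Real.exp (G u).re,
      fun u => (u - m) ^ 4 * Real.exp (G u).re]
    (by
      simp only [Fin.forall_fin_succ, Matrix.cons_val_zero, Matrix.cons_val_succ,
        Fin.forall_fin_zero, and_true]
      exact ⟨hrcY.const_mul _, hrc.const_mul _, hrsY.const_mul _, hrs.const_mul _,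
        hrsX.const_mul _, hrs.const_mul _, hrcX.const_mul _, hrc.const_mul _, hρ.const_mul _,
        hs2.const_mul _, hs1.const_mul _, hρ.const_mul _, hs4.const_mul _, hs2.const_mul _,
        hρ.const_mul _⟩)
    (by
      simp only [Fin.forall_fin_succ, Matrix.cons_val_zero, Matrix.cons_val_succ,
        Fin.forall_fin_zero, and_true]
      exact ⟨hrc, hrcY, hrs, hrsY, hrc, hrcX, hrs, hrsX, hρ, hρ, hs1, hs2, hρ, hs2, hs4⟩)
    (by
      intro u hu t ht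
      simp only [Fin.sum_univ_succ, Matrix.cons_val_zero, Matrix.cons_val_succ,
        Fin.sum_univ_zero]
      have hΔ : |(G u).im - (G t).im| ≤
          (L + L1 * ((|u - m| + |t - m|) / 2)) * |(u - m) - (t - m)| := by
        have e : (u - m) - (t - m) = u - t := by ring
        rw [e]
        refine (phase_le h.hder hL1 hIm u hu t ht).trans ?_
        refine mul_le_mul_of_nonneg_right ?_ (abs_nonneg _)
        have h1 : |u| ≤ M + |u - m| := by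
          have : |m + (u - m)| ≤ |m| + |u - m| := abs_add_le _ _
          have e : m + (u - m) = u := by ring
          rw [e] at this
          linarith
        have h2 : |t| ≤ M + |t - m| := by
          have : |m + (t - m)| ≤ |m| + |t - m| := abs_add_le _ _
          have e : m + (t - m) = t := by ring
          rw [e] at this
          linarith
        have h3 : (|u| + |t|) / 2 ≤ M + (|u - m| + |t - m|) / 2 := by linarith
        have h4 := mul_le_mul_of_nonneg_left h3 hL1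
        rw [hLdef]
        linarith
      have hXX : |(κ u).re - (κ t).re| ≤ c1 * |(u - m) - (t - m)| := by
        have e : (u - m) - (t - m) = u - t := by ring
        rw [e]
        exact hX u hu t ht
      have key := cov_ptw hw hwr hL hL1 hc1 hy0 hΔ hXX (hY0 u hu) (hY0 t ht) (hY1 u hu) (hY1 t ht)
      rw [Real.cos_sub, Real.sin_sub] at key
      have key2 := mul_nonneg (mul_nonneg (Real.exp_pos (G u).re).le (Real.exp_pos (G t).re).le) key
      refine key2.trans (le_of_eq ?_)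
      rw [hK1, hK2, hK3, hK4]
      ring)
  simp only [Fin.sum_univ_succ, Matrix.cons_val_zero, Matrix.cons_val_succ,
    Fin.sum_univ_zero, intervalIntegral.integral_const_mul] at hmain
  rw [← hCd, ← hSd, ← hCYd, ← hSYd, ← hCXd, ← hSXd, ← hR0d, ← hR1d, ← hR2d, ← hR4d] at hmain
  have hK1n : 0 ≤ K1 := by rw [hK1]; positivity
  have hK2n : 0 ≤ K2 := by rw [hK2]; positivity
  have hK3n : 0 ≤ K3 := by rw [hK3]; positivity
  have hK4n : 0 ≤ K4 := by rw [hK4]; positivity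
  have b1 : K2 * (R0 * R2) ≤ K2 * (R0 * (v * R0)) :=
    mul_le_mul_of_nonneg_left (mul_le_mul_of_nonneg_left hM2 hR0) hK2n
  have b2 : K4 * (R0 * R4) ≤ K4 * (R0 * (3 * v ^ 2 * R0)) :=
    mul_le_mul_of_nonneg_left (mul_le_mul_of_nonneg_left hM4 hR0) hK4n
  have b3 : K3 * R2 ^ 2 ≤ K3 * (v * R0) ^ 2 :=
    mul_le_mul_of_nonneg_left (pow_le_pow_left₀ hR2 hM2 2) hK3n
  have b4 : 0 ≤ K1 * R1 ^ 2 := mul_nonneg hK1n (sq_nonneg _)
  have b5 : y0 * R0 ^ 2 - 2 * (K2 * (R0 * (v * R0))) - 2 * (K4 * (R0 * (3 * v ^ 2 * R0))) -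
      2 * (K3 * (v * R0) ^ 2) ≤ C * (CY + SX) - S * (CX - SY) := by
    linarith
  refine le_trans ?_ b5
  have hrv : r * v ^ 2 = w * v := by
    rw [← hw2]
    have : r * (w ^ 2) ^ 2 = (w * r) * (w * w ^ 2) := by ring
    rw [this, hwr, one_mul]
  have e1 : K2 * (R0 * (v * R0)) = R0 ^ 2 * (y1 * L ^ 2 * v + c1 / 2 * L * v +
      7 / 8 * c1 * L1 * (w * v)) := by
    rw [hK2]; ring
  have e2 : K4 * (R0 * (3 * v ^ 2 * R0)) = R0 ^ 2 * (3 * y1 * L1 ^ 2 * v ^ 2 +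
      6 / 7 * c1 * L1 * (w * v)) := by
    rw [hK4, ← hrv]; ring
  have e3 : K3 * (v * R0) ^ 2 = R0 ^ 2 * (y1 * L1 ^ 2 * v ^ 2) := by
    rw [hK3]; ring
  rw [e1, e2, e3]
  have e4 : 0 ≤ R0 ^ 2 * (c1 * L1 * (w * v)) := by positivity
  linarith

end Pool.Agent.RL51
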