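import Mathlib
import Pool.Agent.H62LR.Basic

/-!
# RL51: large real powers preserve real-rootedness (problem MP_3f3e0f_an)

Goal of the whole directory (`Final.lean`): if `∑ a_k x^k` is real-rooted with positive
coefficients then so is `∑ a_k^r x^k` for EVERY real exponent `r ≥ 300`.

Overview.  By a homotopy in the exponent (`Pool.Agent.H62LR.homotopy`) it suffices to show that the
two alternating sums `∑ (-1)^k a_k^r`, `∑ (-1)^k k a_k^r` do not vanish simultaneously (`Nd.lean`).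
If the two ratios around the maximal coefficient differ by a factor at least `5^(1/r)` this is an
elementary estimate (`RegA.lean`).  Otherwise the sequence is the law of a sum of independent
Bernoulli variables with variance `≥ 0.52 r` (`VarLB.lean`), and a saddle point analysis with
explicit constants (`RegB.lean`) gives the claim.

This file contains the definitions only.
-/

open Finset Polynomial

namespace Pool.Agent.RL51

/-! ### One Bernoulli factor `1 - q + q e^w` -/

/-- the factor `1 - q + q e^w` -/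
noncomputable def bb (q : ℝ) (w : ℂ) : ℂ := 1 - (q : ℂ) + (q : ℂ) * Complex.exp w

/-- first logarithmic derivative of `bb` -/
noncomputable def k1 (q : ℝ) (w : ℂ) : ℂ := (q : ℂ) * Complex.exp w / bb q w

/-- derivative of `k1` -/
noncomputable def s1 (q : ℝ) (w : ℂ) : ℂ :=
  (q : ℂ) * (1 - (q : ℂ)) * Complex.exp w / bb q w ^ 2

/-- derivative of `s1` -/
noncomputable def d1 (q : ℝ) (w : ℂ) : ℂ := s1 q w * (1 - 2 * k1 q w)

/-- the real factor `1 - q + q e^x` -/
noncomputable def bR (q x : ℝ) : ℝ := 1 - q + q * Real.exp x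

/-- the real number `s1 q x` -/
noncomputable def S1 (q x : ℝ) : ℝ := q * (1 - q) * Real.exp x / bR q x ^ 2

/-! ### Sums over all factors -/

variable {ι : Type} [Fintype ι]

/-- all parameters lie in `(0,1)` -/
def Adm (p : ι → ℝ) : Prop := ∀ i, 0 < p i ∧ p i < 1

/-- generating function at `e^w` -/
noncomputable def gen (p : ι → ℝ) (w : ℂ) : ℂ := ∏ i, bb (p i) w

/-- logarithm of the generating function (principal logarithms of the factors) -/
noncomputable def EE (p : ι → ℝ) (w : ℂ) : ℂ := ∑ i, Complex.log (bb (p i) w)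

/-- derivative of `EE` -/
noncomputable def kap (p : ι → ℝ) (w : ℂ) : ℂ := ∑ i, k1 (p i) w

/-- derivative of `kap` -/
noncomputable def ss (p : ι → ℝ) (w : ℂ) : ℂ := ∑ i, s1 (p i) w

/-- derivative of `ss` -/
noncomputable def dd (p : ι → ℝ) (w : ℂ) : ℂ := ∑ i, d1 (p i) w

/-- the variance -/
noncomputable def VV (p : ι → ℝ) : ℝ := ∑ i, p i * (1 - p i)

/-- point probabilities of the sum of independent Bernoulli variables -/
noncomputable def PP (p : ι → ℝ) (k : ℕ) : ℝ :=
  (∏ i, (C (1 - p i) + C (p i) * X) : ℝ[X]).coeff k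

/-- the local factor: `PP p k = exp (EE x - k x) * ell x` if `kap x = k` -/
noncomputable def ell (p : ι → ℝ) (w : ℂ) : ℂ :=
  (1 / (2 * (Real.pi : ℂ))) * ∫ θ in (-Real.pi)..Real.pi,
    gen p (w + θ * Complex.I) / gen p w * Complex.exp (-(kap p w * (θ * Complex.I)))

/-- `√(2 π ss)` -/
noncomputable def rt (p : ι → ℝ) (w : ℂ) : ℂ :=
  Complex.exp (Complex.log (2 * (Real.pi : ℂ) * ss p w) / 2)

/-- logarithm of `ell * √(2 π ss)` -/
noncomputable def Lam1 (p : ι → ℝ) (w : ℂ) : ℂ := Complex.log (ell p w * rt p w)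

/-- logarithm of `ell` -/
noncomputable def Lam (p : ι → ℝ) (w : ℂ) : ℂ :=
  Lam1 p w - Complex.log (2 * (Real.pi : ℂ) * ss p w) / 2

/-! ### Objects depending on the exponent `r` -/

/-- the hypotheses of regime B -/
structure Big (p : ι → ℝ) (r : ℝ) : Prop where
  adm : Adm p
  hr : 300 ≤ r
  hV : 13 / 25 * r ≤ VV p

/-- analytic interpolation of `PP p k ^ r`: `Hf p r x = PP p k ^ r` if `kap p x = k` -/
noncomputable def Hf (p : ι → ℝ) (r : ℝ) (w : ℂ) : ℂ :=
  Complex.exp ((r : ℂ) * (EE p w - kap p w * w) + (r : ℂ) * Lam p w)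

/-- the saddle point `i π / r` -/
noncomputable def wi (r : ℝ) : ℂ := ((Real.pi / r : ℝ) : ℂ) * Complex.I

/-- real part of `kap` at the saddle point -/
noncomputable def cc (p : ι → ℝ) (r : ℝ) : ℝ := (kap p (wi r)).re

/-- imaginary part of `kap` at the saddle point -/
noncomputable def KK (p : ι → ℝ) (r : ℝ) : ℝ := (kap p (wi r)).im

/-- the size of the main term (up to a constant) -/
noncomputable def MM (p : ι → ℝ) (r : ℝ) : ℝ :=
  9 / 10 * Real.sqrt (VV p / r) *
    Real.exp (r * (EE p (wi r)).re + r * (Lam p (wi r)).re)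

/-- the function to be summed, `j = 0, 1` -/
noncomputable def Fj (p : ι → ℝ) (r : ℝ) (j : ℕ) (w : ℂ) : ℂ :=
  Hf p r w * (kap p w - (cc p r : ℂ)) ^ j

/-- the integrand of the contour integral -/
noncomputable def Gj (p : ι → ℝ) (r : ℝ) (j : ℕ) (w : ℂ) : ℂ :=
  Fj p r j w * ((Real.pi : ℂ) * ss p w) / Complex.sin ((Real.pi : ℂ) * kap p w)

/-- the contribution of the upper side of the rectangle -/
noncomputable def Zj (p : ι → ℝ) (r A B : ℝ) (j : ℕ) : ℂ :=
  ∫ u in (-A)..B, Fj p r j ((u : ℂ) + wi r) * ss p ((u : ℂ) + wi r) *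
    Complex.exp ((Real.pi : ℂ) * Complex.I * kap p ((u : ℂ) + wi r)) /
      (1 - Complex.exp (2 * (Real.pi : ℂ) * Complex.I * kap p ((u : ℂ) + wi r)))

/-- logarithm of `ss/(V (1 - exp (2πi kap)))` -/
noncomputable def nu (p : ι → ℝ) (w : ℂ) : ℂ :=
  Complex.log (ss p w / (VV p : ℂ)) -
    Complex.log (1 - Complex.exp (2 * (Real.pi : ℂ) * Complex.I * kap p w))

/-- derivative of `nu` -/
noncomputable def nu1 (p : ι → ℝ) (w : ℂ) : ℂ :=
  dd p w / ss p w + 2 * (Real.pi : ℂ) * Complex.I * ss p w *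
    Complex.exp (2 * (Real.pi : ℂ) * Complex.I * kap p w) /
      (1 - Complex.exp (2 * (Real.pi : ℂ) * Complex.I * kap p w))

/-- the exponent on the line `Im w = π/r`: the integrand of `Zj` is `V exp (GG u) (kap - c)^j` -/
noncomputable def GG (p : ι → ℝ) (r : ℝ) (u : ℝ) : ℂ :=
  (r : ℂ) * (EE p ((u : ℂ) + wi r) - kap p ((u : ℂ) + wi r) * ((u : ℂ) + wi r)) +
    (Real.pi : ℂ) * Complex.I * kap p ((u : ℂ) + wi r) + (r : ℂ) * Lam p ((u : ℂ) + wi r) +
    nu p ((u : ℂ) + wi r)

/-- derivative of `GG` -/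
noncomputable def GG1 (p : ι → ℝ) (r : ℝ) (u : ℝ) : ℂ :=
  -((r : ℂ) * ss p ((u : ℂ) + wi r) * (u : ℂ)) + (r : ℂ) * deriv (Lam p) ((u : ℂ) + wi r) +
    nu1 p ((u : ℂ) + wi r)

/-- total mass of the integrand of `Zj 0` -/
noncomputable def MZ (p : ι → ℝ) (r A B : ℝ) : ℝ :=
  VV p * ∫ u in (-A)..B, Real.exp (GG p r u).re

/-- the closed box containing the rectangle -/
def Box (r : ℝ) : Set ℂ := {w | |w.re| ≤ 5 * (Real.pi / r) ∧ |w.im| ≤ Real.pi / r}

/-- the window: `-A`, `B` are the abscissas of the vertical sides -/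
structure Win (p : ι → ℝ) (r A B : ℝ) (N1 N2 : ℕ) : Prop where
  hA1 : 4 * (Real.pi / r) ≤ A
  hA2 : A ≤ 5 * (Real.pi / r)
  hB1 : 4 * (Real.pi / r) ≤ B
  hB2 : B ≤ 5 * (Real.pi / r)
  hN1 : kap p ((-A : ℝ) : ℂ) = (N1 : ℂ) - 1 / 2
  hN2 : kap p (B : ℂ) = (N2 : ℂ) + 1 / 2

/-! ### Elementary symmetric functions -/

/-- coefficients of `∏_{i ∈ s} (1 + y_i X)` -/
noncomputable def cs (s : Finset ι) (y : ι → ℝ) (k : ℕ) : ℝ :=
  (∏ i ∈ s, (1 + C (y i) * X) : ℝ[X]).coeff k

/-- ratios of consecutive terms -/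
noncomputable def tau (a : ℕ → ℝ) (k : ℕ) : ℝ := a (k + 1) / a k

end Pool.Agent.RL51
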