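import Pool.Agent.RL51.Basic

/-!
# RL51.EllAn: `ell` is holomorphic in the strip (task RL51-EllAn)

The integrand is jointly continuous in `(w, θ)` on `{|Im w| < π} × ℝ` and holomorphic in `w` (with
jointly continuous derivative), so one can differentiate under the integral sign over the compact
interval, e.g. by `intervalIntegral.hasDerivAt_integral_of_dominated_loc_of_deriv_le` with a
constant bound obtained from compactness of `closedBall w ε ×ˢ [-π, π]`.

Alternative: expand `gen p (w + iθ) = ∏ (1 - p_i + p_i e^w e^{iθ}) = ∑_j c_j e^{jw} e^{ijθ}`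
(finite sum, `c_j = PP p j`), so that
`ell w = (∑_j c_j e^{jw} * s (j - kap w))/gen w` with the entire function
`s z = (1/2π) ∫_{-π}^{π} e^{izθ} dθ`.
-/

open Finset Polynomial

namespace Pool.Agent.RL51

variable {ι : Type} [Fintype ι]

private lemma ellAn_differentiable_gen (p : ι → ℝ) : Differentiable ℂ (gen p) := by
  unfold gen bb
  fun_prop

private lemma ellAn_continuous_deriv_gen (p : ι → ℝ) : Continuous (deriv (gen p)) :=
  (ellAn_differentiable_gen p).contDiff.continuous_deriv (n := 1) le_rfl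

/-- the integrand without the factor `1 / gen p w` -/
private noncomputable def ellAnF (p : ι → ℝ) (w : ℂ) (θ : ℝ) : ℂ :=
  gen p (w + θ * Complex.I) * Complex.exp (-(kap p w * (θ * Complex.I)))

/-- its derivative in `w` -/
private noncomputable def ellAnF' (p : ι → ℝ) (w : ℂ) (θ : ℝ) : ℂ :=
  deriv (gen p) (w + θ * Complex.I) * Complex.exp (-(kap p w * (θ * Complex.I))) +
    gen p (w + θ * Complex.I) *
      (Complex.exp (-(kap p w * (θ * Complex.I))) * (-(ss p w * (θ * Complex.I))))

private lemma ellAn_hasDerivAt {p : ι → ℝ} (hp : Adm p) {w : ℂ} (hw : |w.im| < Real.pi) (θ : ℝ) :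
    HasDerivAt (fun z => ellAnF p z θ) (ellAnF' p w θ) w := by
  have h1 : HasDerivAt (fun z : ℂ => gen p (z + θ * Complex.I))
      (deriv (gen p) (w + θ * Complex.I)) w :=
    HasDerivAt.comp_add_const w (θ * Complex.I)
      ((ellAn_differentiable_gen p) (w + θ * Complex.I)).hasDerivAt
  have h2 : HasDerivAt (fun z : ℂ => Complex.exp (-(kap p z * (θ * Complex.I))))
      (Complex.exp (-(kap p w * (θ * Complex.I))) * (-(ss p w * (θ * Complex.I)))) w :=
    ((hasDerivAt_kap hp hw).mul_const (θ * Complex.I)).neg.cexp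
  exact h1.mul h2

private lemma ellAn_cont_kap {p : ι → ℝ} (hp : Adm p) {w : ℂ} (hw : |w.im| < Real.pi) :
    ContinuousAt (kap p) w := (hasDerivAt_kap hp hw).continuousAt

private lemma ellAn_cont_ss {p : ι → ℝ} (hp : Adm p) {w : ℂ} (hw : |w.im| < Real.pi) :
    ContinuousAt (ss p) w := (hasDerivAt_ss hp hw).continuousAt

private lemma ellAn_continuousAt {p : ι → ℝ} (hp : Adm p) {w : ℂ} (hw : |w.im| < Real.pi)
    (θ : ℝ) : ContinuousAt (fun x : ℂ × ℝ => ellAnF' p x.1 x.2) (w, θ) := by
  have hk : ContinuousAt (fun x : ℂ × ℝ => kap p x.1) (w, θ) :=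
    ContinuousAt.comp (f := fun x : ℂ × ℝ => x.1) (x := (w, θ)) (ellAn_cont_kap hp hw)
      continuousAt_fst
  have hs : ContinuousAt (fun x : ℂ × ℝ => ss p x.1) (w, θ) :=
    ContinuousAt.comp (f := fun x : ℂ × ℝ => x.1) (x := (w, θ)) (ellAn_cont_ss hp hw)
      continuousAt_fst
  have hg : ContinuousAt (fun x : ℂ × ℝ => gen p (x.1 + x.2 * Complex.I)) (w, θ) :=
    ((ellAn_differentiable_gen p).continuous.comp (by fun_prop)).continuousAt
  have hg' : ContinuousAt (fun x : ℂ × ℝ => deriv (gen p) (x.1 + x.2 * Complex.I)) (w, θ) :=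
    ((ellAn_continuous_deriv_gen p).comp (by fun_prop)).continuousAt
  have hθ : ContinuousAt (fun x : ℂ × ℝ => (x.2 : ℂ) * Complex.I) (w, θ) := by fun_prop
  have he : ContinuousAt (fun x : ℂ × ℝ => Complex.exp (-(kap p x.1 * (x.2 * Complex.I))))
      (w, θ) := (hk.mul hθ).neg.cexp
  exact (hg'.mul he).add (hg.mul (he.mul (hs.mul hθ).neg))

private lemma ellAn_continuous_F (p : ι → ℝ) (w : ℂ) : Continuous (ellAnF p w) := by
  have := (ellAn_differentiable_gen p).continuous
  unfold ellAnF
  fun_prop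

private lemma ellAn_continuous_F' (p : ι → ℝ) (w : ℂ) : Continuous (ellAnF' p w) := by
  have := (ellAn_differentiable_gen p).continuous
  have := ellAn_continuous_deriv_gen p
  unfold ellAnF'
  fun_prop

private lemma ellAn_integral {p : ι → ℝ} (hp : Adm p) {w : ℂ} (hw : |w.im| < Real.pi) :
    DifferentiableAt ℂ (fun z => ∫ θ in (-Real.pi)..Real.pi, ellAnF p z θ) w := by
  have hopen : IsOpen {z : ℂ | |z.im| < Real.pi} :=
    isOpen_lt (by fun_prop) continuous_const
  obtain ⟨ε, hε, hball⟩ := Metric.nhds_basis_closedBall.mem_iff.mp (hopen.mem_nhds hw)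
  have hcomp : IsCompact (Metric.closedBall w ε ×ˢ Set.Icc (-Real.pi) Real.pi) :=
    (isCompact_closedBall w ε).prod isCompact_Icc
  obtain ⟨C, hC⟩ := hcomp.exists_bound_of_continuousOn
    (f := fun x : ℂ × ℝ => ellAnF' p x.1 x.2)
    (fun x hx => (ellAn_continuousAt hp (hball hx.1) x.2).continuousWithinAt)
  have hpi : -Real.pi ≤ Real.pi := by linarith [Real.pi_pos]
  have key := intervalIntegral.hasDerivAt_integral_of_dominated_loc_of_deriv_le
    (μ := MeasureTheory.volume) (a := -Real.pi) (b := Real.pi)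
    (F := ellAnF p) (F' := ellAnF' p) (x₀ := w) (s := Metric.closedBall w ε)
    (bound := fun _ => C) (Metric.closedBall_mem_nhds w hε)
    (Filter.Eventually.of_forall fun z => (ellAn_continuous_F p z).aestronglyMeasurable)
    ((ellAn_continuous_F p w).intervalIntegrable _ _)
    ((ellAn_continuous_F' p w).aestronglyMeasurable)
    (MeasureTheory.ae_of_all _ fun θ hθ z hz => by
      rw [Set.uIoc_of_le hpi] at hθ
      exact hC (z, θ) ⟨hz, ⟨hθ.1.le, hθ.2⟩⟩)
    (intervalIntegrable_const)
    (MeasureTheory.ae_of_all _ fun θ _ z hz => ellAn_hasDerivAt hp (hball hz) θ)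
  exact key.2.differentiableAt

theorem differentiableAt_ell {p : ι → ℝ} (hp : Adm p) {w : ℂ} (hw : |w.im| < Real.pi) :
    DifferentiableAt ℂ (ell p) w := by
  have heq : ell p = fun z => (1 / (2 * (Real.pi : ℂ))) *
      ((gen p z)⁻¹ * ∫ θ in (-Real.pi)..Real.pi, ellAnF p z θ) := by
    funext z
    unfold ell ellAnF
    have h : ∀ θ : ℝ, gen p (z + θ * Complex.I) / gen p z *
        Complex.exp (-(kap p z * (θ * Complex.I))) = (gen p z)⁻¹ *
        (gen p (z + θ * Complex.I) * Complex.exp (-(kap p z * (θ * Complex.I)))) := fun θ => by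
      ring
    simp only [h, intervalIntegral.integral_const_mul]
  rw [heq]
  refine DifferentiableAt.const_mul (DifferentiableAt.mul ?_ (ellAn_integral hp hw)) _
  exact ((ellAn_differentiable_gen p) w).inv (gen_ne hp hw)

end Pool.Agent.RL51
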