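import Pool.Agent.RL51.SumB

/-!
# RL51.EllFar: the integrand of `ell` for large `θ` (task RL51-EllFar)

One factor: let `w = x + i v`, `E = e^x`, `D = bR q x`, `A = ‖bb q (w + iθ)‖^2`,
`B = ‖bb q w‖^2`.  By `normSq_bb`, `A - B = 2 q (1-q) E (cos (v+θ) - cos v)`, and
`sqrt (A/B) ≤ exp ((A/B - 1)/2) = exp (q (1-q) E (cos (v+θ) - cos v)/B)` (from
`t ≤ exp (t - 1)`).  Also `‖exp (-(k1 q w) iθ)‖ = exp (θ Im k1)` and `im_k1` gives
`θ Im (k1 q w) = q (1-q) E θ sin v / B`.  So the norm of the factor is at most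
`exp (-(q (1-q) E/B) f θ)` where `f θ = cos v - cos (v+θ) - θ sin v
 = cos v (1 - cos θ) - sin v (θ - sin θ)`.

`f θ ≥ 0.08` for `1/2 ≤ |θ| ≤ π`, `|v| ≤ 1/5`:  `f θ ≥ 0.98 (1 - cos θ) - 0.2 (|θ| - sin |θ|)`, and
for `1/2 ≤ |θ| ≤ 3/4`: `1 - cos θ ≥ 0.1217`, `|θ| - sin |θ| ≤ |θ|^3/4`,
for `3/4 ≤ |θ| ≤ 1`: `1 - cos θ ≥ 0.264`, `|θ| - sin |θ| ≤ 1/4`,
for `1 ≤ |θ| ≤ 3/2`: `1 - cos θ ≥ 0.447`, `|θ| - sin |θ| ≤ 3/2`,
for `3/2 ≤ |θ| ≤ π`: `1 - cos θ ≥ 0.91`, `|θ| - sin |θ| ≤ π`.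

As `B ≤ D^2`, `q (1-q) E/B ≥ S1 q x ≥ e^{-1/5} q (1-q) ≥ 0.8 q (1-q)` (`S1_ge`), so the product over
all factors is at most `exp (-0.064 V)`.
-/

open Finset Polynomial

namespace Pool.Agent.RL51

lemma cos_half_le : Real.cos (1 / 2) ≤ 8783 / 10000 := by
  have h := Real.cos_bound (x := 1 / 2) (by rw [abs_of_nonneg] <;> norm_num)
  rw [abs_le] at h
  have h2 := h.2
  rw [abs_of_nonneg (by norm_num : (0:ℝ) ≤ 1 / 2)] at h2
  norm_num at h2 ⊢
  linarith

lemma cos_three_quarters_le : Real.cos (3 / 4) ≤ 7353 / 10000 := by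
  have h := Real.cos_bound (x := 3 / 4) (by rw [abs_of_nonneg] <;> norm_num)
  rw [abs_le] at h
  have h2 := h.2
  rw [abs_of_nonneg (by norm_num : (0:ℝ) ≤ 3 / 4)] at h2
  norm_num at h2 ⊢
  linarith

lemma cos_one_le' : Real.cos 1 ≤ 553 / 1000 := by
  have h := Real.cos_bound (x := 1) (by simp)
  rw [abs_le] at h
  have h2 := h.2
  norm_num at h2 ⊢
  linarith

lemma cos_three_halves_le : Real.cos (3 / 2) ≤ 9 / 100 := by
  have h : Real.cos (3 / 2) = 2 * Real.cos (3 / 4) ^ 2 - 1 := by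
    rw [show (3 / 2 : ℝ) = 2 * (3 / 4) by norm_num, Real.cos_two_mul]
  have h1 := cos_three_quarters_le
  have h0 : 0 ≤ Real.cos (3 / 4) := by
    apply Real.cos_nonneg_of_neg_pi_div_two_le_of_le
    · linarith [Real.pi_pos]
    · linarith [Real.pi_gt_three]
  rw [h]
  nlinarith

/-- the scalar inequality -/
lemma g_lower {t : ℝ} (h1 : 1 / 2 ≤ t) (h2 : t ≤ Real.pi) :
    2 / 25 ≤ 49 / 50 * (1 - Real.cos t) - 1 / 5 * (t - Real.sin t) := by
  have hpi := Real.pi_gt_three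
  have hpi2 := Real.pi_lt_d2
  have hsin0 : 0 ≤ Real.sin t := Real.sin_nonneg_of_nonneg_of_le_pi (by linarith) h2
  rcases le_total t (3 / 4) with ha | ha
  · have hc : Real.cos t ≤ Real.cos (1 / 2) :=
      Real.cos_le_cos_of_nonneg_of_le_pi (by norm_num) h2 h1
    have hs := Real.sin_gt_sub_cube (x := t) (by linarith)
    have h3 : t ^ 3 ≤ (3 / 4) ^ 3 := pow_le_pow_left₀ (by linarith) ha 3
    have := cos_half_le
    nlinarith
  rcases le_total t 1 with hb | hb
  · have hc : Real.cos t ≤ Real.cos (3 / 4) :=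
      Real.cos_le_cos_of_nonneg_of_le_pi (by norm_num) h2 ha
    have hs := Real.sin_gt_sub_cube (x := t) (by linarith)
    have h3 : t ^ 3 ≤ 1 ^ 3 := pow_le_pow_left₀ (by linarith) hb 3
    have := cos_three_quarters_le
    nlinarith
  rcases le_total t (3 / 2) with hc | hc
  · have hd : Real.cos t ≤ Real.cos 1 :=
      Real.cos_le_cos_of_nonneg_of_le_pi (by norm_num) h2 hb
    have := cos_one_le'
    nlinarith
  · have hd : Real.cos t ≤ Real.cos (3 / 2) :=
      Real.cos_le_cos_of_nonneg_of_le_pi (by norm_num) h2 hc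
    have := cos_three_halves_le
    nlinarith

lemma f_lower {v θ : ℝ} (hv : |v| ≤ 1 / 5) (h1 : 1 / 2 ≤ |θ|) (h2 : |θ| ≤ Real.pi) :
    2 / 25 ≤ Real.cos v - Real.cos (v + θ) - θ * Real.sin v := by
  have hf : Real.cos v - Real.cos (v + θ) - θ * Real.sin v =
      Real.cos v * (1 - Real.cos θ) - Real.sin v * (θ - Real.sin θ) := by
    rw [Real.cos_add]; ring
  have hg := g_lower h1 h2
  rw [Real.cos_abs] at hg
  have hcv : 49 / 50 ≤ Real.cos v := by
    have := Real.one_sub_sq_div_two_le_cos (x := v)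
    have h3 : v ^ 2 ≤ (1 / 5) ^ 2 := by
      rw [← sq_abs]; exact pow_le_pow_left₀ (abs_nonneg v) hv 2
    linarith
  have hsv : |Real.sin v| ≤ 1 / 5 := le_trans Real.abs_sin_le_abs hv
  have hcos : 0 ≤ 1 - Real.cos θ := by linarith [Real.cos_le_one θ]
  have habs : |θ - Real.sin θ| ≤ |θ| - Real.sin |θ| := by
    rcases le_total 0 θ with h | h
    · rw [abs_of_nonneg h, abs_of_nonneg]
      linarith [Real.sin_le h]
    · rw [abs_of_nonpos h, Real.sin_neg, abs_of_nonpos]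
      · linarith
      · have := Real.sin_le (x := -θ) (by linarith)
        rw [Real.sin_neg] at this
        linarith
  have hprod : Real.sin v * (θ - Real.sin θ) ≤ 1 / 5 * (|θ| - Real.sin |θ|) := by
    calc Real.sin v * (θ - Real.sin θ) ≤ |Real.sin v * (θ - Real.sin θ)| := le_abs_self _
      _ = |Real.sin v| * |θ - Real.sin θ| := abs_mul _ _
      _ ≤ 1 / 5 * (|θ| - Real.sin |θ|) :=
        mul_le_mul hsv habs (abs_nonneg _) (by norm_num)
  rw [hf]
  nlinarith [mul_le_mul_of_nonneg_right hcv hcos]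

lemma far_factor {q : ℝ} (h0 : 0 < q) (h1 : q < 1) {w : ℂ} (hw1 : |w.re| ≤ 1 / 5)
    (hw2 : |w.im| ≤ 1 / 5) {θ : ℝ} (h3 : 1 / 2 ≤ |θ|) (h4 : |θ| ≤ Real.pi) :
    ‖bb q (w + θ * Complex.I) / bb q w * Complex.exp (-(k1 q w * (θ * Complex.I)))‖ ≤
      Real.exp (-(3 / 50 * (q * (1 - q)))) := by
  have hpi : |w.im| < Real.pi := by linarith [Real.pi_gt_three]
  have hB : 0 < Complex.normSq (bb q w) := Complex.normSq_pos.mpr (bb_ne h0 h1 hpi)
  have hre : (w + θ * Complex.I).re = w.re := by simp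
  have him : (w + θ * Complex.I).im = w.im + θ := by simp
  have hA := normSq_bb q (w + θ * Complex.I)
  have hB' := normSq_bb q w
  rw [hre, him] at hA
  have hAB : Complex.normSq (bb q (w + θ * Complex.I)) = Complex.normSq (bb q w) +
      2 * (q * (1 - q) * Real.exp w.re) * (Real.cos (w.im + θ) - Real.cos w.im) := by
    rw [hA, hB']; ring
  set A := Complex.normSq (bb q (w + θ * Complex.I)) with hAdef
  set B := Complex.normSq (bb q w) with hBdef
  set P := q * (1 - q) * Real.exp w.re with hP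
  have hP0 : 0 < P := by
    have : 0 < 1 - q := by linarith
    positivity
  -- norm of the quotient
  have hn1 : ‖bb q (w + θ * Complex.I) / bb q w‖ = Real.sqrt (A / B) := by
    rw [norm_div, Complex.norm_def, Complex.norm_def, ← hAdef, ← hBdef,
      Real.sqrt_div (Complex.normSq_nonneg _)]
  have hn2 : Real.sqrt (A / B) ≤ Real.exp ((A / B - 1) / 2) := by
    have h : A / B ≤ Real.exp (A / B - 1) := by
      have := Real.add_one_le_exp (A / B - 1); linarith
    calc Real.sqrt (A / B) ≤ Real.sqrt (Real.exp (A / B - 1)) := Real.sqrt_le_sqrt h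
      _ = Real.exp ((A / B - 1) / 2) := by rw [Real.exp_half]
  have hn3 : ‖Complex.exp (-(k1 q w * (θ * Complex.I)))‖ = Real.exp (θ * (k1 q w).im) := by
    rw [Complex.norm_exp]
    congr 1
    simp [Complex.mul_re, Complex.mul_im]
    ring
  rw [norm_mul, hn1, hn3]
  have hq : (A / B - 1) / 2 + θ * (k1 q w).im =
      -(P / B * (Real.cos w.im - Real.cos (w.im + θ) - θ * Real.sin w.im)) := by
    rw [im_k1 h0 h1 hpi, ← hBdef, ← hP, hAB]
    field_simp
    ring
  have hf := f_lower hw2 h3 h4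
  have hPB : 4 / 5 * (q * (1 - q)) ≤ P / B := by
    have hup := bb_upper h0 h1 w
    have hD : B ≤ bR q w.re ^ 2 := by
      rw [hBdef, Complex.normSq_eq_norm_sq]
      exact pow_le_pow_left₀ (norm_nonneg _) hup 2
    have hS : S1 q w.re ≤ P / B := by
      unfold S1
      exact div_le_div_of_nonneg_left hP0.le hB hD
    have hS2 := S1_ge h0 h1 w.re
    have hE : 4 / 5 ≤ Real.exp (-|w.re|) := by
      have := Real.add_one_le_exp (-|w.re|); linarith
    have hqq : 0 ≤ q * (1 - q) := by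
      have : 0 < 1 - q := by linarith
      positivity
    calc 4 / 5 * (q * (1 - q)) ≤ Real.exp (-|w.re|) * (q * (1 - q)) :=
          mul_le_mul_of_nonneg_right hE hqq
      _ ≤ S1 q w.re := hS2
      _ ≤ P / B := hS
  have hqq : 0 ≤ q * (1 - q) := by
    have : 0 < 1 - q := by linarith
    positivity
  calc Real.sqrt (A / B) * Real.exp (θ * (k1 q w).im)
      ≤ Real.exp ((A / B - 1) / 2) * Real.exp (θ * (k1 q w).im) :=
        mul_le_mul_of_nonneg_right hn2 (Real.exp_nonneg _)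
    _ = Real.exp (-(P / B * (Real.cos w.im - Real.cos (w.im + θ) - θ * Real.sin w.im))) := by
        rw [← Real.exp_add, hq]
    _ ≤ Real.exp (-(3 / 50 * (q * (1 - q)))) := by
        apply Real.exp_le_exp.mpr
        have hkey : 4 / 5 * (q * (1 - q)) * (2 / 25) ≤
            P / B * (Real.cos w.im - Real.cos (w.im + θ) - θ * Real.sin w.im) :=
          mul_le_mul hPB hf (by norm_num) (by positivity)
        nlinarith

variable {ι : Type} [Fintype ι]

theorem ell_far {p : ι → ℝ} (hp : Adm p) {w : ℂ} (h1 : |w.re| ≤ 1 / 5) (h2 : |w.im| ≤ 1 / 5)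
    {θ : ℝ} (h3 : 1 / 2 ≤ |θ|) (h4 : |θ| ≤ Real.pi) :
    ‖gen p (w + θ * Complex.I) / gen p w * Complex.exp (-(kap p w * (θ * Complex.I)))‖ ≤
      Real.exp (-(3 / 50 * VV p)) := by
  have hprod : gen p (w + θ * Complex.I) / gen p w *
      Complex.exp (-(kap p w * (θ * Complex.I))) =
      ∏ i, (bb (p i) (w + θ * Complex.I) / bb (p i) w *
        Complex.exp (-(k1 (p i) w * (θ * Complex.I)))) := by
    rw [Finset.prod_mul_distrib, Finset.prod_div_distrib, ← Complex.exp_sum]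
    unfold gen kap
    rw [Finset.sum_neg_distrib, Finset.sum_mul]
  rw [hprod, norm_prod]
  have hexp : Real.exp (-(3 / 50 * VV p)) =
      ∏ i, Real.exp (-(3 / 50 * (p i * (1 - p i)))) := by
    rw [← Real.exp_sum, Finset.sum_neg_distrib, ← Finset.mul_sum]
    rfl
  rw [hexp]
  exact Finset.prod_le_prod (fun i _ => norm_nonneg _)
    (fun i _ => far_factor (hp i).1 (hp i).2 h1 h2 h3 h4)

end Pool.Agent.RL51
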