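import Pool.Agent.RL51.EllLoc
import Pool.Agent.RL51.EllFar

/-!
# RL51.EllB: the local limit estimate for `ell` (task RL51-EllB)

Let `σ = ss p w`, `V = VV p`, `s = rt p w`; `s^2 = 2 π σ`, `Re σ ≥ 0.8 V > 0`, `‖σ‖ ≤ 1.24 V`, so
`‖s‖ = sqrt (2 π ‖σ‖) ≤ 2.7915 √V`, and `∫_ℝ exp (-σ θ^2/2) dθ = 2π/s` (`integral_gaussian_complex`
says `(π/(σ/2))^(1/2)`; both numbers have square `2π/σ` and positive real part, or compare the
logarithms).  Let `h θ` be the integrand of `ell` and `g θ = exp (-σ θ^2/2)`.  Then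
`2π (ell w - 1/s) = ∫_{-1/2}^{1/2} (h - g) + ∫_{1/2 ≤ |θ| ≤ π} h - ∫_{|θ| ≥ 1/2} g`.

* On `|θ| ≤ 1/2`, `h - g = g (e^R - 1)`, `‖R‖ ≤ V |θ|^3/4 ≤ V θ^2/8`, `‖e^R - 1‖ ≤ ‖R‖ e^{‖R‖}`,
  `‖g‖ ≤ exp (-0.4 V θ^2)`: the integral is at most
  `∫_ℝ (V/4) |θ|^3 exp (-(11/40) V θ^2) dθ = (V/4)/(11 V/40)^2 = 3.3058/V`.
* `‖∫_{1/2 ≤ |θ| ≤ π} h‖ ≤ 2 π exp (-0.06 V)`.
* `‖∫_{|θ| ≥ 1/2} g‖ ≤ 2 ∫_{1/2}^∞ exp (-0.4 V θ^2) ≤ 2 ∫_{1/2}^∞ exp (-0.2 V θ) dθ
   = (10/V) exp (-0.1 V)`.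

So `‖ell w * s - 1‖ ≤ (2.7915 √V/(2π)) (3.3058/V + 2π e^{-0.06 V} + (10/V) e^{-0.1 V})`
which is `≤ 1.4688/√V + 2.7915 √V e^{-0.06V} + (4.45/√V) e^{-0.1V} ≤ 0.1177 + 0.0031 + 0.0001
≤ 1/8` for `V ≥ 156` (`√V ≥ 12.48`).
(For the small terms: `x ↦ √x e^{-0.06x}` is decreasing for `x ≥ 9`; e.g.
`e^{-0.06V} ≤ e^{-9.36} * e^{-0.06 (V - 156)}` and `√V ≤ 12.5 (1 + (V-156)/312) ≤ 12.5 e^{(V-156)/312}`,
`e^{-9.36} ≤ 8.7 * 10^{-5}`.)
-/

open Finset Polynomial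

namespace Pool.Agent.RL51

private lemma ellB_cube {b : ℝ} (hb : 0 < b) :
    (∫ θ in (0:ℝ)..(1 / 2), θ ^ 3 * Real.exp (-(b * θ ^ 2))) ≤ 1 / (2 * b ^ 2) := by
  have hder : ∀ θ : ℝ, HasDerivAt
      (fun θ : ℝ => -(θ ^ 2 / (2 * b) + 1 / (2 * b ^ 2)) * Real.exp (-(b * θ ^ 2)))
      (θ ^ 3 * Real.exp (-(b * θ ^ 2))) θ := by
    intro θ
    have h1 : HasDerivAt (fun θ : ℝ => -(θ ^ 2 / (2 * b) + 1 / (2 * b ^ 2)))
        (-(2 * θ / (2 * b))) θ := by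
      have h0 : HasDerivAt (fun θ : ℝ => θ ^ 2) (2 * θ) θ := by simpa using hasDerivAt_pow 2 θ
      exact ((h0.div_const (2 * b)).add_const (1 / (2 * b ^ 2))).neg
    have h2 : HasDerivAt (fun θ : ℝ => Real.exp (-(b * θ ^ 2)))
        (Real.exp (-(b * θ ^ 2)) * (-(b * (2 * θ)))) θ := by
      have h0 : HasDerivAt (fun θ : ℝ => θ ^ 2) (2 * θ) θ := by simpa using hasDerivAt_pow 2 θ
      exact (h0.const_mul b).neg.exp
    have h3 := h1.mul h2
    have h4 : θ ^ 3 * Real.exp (-(b * θ ^ 2)) =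
        -(2 * θ / (2 * b)) * Real.exp (-(b * θ ^ 2)) +
          -(θ ^ 2 / (2 * b) + 1 / (2 * b ^ 2)) *
            (Real.exp (-(b * θ ^ 2)) * (-(b * (2 * θ)))) := by
      field_simp
      ring
    rw [h4]
    exact h3
  rw [intervalIntegral.integral_eq_sub_of_hasDerivAt (fun θ _ => hder θ)
    (Continuous.intervalIntegrable (by fun_prop) _ _)]
  have h4 : 0 ≤ ((1 / 2 : ℝ) ^ 2 / (2 * b) + 1 / (2 * b ^ 2)) *
      Real.exp (-(b * (1 / 2 : ℝ) ^ 2)) := by positivity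
  have h5 : -((0:ℝ) ^ 2 / (2 * b) + 1 / (2 * b ^ 2)) * Real.exp (-(b * (0:ℝ) ^ 2)) =
      -(1 / (2 * b ^ 2)) := by simp
  rw [h5]
  linarith

private lemma ellB_exp_sub_one (z : ℂ) : ‖Complex.exp z - 1‖ ≤ ‖z‖ * Real.exp ‖z‖ := by
  have := Complex.norm_exp_sub_sum_le_norm_mul_exp z 1
  simpa using this

private lemma ellB_gauss_norm {σ : ℂ} {V : ℝ} (hσ : 4 / 5 * V ≤ σ.re) (θ : ℝ) :
    ‖Complex.exp (-(σ / 2) * (θ : ℂ) ^ 2)‖ ≤ Real.exp (-(2 / 5 * V * θ ^ 2)) := by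
  rw [Complex.norm_exp]
  apply Real.exp_le_exp.mpr
  have h : (-(σ / 2) * (θ : ℂ) ^ 2).re = -(σ.re / 2 * θ ^ 2) := by
    rw [← Complex.ofReal_pow, Complex.re_mul_ofReal]
    simp
  rw [h]
  have := mul_le_mul_of_nonneg_right hσ (sq_nonneg θ)
  nlinarith

private lemma ellB_core {f : ℝ → ℂ} (hf : Continuous f) {σ : ℂ} {V : ℝ} (hV : 0 < V)
    (hσ : 4 / 5 * V ≤ σ.re)
    (hloc : ∀ θ : ℝ, 0 ≤ θ → θ ≤ 1 / 2 → ∃ R : ℂ,
      f θ = Complex.exp (-(σ * (θ : ℂ) ^ 2 / 2) + R) ∧ ‖R‖ ≤ 1 / 4 * V * θ ^ 3)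
    (hfar : ∀ θ : ℝ, 1 / 2 ≤ θ → θ ≤ Real.pi → ‖f θ‖ ≤ Real.exp (-(3 / 50 * V))) :
    ‖(∫ θ in (0:ℝ)..Real.pi, f θ) -
        ∫ θ in Set.Ioi (0:ℝ), Complex.exp (-(σ / 2) * (θ : ℂ) ^ 2)‖ ≤
      200 / (121 * V) + Real.pi * Real.exp (-(3 / 50 * V)) + 5 / V * Real.exp (-(V / 10)) := by
  have hpi := Real.pi_gt_three
  have hσ0 : 0 < (σ / 2).re := by
    have : (σ / 2).re = σ.re / 2 := by simp
    rw [this]
    have : 0 < 4 / 5 * V := by positivity
    linarith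
  set g : ℝ → ℂ := fun θ => Complex.exp (-(σ / 2) * (θ : ℂ) ^ 2) with hg
  have hgc : Continuous g := by rw [hg]; fun_prop
  have hgint : MeasureTheory.Integrable g := integrable_cexp_neg_mul_sq hσ0
  have e1 : (∫ θ in (0:ℝ)..Real.pi, f θ) =
      (∫ θ in (0:ℝ)..(1 / 2), f θ) + ∫ θ in (1 / 2)..Real.pi, f θ :=
    (intervalIntegral.integral_add_adjacent_intervals (hf.intervalIntegrable _ _)
      (hf.intervalIntegrable _ _)).symm
  have e2 : (∫ θ in Set.Ioi (0:ℝ), g θ) =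
      (∫ θ in (0:ℝ)..(1 / 2), g θ) + ∫ θ in Set.Ioi (1 / 2 : ℝ), g θ :=
    (intervalIntegral.integral_interval_add_Ioi hgint.integrableOn hgint.integrableOn).symm
  have e3 : (∫ θ in (0:ℝ)..(1 / 2), (f θ - g θ)) =
      (∫ θ in (0:ℝ)..(1 / 2), f θ) - ∫ θ in (0:ℝ)..(1 / 2), g θ :=
    intervalIntegral.integral_sub (hf.intervalIntegrable _ _) (hgc.intervalIntegrable _ _)
  have e4 : (∫ θ in (0:ℝ)..Real.pi, f θ) - ∫ θ in Set.Ioi (0:ℝ), g θ =
      (∫ θ in (0:ℝ)..(1 / 2), (f θ - g θ)) + (∫ θ in (1 / 2)..Real.pi, f θ) -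
        ∫ θ in Set.Ioi (1 / 2 : ℝ), g θ := by
    rw [e1, e2, e3]; ring
  have b1 : ‖∫ θ in (0:ℝ)..(1 / 2), (f θ - g θ)‖ ≤ 200 / (121 * V) := by
    have hle : ‖∫ θ in (0:ℝ)..(1 / 2), (f θ - g θ)‖ ≤
        ∫ θ in (0:ℝ)..(1 / 2), (1 / 4 * V) * (θ ^ 3 * Real.exp (-(11 / 40 * V * θ ^ 2))) := by
      refine intervalIntegral.norm_integral_le_of_norm_le (by norm_num)
        (Filter.Eventually.of_forall fun θ hθ => ?_)
        (Continuous.intervalIntegrable (by fun_prop) _ _)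
      obtain ⟨R, hR1, hR2⟩ := hloc θ hθ.1.le hθ.2
      have h0 : 0 < θ := hθ.1
      have h1 : θ ≤ 1 / 2 := hθ.2
      have hfac : f θ - g θ = g θ * (Complex.exp R - 1) := by
        rw [hR1, hg, Complex.exp_add]
        have : -(σ * (θ : ℂ) ^ 2 / 2) = -(σ / 2) * (θ : ℂ) ^ 2 := by ring
        rw [this]
        ring
      rw [hfac, norm_mul]
      have hR3 : ‖R‖ ≤ 1 / 8 * V * θ ^ 2 := by
        refine hR2.trans ?_
        have : θ ^ 3 ≤ 1 / 2 * θ ^ 2 := by nlinarith [sq_nonneg θ]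
        nlinarith
      have h2 := ellB_exp_sub_one R
      have h3 := ellB_gauss_norm hσ θ
      have h4 : ‖R‖ * Real.exp ‖R‖ ≤
          (1 / 4 * V * θ ^ 3) * Real.exp (1 / 8 * V * θ ^ 2) :=
        mul_le_mul hR2 (Real.exp_le_exp.mpr hR3) (Real.exp_nonneg _) (by positivity)
      calc ‖g θ‖ * ‖Complex.exp R - 1‖ ≤
          Real.exp (-(2 / 5 * V * θ ^ 2)) *
            ((1 / 4 * V * θ ^ 3) * Real.exp (1 / 8 * V * θ ^ 2)) :=
            mul_le_mul h3 (h2.trans h4) (norm_nonneg _) (Real.exp_nonneg _)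
        _ = 1 / 4 * V * (θ ^ 3 * (Real.exp (-(2 / 5 * V * θ ^ 2)) *
            Real.exp (1 / 8 * V * θ ^ 2))) := by ring
        _ = 1 / 4 * V * (θ ^ 3 * Real.exp (-(11 / 40 * V * θ ^ 2))) := by
            rw [← Real.exp_add]
            congr 4
            ring
    refine hle.trans ?_
    rw [intervalIntegral.integral_const_mul]
    have hc := ellB_cube (b := 11 / 40 * V) (by positivity)
    calc 1 / 4 * V * (∫ θ in (0:ℝ)..(1 / 2), θ ^ 3 * Real.exp (-(11 / 40 * V * θ ^ 2))) ≤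
        1 / 4 * V * (1 / (2 * (11 / 40 * V) ^ 2)) :=
          mul_le_mul_of_nonneg_left hc (by positivity)
      _ = 200 / (121 * V) := by field_simp; norm_num
  have b2 : ‖∫ θ in (1 / 2)..Real.pi, f θ‖ ≤ Real.pi * Real.exp (-(3 / 50 * V)) := by
    have h := intervalIntegral.norm_integral_le_of_norm_le_const (a := (1 / 2 : ℝ))
      (b := Real.pi) (f := f) (C := Real.exp (-(3 / 50 * V))) (by
        intro θ hθ
        rw [Set.uIoc_of_le (by linarith)] at hθ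
        exact hfar θ hθ.1.le hθ.2)
    refine h.trans ?_
    rw [abs_of_nonneg (by linarith), mul_comm]
    exact mul_le_mul_of_nonneg_right (by linarith) (Real.exp_nonneg _)
  have b3 : ‖∫ θ in Set.Ioi (1 / 2 : ℝ), g θ‖ ≤ 5 / V * Real.exp (-(V / 10)) := by
    have hneg : -(V / 5) < 0 := by
      have : 0 < V / 5 := by positivity
      linarith
    have h := MeasureTheory.norm_integral_le_of_norm_le
      (μ := MeasureTheory.volume.restrict (Set.Ioi (1 / 2 : ℝ))) (f := g)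
      (g := fun θ : ℝ => Real.exp (-(V / 5) * θ)) (integrableOn_exp_mul_Ioi hneg _) (by
        refine (MeasureTheory.ae_restrict_iff' measurableSet_Ioi).mpr
          (Filter.Eventually.of_forall fun θ hθ => ?_)
        have hθ' : (1 / 2 : ℝ) < θ := hθ
        refine (ellB_gauss_norm hσ θ).trans (Real.exp_le_exp.mpr ?_)
        have : 1 / 2 * θ ≤ θ ^ 2 := by nlinarith
        nlinarith)
    refine h.trans ?_
    rw [integral_exp_mul_Ioi hneg]
    have : -Real.exp (-(V / 5) * (1 / 2)) / -(V / 5) = 5 / V * Real.exp (-(V / 10)) := by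
      have : -(V / 5) * (1 / 2) = -(V / 10) := by ring
      rw [this]
      field_simp
    rw [this]
  rw [e4]
  calc ‖(∫ θ in (0:ℝ)..(1 / 2), (f θ - g θ)) + (∫ θ in (1 / 2)..Real.pi, f θ) -
        ∫ θ in Set.Ioi (1 / 2 : ℝ), g θ‖ ≤
      ‖(∫ θ in (0:ℝ)..(1 / 2), (f θ - g θ)) + (∫ θ in (1 / 2)..Real.pi, f θ)‖ +
        ‖∫ θ in Set.Ioi (1 / 2 : ℝ), g θ‖ := norm_sub_le _ _
    _ ≤ ‖∫ θ in (0:ℝ)..(1 / 2), (f θ - g θ)‖ + ‖∫ θ in (1 / 2)..Real.pi, f θ‖ +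
        ‖∫ θ in Set.Ioi (1 / 2 : ℝ), g θ‖ := by
          gcongr
          exact norm_add_le _ _
    _ ≤ _ := by linarith

private lemma ellB_num1 : Real.exp (-(234 / 25)) ≤ 1 / 10000 := by
  rw [Real.exp_neg]
  have h1 := Real.exp_one_gt_d9
  have h2 : Real.exp (234 / 25) = Real.exp 1 ^ 9 * Real.exp (9 / 25) := by
    rw [← Real.exp_nat_mul, ← Real.exp_add]
    norm_num
  have h3 : (2.7182818283 : ℝ) ^ 9 ≤ Real.exp 1 ^ 9 :=
    pow_le_pow_left₀ (by norm_num) h1.le 9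
  have h4 := Real.add_one_le_exp (9 / 25 : ℝ)
  have h5 : (10000 : ℝ) ≤ Real.exp (234 / 25) := by
    rw [h2]
    calc (10000 : ℝ) ≤ (2.7182818283 : ℝ) ^ 9 * (9 / 25 + 1) := by norm_num
      _ ≤ Real.exp 1 ^ 9 * Real.exp (9 / 25) :=
        mul_le_mul h3 h4 (by norm_num) (by positivity)
  rw [inv_eq_one_div]
  exact one_div_le_one_div_of_le (by norm_num) h5

private lemma ellB_num2 {V : ℝ} (hV : 156 ≤ V) : V * Real.exp (-(3 / 50 * V)) ≤ 156 / 10000 := by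
  have h1 : V ≤ 156 * Real.exp ((V - 156) / 156) := by
    have := Real.add_one_le_exp ((V - 156) / 156)
    have h2 : (V - 156) / 156 + 1 = V / 156 := by ring
    rw [h2] at this
    linarith
  have h3 : Real.exp ((V - 156) / 156) * Real.exp (-(3 / 50 * V)) ≤ Real.exp (-(234 / 25)) := by
    rw [← Real.exp_add]
    apply Real.exp_le_exp.mpr
    linarith
  have h4 := ellB_num1
  calc V * Real.exp (-(3 / 50 * V)) ≤
      156 * Real.exp ((V - 156) / 156) * Real.exp (-(3 / 50 * V)) :=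
        mul_le_mul_of_nonneg_right h1 (Real.exp_nonneg _)
    _ = 156 * (Real.exp ((V - 156) / 156) * Real.exp (-(3 / 50 * V))) := by ring
    _ ≤ 156 * (1 / 10000) := by
        apply mul_le_mul_of_nonneg_left (h3.trans h4) (by norm_num)
    _ = 156 / 10000 := by norm_num

private lemma ellB_num3 {V : ℝ} (hV : 156 ≤ V) : Real.exp (-(V / 10)) ≤ 1 / 10000 := by
  refine le_trans (Real.exp_le_exp.mpr ?_) ellB_num1
  linarith

/-- the final numerical inequality -/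
private lemma ellB_num {V n : ℝ} (hV : 156 ≤ V) (hn : 0 ≤ n) (hn2 : n ^ 2 ≤ 2 * Real.pi * (31 / 25 * V)) :
    (200 / (121 * V) + Real.pi * Real.exp (-(3 / 50 * V)) + 5 / V * Real.exp (-(V / 10))) * n ≤
      Real.pi / 8 := by
  have hpi1 := Real.pi_gt_d2
  have hpi2 := Real.pi_lt_d4
  have hV0 : 0 < V := by linarith
  have h2 := ellB_num2 hV
  have h3 := ellB_num3 hV
  have hE : 200 / (121 * V) + Real.pi * Real.exp (-(3 / 50 * V)) +
      5 / V * Real.exp (-(V / 10)) ≤ 17025 / 10000 / V := by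
    rw [le_div_iff₀ hV0]
    have e : (200 / (121 * V) + Real.pi * Real.exp (-(3 / 50 * V)) +
        5 / V * Real.exp (-(V / 10))) * V = 200 / 121 +
          Real.pi * (V * Real.exp (-(3 / 50 * V))) + 5 * Real.exp (-(V / 10)) := by
      field_simp
    rw [e]
    have h4 : Real.pi * (V * Real.exp (-(3 / 50 * V))) ≤ 3.1416 * (156 / 10000) :=
      mul_le_mul hpi2.le h2 (by positivity) (by norm_num)
    have h5 : (5:ℝ) * Real.exp (-(V / 10)) ≤ 5 * (1 / 10000) := by linarith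
    norm_num at h4 h5 ⊢
    linarith
  refine (mul_le_mul_of_nonneg_right hE hn).trans ?_
  refine (pow_le_pow_iff_left₀ (by positivity) (by positivity) two_ne_zero).mp ?_
  have h6 : (17025 / 10000 / V * n) ^ 2 = (17025 / 10000) ^ 2 * n ^ 2 / V ^ 2 := by
    field_simp
  rw [h6]
  have h7 : (17025 / 10000 : ℝ) ^ 2 * n ^ 2 / V ^ 2 ≤
      (17025 / 10000) ^ 2 * (2 * Real.pi * (31 / 25 * V)) / V ^ 2 := by gcongr
  refine h7.trans ?_
  have h8 : (17025 / 10000 : ℝ) ^ 2 * (2 * Real.pi * (31 / 25 * V)) / V ^ 2 =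
      (17025 / 10000) ^ 2 * (2 * (31 / 25)) * Real.pi / V := by
    field_simp
  rw [h8, div_le_iff₀ hV0]
  have h9 : Real.pi * 156 ≤ Real.pi * V := mul_le_mul_of_nonneg_left hV (by linarith)
  have h10 : (17025 / 10000 : ℝ) ^ 2 * (2 * (31 / 25)) ≤ Real.pi * V / 64 := by
    have : (3.14 : ℝ) * 156 ≤ Real.pi * V := by
      refine le_trans ?_ h9
      exact mul_le_mul_of_nonneg_right hpi1.le (by norm_num)
    norm_num at this ⊢
    linarith
  calc (17025 / 10000 : ℝ) ^ 2 * (2 * (31 / 25)) * Real.pi ≤ Real.pi * V / 64 * Real.pi :=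
        mul_le_mul_of_nonneg_right h10 Real.pi_pos.le
    _ = (Real.pi / 8) ^ 2 * V := by ring

private lemma ellB_rt {σ : ℂ} (hσ : 0 < σ.re) :
    Complex.exp (Complex.log (2 * (Real.pi : ℂ) * σ) / 2) *
      ((Real.pi : ℂ) / (σ / 2)) ^ (1 / 2 : ℂ) = 2 * (Real.pi : ℂ) := by
  have hσ0 : σ ≠ 0 := by
    rintro rfl
    simp at hσ
  have hpi : (0:ℝ) < 2 * Real.pi := by positivity
  have harg : σ.arg ≠ Real.pi := by
    intro h
    rw [Complex.arg_eq_pi_iff] at h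
    linarith [h.1]
  have h1 : Complex.log (2 * (Real.pi : ℂ) * σ) = (Real.log (2 * Real.pi) : ℂ) + Complex.log σ := by
    have := Complex.log_ofReal_mul hpi hσ0
    rw [← this]
    push_cast
    rfl
  have h2 : (Real.pi : ℂ) / (σ / 2) = ((2 * Real.pi : ℝ) : ℂ) * σ⁻¹ := by
    push_cast
    field_simp
  have h3 : Complex.log ((Real.pi : ℂ) / (σ / 2)) =
      (Real.log (2 * Real.pi) : ℂ) - Complex.log σ := by
    rw [h2, Complex.log_ofReal_mul hpi (inv_ne_zero hσ0), Complex.log_inv _ harg]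
    ring
  have h4 : (Real.pi : ℂ) / (σ / 2) ≠ 0 := by
    rw [h2]
    exact mul_ne_zero (by exact_mod_cast hpi.ne') (inv_ne_zero hσ0)
  rw [Complex.cpow_def_of_ne_zero h4, h1, h3, ← Complex.exp_add]
  have h5 : ((Real.log (2 * Real.pi) : ℂ) + Complex.log σ) / 2 +
      ((Real.log (2 * Real.pi) : ℂ) - Complex.log σ) * (1 / 2) = (Real.log (2 * Real.pi) : ℂ) := by
    ring
  rw [h5, ← Complex.ofReal_exp, Real.exp_log hpi]
  push_cast
  rfl

variable {ι : Type} [Fintype ι]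

theorem ell_bound {p : ι → ℝ} (hp : Adm p) (hV : 156 ≤ VV p) {w : ℂ} (h1 : |w.re| ≤ 1 / 5)
    (h2 : |w.im| ≤ 1 / 5) : ‖ell p w * rt p w - 1‖ ≤ 1 / 8 := by
  have hV0 : 0 < VV p := by linarith
  have hσ := re_ss_ge hp h1 h2
  have hσn := norm_ss_le hp h1 h2
  have hσ0 : 0 < (ss p w).re := by
    have : 0 < 4 / 5 * VV p := by positivity
    linarith
  set h : ℝ → ℂ := fun θ =>
    gen p (w + θ * Complex.I) / gen p w * Complex.exp (-(kap p w * (θ * Complex.I))) with hh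
  have hc : Continuous h := by
    rw [hh]
    unfold gen bb
    fun_prop
  -- the two half integrals
  set G : ℂ := ∫ θ in Set.Ioi (0:ℝ), Complex.exp (-(ss p w / 2) * (θ : ℂ) ^ 2) with hG
  set E : ℝ := 200 / (121 * VV p) + Real.pi * Real.exp (-(3 / 50 * VV p)) +
    5 / VV p * Real.exp (-(VV p / 10)) with hE
  have c1 : ‖(∫ θ in (0:ℝ)..Real.pi, h θ) - G‖ ≤ E := by
    refine ellB_core hc hV0 hσ ?_ ?_
    · intro θ hθ0 hθ1
      obtain ⟨R, hR1, hR2⟩ := ell_loc hp h1 h2 (θ := θ) (by rwa [abs_of_nonneg hθ0])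
      refine ⟨R, hR1, ?_⟩
      rwa [abs_of_nonneg hθ0] at hR2
    · intro θ hθ0 hθ1
      exact ell_far hp h1 h2 (by rwa [abs_of_nonneg (by linarith)])
        (by rwa [abs_of_nonneg (by linarith)])
  have c2 : ‖(∫ θ in (0:ℝ)..Real.pi, h (-θ)) - G‖ ≤ E := by
    refine ellB_core (f := fun θ => h (-θ)) (by fun_prop) hV0 hσ ?_ ?_
    · intro θ hθ0 hθ1
      obtain ⟨R, hR1, hR2⟩ := ell_loc hp h1 h2 (θ := -θ) (by rwa [abs_neg, abs_of_nonneg hθ0])
      refine ⟨R, ?_, ?_⟩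
      · have e : ((-θ : ℝ) : ℂ) ^ 2 = (θ : ℂ) ^ 2 := by push_cast; ring
        rw [← e]
        exact hR1
      · rwa [abs_neg, abs_of_nonneg hθ0] at hR2
    · intro θ hθ0 hθ1
      exact ell_far hp h1 h2 (by rwa [abs_neg, abs_of_nonneg (by linarith)])
        (by rwa [abs_neg, abs_of_nonneg (by linarith)])
  have c3 : (∫ θ in (-Real.pi)..Real.pi, h θ) =
      (∫ θ in (0:ℝ)..Real.pi, h θ) + ∫ θ in (0:ℝ)..Real.pi, h (-θ) := by
    rw [intervalIntegral.integral_comp_neg, neg_zero, add_comm]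
    exact (intervalIntegral.integral_add_adjacent_intervals (hc.intervalIntegrable _ _)
      (hc.intervalIntegrable _ _)).symm
  have c4 : ‖(∫ θ in (-Real.pi)..Real.pi, h θ) - 2 * G‖ ≤ 2 * E := by
    rw [c3]
    have : (∫ θ in (0:ℝ)..Real.pi, h θ) + (∫ θ in (0:ℝ)..Real.pi, h (-θ)) - 2 * G =
        ((∫ θ in (0:ℝ)..Real.pi, h θ) - G) + ((∫ θ in (0:ℝ)..Real.pi, h (-θ)) - G) := by ring
    rw [this]
    refine (norm_add_le _ _).trans ?_
    linarith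
  have c5 : rt p w * (2 * G) = 2 * (Real.pi : ℂ) := by
    have hre : 0 < (ss p w / 2).re := by
      have : (ss p w / 2).re = (ss p w).re / 2 := by simp
      rw [this]; positivity
    rw [hG, integral_gaussian_complex_Ioi hre]
    refine Eq.trans ?_ (ellB_rt hσ0)
    unfold rt
    ring
  have hpiC : (2 * (Real.pi : ℂ)) ≠ 0 := by
    have := Real.pi_ne_zero
    simp [this]
  have c6 : ell p w * rt p w - 1 = (1 / (2 * (Real.pi : ℂ))) *
      (((∫ θ in (-Real.pi)..Real.pi, h θ) - 2 * G) * rt p w) := by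
    have : ell p w = (1 / (2 * (Real.pi : ℂ))) * ∫ θ in (-Real.pi)..Real.pi, h θ := rfl
    rw [this]
    have h9 : (1 / (2 * (Real.pi : ℂ))) * (2 * G * rt p w) = 1 := by
      rw [mul_comm (2 * G), c5]
      exact one_div_mul_cancel hpiC
    calc (1 / (2 * (Real.pi : ℂ))) * (∫ θ in (-Real.pi)..Real.pi, h θ) * rt p w - 1 =
        (1 / (2 * (Real.pi : ℂ))) * (∫ θ in (-Real.pi)..Real.pi, h θ) * rt p w -
          (1 / (2 * (Real.pi : ℂ))) * (2 * G * rt p w) := by rw [h9]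
      _ = _ := by ring
  have c7 : ‖rt p w‖ ^ 2 ≤ 2 * Real.pi * (31 / 25 * VV p) := by
    have hne : 2 * (Real.pi : ℂ) * ss p w ≠ 0 := by
      refine mul_ne_zero hpiC ?_
      intro h0
      rw [h0] at hσ0
      simp at hσ0
    have hsq : rt p w ^ 2 = 2 * (Real.pi : ℂ) * ss p w := by
      unfold rt
      rw [← Complex.exp_nat_mul]
      have : ((2 : ℕ) : ℂ) * (Complex.log (2 * (Real.pi : ℂ) * ss p w) / 2) =
          Complex.log (2 * (Real.pi : ℂ) * ss p w) := by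
        push_cast; ring
      rw [this, Complex.exp_log hne]
    rw [← norm_pow, hsq, norm_mul, norm_mul, Complex.norm_real, Real.norm_of_nonneg Real.pi_pos.le]
    have : ‖(2:ℂ)‖ = 2 := by simp
    rw [this]
    exact mul_le_mul_of_nonneg_left hσn (by positivity)
  have c8 := ellB_num hV (norm_nonneg (rt p w)) c7
  rw [← hE] at c8
  rw [c6, norm_mul, norm_mul]
  have c9 : ‖(1 / (2 * (Real.pi : ℂ)))‖ = 1 / (2 * Real.pi) := by
    rw [norm_div, norm_mul, Complex.norm_real, Real.norm_of_nonneg Real.pi_pos.le]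
    simp
  rw [c9]
  have c10 : ‖(∫ θ in (-Real.pi)..Real.pi, h θ) - 2 * G‖ * ‖rt p w‖ ≤ 2 * (Real.pi / 8) := by
    calc ‖(∫ θ in (-Real.pi)..Real.pi, h θ) - 2 * G‖ * ‖rt p w‖ ≤ 2 * E * ‖rt p w‖ :=
          mul_le_mul_of_nonneg_right c4 (norm_nonneg _)
      _ = 2 * (E * ‖rt p w‖) := by ring
      _ ≤ 2 * (Real.pi / 8) := by linarith
  calc 1 / (2 * Real.pi) * (‖(∫ θ in (-Real.pi)..Real.pi, h θ) - 2 * G‖ * ‖rt p w‖) ≤
      1 / (2 * Real.pi) * (2 * (Real.pi / 8)) :=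
        mul_le_mul_of_nonneg_left c10 (by positivity)
    _ = 1 / 8 := by
        have := Real.pi_ne_zero
        field_simp

end Pool.Agent.RL51
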