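import Mathlib

/-!
# RL51.Taylor: Taylor estimates along segments (task RL51-Taylor)

`seg_bound`: put `f t = g (w + t h)`, `f' t = g1 (w + t h) * h`, `‖f' t‖ ≤ C ‖h‖ t^n`, and integrate
(or use `image_norm_le_of_norm_deriv_right_le_deriv_boundary` with the boundary
`C ‖h‖ t^(n+1)/(n+1)`).  `taylor2`, `taylor3` follow by applying `seg_bound` repeatedly to the
remainders (first on the sub-segments `[w, w + t h]`).
-/

open Finset

namespace Pool.Agent.RL51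

theorem seg_bound {g g1 : ℂ → ℂ} {w h : ℂ} {C : ℝ} (n : ℕ)
    (hd : ∀ t ∈ Set.Icc (0 : ℝ) 1, HasDerivAt g (g1 (w + t * h)) (w + t * h))
    (hC : ∀ t ∈ Set.Icc (0 : ℝ) 1, ‖g1 (w + t * h)‖ ≤ C * t ^ n) :
    ‖g (w + h) - g w‖ ≤ C * ‖h‖ / (n + 1) := by
  have hlin : ∀ t : ℝ, HasDerivAt (fun s : ℝ => w + (s : ℂ) * h) h t := by
    intro t
    have h1 : HasDerivAt (fun s : ℝ => (s : ℂ)) 1 t := (hasDerivAt_id t).ofReal_comp
    have h2 := (h1.mul_const h).const_add w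
    simpa using h2
  have hf : ∀ t ∈ Set.Icc (0 : ℝ) 1,
      HasDerivAt (fun s : ℝ => g (w + (s : ℂ) * h) - g w) (g1 (w + t * h) * h) t := by
    intro t ht
    have h1 : HasDerivAt (g ∘ fun s : ℝ => w + (s : ℂ) * h) (g1 (w + t * h) * h) t :=
      HasDerivAt.comp t (hd t ht) (hlin t)
    exact h1.sub_const (g w)
  have hB : ∀ t : ℝ, HasDerivAt (fun s : ℝ => C * ‖h‖ * s ^ (n + 1) / (n + 1))
      (C * t ^ n * ‖h‖) t := by
    intro t
    have h1 := (((hasDerivAt_id t).pow (n + 1)).const_mul (C * ‖h‖)).div_const ((n : ℝ) + 1)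
    have hn : ((n : ℝ) + 1) ≠ 0 := by positivity
    have h2 : C * ‖h‖ * (((n + 1 : ℕ) : ℝ) * (id t) ^ (n + 1 - 1) * 1) / ((n : ℝ) + 1) =
        C * t ^ n * ‖h‖ := by
      simp only [id, Nat.add_sub_cancel]
      push_cast
      field_simp
    rw [h2] at h1
    exact h1
  have key := image_norm_le_of_norm_deriv_right_le_deriv_boundary (a := (0 : ℝ)) (b := 1)
    (f := fun s : ℝ => g (w + (s : ℂ) * h) - g w)
    (f' := fun t : ℝ => g1 (w + t * h) * h)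
    (fun t ht => (hf t ht).continuousAt.continuousWithinAt)
    (fun t ht => (hf t ⟨ht.1, ht.2.le⟩).hasDerivWithinAt)
    (B := fun s : ℝ => C * ‖h‖ * s ^ (n + 1) / (n + 1)) (B' := fun t : ℝ => C * t ^ n * ‖h‖)
    (by simp) hB
    (fun t ht => by
      rw [norm_mul]
      exact mul_le_mul_of_nonneg_right (hC t ⟨ht.1, ht.2.le⟩) (norm_nonneg _))
    (x := 1) ⟨zero_le_one, le_rfl⟩
  simpa using key

theorem taylor_sub_seg {P : ℂ → Prop} {w h : ℂ}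
    (hP : ∀ t ∈ Set.Icc (0 : ℝ) 1, P (w + t * h)) {t : ℝ} (ht : t ∈ Set.Icc (0 : ℝ) 1) :
    ∀ s ∈ Set.Icc (0 : ℝ) 1, P (w + s * (t * h)) := by
  intro s hs
  have h1 := hP (s * t) ⟨mul_nonneg hs.1 ht.1, mul_le_one₀ hs.2 ht.1 ht.2⟩
  have h2 : w + ((s * t : ℝ) : ℂ) * h = w + s * (t * h) := by push_cast; ring
  rwa [h2] at h1

theorem taylor2 {g g1 g2 : ℂ → ℂ} {w h : ℂ} {C : ℝ}
    (hd1 : ∀ t ∈ Set.Icc (0 : ℝ) 1, HasDerivAt g (g1 (w + t * h)) (w + t * h))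
    (hd2 : ∀ t ∈ Set.Icc (0 : ℝ) 1, HasDerivAt g1 (g2 (w + t * h)) (w + t * h))
    (hC : ∀ t ∈ Set.Icc (0 : ℝ) 1, ‖g2 (w + t * h)‖ ≤ C) :
    ‖g (w + h) - g w - g1 w * h‖ ≤ C * ‖h‖ ^ 2 / 2 := by
  have h1 : ∀ t ∈ Set.Icc (0 : ℝ) 1, ‖g1 (w + t * h) - g1 w‖ ≤ C * ‖h‖ * t ^ 1 := by
    intro t ht
    have h2 := seg_bound (g := g1) (g1 := g2) (w := w) (h := t * h) (C := C) 0
      (taylor_sub_seg (P := fun z => HasDerivAt g1 (g2 z) z) hd2 ht)
      (by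
        intro s hs
        rw [pow_zero, mul_one]
        exact taylor_sub_seg (P := fun z => ‖g2 z‖ ≤ C) hC ht s hs)
    rw [norm_mul, Complex.norm_real, Real.norm_of_nonneg ht.1] at h2
    calc ‖g1 (w + t * h) - g1 w‖ ≤ C * (t * ‖h‖) / ((0 : ℕ) + 1) := h2
      _ = C * ‖h‖ * t ^ 1 := by push_cast; ring
  have h3 := seg_bound (g := fun z => g z - g1 w * (z - w)) (g1 := fun z => g1 z - g1 w)
    (w := w) (h := h) (C := C * ‖h‖) 1
    (by
      intro t ht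
      have h4 : HasDerivAt (fun z : ℂ => g1 w * (z - w)) (g1 w) (w + t * h) := by
        simpa using ((hasDerivAt_id (w + t * h)).sub_const w).const_mul (g1 w)
      exact (hd1 t ht).sub h4)
    h1
  have h5 : g (w + h) - g1 w * (w + h - w) - (g w - g1 w * (w - w)) =
      g (w + h) - g w - g1 w * h := by ring
  simp only [h5] at h3
  calc ‖g (w + h) - g w - g1 w * h‖ ≤ C * ‖h‖ * ‖h‖ / ((1 : ℕ) + 1) := h3
    _ = C * ‖h‖ ^ 2 / 2 := by push_cast; ring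

theorem taylor3 {g g1 g2 g3 : ℂ → ℂ} {w h : ℂ} {C : ℝ}
    (hd1 : ∀ t ∈ Set.Icc (0 : ℝ) 1, HasDerivAt g (g1 (w + t * h)) (w + t * h))
    (hd2 : ∀ t ∈ Set.Icc (0 : ℝ) 1, HasDerivAt g1 (g2 (w + t * h)) (w + t * h))
    (hd3 : ∀ t ∈ Set.Icc (0 : ℝ) 1, HasDerivAt g2 (g3 (w + t * h)) (w + t * h))
    (hC : ∀ t ∈ Set.Icc (0 : ℝ) 1, ‖g3 (w + t * h)‖ ≤ C) :
    ‖g (w + h) - g w - g1 w * h - g2 w * h ^ 2 / 2‖ ≤ C * ‖h‖ ^ 3 / 6 := by
  have h1 : ∀ t ∈ Set.Icc (0 : ℝ) 1,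
      ‖g1 (w + t * h) - g1 w - g2 w * (w + t * h - w)‖ ≤ C * ‖h‖ ^ 2 / 2 * t ^ 2 := by
    intro t ht
    have h2 := taylor2 (g := g1) (g1 := g2) (g2 := g3) (w := w) (h := t * h) (C := C)
      (taylor_sub_seg (P := fun z => HasDerivAt g1 (g2 z) z) hd2 ht)
      (taylor_sub_seg (P := fun z => HasDerivAt g2 (g3 z) z) hd3 ht)
      (taylor_sub_seg (P := fun z => ‖g3 z‖ ≤ C) hC ht)
    rw [norm_mul, Complex.norm_real, Real.norm_of_nonneg ht.1] at h2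
    calc ‖g1 (w + t * h) - g1 w - g2 w * (w + t * h - w)‖
        = ‖g1 (w + t * h) - g1 w - g2 w * (t * h)‖ := by rw [add_sub_cancel_left]
      _ ≤ C * (t * ‖h‖) ^ 2 / 2 := h2
      _ = C * ‖h‖ ^ 2 / 2 * t ^ 2 := by ring
  have h3 := seg_bound (g := fun z => g z - g1 w * (z - w) - g2 w * (z - w) ^ 2 / 2)
    (g1 := fun z => g1 z - g1 w - g2 w * (z - w))
    (w := w) (h := h) (C := C * ‖h‖ ^ 2 / 2) 2
    (by
      intro t ht
      have h4 : HasDerivAt (fun z : ℂ => g1 w * (z - w)) (g1 w) (w + t * h) := by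
        simpa using ((hasDerivAt_id (w + t * h)).sub_const w).const_mul (g1 w)
      have h6 : HasDerivAt (fun z : ℂ => g2 w * (z - w) ^ 2 / 2)
          (g2 w * (w + t * h - w)) (w + t * h) := by
        have h7 := ((((hasDerivAt_id (w + t * h)).sub_const w).pow 2).const_mul
          (g2 w)).div_const 2
        have h8 : g2 w * (((2 : ℕ) : ℂ) * (id (w + t * h) - w) ^ (2 - 1) * 1) / 2 =
            g2 w * (w + t * h - w) := by
          simp only [id]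
          push_cast
          ring
        rw [h8] at h7
        exact h7
      exact ((hd1 t ht).sub h4).sub h6)
    h1
  have h5 : g (w + h) - g1 w * (w + h - w) - g2 w * (w + h - w) ^ 2 / 2 -
      (g w - g1 w * (w - w) - g2 w * (w - w) ^ 2 / 2) =
      g (w + h) - g w - g1 w * h - g2 w * h ^ 2 / 2 := by ring
  simp only [h5] at h3
  calc ‖g (w + h) - g w - g1 w * h - g2 w * h ^ 2 / 2‖
      ≤ C * ‖h‖ ^ 2 / 2 * ‖h‖ / ((2 : ℕ) + 1) := h3
    _ = C * ‖h‖ ^ 3 / 6 := by push_cast; ring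

end Pool.Agent.RL51
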