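import Pool.Agent.RL51.SumB
import Pool.Agent.RL51.Taylor

/-!
# RL51.EllLoc: the integrand of `ell` for small `θ` (task RL51-EllLoc)

Put `R = EE (w + iθ) - EE w - kap w * iθ + ss w * θ^2/2`.  By `exp_EE` (all points of the segment
from `w` to `w + iθ` have `|Re| ≤ 1/5`, `|Im| ≤ 7/10 < π`) the integrand equals
`exp (-(ss w) θ^2/2 + R)`, and `taylor3` with `g = EE`, `g1 = kap`, `g2 = ss`, `g3 = dd`,
`h = iθ` and `norm_dd_le` gives `‖R‖ ≤ (37/25) V |θ|^3/6 ≤ V |θ|^3/4`.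
-/

open Finset Polynomial

namespace Pool.Agent.RL51

variable {ι : Type} [Fintype ι]

theorem ell_loc {p : ι → ℝ} (hp : Adm p) {w : ℂ} (h1 : |w.re| ≤ 1 / 5) (h2 : |w.im| ≤ 1 / 5)
    {θ : ℝ} (hθ : |θ| ≤ 1 / 2) :
    ∃ R : ℂ, gen p (w + θ * Complex.I) / gen p w * Complex.exp (-(kap p w * (θ * Complex.I))) =
        Complex.exp (-(ss p w * (θ : ℂ) ^ 2 / 2) + R) ∧ ‖R‖ ≤ 1 / 4 * VV p * |θ| ^ 3 := by
  have hre : ∀ t : ℝ, |(w + (t : ℂ) * ((θ : ℂ) * Complex.I)).re| ≤ 1 / 5 := by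
    intro t
    have h3 : (w + (t : ℂ) * ((θ : ℂ) * Complex.I)).re = w.re := by simp
    rw [h3]
    exact h1
  have him : ∀ t ∈ Set.Icc (0 : ℝ) 1,
      |(w + (t : ℂ) * ((θ : ℂ) * Complex.I)).im| ≤ 7 / 10 := by
    intro t ht
    have h3 : (w + (t : ℂ) * ((θ : ℂ) * Complex.I)).im = w.im + t * θ := by simp
    rw [h3]
    have h4 : |t * θ| ≤ 1 / 2 := by
      rw [abs_mul, abs_of_nonneg ht.1]
      calc t * |θ| ≤ 1 * |θ| := mul_le_mul_of_nonneg_right ht.2 (abs_nonneg _)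
        _ ≤ 1 / 2 := by linarith
    have h5 := abs_add_le w.im (t * θ)
    linarith
  have hpi : ∀ t ∈ Set.Icc (0 : ℝ) 1,
      |(w + (t : ℂ) * ((θ : ℂ) * Complex.I)).im| < Real.pi := by
    intro t ht
    have h3 := Real.pi_gt_three
    have h4 := him t ht
    linarith
  have hT := taylor3 (g := EE p) (g1 := kap p) (g2 := ss p) (g3 := dd p) (w := w)
    (h := (θ : ℂ) * Complex.I) (C := 37 / 25 * VV p)
    (fun t ht => hasDerivAt_EE hp (hpi t ht))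
    (fun t ht => hasDerivAt_kap hp (hpi t ht))
    (fun t ht => hasDerivAt_ss hp (hpi t ht))
    (fun t ht => norm_dd_le hp (hre t) (him t ht))
  have hnorm : ‖(θ : ℂ) * Complex.I‖ = |θ| := by
    rw [norm_mul, Complex.norm_I, mul_one, Complex.norm_real, Real.norm_eq_abs]
  rw [hnorm] at hT
  refine ⟨EE p (w + (θ : ℂ) * Complex.I) - EE p w - kap p w * ((θ : ℂ) * Complex.I) -
    ss p w * ((θ : ℂ) * Complex.I) ^ 2 / 2, ?_, ?_⟩
  · have h3 : |w.im| < Real.pi := by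
      have := Real.pi_gt_three
      linarith
    have h4 : |(w + (θ : ℂ) * Complex.I).im| < Real.pi := by
      have h5 := hpi 1 ⟨zero_le_one, le_rfl⟩
      rwa [Complex.ofReal_one, one_mul] at h5
    rw [← exp_EE hp h3, ← exp_EE hp h4, ← Complex.exp_sub, ← Complex.exp_add]
    congr 1
    have h6 : ((θ : ℂ) * Complex.I) ^ 2 = -(θ : ℂ) ^ 2 := by
      rw [mul_pow, Complex.I_sq]
      ring
    rw [h6]
    ring
  · refine hT.trans ?_
    have h7 : 0 ≤ VV p * |θ| ^ 3 := mul_nonneg (VV_nonneg hp) (pow_nonneg (abs_nonneg _) 3)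
    calc 37 / 25 * VV p * |θ| ^ 3 / 6 = 37 / 150 * (VV p * |θ| ^ 3) := by ring
      _ ≤ 1 / 4 * (VV p * |θ| ^ 3) := mul_le_mul_of_nonneg_right (by norm_num) h7
      _ = 1 / 4 * VV p * |θ| ^ 3 := by ring

end Pool.Agent.RL51
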