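import Pool.Agent.RL51.Tau

/-!
# RL51.TauC: convexity of the ratios of elementary symmetric functions (task RL51-TauC)

Adding one root: `cs (insert i s) y (k+1) = cs s y (k+1) + y i * cs s y k`.  With `τ k = tau (cs s y) k`
(it is `0` for `k ≥ s.card`) and `y = y i`, the new ratios are
`τ' 0 = τ 0 + y`, `τ' (k+1) = τ k (τ (k+1) + y)/(τ k + y)`.

Claim `2 τ' (k+1) ≤ τ' k + τ' (k+2)` (induction on `s`; for `s = ∅` all `τ = 0`).  Nonincreasing
follows from convexity and eventual vanishing.  Put `α = τ (k-1) + y`, `β = τ k + y`,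
`γ = τ (k+1) + y`, `δ = τ (k+2) + y`, all `≥ y > 0`; `d1 = α - β ≥ d2 = β - γ ≥ d3 = γ - δ ≥ 0`
(induction hypothesis).  Then `τ' k = β - yβ/α`, `τ' (k+1) = γ - yγ/β`, `τ' (k+2) = δ - yδ/γ`
and the claim is `y (2 d2/β - d1/α - d3/γ) ≤ d2 - d3`.  As `d1/α = d1/(β + d1) ≥ d2/(β + d2)`, the
bracket is at most `E - d3/γ` with `E = 2 d2/β - d2/(β + d2)`.  If `E - d3/γ ≤ 0` we are done;
otherwise use `y ≤ δ = γ - d3` and show
`(γ - d3)(E - d3/γ) ≤ d2 - d3` for `0 ≤ d3 ≤ min (d2, γ)`: both sides
are (convex quadratic)/(linear) in `d3`, so it is enough to check `d3 = 0`: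
`γ E = d2 (β - d2)(β + 2 d2)/(β (β + d2)) ≤ d2`, and `d3 = d2` (`γ = β - d2`):
`E - d2/γ = d2 (2/β - 1/(β+d2) - 1/(β-d2)) ≤ 0`, and `d3 = γ` (if `γ < d2`): `0 ≤ d2 - γ`.
First index (`k = 0`): `τ' 0 = β`, the claim is `y (δ/γ - 2γ/β) ≤ β - 2γ + δ`, i.e.
`y (2 d2/β - 1 - d3/γ) ≤ d2 - d3`, again with `y ≤ γ - d3`; endpoints: `d3 = 0`:
`γ (2 d2/β - 1) ≤ d2` (with `x = d2/β`: `(1-x)(2x-1) ≤ x` iff `0 ≤ 2x^2 - 2x + 1`), `d3 = d2 ≤ γ`
(`x ≤ 1/2`): the bracket is `2x - 1 - x/(1-x) ≤ 0`, `d3 = γ`: trivial.
(An equivalent polynomial inequality may be easier: clear denominators.)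
-/

open Finset Polynomial

namespace Pool.Agent.RL51

variable {ι : Type}

private lemma conv_core {g a c y : ℝ} (hy : 0 < y) (hyc : y ≤ g - c) (hc : 0 ≤ c) (hca : c ≤ a) :
    y * ((g + a) / (g + 2 * a) + (g - c) / g - 2 * (g / (g + a))) ≤ a - c := by
  have hg : 0 < g := by linarith
  have ha : 0 ≤ a := le_trans hc hca
  have hE : (g + a) / (g + 2 * a) + (g - c) / g - 2 * (g / (g + a)) =
      (a - c) / g - 2 * a ^ 3 / (g * ((g + a) * (g + 2 * a))) := by
    have h1 : g + a ≠ 0 := by positivity
    have h2 : g + 2 * a ≠ 0 := by positivity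
    field_simp
    ring
  rw [hE]
  have hpos : 0 ≤ 2 * a ^ 3 / (g * ((g + a) * (g + 2 * a))) := by positivity
  have h3 : y * ((a - c) / g - 2 * a ^ 3 / (g * ((g + a) * (g + 2 * a)))) ≤ y * ((a - c) / g) := by
    apply mul_le_mul_of_nonneg_left _ hy.le
    linarith
  have h4 : y * ((a - c) / g) ≤ a - c := by
    have h5 : y * ((a - c) / g) = (y / g) * (a - c) := by ring
    rw [h5]
    have h6 : y / g ≤ 1 := by
      rw [div_le_one hg]; linarith
    have h7 : 0 ≤ a - c := by linarith
    nlinarith
  linarith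

private lemma conv_step {α β γ δ y : ℝ} (hy : 0 < y) (hδ : y ≤ δ) (h3 : 0 ≤ γ - δ)
    (h2 : γ - δ ≤ β - γ) (h1 : β - γ ≤ α - β) :
    2 * ((β - y) * γ / β) ≤ (α - y) * β / α + (γ - y) * δ / γ := by
  have hγ : 0 < γ := by linarith
  have hβ : 0 < β := by linarith
  have hα : 0 < α := by linarith
  have key := conv_core (g := γ) (a := β - γ) (c := γ - δ) hy (by linarith) h3 h2
  have e1 : γ + (β - γ) = β := by ring
  have e2 : γ + 2 * (β - γ) = β + (β - γ) := by ring
  have e3 : γ - (γ - δ) = δ := by ring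
  rw [e1, e2, e3] at key
  have hba : β / α ≤ β / (β + (β - γ)) := by
    apply div_le_div_of_nonneg_left hβ.le (by linarith) (by linarith)
  have i1 : (β - y) * γ / β = γ - y * (γ / β) := by
    field_simp
  have i2 : (α - y) * β / α = β - y * (β / α) := by
    field_simp
  have i3 : (γ - y) * δ / γ = δ - y * (δ / γ) := by
    field_simp
  rw [i1, i2, i3]
  have hm : y * (β / α) ≤ y * (β / (β + (β - γ))) := mul_le_mul_of_nonneg_left hba hy.le
  nlinarith [key, hm]

private lemma conv_step0 {β γ δ y : ℝ} (hy : 0 < y) (hδ : y ≤ δ) (h3 : 0 ≤ γ - δ)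
    (h2 : γ - δ ≤ β - γ) :
    2 * ((β - y) * γ / β) ≤ β + (γ - y) * δ / γ := by
  have hγ : 0 < γ := by linarith
  have hβ : 0 < β := by linarith
  have i1 : (β - y) * γ / β = γ - y * (γ / β) := by
    field_simp
  have i3 : (γ - y) * δ / γ = δ - y * (δ / γ) := by
    field_simp
  rw [i1, i3]
  suffices h : y * (δ / γ - 2 * (γ / β)) ≤ β - 2 * γ + δ by nlinarith [h]
  have hr : 0 ≤ β - 2 * γ + δ := by linarith
  rcases le_or_gt (δ / γ - 2 * (γ / β)) 0 with hb | hb
  · have : y * (δ / γ - 2 * (γ / β)) ≤ 0 := mul_nonpos_of_nonneg_of_nonpos hy.le hb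
    linarith
  · have h5 : y * (δ / γ - 2 * (γ / β)) ≤ δ * (δ / γ - 2 * (γ / β)) :=
      mul_le_mul_of_nonneg_right hδ hb.le
    refine h5.trans ?_
    have h6 : δ * (δ / γ - 2 * (γ / β)) = δ * (δ * β - 2 * γ ^ 2) / (γ * β) := by
      field_simp
    rw [h6, div_le_iff₀ (by positivity)]
    obtain ⟨c, rfl⟩ : ∃ c, δ = γ - c := ⟨γ - δ, by ring⟩
    obtain ⟨a, rfl⟩ : ∃ a, β = γ + a := ⟨β - γ, by ring⟩
    have hc : 0 ≤ c := by linarith
    have hca : c ≤ a := by linarith
    have hcg : c ≤ γ := by linarith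
    have ha : 0 ≤ a := le_trans hc hca
    have q1 : 0 ≤ c * a * (γ - c) := by
      have : 0 ≤ γ - c := by linarith
      positivity
    have q2 : 0 ≤ γ * (a - c) * (a + c) := by
      have : 0 ≤ a - c := by linarith
      positivity
    have q3 : 0 ≤ γ ^ 2 * (γ - c) := by
      have : 0 ≤ γ - c := by linarith
      positivity
    nlinarith [q1, q2, q3]

private lemma tau_insert_zero [DecidableEq ι] {s : Finset ι} {i : ι} (hi : i ∉ s) (y : ι → ℝ) :
    tau (cs (insert i s) y) 0 = tau (cs s y) 0 + y i := by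
  unfold tau
  rw [cs_insert hi, cs_zero, cs_zero]
  simp

private lemma tau_insert_succ [DecidableEq ι] {s : Finset ι} {i : ι} (hi : i ∉ s) {y : ι → ℝ}
    (hy : ∀ i, 0 < y i) (k : ℕ) :
    tau (cs (insert i s) y) (k + 1) =
      tau (cs s y) k * (tau (cs s y) (k + 1) + y i) / (tau (cs s y) k + y i) := by
  unfold tau
  rw [cs_insert hi, cs_insert hi]
  rcases lt_or_ge s.card k with hk | hk
  · rw [cs_of_gt s y (show s.card < k + 1 + 1 by omega), cs_of_gt s y (show s.card < k + 1 by omega)]
    simp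
  · have h0 : 0 < cs s y k := cs_pos s hy hk
    rcases lt_or_ge s.card (k + 1) with hk1 | hk1
    · rw [cs_of_gt s y hk1, cs_of_gt s y (show s.card < k + 1 + 1 by omega)]
      simp
    · have h1 : 0 < cs s y (k + 1) := cs_pos s hy hk1
      have hyi := hy i
      have hne : cs s y (k + 1) + y i * cs s y k ≠ 0 := by positivity
      have hne2 : cs s y (k + 1) / cs s y k + y i ≠ 0 := by positivity
      field_simp

/-- convexity of the ratios -/
theorem tau_conv (s : Finset ι) {y : ι → ℝ} (hy : ∀ i, 0 < y i) (k : ℕ) :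
    2 * tau (cs s y) (k + 1) ≤ tau (cs s y) k + tau (cs s y) (k + 2) := by
  classical
  induction s using Finset.induction_on generalizing k with
  | empty =>
    rw [tau_of_ge ∅ y (by simp), tau_of_ge ∅ y (by simp), tau_of_ge ∅ y (by simp)]
    simp
  | insert i s hi ih =>
    have hyi := hy i
    -- monotonicity from convexity and eventual vanishing
    have mono : ∀ m, tau (cs s y) (m + 1) ≤ tau (cs s y) m := by
      by_contra hcon
      push Not at hcon
      obtain ⟨m, hm⟩ := hcon
      have grow : ∀ j, tau (cs s y) m < tau (cs s y) (m + 1) ∧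
          tau (cs s y) (m + 1) - tau (cs s y) m ≤
            tau (cs s y) (m + j + 1) - tau (cs s y) (m + j) := by
        intro j
        induction j with
        | zero => exact ⟨hm, le_refl _⟩
        | succ j ihj =>
          refine ⟨hm, ?_⟩
          have := ih (m + j)
          have h2 := ihj.2
          have e : m + (j + 1) = m + j + 1 := by ring
          rw [e]
          have e2 : m + j + 1 + 1 = m + j + 2 := by ring
          rw [e2]
          linarith
      have := (grow s.card).2
      rw [tau_of_ge s y (show s.card ≤ m + s.card + 1 by omega),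
        tau_of_ge s y (show s.card ≤ m + s.card by omega)] at this
      linarith
    have hn := tau_nonneg s hy
    cases k with
    | zero =>
      rw [tau_insert_zero hi, tau_insert_succ hi hy, tau_insert_succ hi hy]
      have := conv_step0 (β := tau (cs s y) 0 + y i) (γ := tau (cs s y) 1 + y i)
        (δ := tau (cs s y) 2 + y i) (y := y i) hyi (by have := hn 2; linarith)
        (by have := mono 1; linarith) (by have := ih 0; norm_num at this; linarith)
      simpa using this
    | succ k =>
      rw [tau_insert_succ hi hy, tau_insert_succ hi hy,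
        show k + 1 + 2 = (k + 2) + 1 by ring, tau_insert_succ hi hy]
      have := conv_step (α := tau (cs s y) k + y i) (β := tau (cs s y) (k + 1) + y i)
        (γ := tau (cs s y) (k + 2) + y i) (δ := tau (cs s y) (k + 3) + y i) (y := y i) hyi
        (by have := hn (k + 3); linarith)
        (by have := mono (k + 2); linarith)
        (by have := ih (k + 1); linarith)
        (by have := ih k; linarith)
      simpa using this

/-- log-concavity -/
theorem tau_anti (s : Finset ι) {y : ι → ℝ} (hy : ∀ i, 0 < y i) : Antitone (tau (cs s y)) := by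
  apply antitone_nat_of_succ_le
  intro m
  by_contra hm
  push Not at hm
  have grow : ∀ j, tau (cs s y) (m + 1) - tau (cs s y) m ≤
        tau (cs s y) (m + j + 1) - tau (cs s y) (m + j) := by
    intro j
    induction j with
    | zero => exact le_refl _
    | succ j ihj =>
      have := tau_conv s hy (m + j)
      have e : m + (j + 1) = m + j + 1 := by ring
      rw [e]
      have e2 : m + j + 1 + 1 = m + j + 2 := by ring
      rw [e2]
      linarith
  have := grow s.card
  rw [tau_of_ge s y (show s.card ≤ m + s.card + 1 by omega),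
    tau_of_ge s y (show s.card ≤ m + s.card by omega)] at this
  linarith

/-- consequence of convexity: `τ_{m+j} ≥ τ_{m-1} - (j+1)(τ_{m-1} - τ_m)` with `m = l + 1` -/
theorem tau_line (s : Finset ι) {y : ι → ℝ} (hy : ∀ i, 0 < y i) (l j : ℕ) :
    tau (cs s y) l - (j + 1) * (tau (cs s y) l - tau (cs s y) (l + 1)) ≤
      tau (cs s y) (l + 1 + j) := by
  have step : ∀ j : ℕ, tau (cs s y) (l + j) - tau (cs s y) (l + j + 1) ≤
      tau (cs s y) l - tau (cs s y) (l + 1) := by
    intro j
    induction j with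
    | zero => exact le_refl _
    | succ j ihj =>
      have := tau_conv s hy (l + j)
      have e : l + (j + 1) = l + j + 1 := by ring
      rw [e]
      have e2 : l + j + 1 + 1 = l + j + 2 := by ring
      rw [e2]
      linarith
  induction j with
  | zero => simp
  | succ j ihj =>
    have h := step (j + 1)
    have e : l + (j + 1) = l + 1 + j := by ring
    rw [e] at h
    have e2 : l + 1 + (j + 1) = l + 1 + j + 1 := by ring
    rw [e2]
    push_cast
    push_cast at ihj
    linarith

end Pool.Agent.RL51
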