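import Pool.Agent.RL51.WinE
import Pool.Agent.RL51.TauC

/-!
# RL51.Far: the terms above the window (task RL51-Far)

`φ = π/r`, `V = VV p`, `S = V/r ≥ 0.52`, so `1/V = φ/(π S) ≤ 0.6122 φ`; `w0 = wi r`;
`Q = exp (r Re EE w0 + r Re Lam w0)`, `MM = 0.9 √S Q`.

Upper side, `k > N2`.  Let `x1 < x2` be the nodes of `N2 - 1`, `N2` (`Win.node`, `Win.le2`).
By `kap_re_lower`: `B - x2 ≤ (1/2)/(0.943 V) ≤ 0.5303/V ≤ 0.325 φ`, `B - x1 ≤ 1.5907/V ≤ 0.974 φ`, so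
`x2 ≥ 3.675 φ`, `x1 ≥ 3.026 φ`, `x2 - x1 ≤ 1.0605/V`.
* `PP_rpow_eq` (with `kap x2 = N2`), `real_G`, `EE_wi`, `Lam_box`, with `X = x2/φ ∈ [3.675, 5]`:
  `P_{N2}^r = exp (r (EE x2 - N2 x2) + r Lam x2)
     ≤ Q exp (-0.4715 r V φ^2 X^2 + 0.5285 r V φ^2 + 1.5 r φ √(X^2+1))`,
  `r V φ^2 = π^2 S`, `√(X^2 + 1) ≤ X + 0.14`, exponent
  `≤ -4.6535 S X^2 + 5.2161 S + 4.7124 X + 0.66`, which for `S ≥ 0.52`, `X ≥ 3.675` is at most its value
  at `S = 0.52`, `X = 3.675`: `-32.68 + 2.72 + 17.32 + 0.66 ≤ -11`.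
* `(P_{N2}/P_{N2-1})^r ≤ e^{-6}`: by convexity of `EE` on the real axis
  (`EE' = kap`, increasing) `EE x2 - EE x1 ≤ kap x2 (x2 - x1) = N2 (x2 - x1)`, so
  `r (EE x2 - N2 x2) - r (EE x1 - (N2-1) x1) ≤ - r x1 ≤ -3.026 π ≤ -9.5`; and
  `r (Lam x2 - Lam x1) ≤ 1.5 r 1.0605/V ≤ 1.591/S ≤ 3.06`.
* log-concavity (`PP_logconcave`): `P_{k+1}/P_k ≤ P_{N2}/P_{N2-1}` for `k ≥ N2 - 1`; so
  `P_{N2+i}^r ≤ P_{N2}^r e^{-6i}` for all `i ≥ 0` (`P_k = 0` for `k > card ι`).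
* `far_dist`: `|N2 - c| ≤ ‖kap x2 - kap w0‖ ≤ 1.057 V 5.1 φ ≤ 5.4 π S ≤ 5.8 K`, so
  `|N2 + i - c| ≤ 5.8 K + i ≤ 6.8 i K` (`K ≥ 1`, `i ≥ 1`).
* `∑_{i ≥ 1} 6.8 i e^{-6i} ≤ 0.02`; so the sum is
  `≤ 0.02 e^{-11} Q K^j ≤ (1/200) MM K^j` since `MM ≥ 0.9 * 0.72 Q`.
The lower side `k < N1` is the mirror image (with `x1 > x2` the nodes of `N1 + 1`, `N1`,
`x2 ≤ -3.675 φ`, `x1 ≤ -3.026 φ`, `EE x2 - EE x1 ≤ -kap x2 (x1 - x2)`).
-/

open Finset Polynomial

namespace Pool.Agent.RL51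

variable {ι : Type} [Fintype ι]

/-- log-concavity of the point probabilities (`PP_eq_cs`, `tau_anti`) -/
lemma PP_logconcave {p : ι → ℝ} (hp : Adm p) {k l : ℕ} (hkl : k ≤ l) :
    PP p (l + 1) * PP p k ≤ PP p l * PP p (k + 1) := by
  rcases lt_or_ge (Fintype.card ι) (l + 1) with hl | hl
  · rw [PP_zero_of_gt p hl, zero_mul]
    exact mul_nonneg (PP_nonneg hp _) (PP_nonneg hp _)
  · have hy : ∀ i, 0 < p i / (1 - p i) := fun i =>
      div_pos (hp i).1 (by linarith [(hp i).2])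
    have hD : 0 < ∏ i, (1 - p i) := prod_pos fun i _ => by linarith [(hp i).2]
    have h1 := tau_anti univ hy hkl
    have hcl : 0 < cs univ (fun i => p i / (1 - p i)) l :=
      cs_pos univ hy (by rw [card_univ]; omega)
    have hck : 0 < cs univ (fun i => p i / (1 - p i)) k :=
      cs_pos univ hy (by rw [card_univ]; omega)
    unfold tau at h1
    rw [div_le_div_iff₀ hcl hck] at h1
    rw [PP_eq_cs hp, PP_eq_cs hp, PP_eq_cs hp, PP_eq_cs hp]
    have h2 := mul_le_mul_of_nonneg_left h1 (mul_pos hD hD).le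
    calc _ = (∏ i, (1 - p i)) * (∏ i, (1 - p i)) *
        (cs univ (fun i => p i / (1 - p i)) (l + 1) * cs univ (fun i => p i / (1 - p i)) k) := by
          ring
      _ ≤ _ := h2
      _ = _ := by ring

/-- basic numerical facts -/
private lemma numf {p : ι → ℝ} {r : ℝ} (hB : Big p r) :
    0 < VV p ∧ 0 < Real.pi / r ∧ r * (Real.pi / r) = Real.pi ∧
      4084 / 2500 ≤ VV p * (Real.pi / r) ∧ 0 < r := by
  have hr : (0 : ℝ) < r := by linarith [hB.hr]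
  have hpi := Real.pi_gt_d6
  have hφ : 0 < Real.pi / r := phi_pos hB.hr
  refine ⟨by linarith [hB.hV, hB.hr], hφ, by field_simp, ?_, hr⟩
  have h1 : 13 / 25 * r * (Real.pi / r) ≤ VV p * (Real.pi / r) :=
    mul_le_mul_of_nonneg_right hB.hV hφ.le
  have h2 : 13 / 25 * r * (Real.pi / r) = 13 / 25 * Real.pi := by field_simp
  nlinarith

/-- monotonicity of `EE`-slopes on the real axis -/
private lemma EE_slope {p : ι → ℝ} {r : ℝ} (hB : Big p r) {x y : ℝ}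
    (hx : |x| ≤ 5 * (Real.pi / r)) (hy : |y| ≤ 5 * (Real.pi / r)) (hxy : x < y) :
    (EE p (y : ℂ)).re - (EE p (x : ℂ)).re ≤ (kap p (y : ℂ)).re * (y - x) := by
  have hd : ∀ t : ℝ, HasDerivAt (fun s : ℝ => (EE p (s : ℂ)).re) (kap p (t : ℂ)).re t := by
    intro t
    have h := hasDerivAt_EE hB.adm (w := (t : ℂ)) (by simp [Real.pi_pos])
    exact h.real_of_complex
  obtain ⟨c, hc, hc2⟩ := exists_hasDerivAt_eq_slope (fun s : ℝ => (EE p (s : ℂ)).re)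
    (fun s : ℝ => (kap p (s : ℂ)).re) hxy
    (fun t _ => (hd t).continuousAt.continuousWithinAt) (fun t _ => hd t)
  have hyx : 0 < y - x := sub_pos.2 hxy
  have hc3 : |c| ≤ 5 * (Real.pi / r) := by
    rw [abs_le] at hx hy ⊢
    exact ⟨by linarith [hc.1], by linarith [hc.2]⟩
  have h1 := kap_re_lower hB (ofReal_mem_box hB.hr hc3) (ofReal_mem_box hB.hr hy) hc.2.le
  have h2 : 0 ≤ 943 / 1000 * VV p * (y - c) := by
    have := (numf hB).1
    have h3 : 0 ≤ y - c := by linarith [hc.2]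
    positivity
  rw [eq_div_iff hyx.ne'] at hc2
  have h4 : (kap p (c : ℂ)).re ≤ (kap p (y : ℂ)).re := by linarith
  calc (EE p (y : ℂ)).re - (EE p (x : ℂ)).re = (kap p (c : ℂ)).re * (y - x) := hc2.symm
    _ ≤ _ := mul_le_mul_of_nonneg_right h4 hyx.le

/-- distance from a real point to the saddle point -/
private lemma dist_wi {r x : ℝ} (hr : 300 ≤ r) (c : ℝ) (hc : 0 ≤ c)
    (h : x ^ 2 + (Real.pi / r) ^ 2 ≤ c ^ 2) : ‖(x : ℂ) - wi r‖ ≤ c := by
  have h1 : ‖(x : ℂ) - wi r‖ = Real.sqrt (x ^ 2 + (Real.pi / r) ^ 2) := by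
    rw [Complex.norm_eq_sqrt_sq_add_sq]
    congr 1
    simp [wi]
  rw [h1]
  exact Real.sqrt_le_iff.2 ⟨hc, h⟩

/-- the node of `N2` -/
private lemma node2 {p : ι → ℝ} {r A B : ℝ} {N1 N2 : ℕ} (hB : Big p r) (hW : Win p r A B N1 N2) :
    ∃ x1 x2 : ℝ, kap p (x1 : ℂ) = ((N2 - 1 : ℕ) : ℂ) ∧ kap p (x2 : ℂ) = (N2 : ℂ) ∧
      3026 / 1000 * (Real.pi / r) ≤ x1 ∧ 3675 / 1000 * (Real.pi / r) ≤ x2 ∧ x1 < x2 ∧
      x2 ≤ 5 * (Real.pi / r) ∧ 943 / 1000 * VV p * (x2 - x1) ≤ 1 := by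
  obtain ⟨hV, hφ, hrφ, hVφ, hr⟩ := numf hB
  have h2 := Win.le2 hB hW
  obtain ⟨x2, a2, b2, c2⟩ := Win.node hB hW (k := N2) (mem_Icc.2 ⟨by omega, le_rfl⟩)
  obtain ⟨x1, a1, b1, c1⟩ := Win.node hB hW (k := N2 - 1) (mem_Icc.2 ⟨by omega, by omega⟩)
  have hbox : ∀ x : ℝ, -A < x → x < B → |x| ≤ 5 * (Real.pi / r) := by
    intro x hx1 hx2
    rw [abs_le]
    exact ⟨by linarith [hW.hA2], by linarith [hW.hB2]⟩
  have hm1 : (x1 : ℂ) ∈ Box r := ofReal_mem_box hB.hr (hbox x1 a1 b1)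
  have hm2 : (x2 : ℂ) ∈ Box r := ofReal_mem_box hB.hr (hbox x2 a2 b2)
  have hmB : (B : ℂ) ∈ Box r := ofReal_mem_box hB.hr (by
    rw [abs_of_nonneg (by linarith [hW.hB1])]; exact hW.hB2)
  have hk2 : (kap p (x2 : ℂ)).re = N2 := by rw [c2]; simp
  have hk1 : (kap p (x1 : ℂ)).re = N2 - 1 := by
    rw [c1, Nat.cast_sub (by omega)]; simp
  have hkB : (kap p (B : ℂ)).re = N2 + 1 / 2 := by
    rw [hW.hN2]; norm_num
  have hlt : x1 < x2 := by
    by_contra hcon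
    push Not at hcon
    have h := kap_re_lower hB hm2 hm1 hcon
    have h' : 0 ≤ 943 / 1000 * VV p * (x1 - x2) := by
      have : 0 ≤ x1 - x2 := by linarith
      positivity
    rw [hk1, hk2] at h
    linarith
  have e1 := kap_re_lower hB hm1 hmB b1.le
  have e2 := kap_re_lower hB hm2 hmB b2.le
  have e3 := kap_re_lower hB hm1 hm2 hlt.le
  rw [hkB, hk1] at e1
  rw [hkB, hk2] at e2
  rw [hk1, hk2] at e3
  have key : ∀ (x c d : ℝ), x < B → 943 / 1000 * VV p * (B - x) ≤ c →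
      c ≤ 943 / 1000 * (4084 / 2500) * (4 - d) → d ≤ 4 → d * (Real.pi / r) ≤ x := by
    intro x c d hxB h1 h2 h3
    by_contra hcon
    push Not at hcon
    have h4 : (4 - d) * (Real.pi / r) < B - x := by linarith [hW.hB1]
    have h5 : 943 / 1000 * VV p * ((4 - d) * (Real.pi / r)) < 943 / 1000 * VV p * (B - x) :=
      mul_lt_mul_of_pos_left h4 (by positivity)
    have h6 : 943 / 1000 * (4084 / 2500) * (4 - d) ≤
        943 / 1000 * VV p * ((4 - d) * (Real.pi / r)) := by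
      have h7 : (4084 / 2500) * (4 - d) ≤ VV p * (Real.pi / r) * (4 - d) :=
        mul_le_mul_of_nonneg_right hVφ (by linarith)
      nlinarith
    linarith
  refine ⟨x1, x2, c1, c2, ?_, ?_, hlt, by linarith [hW.hB2], by linarith⟩
  · exact key x1 (3 / 2) (3026 / 1000) b1 (by linarith) (by norm_num) (by norm_num)
  · exact key x2 (1 / 2) (3675 / 1000) b2 (by linarith) (by norm_num) (by norm_num)

/-- geometric decay above the window -/
theorem far_up {p : ι → ℝ} {r A B : ℝ} {N1 N2 : ℕ} (hB : Big p r) (hW : Win p r A B N1 N2)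
    (i : ℕ) :
    PP p (N2 + i) ^ r ≤ Real.exp (r * (EE p (wi r)).re + r * (Lam p (wi r)).re) *
      Real.exp (-11 - 6 * i) := by
  obtain ⟨hV, hφ, hrφ, hVφ, hr⟩ := numf hB
  have h2 := Win.le2 hB hW
  have h3 := Win.le3 hB hW
  obtain ⟨x1, x2, c1, c2, l1, l2, hlt, u2, e3⟩ := node2 hB hW
  set φ : ℝ := Real.pi / r with hφd
  have hpi := Real.pi_gt_d4
  have hpi2 := Real.pi_lt_d4
  have hφ2 : φ ≤ 21 / 2000 := phi_le hB.hr
  have hx1 : |x1| ≤ 5 * φ := by rw [abs_le]; constructor <;> nlinarith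
  have hx2 : |x2| ≤ 5 * φ := by rw [abs_le]; constructor <;> nlinarith
  have hm1 : (x1 : ℂ) ∈ Box r := ofReal_mem_box hB.hr hx1
  have hm2 : (x2 : ℂ) ∈ Box r := ofReal_mem_box hB.hr hx2
  have hs1 : |x1| ≤ 1 / 5 := by linarith
  have hs2 : |x2| ≤ 1 / 5 := by linarith
  have hk2 : (kap p (x2 : ℂ)).re = N2 := by rw [c2]; simp
  have hP2 := PP_rpow_eq hB.adm hB.V156 r hs2 c2
  have hP1 := PP_rpow_eq hB.adm hB.V156 r hs1 c1
  rw [Nat.cast_sub (by omega : 1 ≤ N2)] at hP1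
  push_cast at hP1
  -- the first term
  have hG := real_G hB hm2
  rw [hk2] at hG
  have hE := EE_wi hB
  have hLam : (Lam p (x2 : ℂ)).re - (Lam p (wi r)).re ≤ 3 / 2 * (x2 + 14 / 100 * φ) := by
    have h := Lam_box hB (wi_mem_box hB.hr) hm2
    have hx20 : 0 ≤ x2 := le_trans (by positivity) l2
    have hd : ‖(x2 : ℂ) - wi r‖ ≤ x2 + 14 / 100 * φ := by
      apply dist_wi hB.hr _ (by positivity)
      rw [← hφd]
      nlinarith
    have hre := Complex.re_le_norm (Lam p (x2 : ℂ) - Lam p (wi r))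
    rw [Complex.sub_re] at hre
    linarith
  have hfirst : r * ((EE p (x2 : ℂ)).re - N2 * x2) + r * (Lam p (x2 : ℂ)).re ≤
      r * (EE p (wi r)).re + r * (Lam p (wi r)).re - 11 := by
    -- normalise: `x2 = X φ`, `T = V φ`
    obtain ⟨X, hX⟩ : ∃ X : ℝ, x2 = X * φ := ⟨x2 / φ, by field_simp⟩
    have hX1 : 3675 / 1000 ≤ X := by
      rw [hX] at l2
      exact le_of_mul_le_mul_right l2 hφ
    obtain ⟨T, hT⟩ : ∃ T : ℝ, T = VV p * φ := ⟨_, rfl⟩
    rw [← hT] at hVφ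
    have g1 : r * ((EE p (x2 : ℂ)).re - N2 * x2) ≤ r * (-(943 / 2000 * VV p * x2 ^ 2)) :=
      mul_le_mul_of_nonneg_left hG hr.le
    have g2 : r * (-(943 / 2000 * VV p * x2 ^ 2)) = -(943 / 2000 * Real.pi * T * X ^ 2) := by
      rw [hX, hT, ← hrφ]; ring
    have g3 : r * (-(1057 / 2000 * VV p * φ ^ 2)) ≤ r * (EE p (wi r)).re :=
      mul_le_mul_of_nonneg_left hE hr.le
    have g4 : r * (-(1057 / 2000 * VV p * φ ^ 2)) = -(1057 / 2000 * Real.pi * T) := by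
      rw [hT, ← hrφ]; ring
    have g5 : r * ((Lam p (x2 : ℂ)).re - (Lam p (wi r)).re) ≤ r * (3 / 2 * (x2 + 14 / 100 * φ)) :=
      mul_le_mul_of_nonneg_left hLam hr.le
    have g6 : r * (3 / 2 * (x2 + 14 / 100 * φ)) = 3 / 2 * Real.pi * (X + 14 / 100) := by
      rw [hX, ← hrφ]; ring
    have g7 : Real.pi * (943 / 2000 * T * X ^ 2 - 1057 / 2000 * T - 3 / 2 * (X + 14 / 100)) ≥
        Real.pi * (351 / 100) := by
      apply mul_le_mul_of_nonneg_left _ Real.pi_pos.le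
      have g8 : 0 ≤ (T - 4084 / 2500) * (943 / 2000 * X ^ 2 - 1057 / 2000) := by
        apply mul_nonneg (by linarith)
        nlinarith
      nlinarith
    nlinarith
  have hratio : (r * ((EE p (x2 : ℂ)).re - N2 * x2) + r * (Lam p (x2 : ℂ)).re) -
      (r * ((EE p (x1 : ℂ)).re - (N2 - 1) * x1) + r * (Lam p (x1 : ℂ)).re) ≤ -6 := by
    have g1 := EE_slope hB hx1 hx2 hlt
    rw [hk2] at g1
    have g2 : (Lam p (x2 : ℂ)).re - (Lam p (x1 : ℂ)).re ≤ 3 / 2 * (x2 - x1) := by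
      have h := Lam_box hB hm1 hm2
      have hd : ‖(x2 : ℂ) - x1‖ = x2 - x1 := by
        rw [← Complex.ofReal_sub, Complex.norm_real, Real.norm_of_nonneg (by linarith)]
      rw [hd] at h
      have hre := Complex.re_le_norm (Lam p (x2 : ℂ) - Lam p (x1 : ℂ))
      rw [Complex.sub_re] at hre
      linarith
    have g3 : r * ((EE p (x2 : ℂ)).re - (EE p (x1 : ℂ)).re) ≤ r * (N2 * (x2 - x1)) :=
      mul_le_mul_of_nonneg_left g1 hr.le
    have g4 : r * ((Lam p (x2 : ℂ)).re - (Lam p (x1 : ℂ)).re) ≤ r * (3 / 2 * (x2 - x1)) :=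
      mul_le_mul_of_nonneg_left g2 hr.le
    have g5 : r * (3026 / 1000 * φ) ≤ r * x1 := mul_le_mul_of_nonneg_left l1 hr.le
    have g6 : r * (3026 / 1000 * φ) = 3026 / 1000 * Real.pi := by rw [← hrφ]; ring
    have g7 : r * (3 / 2 * (x2 - x1)) ≤ 306 / 100 := by
      have h1 : 13 / 25 * r * (x2 - x1) ≤ VV p * (x2 - x1) :=
        mul_le_mul_of_nonneg_right hB.hV (by linarith)
      nlinarith
    nlinarith
  -- conclusion
  have hQ : PP p N2 ^ r ≤ Real.exp (r * (EE p (wi r)).re + r * (Lam p (wi r)).re) *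
      Real.exp (-11) := by
    rw [hP2, ← Real.exp_add]
    exact Real.exp_le_exp.2 (by linarith)
  have hR : PP p N2 ^ r ≤ PP p (N2 - 1) ^ r * Real.exp (-6) := by
    rw [hP2, hP1, ← Real.exp_add]
    exact Real.exp_le_exp.2 (by linarith)
  have hp1 : 0 < PP p (N2 - 1) := PP_pos hB.adm (by omega)
  induction i with
  | zero => simpa using hQ
  | succ i ih =>
    have hlc := PP_logconcave hB.adm (k := N2 - 1) (l := N2 + i) (by omega)
    rw [Nat.sub_add_cancel (by omega : 1 ≤ N2)] at hlc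
    have h5 : (PP p (N2 + i + 1) * PP p (N2 - 1)) ^ r ≤ (PP p (N2 + i) * PP p N2) ^ r :=
      Real.rpow_le_rpow (mul_nonneg (PP_nonneg hB.adm _) (PP_nonneg hB.adm _)) hlc hr.le
    rw [Real.mul_rpow (PP_nonneg hB.adm _) (PP_nonneg hB.adm _),
      Real.mul_rpow (PP_nonneg hB.adm _) (PP_nonneg hB.adm _)] at h5
    have h6 : 0 < PP p (N2 - 1) ^ r := Real.rpow_pos_of_pos hp1 r
    have h7 : 0 ≤ PP p (N2 + i) ^ r := Real.rpow_nonneg (PP_nonneg hB.adm _) r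
    have h8 : PP p (N2 + i + 1) ^ r * PP p (N2 - 1) ^ r ≤
        (PP p (N2 + i) ^ r * Real.exp (-6)) * PP p (N2 - 1) ^ r := by
      calc _ ≤ PP p (N2 + i) ^ r * PP p N2 ^ r := h5
        _ ≤ PP p (N2 + i) ^ r * (PP p (N2 - 1) ^ r * Real.exp (-6)) :=
          mul_le_mul_of_nonneg_left hR h7
        _ = _ := by ring
    have h9 : PP p (N2 + i + 1) ^ r ≤ PP p (N2 + i) ^ r * Real.exp (-6) :=
      le_of_mul_le_mul_right h8 h6
    calc PP p (N2 + (i + 1)) ^ r ≤ PP p (N2 + i) ^ r * Real.exp (-6) := h9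
      _ ≤ (Real.exp (r * (EE p (wi r)).re + r * (Lam p (wi r)).re) *
          Real.exp (-11 - 6 * i)) * Real.exp (-6) :=
        mul_le_mul_of_nonneg_right ih (Real.exp_pos _).le
      _ = _ := by
        rw [mul_assoc, ← Real.exp_add]
        congr 2
        push_cast
        ring

/-- distance to the centre -/
theorem far_dist {p : ι → ℝ} {r A B : ℝ} {N1 N2 : ℕ} (hB : Big p r) (hW : Win p r A B N1 N2) :
    |(N2 : ℝ) - cc p r| ≤ 29 / 5 * KK p r ∧ |(N1 : ℝ) - cc p r| ≤ 29 / 5 * KK p r := by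
  obtain ⟨hV, hφ, hrφ, hVφ, hr⟩ := numf hB
  have h2 := Win.le2 hB hW
  obtain ⟨x2, a2, b2, c2⟩ := Win.node hB hW (k := N2) (mem_Icc.2 ⟨by omega, le_rfl⟩)
  obtain ⟨x1, a1, b1, c1⟩ := Win.node hB hW (k := N1) (mem_Icc.2 ⟨le_rfl, by omega⟩)
  have key : ∀ (x : ℝ) (k : ℕ), -A < x → x < B → kap p (x : ℂ) = k →
      |(k : ℝ) - cc p r| ≤ 29 / 5 * KK p r := by
    intro x k hx1 hx2 hk
    have hxa : |x| ≤ 5 * (Real.pi / r) := by
      rw [abs_le]
      exact ⟨by linarith [hW.hA2], by linarith [hW.hB2]⟩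
    have hm := ofReal_mem_box hB.hr hxa
    have hd : ‖(x : ℂ) - wi r‖ ≤ 51 / 10 * (Real.pi / r) := by
      apply dist_wi hB.hr _ (by positivity)
      have h1 : x ^ 2 ≤ (5 * (Real.pi / r)) ^ 2 := sq_le_sq' (abs_le.1 hxa).1 (abs_le.1 hxa).2
      nlinarith [sq_nonneg (Real.pi / r)]
    have hb := kap_box hB (wi_mem_box hB.hr) hm
    have hn : ‖kap p (x : ℂ) - kap p (wi r)‖ ≤ 1057 / 1000 * VV p * ‖(x : ℂ) - wi r‖ := by
      have h1 : kap p (x : ℂ) - kap p (wi r) =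
          (kap p (x : ℂ) - kap p (wi r) - (VV p : ℂ) * ((x : ℂ) - wi r)) +
            (VV p : ℂ) * ((x : ℂ) - wi r) := by ring
      rw [h1]
      refine (norm_add_le _ _).trans ?_
      have h2 : ‖(VV p : ℂ) * ((x : ℂ) - wi r)‖ = VV p * ‖(x : ℂ) - wi r‖ := by
        rw [norm_mul, Complex.norm_real, Real.norm_of_nonneg hV.le]
      rw [h2]
      linarith
    have hre : |(k : ℝ) - cc p r| ≤ ‖kap p (x : ℂ) - kap p (wi r)‖ := by
      have h := Complex.abs_re_le_norm (kap p (x : ℂ) - kap p (wi r))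
      rw [Complex.sub_re] at h
      have h' : (kap p (x : ℂ)).re = k := by rw [hk]; simp
      rw [h'] at h
      exact h
    have hK := KK_lower hB
    have h5 : Real.pi * (VV p / r) = VV p * (Real.pi / r) := by ring
    rw [h5] at hK
    have h6 : 1057 / 1000 * VV p * ‖(x : ℂ) - wi r‖ ≤
        1057 / 1000 * VV p * (51 / 10 * (Real.pi / r)) :=
      mul_le_mul_of_nonneg_left hd (by positivity)
    nlinarith
  exact ⟨key x2 N2 a2 b2 c2, key x1 N1 a1 b1 c1⟩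

end Pool.Agent.RL51
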