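import Pool.Agent.RL51.FarD

/-!
# RL51.FarB: the sum of the terms outside the window (task RL51-FarB)

`Q = exp (r Re EE w0 + r Re Lam w0)`, `MM = 0.9 √S Q`, `S = V/r ≥ 0.52`, `K = KK p r ≥ 3/2`.
By `far_up`, `far_down`: `P_{N2+i}^r, P_{N1-i}^r ≤ Q e^{-11-6i}`; by `far_dist`
`|N2 + i - c|, |N1 - i - c| ≤ 5.8 K + i ≤ 6.8 i K` (`K ≥ 1`, `i ≥ 1`).  `∑_{i ≥ 1} 6.8 i e^{-6i} ≤ 0.02`
(`i e^{-6i} ≤ e^{-5i}`), so each of the two sums (`k < N1`, `N2 < k ≤ card ι`) is at most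
`0.05 e^{-11} Q K^j ≤ (1/200) MM K^j` since `MM ≥ 0.9 * 0.72 Q`.
-/

open Finset Polynomial

namespace Pool.Agent.RL51

variable {ι : Type} [Fintype ι]

private lemma geo (n : ℕ) : ∑ i ∈ range n, (1 / 100 : ℝ) ^ (i + 1) ≤ 1 / 99 := by
  have h : ∑ i ∈ range n, (1 / 100 : ℝ) ^ (i + 1) = (1 - (1 / 100 : ℝ) ^ n) / 99 := by
    induction n with
    | zero => simp
    | succ n ih =>
      rw [sum_range_succ, ih, pow_succ]
      ring
  rw [h]
  have h2 : (0 : ℝ) ≤ (1 / 100 : ℝ) ^ n := by positivity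
  linarith

private lemma exp5 : Real.exp (-5) ≤ 1 / 100 := by
  have h1 : (2.7 : ℝ) < Real.exp 1 := by linarith [Real.exp_one_gt_d9]
  have h2 : Real.exp 5 = Real.exp 1 ^ 5 := by
    rw [← Real.exp_nat_mul]
    norm_num
  have h3 : (100 : ℝ) ≤ Real.exp 5 := by
    rw [h2]
    calc (100 : ℝ) ≤ 2.7 ^ 5 := by norm_num
      _ ≤ Real.exp 1 ^ 5 := pow_le_pow_left₀ (by norm_num) h1.le 5
  rw [Real.exp_neg, ← one_div]
  exact one_div_le_one_div_of_le (by norm_num) h3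

private lemma exp11 : Real.exp (-11) ≤ 1 / 10000 := by
  have h : Real.exp (-11) = Real.exp (-5) * Real.exp (-5) * Real.exp (-1) := by
    rw [← Real.exp_add, ← Real.exp_add]
    norm_num
  have h1 : Real.exp (-1) ≤ 1 := Real.exp_le_one_iff.2 (by norm_num)
  have h5 := exp5
  have p5 := Real.exp_pos (-5)
  have p1 := Real.exp_pos (-1)
  rw [h]
  calc Real.exp (-5) * Real.exp (-5) * Real.exp (-1) ≤ 1 / 100 * (1 / 100) * 1 := by gcongr
    _ = 1 / 10000 := by norm_num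

/-- `i e^{-6i} ≤ 100^{-i}` -/
private lemma term_le (i : ℕ) : (i : ℝ) * Real.exp (-6 * i) ≤ (1 / 100 : ℝ) ^ i := by
  have h1 : (i : ℝ) ≤ Real.exp i := by linarith [Real.add_one_le_exp (i : ℝ)]
  have h2 : Real.exp (i : ℝ) * Real.exp (-6 * i) = Real.exp (-5) ^ i := by
    rw [← Real.exp_add, ← Real.exp_nat_mul]
    congr 1
    ring
  calc (i : ℝ) * Real.exp (-6 * i) ≤ Real.exp i * Real.exp (-6 * i) :=
        mul_le_mul_of_nonneg_right h1 (Real.exp_pos _).le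
    _ = Real.exp (-5) ^ i := h2
    _ ≤ (1 / 100 : ℝ) ^ i := pow_le_pow_left₀ (Real.exp_pos _).le exp5 i

/-- one term -/
private lemma one_term {P Q K x : ℝ} {i j : ℕ} (hj : j ≤ 1) (hi : 1 ≤ i) (hK : 3 / 2 ≤ K)
    (hQ : 0 ≤ Q) (hP : P ≤ Q * Real.exp (-11 - 6 * i)) (hx : |x| ≤ 29 / 5 * K + i) :
    P * |x| ^ j ≤ 34 / 5 * (Q * Real.exp (-11)) * K ^ j * (1 / 100 : ℝ) ^ i := by
  have hi1 : (1 : ℝ) ≤ i := by exact_mod_cast hi
  have hxj : |x| ^ j ≤ 34 / 5 * i * K ^ j := by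
    interval_cases j
    · simp only [pow_zero, mul_one]
      linarith
    · simp only [pow_one]
      nlinarith [mul_nonneg (sub_nonneg.2 hi1) (by linarith : (0 : ℝ) ≤ K),
        mul_nonneg (by linarith : (0 : ℝ) ≤ (i : ℝ)) (by linarith : (0 : ℝ) ≤ K - 1)]
  have he : Real.exp (-11 - 6 * (i : ℝ)) = Real.exp (-11) * Real.exp (-6 * i) := by
    rw [← Real.exp_add]
    congr 1
    ring
  rw [he] at hP
  have hK0 : 0 ≤ K ^ j := pow_nonneg (by linarith) j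
  have h11 := (Real.exp_pos (-11)).le
  calc P * |x| ^ j ≤ (Q * (Real.exp (-11) * Real.exp (-6 * i))) * |x| ^ j :=
        mul_le_mul_of_nonneg_right hP (by positivity)
    _ ≤ (Q * (Real.exp (-11) * Real.exp (-6 * i))) * (34 / 5 * i * K ^ j) :=
        mul_le_mul_of_nonneg_left hxj (by positivity)
    _ = 34 / 5 * (Q * Real.exp (-11)) * K ^ j * ((i : ℝ) * Real.exp (-6 * i)) := by ring
    _ ≤ _ := mul_le_mul_of_nonneg_left (term_le i) (by positivity)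

theorem far_bound {p : ι → ℝ} {r A B : ℝ} {N1 N2 : ℕ} (hB : Big p r)
    (hW : Win p r A B N1 N2) {j : ℕ} (hj : j ≤ 1) :
    ∑ k ∈ (range (Fintype.card ι + 1)).filter (fun k => k < N1 ∨ N2 < k),
      PP p k ^ r * |(k : ℝ) - cc p r| ^ j ≤ 1 / 100 * MM p r * KK p r ^ j := by
  have hK := KK_ge hB
  obtain ⟨d2, d1⟩ := far_dist hB hW
  obtain ⟨Q, hQd⟩ : ∃ Q, Q = Real.exp (r * (EE p (wi r)).re + r * (Lam p (wi r)).re) := ⟨_, rfl⟩
  have hQ : 0 < Q := hQd ▸ Real.exp_pos _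
  obtain ⟨D, hD⟩ : ∃ D, D = 34 / 5 * (Q * Real.exp (-11)) * KK p r ^ j := ⟨_, rfl⟩
  have hKj : 0 < KK p r ^ j := pow_pos (by linarith) j
  have hD0 : 0 ≤ D := by
    rw [hD]
    have := (Real.exp_pos (-11)).le
    positivity
  have hnn : ∀ k : ℕ, 0 ≤ PP p k ^ r * |(k : ℝ) - cc p r| ^ j := fun k =>
    mul_nonneg (Real.rpow_nonneg (PP_nonneg hB.adm _) r) (by positivity)
  -- terms above the window
  have hup : ∀ i : ℕ, PP p (N2 + 1 + i) ^ r * |((N2 + 1 + i : ℕ) : ℝ) - cc p r| ^ j ≤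
      D * (1 / 100 : ℝ) ^ (i + 1) := by
    intro i
    rw [hD]
    have h := far_up hB hW (i + 1)
    rw [← hQd] at h
    have e : N2 + (i + 1) = N2 + 1 + i := by omega
    rw [e] at h
    refine one_term hj (by omega) hK hQ.le h ?_
    have e2 : ((N2 + 1 + i : ℕ) : ℝ) - cc p r = ((N2 : ℝ) - cc p r) + ((i + 1 : ℕ) : ℝ) := by
      push_cast
      ring
    rw [e2]
    have h3 := abs_of_nonneg (Nat.cast_nonneg (α := ℝ) (i + 1))
    have h4 := abs_add_le ((N2 : ℝ) - cc p r) ((i + 1 : ℕ) : ℝ)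
    linarith
  -- terms below the window
  have hdn : ∀ k ∈ range N1, PP p k ^ r * |(k : ℝ) - cc p r| ^ j ≤
      D * (1 / 100 : ℝ) ^ (N1 - 1 - k + 1) := by
    intro k hk
    rw [mem_range] at hk
    rw [hD]
    have h := far_down hB hW (i := N1 - 1 - k + 1) (by omega)
    rw [← hQd] at h
    have e : N1 - (N1 - 1 - k + 1) = k := by omega
    rw [e] at h
    refine one_term hj (by omega) hK hQ.le h ?_
    have e2 : (k : ℝ) - cc p r = ((N1 : ℝ) - cc p r) - ((N1 - 1 - k + 1 : ℕ) : ℝ) := by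
      have : (N1 : ℝ) = (k : ℝ) + ((N1 - 1 - k + 1 : ℕ) : ℝ) := by
        rw [← Nat.cast_add]
        congr 1
        omega
      rw [this]
      ring
    rw [e2]
    have h3 := abs_of_nonneg (Nat.cast_nonneg (α := ℝ) (N1 - 1 - k + 1))
    have h4 := abs_sub ((N1 : ℝ) - cc p r) ((N1 - 1 - k + 1 : ℕ) : ℝ)
    linarith
  have hsub : (range (Fintype.card ι + 1)).filter (fun k => k < N1 ∨ N2 < k) ⊆
      range N1 ∪ Ico (N2 + 1) (Fintype.card ι + 1) := by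
    intro k hk
    rw [mem_filter, mem_range] at hk
    rw [mem_union, mem_range, mem_Ico]
    omega
  have h2 := Win.le2 hB hW
  have hdisj : Disjoint (range N1) (Ico (N2 + 1) (Fintype.card ι + 1)) := by
    rw [Finset.disjoint_left]
    intro k hk hk'
    rw [mem_range] at hk
    rw [mem_Ico] at hk'
    omega
  have s1 : ∑ k ∈ range N1, PP p k ^ r * |(k : ℝ) - cc p r| ^ j ≤ D * (1 / 99) := by
    calc _ ≤ ∑ k ∈ range N1, D * (1 / 100 : ℝ) ^ (N1 - 1 - k + 1) := sum_le_sum hdn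
      _ = D * ∑ k ∈ range N1, (1 / 100 : ℝ) ^ (N1 - 1 - k + 1) := by rw [mul_sum]
      _ = D * ∑ k ∈ range N1, (1 / 100 : ℝ) ^ (k + 1) := by
        rw [sum_range_reflect (fun k => (1 / 100 : ℝ) ^ (k + 1)) N1]
      _ ≤ D * (1 / 99) := mul_le_mul_of_nonneg_left (geo N1) hD0
  have s2 : ∑ k ∈ Ico (N2 + 1) (Fintype.card ι + 1), PP p k ^ r * |(k : ℝ) - cc p r| ^ j ≤
      D * (1 / 99) := by
    rw [sum_Ico_eq_sum_range]
    calc _ ≤ ∑ i ∈ range (Fintype.card ι + 1 - (N2 + 1)), D * (1 / 100 : ℝ) ^ (i + 1) :=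
          sum_le_sum fun i _ => hup i
      _ = D * ∑ i ∈ range (Fintype.card ι + 1 - (N2 + 1)), (1 / 100 : ℝ) ^ (i + 1) := by
        rw [mul_sum]
      _ ≤ D * (1 / 99) := mul_le_mul_of_nonneg_left (geo _) hD0
  have htot : ∑ k ∈ (range (Fintype.card ι + 1)).filter (fun k => k < N1 ∨ N2 < k),
      PP p k ^ r * |(k : ℝ) - cc p r| ^ j ≤ D * (2 / 99) := by
    calc _ ≤ ∑ k ∈ range N1 ∪ Ico (N2 + 1) (Fintype.card ι + 1),
          PP p k ^ r * |(k : ℝ) - cc p r| ^ j :=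
          sum_le_sum_of_subset_of_nonneg hsub fun k _ _ => hnn k
      _ ≤ D * (2 / 99) := by
        rw [sum_union hdisj]
        linarith
  refine htot.trans ?_
  have hM : 9 / 10 * (7 / 10) * Q ≤ MM p r := by
    unfold MM
    rw [← hQd]
    apply mul_le_mul_of_nonneg_right _ hQ.le
    apply mul_le_mul_of_nonneg_left _ (by norm_num)
    apply Real.le_sqrt_of_sq_le
    have hr : 0 < r := by linarith [hB.hr]
    rw [le_div_iff₀ hr]
    nlinarith [hB.hV]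
  have h11 := exp11
  have hQK : 0 < Q * KK p r ^ j := mul_pos hQ hKj
  calc D * (2 / 99) = (34 / 5 * (2 / 99)) * Real.exp (-11) * (Q * KK p r ^ j) := by
        rw [hD]
        ring
    _ ≤ (34 / 5 * (2 / 99)) * (1 / 10000) * (Q * KK p r ^ j) := by gcongr
    _ ≤ 1 / 100 * (9 / 10 * (7 / 10) * Q) * KK p r ^ j := by
        nlinarith
    _ ≤ 1 / 100 * MM p r * KK p r ^ j := by gcongr

end Pool.Agent.RL51
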