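import Pool.Agent.RL51.Far

/-!
# RL51.FarD: the terms below the window (task RL51-FarD)

The mirror image of `far_up` (`Far.lean`, see the proof sketch in its header): let `x1 > x2` be the
nodes of `N1 + 1`, `N1` (`Win.node`, `Win.le2`), `x2 ≤ -3.675 φ`, `x1 ≤ -3.026 φ`,
`EE x1 - EE x2 ≥ kap x2 (x1 - x2)` (convexity of `EE`), so
`r (EE x2 - N1 x2) - r (EE x1 - (N1+1) x1) ≤ r x1 ≤ -9.5`; log-concavity gives
`P_{k-1}/P_k ≤ P_{N1}/P_{N1+1}` for `1 ≤ k ≤ N1 + 1` (`PP_logconcave`).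
(Alternatively derive both from a common lemma, or from the reflection `p ↦ 1 - p`.)
-/

open Finset Polynomial

namespace Pool.Agent.RL51

variable {ι : Type} [Fintype ι]

/-- basic numerical facts -/
private lemma numf {p : ι → ℝ} {r : ℝ} (hB : Big p r) :
    0 < VV p ∧ 0 < Real.pi / r ∧ r * (Real.pi / r) = Real.pi ∧
      4084 / 2500 ≤ VV p * (Real.pi / r) ∧ 0 < r := by
  have hr : (0 : ℝ) < r := by linarith [hB.hr]
  have hpi := Real.pi_gt_d6
  have hφ : 0 < Real.pi / r := phi_pos hB.hr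
  refine ⟨by linarith [hB.hV, hB.hr], hφ, by field_simp, ?_, hr⟩
  have h1 : 13 / 25 * r * (Real.pi / r) ≤ VV p * (Real.pi / r) :=
    mul_le_mul_of_nonneg_right hB.hV hφ.le
  have h2 : 13 / 25 * r * (Real.pi / r) = 13 / 25 * Real.pi := by field_simp
  nlinarith

/-- monotonicity of `EE`-slopes on the real axis (lower bound by the left slope) -/
private lemma EE_slope' {p : ι → ℝ} {r : ℝ} (hB : Big p r) {x y : ℝ}
    (hx : |x| ≤ 5 * (Real.pi / r)) (hy : |y| ≤ 5 * (Real.pi / r)) (hxy : x < y) :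
    (kap p (x : ℂ)).re * (y - x) ≤ (EE p (y : ℂ)).re - (EE p (x : ℂ)).re := by
  have hd : ∀ t : ℝ, HasDerivAt (fun s : ℝ => (EE p (s : ℂ)).re) (kap p (t : ℂ)).re t := by
    intro t
    have h := hasDerivAt_EE hB.adm (w := (t : ℂ)) (by simp [Real.pi_pos])
    exact h.real_of_complex
  obtain ⟨c, hc, hc2⟩ := exists_hasDerivAt_eq_slope (fun s : ℝ => (EE p (s : ℂ)).re)
    (fun s : ℝ => (kap p (s : ℂ)).re) hxy
    (fun t _ => (hd t).continuousAt.continuousWithinAt) (fun t _ => hd t)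
  have hyx : 0 < y - x := sub_pos.2 hxy
  have hc3 : |c| ≤ 5 * (Real.pi / r) := by
    rw [abs_le] at hx hy ⊢
    exact ⟨by linarith [hc.1], by linarith [hc.2]⟩
  have h1 := kap_re_lower hB (ofReal_mem_box hB.hr hx) (ofReal_mem_box hB.hr hc3) hc.1.le
  have h2 : 0 ≤ 943 / 1000 * VV p * (c - x) := by
    have := (numf hB).1
    have h3 : 0 ≤ c - x := by linarith [hc.1]
    positivity
  rw [eq_div_iff hyx.ne'] at hc2
  have h4 : (kap p (x : ℂ)).re ≤ (kap p (c : ℂ)).re := by linarith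
  calc (kap p (x : ℂ)).re * (y - x) ≤ (kap p (c : ℂ)).re * (y - x) :=
        mul_le_mul_of_nonneg_right h4 hyx.le
    _ = _ := hc2

/-- distance from a real point to the saddle point -/
private lemma dist_wi {r x : ℝ} (c : ℝ) (hc : 0 ≤ c)
    (h : x ^ 2 + (Real.pi / r) ^ 2 ≤ c ^ 2) : ‖(x : ℂ) - wi r‖ ≤ c := by
  have h1 : ‖(x : ℂ) - wi r‖ = Real.sqrt (x ^ 2 + (Real.pi / r) ^ 2) := by
    rw [Complex.norm_eq_sqrt_sq_add_sq]
    congr 1
    simp [wi]
  rw [h1]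
  exact Real.sqrt_le_iff.2 ⟨hc, h⟩

/-- the node of `N1` -/
private lemma node1 {p : ι → ℝ} {r A B : ℝ} {N1 N2 : ℕ} (hB : Big p r) (hW : Win p r A B N1 N2) :
    ∃ x1 x2 : ℝ, kap p (x1 : ℂ) = ((N1 + 1 : ℕ) : ℂ) ∧ kap p (x2 : ℂ) = (N1 : ℂ) ∧
      x1 ≤ -(3026 / 1000 * (Real.pi / r)) ∧ x2 ≤ -(3675 / 1000 * (Real.pi / r)) ∧ x2 < x1 ∧
      -(5 * (Real.pi / r)) ≤ x2 ∧ 943 / 1000 * VV p * (x1 - x2) ≤ 1 := by
  obtain ⟨hV, hφ, hrφ, hVφ, hr⟩ := numf hB
  have h2 := Win.le2 hB hW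
  obtain ⟨x2, a2, b2, c2⟩ := Win.node hB hW (k := N1) (mem_Icc.2 ⟨le_rfl, by omega⟩)
  obtain ⟨x1, a1, b1, c1⟩ := Win.node hB hW (k := N1 + 1) (mem_Icc.2 ⟨by omega, by omega⟩)
  have hbox : ∀ x : ℝ, -A < x → x < B → |x| ≤ 5 * (Real.pi / r) := by
    intro x hx1 hx2
    rw [abs_le]
    exact ⟨by linarith [hW.hA2], by linarith [hW.hB2]⟩
  have hm1 : (x1 : ℂ) ∈ Box r := ofReal_mem_box hB.hr (hbox x1 a1 b1)
  have hm2 : (x2 : ℂ) ∈ Box r := ofReal_mem_box hB.hr (hbox x2 a2 b2)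
  have hmA : ((-A : ℝ) : ℂ) ∈ Box r := ofReal_mem_box hB.hr (by
    rw [abs_neg, abs_of_nonneg (by linarith [hW.hA1])]; exact hW.hA2)
  have hk2 : (kap p (x2 : ℂ)).re = N1 := by rw [c2]; simp
  have hk1 : (kap p (x1 : ℂ)).re = N1 + 1 := by
    rw [c1]; simp
  have hkA : (kap p ((-A : ℝ) : ℂ)).re = N1 - 1 / 2 := by
    rw [hW.hN1]; norm_num
  have hlt : x2 < x1 := by
    by_contra hcon
    push Not at hcon
    have h := kap_re_lower hB hm1 hm2 hcon
    have h' : 0 ≤ 943 / 1000 * VV p * (x2 - x1) := by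
      have : 0 ≤ x2 - x1 := by linarith
      positivity
    rw [hk1, hk2] at h
    linarith
  have e1 := kap_re_lower hB hmA hm1 a1.le
  have e2 := kap_re_lower hB hmA hm2 a2.le
  have e3 := kap_re_lower hB hm2 hm1 hlt.le
  rw [hkA, hk1] at e1
  rw [hkA, hk2] at e2
  rw [hk1, hk2] at e3
  have key : ∀ (x c d : ℝ), -A < x → 943 / 1000 * VV p * (x - -A) ≤ c →
      c ≤ 943 / 1000 * (4084 / 2500) * (4 - d) → d ≤ 4 → x ≤ -(d * (Real.pi / r)) := by
    intro x c d hxB h1 h2 h3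
    by_contra hcon
    push Not at hcon
    have h4 : (4 - d) * (Real.pi / r) < x - -A := by linarith [hW.hA1]
    have h5 : 943 / 1000 * VV p * ((4 - d) * (Real.pi / r)) < 943 / 1000 * VV p * (x - -A) :=
      mul_lt_mul_of_pos_left h4 (by positivity)
    have h6 : 943 / 1000 * (4084 / 2500) * (4 - d) ≤
        943 / 1000 * VV p * ((4 - d) * (Real.pi / r)) := by
      have h7 : (4084 / 2500) * (4 - d) ≤ VV p * (Real.pi / r) * (4 - d) :=
        mul_le_mul_of_nonneg_right hVφ (by linarith)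
      nlinarith
    linarith
  refine ⟨x1, x2, c1, c2, ?_, ?_, hlt, by linarith [hW.hA2], by linarith⟩
  · exact key x1 (3 / 2) (3026 / 1000) a1 (by linarith) (by norm_num) (by norm_num)
  · exact key x2 (1 / 2) (3675 / 1000) a2 (by linarith) (by norm_num) (by norm_num)

/-- geometric decay below the window -/
theorem far_down {p : ι → ℝ} {r A B : ℝ} {N1 N2 : ℕ} (hB : Big p r) (hW : Win p r A B N1 N2)
    {i : ℕ} (hi : i ≤ N1) :
    PP p (N1 - i) ^ r ≤ Real.exp (r * (EE p (wi r)).re + r * (Lam p (wi r)).re) *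
      Real.exp (-11 - 6 * i) := by
  obtain ⟨hV, hφ, hrφ, hVφ, hr⟩ := numf hB
  have h2 := Win.le2 hB hW
  have h3 := Win.le3 hB hW
  obtain ⟨x1, x2, c1, c2, l1, l2, hlt, u2, e3⟩ := node1 hB hW
  set φ : ℝ := Real.pi / r with hφd
  have hpi := Real.pi_gt_d4
  have hpi2 := Real.pi_lt_d4
  have hφ2 : φ ≤ 21 / 2000 := phi_le hB.hr
  have hx1 : |x1| ≤ 5 * φ := by rw [abs_le]; constructor <;> nlinarith
  have hx2 : |x2| ≤ 5 * φ := by rw [abs_le]; constructor <;> nlinarith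
  have hm1 : (x1 : ℂ) ∈ Box r := ofReal_mem_box hB.hr hx1
  have hm2 : (x2 : ℂ) ∈ Box r := ofReal_mem_box hB.hr hx2
  have hs1 : |x1| ≤ 1 / 5 := by linarith
  have hs2 : |x2| ≤ 1 / 5 := by linarith
  have hk2 : (kap p (x2 : ℂ)).re = N1 := by rw [c2]; simp
  have hP2 := PP_rpow_eq hB.adm hB.V156 r hs2 c2
  have hP1 := PP_rpow_eq hB.adm hB.V156 r hs1 c1
  push_cast at hP1
  -- the first term
  have hG := real_G hB hm2
  rw [hk2] at hG
  have hE := EE_wi hB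
  have hLam : (Lam p (x2 : ℂ)).re - (Lam p (wi r)).re ≤ 3 / 2 * (-x2 + 14 / 100 * φ) := by
    have h := Lam_box hB (wi_mem_box hB.hr) hm2
    have hx20 : 0 ≤ -x2 := le_trans (by positivity) (le_neg_of_le_neg l2)
    have hd : ‖(x2 : ℂ) - wi r‖ ≤ -x2 + 14 / 100 * φ := by
      apply dist_wi _ (by positivity)
      rw [← hφd]
      nlinarith
    have hre := Complex.re_le_norm (Lam p (x2 : ℂ) - Lam p (wi r))
    rw [Complex.sub_re] at hre
    linarith
  have hfirst : r * ((EE p (x2 : ℂ)).re - N1 * x2) + r * (Lam p (x2 : ℂ)).re ≤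
      r * (EE p (wi r)).re + r * (Lam p (wi r)).re - 11 := by
    -- normalise: `x2 = - X φ`, `T = V φ`
    obtain ⟨X, hX⟩ : ∃ X : ℝ, x2 = -(X * φ) := ⟨-(x2 / φ), by field_simp⟩
    have hX1 : 3675 / 1000 ≤ X := by
      rw [hX] at l2
      exact le_of_mul_le_mul_right (neg_le_neg_iff.1 l2) hφ
    obtain ⟨T, hT⟩ : ∃ T : ℝ, T = VV p * φ := ⟨_, rfl⟩
    rw [← hT] at hVφ
    have g1 : r * ((EE p (x2 : ℂ)).re - N1 * x2) ≤ r * (-(943 / 2000 * VV p * x2 ^ 2)) :=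
      mul_le_mul_of_nonneg_left hG hr.le
    have g2 : r * (-(943 / 2000 * VV p * x2 ^ 2)) = -(943 / 2000 * Real.pi * T * X ^ 2) := by
      rw [hX, hT, ← hrφ]; ring
    have g3 : r * (-(1057 / 2000 * VV p * φ ^ 2)) ≤ r * (EE p (wi r)).re :=
      mul_le_mul_of_nonneg_left hE hr.le
    have g4 : r * (-(1057 / 2000 * VV p * φ ^ 2)) = -(1057 / 2000 * Real.pi * T) := by
      rw [hT, ← hrφ]; ring
    have g5 : r * ((Lam p (x2 : ℂ)).re - (Lam p (wi r)).re) ≤ r * (3 / 2 * (-x2 + 14 / 100 * φ)) :=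
      mul_le_mul_of_nonneg_left hLam hr.le
    have g6 : r * (3 / 2 * (-x2 + 14 / 100 * φ)) = 3 / 2 * Real.pi * (X + 14 / 100) := by
      rw [hX, ← hrφ]; ring
    have g7 : Real.pi * (943 / 2000 * T * X ^ 2 - 1057 / 2000 * T - 3 / 2 * (X + 14 / 100)) ≥
        Real.pi * (351 / 100) := by
      apply mul_le_mul_of_nonneg_left _ Real.pi_pos.le
      have g8 : 0 ≤ (T - 4084 / 2500) * (943 / 2000 * X ^ 2 - 1057 / 2000) := by
        apply mul_nonneg (by linarith)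
        nlinarith
      nlinarith
    nlinarith
  have hratio : (r * ((EE p (x2 : ℂ)).re - N1 * x2) + r * (Lam p (x2 : ℂ)).re) -
      (r * ((EE p (x1 : ℂ)).re - (N1 + 1) * x1) + r * (Lam p (x1 : ℂ)).re) ≤ -6 := by
    have g1 := EE_slope' hB hx2 hx1 hlt
    rw [hk2] at g1
    have g2 : (Lam p (x2 : ℂ)).re - (Lam p (x1 : ℂ)).re ≤ 3 / 2 * (x1 - x2) := by
      have h := Lam_box hB hm1 hm2
      have hd : ‖(x2 : ℂ) - x1‖ = x1 - x2 := by
        rw [← Complex.ofReal_sub, Complex.norm_real, Real.norm_of_nonpos (by linarith)]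
        ring
      rw [hd] at h
      have hre := Complex.re_le_norm (Lam p (x2 : ℂ) - Lam p (x1 : ℂ))
      rw [Complex.sub_re] at hre
      linarith
    have g3 : r * (N1 * (x1 - x2)) ≤ r * ((EE p (x1 : ℂ)).re - (EE p (x2 : ℂ)).re) :=
      mul_le_mul_of_nonneg_left g1 hr.le
    have g4 : r * ((Lam p (x2 : ℂ)).re - (Lam p (x1 : ℂ)).re) ≤ r * (3 / 2 * (x1 - x2)) :=
      mul_le_mul_of_nonneg_left g2 hr.le
    have g5 : r * x1 ≤ r * (-(3026 / 1000 * φ)) := mul_le_mul_of_nonneg_left l1 hr.le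
    have g6 : r * (-(3026 / 1000 * φ)) = -(3026 / 1000 * Real.pi) := by rw [← hrφ]; ring
    have g7 : r * (3 / 2 * (x1 - x2)) ≤ 306 / 100 := by
      have h1 : 13 / 25 * r * (x1 - x2) ≤ VV p * (x1 - x2) :=
        mul_le_mul_of_nonneg_right hB.hV (by linarith)
      nlinarith
    nlinarith
  -- conclusion
  have hQ : PP p N1 ^ r ≤ Real.exp (r * (EE p (wi r)).re + r * (Lam p (wi r)).re) *
      Real.exp (-11) := by
    rw [hP2, ← Real.exp_add]
    exact Real.exp_le_exp.2 (by linarith)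
  have hR : PP p N1 ^ r ≤ PP p (N1 + 1) ^ r * Real.exp (-6) := by
    rw [hP2, hP1, ← Real.exp_add]
    exact Real.exp_le_exp.2 (by linarith)
  have hp1 : 0 < PP p (N1 + 1) := PP_pos hB.adm (by omega)
  induction i with
  | zero => simpa using hQ
  | succ i ih =>
    have ih' := ih (by omega)
    obtain ⟨m, hm⟩ : ∃ m, N1 = m + (i + 1) := ⟨N1 - (i + 1), by omega⟩
    have hm1' : N1 - (i + 1) = m := by omega
    have hm2' : N1 - i = m + 1 := by omega
    rw [hm1']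
    rw [hm2'] at ih'
    have hlc := PP_logconcave hB.adm (k := m) (l := N1) (by omega)
    have h5 : (PP p (N1 + 1) * PP p m) ^ r ≤ (PP p N1 * PP p (m + 1)) ^ r :=
      Real.rpow_le_rpow (mul_nonneg (PP_nonneg hB.adm _) (PP_nonneg hB.adm _)) hlc hr.le
    rw [Real.mul_rpow (PP_nonneg hB.adm _) (PP_nonneg hB.adm _),
      Real.mul_rpow (PP_nonneg hB.adm _) (PP_nonneg hB.adm _)] at h5
    have h6 : 0 < PP p (N1 + 1) ^ r := Real.rpow_pos_of_pos hp1 r
    have h7 : 0 ≤ PP p (m + 1) ^ r := Real.rpow_nonneg (PP_nonneg hB.adm _) r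
    have h8 : PP p (N1 + 1) ^ r * PP p m ^ r ≤
        PP p (N1 + 1) ^ r * (PP p (m + 1) ^ r * Real.exp (-6)) := by
      calc _ ≤ PP p N1 ^ r * PP p (m + 1) ^ r := h5
        _ ≤ (PP p (N1 + 1) ^ r * Real.exp (-6)) * PP p (m + 1) ^ r :=
          mul_le_mul_of_nonneg_right hR h7
        _ = _ := by ring
    have h9 : PP p m ^ r ≤ PP p (m + 1) ^ r * Real.exp (-6) :=
      le_of_mul_le_mul_left h8 h6
    calc PP p m ^ r ≤ PP p (m + 1) ^ r * Real.exp (-6) := h9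
      _ ≤ (Real.exp (r * (EE p (wi r)).re + r * (Lam p (wi r)).re) *
          Real.exp (-11 - 6 * i)) * Real.exp (-6) :=
        mul_le_mul_of_nonneg_right ih' (Real.exp_pos _).le
      _ = _ := by
        rw [mul_assoc, ← Real.exp_add]
        congr 2
        push_cast
        ring

end Pool.Agent.RL51
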