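import Pool.Agent.RL51.Nd
import Pool.Agent.H62LR.Homotopy
import Pool.Agent.H62LR.Compose
import Pool.Agent.H62LR.Mult
import Pool.Agent.H49.RRDefs

/-!
# RL51.Final: large real powers preserve real-rootedness (task RL51-Final)

* `pf_mul`: Hadamard product: `(ms_choose n le_rfl).apply (h.comp h')`
  (see `PF.sq` in `Pool/Agent/H62LR/Small.lean`).
* `pf_npow` : by induction, `b_k^N` for natural `N ≥ 1`.
* `pf_rpow_large`: `H62LR.homotopy` with `a s k = b k ^ s`, `c = ⌊r⌋₊`, `d = r`; `hsimple` is `nd`.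
-/

open Finset Polynomial

namespace Pool.Agent.RL51

open Pool.Agent.H62LR

lemma pf_mul {n : ℕ} {a b : ℕ → ℝ} (ha : PF n a) (hb : PF n b) : PF n (fun k => a k * b k) := by
  refine ((ms_choose n le_rfl).apply (ha.comp hb)).congr (fun k hk => ?_)
  have := (choose_pos' hk).ne'
  rw [Real.rpow_one]
  field_simp

lemma pf_npow {n : ℕ} {b : ℕ → ℝ} (hb : PF n b) (N : ℕ) :
    PF n (fun k => b k ^ ((N : ℝ) + 1)) := by
  induction N with
  | zero => exact hb.congr (fun k _ => by simp)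
  | succ N ih =>
    refine (pf_mul ih hb).congr (fun k hk => ?_)
    have h0 := hb.1 k hk
    push_cast
    rw [Real.rpow_add h0 ((N : ℝ) + 1) 1, Real.rpow_one]

theorem pf_rpow_large {n : ℕ} {b : ℕ → ℝ} (hb : PF n b) {r : ℝ} (hr : 300 ≤ r) :
    PF n (fun k => b k ^ r) := by
  have hfl : (⌊r⌋₊ : ℝ) ≤ r := Nat.floor_le (by linarith)
  have h300 : 300 ≤ ⌊r⌋₊ := Nat.le_floor (by exact_mod_cast hr)
  have h300' : (300 : ℝ) ≤ (⌊r⌋₊ : ℝ) := by exact_mod_cast h300
  obtain ⟨N, hN⟩ : ∃ N : ℕ, ⌊r⌋₊ = N + 1 := ⟨⌊r⌋₊ - 1, by omega⟩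
  refine homotopy (n := n) (fun s k => b k ^ s) (c := (⌊r⌋₊ : ℝ)) (d := r) ?_ ?_ ?_ ?_ r
    ⟨hfl, le_rfl⟩
  · intro k hk
    exact (Real.continuous_const_rpow (hb.1 k hk).ne').continuousOn
  · intro s _ k hk
    exact Real.rpow_pos_of_pos (hb.1 k hk) s
  · have := pf_npow hb N
    rw [hN]
    refine this.congr (fun k _ => ?_)
    push_cast
    rfl
  · intro s hs x hx h0 h1
    exact nd hb (h300'.trans hs.1) hx h0 h1

/-- **Main theorem** in the language of the problem. -/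
theorem preserves_rpow_large {r : ℝ} (hr : 300 ≤ r) {c : ℝ} (hc : 0 < c) :
    Pool.Agent.H49.RR.Preserves (fun t => c * t ^ r) := by
  intro p hp
  have h1 := (pf_rpow_large (pf_of_pplus hp) hr).const_mul hc
  exact h1.realRooted

end Pool.Agent.RL51
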