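import Pool.Agent.RL51.EllB
import Pool.Agent.RL51.EllAn

/-!
# RL51.LamM: the logarithm of `ell` (task RL51-LamM)

On the box `|Re w|, |Im w| ≤ 1/5` the number `z := ell w * rt w`
satisfies `‖z - 1‖ ≤ 1/8`, so `Lam1 = log z` is holomorphic in the interior and
`‖Lam1‖ ≤ ‖z-1‖/(1-‖z-1‖) ≤ 1/7` (`Complex.norm_log_one_add_le` or similar).
`exp Lam = z / rt = ell`.
-/

open Finset Polynomial

namespace Pool.Agent.RL51

variable {ι : Type} [Fintype ι]

lemma ell_rt_re_pos {p : ι → ℝ} (hp : Adm p) (hV : 156 ≤ VV p) {w : ℂ} (h1 : |w.re| ≤ 1 / 5)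
    (h2 : |w.im| ≤ 1 / 5) : 0 < (ell p w * rt p w).re := by
  have h := ell_bound hp hV h1 h2
  have h3 := Complex.abs_re_le_norm (ell p w * rt p w - 1)
  have h4 : (ell p w * rt p w - 1).re = (ell p w * rt p w).re - 1 := by simp
  rw [h4] at h3
  have h5 := (abs_le.1 (h3.trans h)).1
  linarith

lemma ell_rt_slit {p : ι → ℝ} (hp : Adm p) (hV : 156 ≤ VV p) {w : ℂ} (h1 : |w.re| ≤ 1 / 5)
    (h2 : |w.im| ≤ 1 / 5) : ell p w * rt p w ∈ Complex.slitPlane :=
  Or.inl (ell_rt_re_pos hp hV h1 h2)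

lemma two_pi_ss_re_pos {p : ι → ℝ} (hp : Adm p) (hV : 156 ≤ VV p) {w : ℂ} (h1 : |w.re| ≤ 1 / 5)
    (h2 : |w.im| ≤ 1 / 5) : 0 < (2 * (Real.pi : ℂ) * ss p w).re := by
  have h := re_ss_ge hp h1 h2
  have h3 : (2 * (Real.pi : ℂ) * ss p w).re = 2 * Real.pi * (ss p w).re := by
    have : (2 * (Real.pi : ℂ)) = ((2 * Real.pi : ℝ) : ℂ) := by push_cast; ring
    rw [this, Complex.re_ofReal_mul]
  rw [h3]
  have : 0 < (ss p w).re := by linarith
  positivity

lemma two_pi_ss_slit {p : ι → ℝ} (hp : Adm p) (hV : 156 ≤ VV p) {w : ℂ} (h1 : |w.re| ≤ 1 / 5)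
    (h2 : |w.im| ≤ 1 / 5) : 2 * (Real.pi : ℂ) * ss p w ∈ Complex.slitPlane :=
  Or.inl (two_pi_ss_re_pos hp hV h1 h2)

theorem exp_Lam {p : ι → ℝ} (hp : Adm p) (hV : 156 ≤ VV p) {w : ℂ} (h1 : |w.re| ≤ 1 / 5)
    (h2 : |w.im| ≤ 1 / 5) : Complex.exp (Lam p w) = ell p w := by
  have hne : ell p w * rt p w ≠ 0 := Complex.slitPlane_ne_zero (ell_rt_slit hp hV h1 h2)
  have hrt : rt p w ≠ 0 := Complex.exp_ne_zero _
  have e1 : Complex.exp (Lam1 p w) = ell p w * rt p w := Complex.exp_log hne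
  have e2 : Complex.exp (Lam p w) = Complex.exp (Lam1 p w) / rt p w := by
    rw [Lam, Complex.exp_sub, rt]
  rw [e2, e1]
  field_simp

lemma im_lt_pi_of {w : ℂ} (h2 : |w.im| ≤ 1 / 5) : |w.im| < Real.pi :=
  lt_of_le_of_lt h2 (by linarith [Real.pi_gt_three])

theorem differentiableAt_Lam {p : ι → ℝ} (hp : Adm p) (hV : 156 ≤ VV p) {w : ℂ}
    (h : ‖w‖ < 1 / 5) : DifferentiableAt ℂ (Lam p) w := by
  have h1 : |w.re| ≤ 1 / 5 := (Complex.abs_re_le_norm w).trans h.le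
  have h2 : |w.im| ≤ 1 / 5 := (Complex.abs_im_le_norm w).trans h.le
  have h3 := im_lt_pi_of h2
  have hss : DifferentiableAt ℂ (ss p) w := (hasDerivAt_ss hp h3).differentiableAt
  have hell : DifferentiableAt ℂ (ell p) w := differentiableAt_ell hp h3
  have hlog : DifferentiableAt ℂ (fun w => Complex.log (2 * (Real.pi : ℂ) * ss p w) / 2) w := by
    have : DifferentiableAt ℂ (fun w => 2 * (Real.pi : ℂ) * ss p w) w :=
      hss.const_mul _
    exact (this.clog (two_pi_ss_slit hp hV h1 h2)).div_const 2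
  have hrt : DifferentiableAt ℂ (rt p) w := by
    have := hlog.cexp
    exact this
  have hL1 : DifferentiableAt ℂ (Lam1 p) w := by
    have := (hell.mul hrt).clog (ell_rt_slit hp hV h1 h2)
    exact this
  exact hL1.sub hlog

lemma conj_two' : (starRingEnd ℂ) 2 = 2 := Complex.conj_ofNat 2

theorem Lam_conj {p : ι → ℝ} (hp : Adm p) (hV : 156 ≤ VV p) {w : ℂ} (h1 : |w.re| ≤ 1 / 5)
    (h2 : |w.im| ≤ 1 / 5) : Lam p ((starRingEnd ℂ) w) = (starRingEnd ℂ) (Lam p w) := by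
  have hA : Complex.log (2 * (Real.pi : ℂ) * ss p ((starRingEnd ℂ) w)) =
      (starRingEnd ℂ) (Complex.log (2 * (Real.pi : ℂ) * ss p w)) := by
    rw [← Complex.log_conj _ (Complex.slitPlane_arg_ne_pi (two_pi_ss_slit hp hV h1 h2))]
    congr 1
    rw [ss_conj, map_mul, map_mul, conj_two', Complex.conj_ofReal]
  have hB : rt p ((starRingEnd ℂ) w) = (starRingEnd ℂ) (rt p w) := by
    unfold rt
    rw [hA, ← Complex.exp_conj, map_div₀, conj_two']
  have hC : Lam1 p ((starRingEnd ℂ) w) = (starRingEnd ℂ) (Lam1 p w) := by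
    unfold Lam1
    rw [← Complex.log_conj _ (Complex.slitPlane_arg_ne_pi (ell_rt_slit hp hV h1 h2)), hB,
      ell_conj, map_mul]
  unfold Lam
  rw [hC, hA, map_sub, map_div₀, conj_two']

/-- `Lam` is real on the real axis, so its derivative is real there (`Lam_conj`) -/
theorem deriv_Lam_im_ofReal {p : ι → ℝ} (hp : Adm p) (hV : 156 ≤ VV p) {x : ℝ}
    (h : |x| < 1 / 5) : (deriv (Lam p) (x : ℂ)).im = 0 := by
  have hx : ‖(x : ℂ)‖ < 1 / 5 := by
    rw [Complex.norm_real]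
    exact h
  have hd : HasDerivAt (Lam p) (deriv (Lam p) (x : ℂ)) (x : ℂ) :=
    (differentiableAt_Lam hp hV hx).hasDerivAt
  have h1 : HasDerivAt (fun t : ℝ => Lam p (t : ℂ)) (deriv (Lam p) (x : ℂ)) x := hd.comp_ofReal
  have h2 : HasDerivAt (fun t : ℝ => (Lam p (t : ℂ)).im) (deriv (Lam p) (x : ℂ)).im x := by
    have := Complex.imCLM.hasFDerivAt.comp_hasDerivAt x h1
    exact this
  have h3 : (fun t : ℝ => (Lam p (t : ℂ)).im) =ᶠ[nhds x] fun _ => (0 : ℝ) := by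
    have ho : {t : ℝ | |t| < 1 / 5} ∈ nhds x :=
      (isOpen_lt continuous_abs continuous_const).mem_nhds h
    filter_upwards [ho] with t ht
    have ht' : |((t : ℂ)).re| ≤ 1 / 5 := by simpa using le_of_lt ht
    have ht2 : |((t : ℂ)).im| ≤ 1 / 5 := by simp
    have h4 := Lam_conj hp hV ht' ht2
    rw [Complex.conj_ofReal] at h4
    exact Complex.conj_eq_iff_im.1 h4.symm
  have h5 : HasDerivAt (fun t : ℝ => (Lam p (t : ℂ)).im) 0 x :=
    (hasDerivAt_const x (0 : ℝ)).congr_of_eventuallyEq h3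
  exact h2.unique h5

/-- `deriv (Lam p)` is continuous (even holomorphic) near `0` -/
theorem continuousAt_deriv_Lam {p : ι → ℝ} (hp : Adm p) (hV : 156 ≤ VV p) {w : ℂ}
    (h : ‖w‖ < 1 / 5) : ContinuousAt (deriv (Lam p)) w := by
  have ho : IsOpen (Metric.ball (0 : ℂ) (1 / 5)) := Metric.isOpen_ball
  have hd : DifferentiableOn ℂ (Lam p) (Metric.ball (0 : ℂ) (1 / 5)) := by
    intro z hz
    rw [mem_ball_zero_iff] at hz
    exact (differentiableAt_Lam hp hV hz).differentiableWithinAt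
  have hd2 := hd.deriv ho
  have hw : w ∈ Metric.ball (0 : ℂ) (1 / 5) := by
    rw [mem_ball_zero_iff]
    exact h
  exact (hd2.differentiableAt (ho.mem_nhds hw)).continuousAt

end Pool.Agent.RL51
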