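import Pool.Agent.RL51.Pk
import Pool.Agent.RL51.LamM

/-!
# RL51.HfM: `Hf` interpolates `PP p k ^ r` (task RL51-HfM)

For real `x`, `|x| ≤ 1/5`, with `kap p x = k`: `Lam p x` is real by `Lam_conj`, `EE p x` is real,
so with the real number `y = EE p x - k x + Lam p x` we have `exp y = PP p k` (`PP_eq`, `exp_Lam`),
and `Hf p r x = exp (r y) = (PP p k)^r`.
-/

open Finset Polynomial

namespace Pool.Agent.RL51

variable {ι : Type} [Fintype ι]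

lemma Lam_im_ofReal {p : ι → ℝ} (hp : Adm p) (hV : 156 ≤ VV p) {x : ℝ} (h : |x| ≤ 1 / 5) :
    (Lam p (x : ℂ)).im = 0 := by
  have h1 : |((x : ℂ)).re| ≤ 1 / 5 := by simpa using h
  have h2 : |((x : ℂ)).im| ≤ 1 / 5 := by simp
  have h4 := Lam_conj hp hV h1 h2
  rw [Complex.conj_ofReal] at h4
  exact Complex.conj_eq_iff_im.1 h4.symm

lemma Lam_ofReal_re {p : ι → ℝ} (hp : Adm p) (hV : 156 ≤ VV p) {x : ℝ} (h : |x| ≤ 1 / 5) :
    (((Lam p (x : ℂ)).re : ℝ) : ℂ) = Lam p (x : ℂ) :=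
  Complex.ext (by simp) (by simp [Lam_im_ofReal hp hV h])

lemma EE_ofReal_re {p : ι → ℝ} (hp : Adm p) (x : ℝ) :
    (((EE p (x : ℂ)).re : ℝ) : ℂ) = EE p (x : ℂ) :=
  Complex.ext (by simp) (by simp [EE_im_ofReal hp x])

lemma PP_eq_real_exp {p : ι → ℝ} (hp : Adm p) (hV : 156 ≤ VV p) {x : ℝ} (h : |x| ≤ 1 / 5)
    {k : ℕ} (hk : kap p (x : ℂ) = k) :
    PP p k = Real.exp ((EE p (x : ℂ)).re - k * x + (Lam p (x : ℂ)).re) := by
  have h1 : |((x : ℂ)).re| ≤ 1 / 5 := by simpa using h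
  have h2 : |((x : ℂ)).im| ≤ 1 / 5 := by simp
  have h3 := PP_eq hp hk
  rw [← exp_Lam hp hV h1 h2, ← Complex.exp_add] at h3
  apply Complex.ofReal_injective
  rw [h3, Complex.ofReal_exp]
  congr 1
  push_cast
  rw [Lam_ofReal_re hp hV h, EE_ofReal_re hp x]

/-- the same with real exponents of `Real.exp` -/
theorem PP_rpow_eq {p : ι → ℝ} (hp : Adm p) (hV : 156 ≤ VV p) (r : ℝ) {x : ℝ} (h : |x| ≤ 1 / 5)
    {k : ℕ} (hk : kap p (x : ℂ) = k) :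
    PP p k ^ r = Real.exp (r * ((EE p (x : ℂ)).re - k * x) + r * (Lam p (x : ℂ)).re) := by
  rw [PP_eq_real_exp hp hV h hk, ← Real.exp_mul]
  congr 1
  ring

theorem Hf_eq {p : ι → ℝ} (hp : Adm p) (hV : 156 ≤ VV p) (r : ℝ) {x : ℝ} (h : |x| ≤ 1 / 5) {k : ℕ}
    (hk : kap p (x : ℂ) = k) : Hf p r (x : ℂ) = ((PP p k ^ r : ℝ) : ℂ) := by
  rw [PP_rpow_eq hp hV r h hk, Complex.ofReal_exp, Hf, hk]
  congr 1
  push_cast
  rw [Lam_ofReal_re hp hV h, EE_ofReal_re hp x]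

theorem Hf_conj {p : ι → ℝ} (hp : Adm p) (hV : 156 ≤ VV p) (r : ℝ) {w : ℂ} (h1 : |w.re| ≤ 1 / 5)
    (h2 : |w.im| ≤ 1 / 5) : Hf p r ((starRingEnd ℂ) w) = (starRingEnd ℂ) (Hf p r w) := by
  unfold Hf
  rw [← Complex.exp_conj, Lam_conj hp hV h1 h2, EE_conj hp (im_lt_pi_of h2), kap_conj]
  simp only [map_add, map_mul, map_sub, Complex.conj_ofReal]

theorem differentiableAt_Hf {p : ι → ℝ} (hp : Adm p) (hV : 156 ≤ VV p) (r : ℝ) {w : ℂ}
    (h : ‖w‖ < 1 / 5) : DifferentiableAt ℂ (Hf p r) w := by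
  have h2 : |w.im| ≤ 1 / 5 := (Complex.abs_im_le_norm w).trans h.le
  have h3 := im_lt_pi_of h2
  have hE : DifferentiableAt ℂ (EE p) w := (hasDerivAt_EE hp h3).differentiableAt
  have hK : DifferentiableAt ℂ (kap p) w := (hasDerivAt_kap hp h3).differentiableAt
  have hL := differentiableAt_Lam hp hV h
  have : DifferentiableAt ℂ (fun w => (r : ℂ) * (EE p w - kap p w * w) + (r : ℂ) * Lam p w) w :=
    ((hE.sub (hK.mul differentiableAt_id)).const_mul _).add (hL.const_mul _)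
  exact this.cexp

end Pool.Agent.RL51
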