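import Pool.Agent.RL51.LamM

/-!
# RL51.LamD: bounds for the derivatives of `Lam` (task RL51-LamD)

On the box `|Re w|, |Im w| ≤ 1/5` the number `z := ell w * rt w` satisfies `‖z - 1‖ ≤ 1/8`
(`ell_bound`), so `Lam1 = log z` is holomorphic in the interior and `‖Lam1‖ ≤ 1/7`.
Derivatives for `‖w‖ ≤ 27/500`, `|Im w| ≤ 11/1000`: `Lam' = Lam1' - dd/(2 ss)`.
* `‖Lam1'‖ ≤ (1/7)/0.145 ≤ 0.9853` by Cauchy's estimate on the circle of radius `0.145` around `w`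
  (`Complex.norm_deriv_le_of_forall_mem_sphere_norm_le`; it lies in `ball 0 0.1995`).
* `‖dd/(2 ss)‖ ≤ 0.505` for `|Im w| ≤ 1/10` by `norm_dd_le_re`.
So `‖Lam'‖ ≤ 3/2`.
* `‖Lam1''‖ ≤ 2 * (1/7)/0.145^2 ≤ 13.6`
  (`Complex.norm_iteratedDeriv_le_of_forall_mem_sphere_norm_le` with `n = 2`).
* `‖(dd/(2 ss))'‖ ≤ 0.505/0.088 ≤ 5.74` (Cauchy, circle of radius `0.088`; it lies in
  `|Im| ≤ 0.099`; `dd p` is holomorphic on the strip as a sum of the `d1`).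
So `‖Lam''‖ ≤ 19.5` on the convex set `{‖w‖ ≤ 27/500, |Im w| ≤ 11/1000}`.
-/

open Finset Polynomial

namespace Pool.Agent.RL51

variable {ι : Type} [Fintype ι]

theorem lamd_pi : (1 / 5 : ℝ) < Real.pi := by linarith [Real.pi_gt_three]

theorem lamd_box {w : ℂ} {r : ℝ} (h : ‖w‖ ≤ r) (hr : r ≤ 1 / 5) :
    |w.re| ≤ 1 / 5 ∧ |w.im| ≤ 1 / 5 :=
  ⟨((Complex.abs_re_le_norm w).trans h).trans hr, ((Complex.abs_im_le_norm w).trans h).trans hr⟩

theorem lamd_ss_re {p : ι → ℝ} (hp : Adm p) (hV : 156 ≤ VV p) {w : ℂ} (h1 : |w.re| ≤ 1 / 5)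
    (h2 : |w.im| ≤ 1 / 5) : 0 < (ss p w).re := by
  have h := re_ss_ge hp h1 h2
  linarith

theorem lamd_ss_ne {p : ι → ℝ} (hp : Adm p) (hV : 156 ≤ VV p) {w : ℂ} (h1 : |w.re| ≤ 1 / 5)
    (h2 : |w.im| ≤ 1 / 5) : ss p w ≠ 0 := by
  intro h0
  have h := lamd_ss_re hp hV h1 h2
  rw [h0] at h
  simp at h

theorem lamd_slit {p : ι → ℝ} (hp : Adm p) (hV : 156 ≤ VV p) {w : ℂ} (h1 : |w.re| ≤ 1 / 5)
    (h2 : |w.im| ≤ 1 / 5) : 2 * (Real.pi : ℂ) * ss p w ∈ Complex.slitPlane := by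
  left
  have h := lamd_ss_re hp hV h1 h2
  have h3 : (2 * (Real.pi : ℂ) * ss p w).re = 2 * Real.pi * (ss p w).re := by
    simp [Complex.mul_re]
  rw [h3]
  have := Real.pi_pos
  positivity

theorem lamd_log {p : ι → ℝ} (hp : Adm p) (hV : 156 ≤ VV p) {w : ℂ} (h1 : |w.re| ≤ 1 / 5)
    (h2 : |w.im| ≤ 1 / 5) :
    HasDerivAt (fun z => Complex.log (2 * (Real.pi : ℂ) * ss p z) / 2)
      (dd p w / ss p w / 2) w := by
  have h3 := ((hasDerivAt_ss hp (lt_of_le_of_lt h2 lamd_pi)).const_mul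
    (2 * (Real.pi : ℂ))).clog (lamd_slit hp hV h1 h2)
  have h4 := h3.div_const 2
  have hne := lamd_ss_ne hp hV h1 h2
  have hpi : (Real.pi : ℂ) ≠ 0 := by exact_mod_cast Real.pi_ne_zero
  have h5 : 2 * (Real.pi : ℂ) * dd p w / (2 * (Real.pi : ℂ) * ss p w) / 2 =
      dd p w / ss p w / 2 := by
    field_simp
  rw [h5] at h4
  exact h4

theorem lamd_diff1 {p : ι → ℝ} (hp : Adm p) (hV : 156 ≤ VV p) {w : ℂ} (h1 : |w.re| ≤ 1 / 5)
    (h2 : |w.im| ≤ 1 / 5) : DifferentiableAt ℂ (Lam1 p) w := by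
  have hl := (lamd_log hp hV h1 h2).differentiableAt
  have hr : DifferentiableAt ℂ (rt p) w := hl.cexp
  have he : DifferentiableAt ℂ (ell p) w := differentiableAt_ell hp (lt_of_le_of_lt h2 lamd_pi)
  have hb := ell_bound hp hV h1 h2
  have hs : ell p w * rt p w ∈ Complex.slitPlane := by
    have h3 := Complex.mem_slitPlane_of_norm_lt_one (z := ell p w * rt p w - 1) (by linarith)
    rwa [add_sub_cancel] at h3
  exact (he.mul hr).clog hs

theorem lamd_norm1 {p : ι → ℝ} (hp : Adm p) (hV : 156 ≤ VV p) {w : ℂ} (h1 : |w.re| ≤ 1 / 5)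
    (h2 : |w.im| ≤ 1 / 5) : ‖Lam1 p w‖ ≤ 1 / 7 := by
  have hb := ell_bound hp hV h1 h2
  have h3 := Complex.norm_log_one_add_le (z := ell p w * rt p w - 1) (by linarith)
  rw [add_sub_cancel] at h3
  set u := ‖ell p w * rt p w - 1‖ with hu
  have hu0 : 0 ≤ u := norm_nonneg _
  have h4 : (1 - u)⁻¹ ≤ 8 / 7 := by
    rw [inv_le_comm₀ (by linarith) (by norm_num)]
    linarith
  have h5 : u ^ 2 ≤ 1 / 64 := by nlinarith
  have h6 : u ^ 2 * (1 - u)⁻¹ ≤ 1 / 64 * (8 / 7) := by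
    apply mul_le_mul h5 h4
    · exact inv_nonneg.2 (by linarith)
    · norm_num
  have h7 : ‖Lam1 p w‖ ≤ u ^ 2 * (1 - u)⁻¹ / 2 + u := h3
  linarith

theorem lamd_ball {w z : ℂ} {r : ℝ} (h : ‖w‖ ≤ 27 / 500) (hz : z ∈ Metric.closedBall w r) :
    ‖z‖ ≤ 27 / 500 + r := by
  rw [mem_closedBall_iff_norm] at hz
  calc ‖z‖ = ‖w + (z - w)‖ := by rw [add_sub_cancel]
    _ ≤ ‖w‖ + ‖z - w‖ := norm_add_le _ _
    _ ≤ 27 / 500 + r := add_le_add h hz

theorem lamd_dcc {p : ι → ℝ} (hp : Adm p) (hV : 156 ≤ VV p) {w : ℂ} (h : ‖w‖ ≤ 27 / 500) :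
    DiffContOnCl ℂ (Lam1 p) (Metric.ball w (29 / 200)) := by
  apply DifferentiableOn.diffContOnCl
  intro z hz
  have hz' : z ∈ Metric.closedBall w (29 / 200) := Metric.closure_ball_subset_closedBall hz
  have h1 := lamd_ball h hz'
  obtain ⟨h2, h3⟩ := lamd_box h1 (by norm_num)
  exact (lamd_diff1 hp hV h2 h3).differentiableWithinAt

theorem lamd_d1 {p : ι → ℝ} (hp : Adm p) (hV : 156 ≤ VV p) {w : ℂ} (h : ‖w‖ ≤ 27 / 500) :
    ‖deriv (Lam1 p) w‖ ≤ 99 / 100 := by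
  have h1 := Complex.norm_deriv_le_of_forall_mem_sphere_norm_le (c := w) (R := 29 / 200)
    (C := 1 / 7) (by norm_num) (lamd_dcc hp hV h) (by
      intro z hz
      obtain ⟨h2, h3⟩ := lamd_box (lamd_ball h (Metric.sphere_subset_closedBall hz))
        (by norm_num)
      exact lamd_norm1 hp hV h2 h3)
  refine h1.trans ?_
  norm_num

theorem lamd_d2 {p : ι → ℝ} (hp : Adm p) (hV : 156 ≤ VV p) {w : ℂ} (h : ‖w‖ ≤ 27 / 500) :
    ‖deriv (deriv (Lam1 p)) w‖ ≤ 68 / 5 := by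
  have h1 := Complex.norm_iteratedDeriv_le_of_forall_mem_sphere_norm_le (c := w)
    (R := 29 / 200) (C := 1 / 7) 2 (by norm_num) (lamd_dcc hp hV h) (by
      intro z hz
      obtain ⟨h2, h3⟩ := lamd_box (lamd_ball h (Metric.sphere_subset_closedBall hz))
        (by norm_num)
      exact lamd_norm1 hp hV h2 h3)
  rw [iteratedDeriv_succ, iteratedDeriv_one] at h1
  refine h1.trans ?_
  norm_num [Nat.factorial]

theorem lamd_lip1 {p : ι → ℝ} (hp : Adm p) (hV : 156 ≤ VV p) {w w' : ℂ} (h : ‖w‖ ≤ 27 / 500)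
    (h' : ‖w'‖ ≤ 27 / 500) : ‖deriv (Lam1 p) w' - deriv (Lam1 p) w‖ ≤ 68 / 5 * ‖w' - w‖ := by
  have hopen : DifferentiableOn ℂ (deriv (Lam1 p)) (Metric.ball 0 (1 / 5)) := by
    apply DifferentiableOn.deriv _ Metric.isOpen_ball
    intro z hz
    rw [mem_ball_zero_iff] at hz
    obtain ⟨h2, h3⟩ := lamd_box hz.le le_rfl
    exact (lamd_diff1 hp hV h2 h3).differentiableWithinAt
  refine Convex.norm_image_sub_le_of_norm_deriv_le (s := Metric.closedBall (0 : ℂ) (27 / 500))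
    ?_ ?_ (convex_closedBall _ _) ?_ ?_
  · intro z hz
    rw [mem_closedBall_zero_iff] at hz
    apply hopen.differentiableAt
    apply Metric.isOpen_ball.mem_nhds
    rw [mem_ball_zero_iff]
    linarith
  · intro z hz
    rw [mem_closedBall_zero_iff] at hz
    exact lamd_d2 hp hV hz
  · rw [mem_closedBall_zero_iff]; exact h
  · rw [mem_closedBall_zero_iff]; exact h'

theorem lamd_dd_diff {p : ι → ℝ} (hp : Adm p) {w : ℂ} (h : |w.im| < Real.pi) :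
    DifferentiableAt ℂ (dd p) w := by
  have hopen : IsOpen {z : ℂ | |z.im| < Real.pi} :=
    isOpen_lt (by fun_prop) continuous_const
  have h1 : DifferentiableOn ℂ (deriv (ss p)) {z : ℂ | |z.im| < Real.pi} := by
    apply DifferentiableOn.deriv _ hopen
    intro z hz
    exact (hasDerivAt_ss hp hz).differentiableAt.differentiableWithinAt
  have h2 : DifferentiableAt ℂ (deriv (ss p)) w :=
    h1.differentiableAt (hopen.mem_nhds h)
  refine h2.congr_of_eventuallyEq ?_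
  filter_upwards [hopen.mem_nhds h] with z hz
  exact (hasDerivAt_ss hp hz).deriv.symm

theorem lamd_q_diff {p : ι → ℝ} (hp : Adm p) (hV : 156 ≤ VV p) {w : ℂ} (h1 : |w.re| ≤ 1 / 5)
    (h2 : |w.im| ≤ 1 / 5) : DifferentiableAt ℂ (fun z => dd p z / ss p z) w :=
  (lamd_dd_diff hp (lt_of_le_of_lt h2 lamd_pi)).div
    (hasDerivAt_ss hp (lt_of_le_of_lt h2 lamd_pi)).differentiableAt (lamd_ss_ne hp hV h1 h2)

theorem lamd_q_norm {p : ι → ℝ} (hp : Adm p) (hV : 156 ≤ VV p) {w : ℂ} (h1 : |w.re| ≤ 1 / 5)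
    (h2 : |w.im| ≤ 1 / 10) : ‖dd p w / ss p w‖ ≤ 101 / 100 := by
  have h3 := norm_dd_le_re hp h2
  have h4 : (ss p w).re ≤ ‖ss p w‖ := Complex.re_le_norm _
  have h5 := lamd_ss_re hp hV h1 (h2.trans (by norm_num))
  rw [norm_div, div_le_iff₀ (by linarith)]
  linarith

theorem lamd_q_d {p : ι → ℝ} (hp : Adm p) (hV : 156 ≤ VV p) {w : ℂ} (h : ‖w‖ ≤ 27 / 500)
    (hi : |w.im| ≤ 11 / 1000) : ‖deriv (fun z => dd p z / ss p z) w‖ ≤ 574 / 50 := by
  have key : ∀ z ∈ Metric.closedBall w (11 / 125), |z.re| ≤ 1 / 5 ∧ |z.im| ≤ 1 / 10 := by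
    intro z hz
    have h1 := lamd_ball h hz
    refine ⟨(lamd_box h1 (by norm_num)).1, ?_⟩
    rw [mem_closedBall_iff_norm] at hz
    have h2 := Complex.abs_im_le_norm (z - w)
    have h3 : |z.im| ≤ |w.im| + |(z - w).im| := by
      have h4 : z.im = w.im + (z - w).im := by simp
      rw [h4]
      exact abs_add_le _ _
    linarith
  have h1 := Complex.norm_deriv_le_of_forall_mem_sphere_norm_le (c := w) (R := 11 / 125)
    (C := 101 / 100) (f := fun z => dd p z / ss p z) (by norm_num) (by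
      apply DifferentiableOn.diffContOnCl
      intro z hz
      obtain ⟨h2, h3⟩ := key z (Metric.closure_ball_subset_closedBall hz)
      exact (lamd_q_diff hp hV h2 (h3.trans (by norm_num))).differentiableWithinAt) (by
      intro z hz
      obtain ⟨h2, h3⟩ := key z (Metric.sphere_subset_closedBall hz)
      exact lamd_q_norm hp hV h2 h3)
  refine h1.trans ?_
  norm_num

theorem lamd_q_lip {p : ι → ℝ} (hp : Adm p) (hV : 156 ≤ VV p) {w w' : ℂ}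
    (h : ‖w‖ ≤ 27 / 500) (h' : ‖w'‖ ≤ 27 / 500) (hi : |w.im| ≤ 11 / 1000)
    (hi' : |w'.im| ≤ 11 / 1000) :
    ‖dd p w' / ss p w' - dd p w / ss p w‖ ≤ 574 / 50 * ‖w' - w‖ := by
  have hconv : Convex ℝ (Metric.closedBall (0 : ℂ) (27 / 500) ∩
      Complex.imLm ⁻¹' (Set.Icc (-(11 / 1000)) (11 / 1000))) :=
    (convex_closedBall _ _).inter ((convex_Icc _ _).linear_preimage Complex.imLm)
  refine Convex.norm_image_sub_le_of_norm_deriv_le (f := fun z => dd p z / ss p z)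
    (s := Metric.closedBall (0 : ℂ) (27 / 500) ∩
      Complex.imLm ⁻¹' (Set.Icc (-(11 / 1000)) (11 / 1000))) ?_ ?_ hconv ?_ ?_
  · rintro z ⟨hz, _⟩
    rw [mem_closedBall_zero_iff] at hz
    obtain ⟨h2, h3⟩ := lamd_box hz (by norm_num)
    exact lamd_q_diff hp hV h2 h3
  · rintro z ⟨hz, hz2⟩
    rw [mem_closedBall_zero_iff] at hz
    exact lamd_q_d hp hV hz (abs_le.2 hz2)
  · exact ⟨by rw [mem_closedBall_zero_iff]; exact h, abs_le.1 hi⟩
  · exact ⟨by rw [mem_closedBall_zero_iff]; exact h', abs_le.1 hi'⟩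

theorem lamd_deriv {p : ι → ℝ} (hp : Adm p) (hV : 156 ≤ VV p) {w : ℂ} (h : ‖w‖ ≤ 27 / 500) :
    deriv (Lam p) w = deriv (Lam1 p) w - dd p w / ss p w / 2 := by
  obtain ⟨h2, h3⟩ := lamd_box h (by norm_num)
  exact ((lamd_diff1 hp hV h2 h3).hasDerivAt.sub (lamd_log hp hV h2 h3)).deriv

theorem Lam_deriv_le {p : ι → ℝ} (hp : Adm p) (hV : 156 ≤ VV p) {w : ℂ} (h : ‖w‖ ≤ 27 / 500) :
    ‖deriv (Lam p) w‖ ≤ 3 / 2 := by
  rw [lamd_deriv hp hV h]
  obtain ⟨h2, _⟩ := lamd_box h (by norm_num)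
  have h3 : |w.im| ≤ 1 / 10 := ((Complex.abs_im_le_norm w).trans h).trans (by norm_num)
  have h4 := lamd_q_norm hp hV h2 h3
  have h5 := lamd_d1 hp hV h
  have h6 := norm_sub_le (deriv (Lam1 p) w) (dd p w / ss p w / 2)
  rw [norm_div (dd p w / ss p w) 2, Complex.norm_ofNat] at h6
  linarith

theorem Lam_deriv_lip {p : ι → ℝ} (hp : Adm p) (hV : 156 ≤ VV p) {w w' : ℂ}
    (h : ‖w‖ ≤ 27 / 500) (h' : ‖w'‖ ≤ 27 / 500) (hi : |w.im| ≤ 11 / 1000)
    (hi' : |w'.im| ≤ 11 / 1000) :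
    ‖deriv (Lam p) w' - deriv (Lam p) w‖ ≤ 39 / 2 * ‖w' - w‖ := by
  rw [lamd_deriv hp hV h, lamd_deriv hp hV h']
  have h1 := lamd_lip1 hp hV h h'
  have h2 := lamd_q_lip hp hV h h' hi hi'
  have h3 : deriv (Lam1 p) w' - dd p w' / ss p w' / 2 -
      (deriv (Lam1 p) w - dd p w / ss p w / 2) =
      (deriv (Lam1 p) w' - deriv (Lam1 p) w) -
        (dd p w' / ss p w' - dd p w / ss p w) / 2 := by ring
  rw [h3]
  have h6 := norm_sub_le (deriv (Lam1 p) w' - deriv (Lam1 p) w)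
    ((dd p w' / ss p w' - dd p w / ss p w) / 2)
  rw [norm_div (dd p w' / ss p w' - dd p w / ss p w) 2, Complex.norm_ofNat] at h6
  have h7 : 0 ≤ ‖w' - w‖ := norm_nonneg _
  linarith

/-- `‖(dd/ss)'‖ ≤ 1.01/0.088 ≤ 11.5` as above -/
theorem ddss_lip {p : ι → ℝ} (hp : Adm p) (hV : 156 ≤ VV p) {w w' : ℂ}
    (h : ‖w‖ ≤ 27 / 500) (h' : ‖w'‖ ≤ 27 / 500) (hi : |w.im| ≤ 11 / 1000)
    (hi' : |w'.im| ≤ 11 / 1000) :
    ‖dd p w' / ss p w' - dd p w / ss p w‖ ≤ 12 * ‖w' - w‖ := by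
  have h1 := lamd_q_lip hp hV h h' hi hi'
  have h7 : 0 ≤ ‖w' - w‖ := norm_nonneg _
  linarith

end Pool.Agent.RL51
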