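import Pool.Agent.RL51.Nu
import Pool.Agent.RL51.Cov1

/-!
# RL51.LineA: the exponent on the line `Im w = π/r` (task RL51-LineA)

`φ = π/r`, `V = VV p`, `w = u + iφ ∈ Box r` for `|u| ≤ 5φ`.
* `hasDerivAt_GG`: derivative of `r (EE w - kap w w) + iπ kap w` in `w` is
  `-r ss w w + iπ ss w = -r ss w (w - iφ) = -r ss w u`.
* `Zj_eq`: `exp (GG u) V (kap w - c)^j` is the integrand of `Zj` (`exp_nu`).
* `GG1_lip`: `u ↦ ss (u + iφ) u - V u` has derivative `ss - V + dd u`, of norm
  `≤ 0.057 V + 1.06 V * 0.0525 ≤ 0.113 V` (`ss_box`, `norm_dd_small`); `Lam_deriv_lip` gives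
  `19.5 r ≤ 0.125 r V` (`V ≥ 156`), `nu1_lip` gives `0.002 r V`; the sum is `≤ 0.24 r V`.
* `GG1_zero`: `‖GG1 0‖ ≤ 1.5 r + 1.01 + r/4000 ≤ 1.504 r`.
* `GG1_im`: `Im ss u = 0` for real `u`, so `|Im ss (u + iφ)| ≤ 1.06 V φ`; similarly
  `Im (deriv Lam u) = 0`, so `|Im (deriv Lam (u + iφ))| ≤ 19.5 φ`; and `nu1_le`.
* `GG_zero`: `r (EE w0 - kap w0 w0) + iπ kap w0 = r EE w0` for `w0 = wi r`.
-/

open Finset Polynomial

namespace Pool.Agent.RL51

variable {ι : Type} [Fintype ι]

private lemma phi_lt_pi {r : ℝ} (hr : 300 ≤ r) : Real.pi / r < Real.pi := by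
  have := phi_le hr
  have := Real.pi_gt_three
  linarith

private lemma line_re {r u : ℝ} : ((u : ℂ) + wi r).re = u := by
  simp [wi]

private lemma line_im {r u : ℝ} : ((u : ℂ) + wi r).im = Real.pi / r := by
  simp [wi]

private lemma line_im_lt {r : ℝ} (hr : 300 ≤ r) {u : ℝ} : |((u : ℂ) + wi r).im| < Real.pi := by
  rw [line_im, abs_of_pos (phi_pos hr)]
  exact phi_lt_pi hr

private lemma line_small {r : ℝ} (hr : 300 ≤ r) {u : ℝ} (hu : |u| ≤ 5 * (Real.pi / r)) :
    ‖(u : ℂ) + wi r‖ ≤ 27 / 500 := box_small hr (line_mem_box hr hu)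

private lemma r_mul_wi {r : ℝ} (hr : 300 ≤ r) : (r : ℂ) * wi r = (Real.pi : ℂ) * Complex.I := by
  have h0 : (r : ℂ) ≠ 0 := by
    have : r ≠ 0 := by linarith
    exact_mod_cast this
  unfold wi
  push_cast
  field_simp

theorem hasDerivAt_GG {p : ι → ℝ} {r : ℝ} (hB : Big p r) {u : ℝ}
    (hu : |u| ≤ 5 * (Real.pi / r)) : HasDerivAt (GG p r) (GG1 p r u) u := by
  have hr := hB.hr
  have him : |((u : ℂ) + wi r).im| < Real.pi := line_im_lt hr
  have hsm : ‖(u : ℂ) + wi r‖ < 1 / 5 := lt_of_le_of_lt (line_small hr hu) (by norm_num)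
  have hE := hasDerivAt_EE hB.adm him
  have hk := hasDerivAt_kap hB.adm him
  have hL := (differentiableAt_Lam hB.adm hB.V156 hsm).hasDerivAt
  have hn := hasDerivAt_nu hB hu
  have hw : HasDerivAt (fun w : ℂ => w) 1 ((u : ℂ) + wi r) := hasDerivAt_id _
  have h1 : HasDerivAt (fun w : ℂ => (r : ℂ) * (EE p w - kap p w * w) +
      (Real.pi : ℂ) * Complex.I * kap p w + (r : ℂ) * Lam p w + nu p w)
      ((r : ℂ) * (kap p ((u : ℂ) + wi r) - (ss p ((u : ℂ) + wi r) * ((u : ℂ) + wi r) +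
        kap p ((u : ℂ) + wi r) * 1)) +
      (Real.pi : ℂ) * Complex.I * ss p ((u : ℂ) + wi r) +
      (r : ℂ) * deriv (Lam p) ((u : ℂ) + wi r) + nu1 p ((u : ℂ) + wi r)) ((u : ℂ) + wi r) :=
    ((((hE.sub (hk.mul hw)).const_mul (r : ℂ)).add
      (hk.const_mul ((Real.pi : ℂ) * Complex.I))).add (hL.const_mul (r : ℂ))).add hn
  have h2 : HasDerivAt (fun x : ℝ => (x : ℂ) + wi r) 1 u := by
    have := (hasDerivAt_id (u : ℂ)).comp_ofReal
    simpa using this.add_const (wi r)
  have h3 := HasDerivAt.scomp u h1 h2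
  have e : (GG1 p r u) = (1 : ℂ) • ((r : ℂ) * (kap p ((u : ℂ) + wi r) -
        (ss p ((u : ℂ) + wi r) * ((u : ℂ) + wi r) +
        kap p ((u : ℂ) + wi r) * 1)) +
      (Real.pi : ℂ) * Complex.I * ss p ((u : ℂ) + wi r) +
      (r : ℂ) * deriv (Lam p) ((u : ℂ) + wi r) + nu1 p ((u : ℂ) + wi r)) := by
    rw [one_smul]
    unfold GG1
    have := r_mul_wi hr
    linear_combination (ss p ((u : ℂ) + wi r)) * this
  rw [e]
  exact h3

theorem continuousOn_GG1 {p : ι → ℝ} {r : ℝ} (hB : Big p r) :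
    ContinuousOn (GG1 p r) (Set.Icc (-(5 * (Real.pi / r))) (5 * (Real.pi / r))) := by
  have hr := hB.hr
  have hline : Continuous (fun x : ℝ => (x : ℂ) + wi r) := by fun_prop
  have hnu : ContinuousOn (fun u : ℝ => nu1 p ((u : ℂ) + wi r))
      (Set.Icc (-(5 * (Real.pi / r))) (5 * (Real.pi / r))) := by
    have hlip : LipschitzOnWith (Real.toNNReal (1 / 500 * (r * VV p)))
        (fun u : ℝ => nu1 p ((u : ℂ) + wi r))
        (Set.Icc (-(5 * (Real.pi / r))) (5 * (Real.pi / r))) := by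
      apply LipschitzOnWith.of_dist_le_mul
      intro x hx y hy
      have hpos : 0 ≤ 1 / 500 * (r * VV p) := by
        have := hB.V156
        have : 0 ≤ VV p := by linarith
        have : 0 ≤ r := by linarith
        positivity
      rw [Real.coe_toNNReal _ hpos, dist_eq_norm, Real.dist_eq]
      exact nu1_lip hB (abs_le.mpr hx) (abs_le.mpr hy)
    exact hlip.continuousOn
  have hss : ContinuousOn (fun u : ℝ => ss p ((u : ℂ) + wi r))
      (Set.Icc (-(5 * (Real.pi / r))) (5 * (Real.pi / r))) := by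
    intro u hu
    have h1 := (hasDerivAt_ss hB.adm (line_im_lt hr (u := u))).continuousAt
    exact (ContinuousAt.comp (f := fun x : ℝ => (x : ℂ) + wi r) h1
      hline.continuousAt).continuousWithinAt
  have hL : ContinuousOn (fun u : ℝ => deriv (Lam p) ((u : ℂ) + wi r))
      (Set.Icc (-(5 * (Real.pi / r))) (5 * (Real.pi / r))) := by
    intro u hu
    have hsm : ‖(u : ℂ) + wi r‖ < 1 / 5 :=
      lt_of_le_of_lt (line_small hr (abs_le.mpr hu)) (by norm_num)
    have h1 := continuousAt_deriv_Lam hB.adm hB.V156 hsm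
    exact (ContinuousAt.comp (f := fun x : ℝ => (x : ℂ) + wi r) h1
      hline.continuousAt).continuousWithinAt
  unfold GG1
  exact ((((continuousOn_const.mul hss).mul
    (Complex.continuous_ofReal.continuousOn)).neg).add (continuousOn_const.mul hL)).add hnu

theorem Zj_eq {p : ι → ℝ} {r A B : ℝ} {N1 N2 : ℕ} (hB : Big p r) (hW : Win p r A B N1 N2)
    (j : ℕ) :
    Zj p r A B j = (VV p : ℂ) * ∫ u in (-A)..B, Complex.exp (GG p r u) *
      (kap p ((u : ℂ) + wi r) - (cc p r : ℂ)) ^ j := by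
  have hr := hB.hr
  have hφ := phi_pos hr
  have hV : (VV p : ℂ) ≠ 0 := by
    have := hB.V156
    have : VV p ≠ 0 := by linarith
    exact_mod_cast this
  unfold Zj
  rw [← intervalIntegral.integral_const_mul]
  apply intervalIntegral.integral_congr
  intro u hu
  have hAB : -A ≤ B := by
    have := hW.hA1; have := hW.hB1; linarith
  rw [Set.uIcc_of_le hAB] at hu
  have hu5 : |u| ≤ 5 * (Real.pi / r) := by
    rw [abs_le]
    have := hW.hA2; have := hW.hB2
    exact ⟨by linarith [hu.1], by linarith [hu.2]⟩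
  have hn := exp_nu hB hu5
  have hG : Complex.exp (GG p r u) = Hf p r ((u : ℂ) + wi r) *
      Complex.exp ((Real.pi : ℂ) * Complex.I * kap p ((u : ℂ) + wi r)) *
      Complex.exp (nu p ((u : ℂ) + wi r)) := by
    unfold GG Hf
    rw [← Complex.exp_add, ← Complex.exp_add]
    congr 1
    ring
  have hE := E_le hB hu5
  have hne : 1 - Complex.exp (2 * (Real.pi : ℂ) * Complex.I * kap p ((u : ℂ) + wi r)) ≠ 0 := by
    intro h0
    have h1 : Complex.exp (2 * (Real.pi : ℂ) * Complex.I * kap p ((u : ℂ) + wi r)) = 1 := by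
      linear_combination -h0
    rw [h1] at hE
    norm_num at hE
  simp only []
  rw [hG, hn]
  unfold Fj
  field_simp

private lemma line_dist {r u t : ℝ} :
    ‖((u : ℂ) + wi r) - ((t : ℂ) + wi r)‖ = |u - t| := by
  have : ((u : ℂ) + wi r) - ((t : ℂ) + wi r) = ((u - t : ℝ) : ℂ) := by
    push_cast; ring
  rw [this, Complex.norm_real, Real.norm_eq_abs]

private lemma line_im_small {r : ℝ} (hr : 300 ≤ r) {u : ℝ} :
    |((u : ℂ) + wi r).im| ≤ 11 / 1000 := by
  rw [line_im, abs_of_pos (phi_pos hr)]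
  linarith [phi_le hr]

private lemma ss_u_lip {p : ι → ℝ} {r : ℝ} (hB : Big p r) {u t : ℝ}
    (hu : |u| ≤ 5 * (Real.pi / r)) (ht : |t| ≤ 5 * (Real.pi / r)) :
    ‖(ss p ((u : ℂ) + wi r) * u - (VV p : ℂ) * u) -
      (ss p ((t : ℂ) + wi r) * t - (VV p : ℂ) * t)‖ ≤ 113 / 1000 * VV p * |u - t| := by
  have hr := hB.hr
  have hVV : 0 ≤ VV p := by linarith [hB.V156]
  have key := Convex.norm_image_sub_le_of_norm_hasDerivWithin_le
    (f := fun x : ℝ => ss p ((x : ℂ) + wi r) * x - (VV p : ℂ) * x)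
    (f' := fun x : ℝ => (dd p ((x : ℂ) + wi r) * x + ss p ((x : ℂ) + wi r)) - (VV p : ℂ))
    (s := Set.Icc (-(5 * (Real.pi / r))) (5 * (Real.pi / r)))
    (C := 113 / 1000 * VV p) (x := t) (y := u)
    (by
      intro x hx
      have h1 := hasDerivAt_ss hB.adm (line_im_lt hr (u := x))
      have h2 : HasDerivAt (fun x : ℝ => (x : ℂ) + wi r) 1 x := by
        have := (hasDerivAt_id (x : ℂ)).comp_ofReal
        simpa using this.add_const (wi r)
      have h3 := HasDerivAt.scomp x h1 h2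
      have h4 : HasDerivAt (fun x : ℝ => (x : ℂ)) 1 x := by
        simpa using (hasDerivAt_id (x : ℂ)).comp_ofReal
      have h5 := (h3.mul h4).sub (h4.const_mul (VV p : ℂ))
      have e : (dd p ((x : ℂ) + wi r) * x + ss p ((x : ℂ) + wi r)) - (VV p : ℂ) =
          (1 : ℂ) • dd p ((x : ℂ) + wi r) * (x : ℂ) +
          (ss p ∘ fun x : ℝ => (x : ℂ) + wi r) x * 1 - (VV p : ℂ) * 1 := by
        simp
      rw [e]
      exact h5.hasDerivWithinAt)
    (by
      intro x hx
      have hx5 : |x| ≤ 5 * (Real.pi / r) := abs_le.mpr hx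
      have b1 := ss_box hB (line_mem_box hr hx5)
      have b2 := norm_dd_small hB.adm (line_small hr hx5)
      have hφ := phi_le hr
      have e : (dd p ((x : ℂ) + wi r) * x + ss p ((x : ℂ) + wi r)) - (VV p : ℂ) =
          dd p ((x : ℂ) + wi r) * x + (ss p ((x : ℂ) + wi r) - (VV p : ℂ)) := by ring
      rw [e]
      refine (norm_add_le _ _).trans ?_
      rw [norm_mul, Complex.norm_real, Real.norm_eq_abs]
      have b3 : |x| ≤ 21 / 400 := by linarith
      have b4 : ‖dd p ((x : ℂ) + wi r)‖ * |x| ≤ (53 / 50 * VV p) * (21 / 400) :=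
        mul_le_mul b2 b3 (abs_nonneg _) (by positivity)
      nlinarith [b1, b4, hVV])
    (convex_Icc _ _) (abs_le.mp ht) (abs_le.mp hu)
  rw [Real.norm_eq_abs] at key
  exact key

theorem GG1_lip {p : ι → ℝ} {r : ℝ} (hB : Big p r) {u t : ℝ} (hu : |u| ≤ 5 * (Real.pi / r))
    (ht : |t| ≤ 5 * (Real.pi / r)) :
    ‖GG1 p r u - GG1 p r t + ((r * VV p * (u - t) : ℝ) : ℂ)‖ ≤
      6 / 25 * (r * VV p) * |u - t| := by
  have hr := hB.hr
  have hr0 : 0 ≤ r := by linarith
  have hV := hB.V156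
  have hab : 0 ≤ |u - t| := abs_nonneg _
  have b1 := ss_u_lip hB hu ht
  have b2 := Lam_deriv_lip hB.adm hB.V156 (line_small hr ht) (line_small hr hu)
    (line_im_small hr) (line_im_small hr)
  rw [line_dist] at b2
  have b3 := nu1_lip hB hu ht
  have e : GG1 p r u - GG1 p r t + ((r * VV p * (u - t) : ℝ) : ℂ) =
      -((r : ℂ) * ((ss p ((u : ℂ) + wi r) * u - (VV p : ℂ) * u) -
      (ss p ((t : ℂ) + wi r) * t - (VV p : ℂ) * t))) +
      (r : ℂ) * (deriv (Lam p) ((u : ℂ) + wi r) - deriv (Lam p) ((t : ℂ) + wi r)) +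
      (nu1 p ((u : ℂ) + wi r) - nu1 p ((t : ℂ) + wi r)) := by
    unfold GG1
    push_cast
    ring
  rw [e]
  refine (norm_add₃_le).trans ?_
  rw [norm_neg, norm_mul, norm_mul, Complex.norm_real, Real.norm_eq_abs, abs_of_nonneg hr0]
  have c1 := mul_le_mul_of_nonneg_left b1 hr0
  have c2 := mul_le_mul_of_nonneg_left b2 hr0
  have c3 : r * (39 / 2 * |u - t|) ≤ 1 / 8 * (r * VV p) * |u - t| := by
    have : 0 ≤ (VV p - 156) * (r * |u - t|) := by
      apply mul_nonneg
      · linarith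
      · positivity
    nlinarith [this]
  nlinarith [c1, c2, c3, b3]

theorem GG1_zero {p : ι → ℝ} {r : ℝ} (hB : Big p r) : |(GG1 p r 0).re| ≤ 188 / 125 * r := by
  have hr := hB.hr
  have hr0 : 0 ≤ r := by linarith
  have h0 : |(0 : ℝ)| ≤ 5 * (Real.pi / r) := by
    have := phi_pos hr
    rw [abs_zero]; positivity
  have b1 := Lam_deriv_le hB.adm hB.V156 (line_small hr h0)
  have b2 := nu1_le hB h0
  refine (Complex.abs_re_le_norm _).trans ?_
  unfold GG1
  rw [Complex.ofReal_zero] at *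
  rw [mul_zero, neg_zero, zero_add]
  refine (norm_add_le _ _).trans ?_
  rw [norm_mul, Complex.norm_real, Real.norm_eq_abs, abs_of_nonneg hr0]
  have c1 := mul_le_mul_of_nonneg_left b1 hr0
  linarith

private lemma ss_im_ofReal (p : ι → ℝ) (x : ℝ) : (ss p (x : ℂ)).im = 0 := by
  have := ss_conj p (x : ℂ)
  rw [Complex.conj_ofReal] at this
  exact Complex.conj_eq_iff_im.mp this.symm

theorem GG1_im {p : ι → ℝ} {r : ℝ} (hB : Big p r) {u : ℝ} (hu : |u| ≤ 5 * (Real.pi / r)) :
    |(GG1 p r u).im| ≤ (39 / 2 * Real.pi + 101 / 100 + r / 4000) +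
      53 / 50 * Real.pi * VV p * |u| := by
  have hr := hB.hr
  have hr0 : 0 < r := by linarith
  have hV := hB.V156
  have hφ := phi_pos hr
  have hrφ : r * (Real.pi / r) = Real.pi := by field_simp
  have hbox := line_mem_box hr hu
  have hboxr := ofReal_mem_box hr hu
  have hdist : ‖((u : ℂ) + wi r) - (u : ℂ)‖ = Real.pi / r := by
    rw [add_sub_cancel_left]
    unfold wi
    rw [norm_mul, Complex.norm_I, mul_one, Complex.norm_real, Real.norm_eq_abs, abs_of_pos hφ]
  -- the imaginary part of `ss`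
  have a1 : |(ss p ((u : ℂ) + wi r)).im| ≤ 53 / 50 * VV p * (Real.pi / r) := by
    have key := Convex.norm_image_sub_le_of_norm_hasDerivWithin_le
      (f := ss p) (f' := dd p) (s := Box r) (C := 53 / 50 * VV p) (x := (u : ℂ))
      (y := (u : ℂ) + wi r)
      (by
        intro x hx
        have hi := box_im hr hx
        exact (hasDerivAt_ss hB.adm (by have := Real.pi_gt_three; linarith)).hasDerivWithinAt)
      (by
        intro x hx
        exact norm_dd_small hB.adm (box_small hr hx))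
      (box_convex r) hboxr hbox
    rw [hdist] at key
    have : (ss p ((u : ℂ) + wi r)).im = (ss p ((u : ℂ) + wi r) - ss p (u : ℂ)).im := by
      rw [Complex.sub_im, ss_im_ofReal, sub_zero]
    rw [this]
    exact (Complex.abs_im_le_norm _).trans key
  -- the imaginary part of `Lam'`
  have a2 : |(deriv (Lam p) ((u : ℂ) + wi r)).im| ≤ 39 / 2 * (Real.pi / r) := by
    have hus : ‖(u : ℂ)‖ ≤ 27 / 500 := box_small hr hboxr
    have hu5 : |u| < 1 / 5 := by
      rw [Complex.norm_real, Real.norm_eq_abs] at hus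
      linarith
    have key := Lam_deriv_lip hB.adm hB.V156 hus (line_small hr hu)
      (by rw [Complex.ofReal_im]; norm_num) (line_im_small hr)
    rw [hdist] at key
    have : (deriv (Lam p) ((u : ℂ) + wi r)).im =
        (deriv (Lam p) ((u : ℂ) + wi r) - deriv (Lam p) (u : ℂ)).im := by
      rw [Complex.sub_im, deriv_Lam_im_ofReal hB.adm hB.V156 hu5, sub_zero]
    rw [this]
    exact (Complex.abs_im_le_norm _).trans key
  have a3 : |(nu1 p ((u : ℂ) + wi r)).im| ≤ 101 / 100 + r / 4000 :=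
    (Complex.abs_im_le_norm _).trans (nu1_le hB hu)
  have e : (GG1 p r u).im = -(r * (ss p ((u : ℂ) + wi r)).im * u) +
      r * (deriv (Lam p) ((u : ℂ) + wi r)).im + (nu1 p ((u : ℂ) + wi r)).im := by
    unfold GG1
    simp [Complex.mul_im, Complex.add_im, Complex.neg_im]
  rw [e]
  have t1 : |(-(r * (ss p ((u : ℂ) + wi r)).im * u) +
      r * (deriv (Lam p) ((u : ℂ) + wi r)).im + (nu1 p ((u : ℂ) + wi r)).im)| ≤
      r * |(ss p ((u : ℂ) + wi r)).im| * |u| + r * |(deriv (Lam p) ((u : ℂ) + wi r)).im| +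
        |(nu1 p ((u : ℂ) + wi r)).im| := by
    refine (abs_add_three _ _ _).trans ?_
    rw [abs_neg, abs_mul, abs_mul, abs_mul, abs_of_pos hr0]
  refine t1.trans ?_
  have d1 : r * |(ss p ((u : ℂ) + wi r)).im| * |u| ≤ 53 / 50 * Real.pi * VV p * |u| := by
    apply mul_le_mul_of_nonneg_right _ (abs_nonneg _)
    have := mul_le_mul_of_nonneg_left a1 hr0.le
    calc r * |(ss p ((u : ℂ) + wi r)).im| ≤ r * (53 / 50 * VV p * (Real.pi / r)) := this
      _ = 53 / 50 * VV p * (r * (Real.pi / r)) := by ring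
      _ = 53 / 50 * Real.pi * VV p := by rw [hrφ]; ring
  have d2 : r * |(deriv (Lam p) ((u : ℂ) + wi r)).im| ≤ 39 / 2 * Real.pi := by
    have := mul_le_mul_of_nonneg_left a2 hr0.le
    calc r * |(deriv (Lam p) ((u : ℂ) + wi r)).im| ≤ r * (39 / 2 * (Real.pi / r)) := this
      _ = 39 / 2 * (r * (Real.pi / r)) := by ring
      _ = 39 / 2 * Real.pi := by rw [hrφ]
  linarith

theorem GG_zero (p : ι → ℝ) {r : ℝ} (hr : 300 ≤ r) :
    GG p r 0 = (r : ℂ) * EE p (wi r) + (r : ℂ) * Lam p (wi r) + nu p (wi r) := by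
  unfold GG
  rw [Complex.ofReal_zero, zero_add]
  have := r_mul_wi hr
  linear_combination (- kap p (wi r)) * this

/-- the hypotheses of `Cov1` with `a = r V`, `b0 = 1.504 r`: `4 b0/(3a) = 2.0054/V ≤ 3.86/r < 4φ`. -/
theorem covHyp_GG {p : ι → ℝ} {r A B : ℝ} {N1 N2 : ℕ} (hB : Big p r)
    (hW : Win p r A B N1 N2) :
    CovHyp (r * VV p) A B (188 / 125 * r) (GG p r) (GG1 p r) := by
  have hr := hB.hr
  have hr0 : 0 < r := by linarith
  have hV := hB.V156
  have hV0 : 0 < VV p := by linarith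
  have hφ := phi_pos hr
  have hA0 : 0 < A := by have := hW.hA1; linarith
  have hB0 : 0 < B := by have := hW.hB1; linarith
  have hsub : ∀ u ∈ Set.Icc (-A) B, |u| ≤ 5 * (Real.pi / r) := by
    intro u hu
    rw [abs_le]
    have := hW.hA2; have := hW.hB2
    exact ⟨by linarith [hu.1], by linarith [hu.2]⟩
  have hbd : 4 * (188 / 125 * r) / (3 * (r * VV p)) < 4 * (Real.pi / r) := by
    have e : 4 * (188 / 125 * r) / (3 * (r * VV p)) = (752 / 375) / VV p := by
      field_simp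
      norm_num
    rw [e, div_lt_iff₀ hV0]
    have h1 : (752 / 375 : ℝ) < 4 * (Real.pi * (13 / 25)) := by
      have := Real.pi_gt_three
      linarith
    have h2 : 4 * (Real.pi * (13 / 25)) = 4 * (Real.pi / r) * (13 / 25 * r) := by
      field_simp
    have h3 : 4 * (Real.pi / r) * (13 / 25 * r) ≤ 4 * (Real.pi / r) * VV p :=
      mul_le_mul_of_nonneg_left hB.hV (by positivity)
    linarith
  refine ⟨by positivity, hA0, hB0, ?_, ?_, ?_, GG1_zero hB, ?_, ?_⟩
  · intro u hu
    exact hasDerivAt_GG hB (hsub u hu)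
  · apply (continuousOn_GG1 hB).mono
    intro u hu
    exact abs_le.mp (hsub u hu)
  · intro u hu t ht htu
    have h := GG1_lip hB (hsub u hu) (hsub t ht)
    have h2 := (le_abs_self _).trans ((Complex.abs_re_le_norm _).trans h)
    rw [Complex.add_re, Complex.sub_re, Complex.ofReal_re, abs_of_nonneg (by linarith)] at h2
    have h3 : 0 ≤ (r * VV p) * (u - t) := by
      have : 0 ≤ u - t := by linarith
      positivity
    nlinarith [h2, h3]
  · exact lt_of_lt_of_le hbd hW.hA1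
  · exact lt_of_lt_of_le hbd hW.hB1

end Pool.Agent.RL51
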