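import Pool.Agent.RL51.LineA
import Pool.Agent.RL51.Cov2

/-!
# RL51.LineB: the integral along `Im w = π/r` (task RL51-LineB)

`S = V/r ≥ 0.52`, `a = r V`, `v = 4/(3a)`, `K = KK p r`, `φ = π/r`.
Apply `cov_main` with `G = GG`, `κ u = kap (u + iφ) - c`, `b0 = 1.504 r`,
`L0 = 39π/2 + 1.01 + r/4000`, `L1 = 1.06 π V`, `c1 = 1.057 V` (`kap_box`),
`y0 = 0.943 π S`, `y1 = 1.057 π S` (`kap_im_box`, `Im w = φ`).
`4 b0/(3a) = 2.00534/V`; `L = L0 + 1.06 π 2.00534 ≤ 69 + r/4000`, `L/r ≤ 0.23025`.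
* `(y1/2) 4 L^2 v = (1.057 π S/2) 4 (L/r)^2 (4/3)/S ≤ 0.4696`;
* `(y1/2) 16 L1^2 v^2 ≤ (y1/2) * 16 * 11.1 * 1.778/90000 ≤ 0.0036 * 0.5285 π S ≤ 0.0060 S`;
* `(c1/2) 2 L v = 1.057 (4/3) (L/r) ≤ 0.3246`;
* `(c1/2) 7 L1 v √v = 0.5285 * 7 * 3.3302 * 1.5397 √S/r ≤ 18.97 √S/300 ≤ 0.0633 √S`.
So the factor is `≥ 0.943 π S - 0.7942 - 0.0060 S - 0.0633 √S ≥ (1057/4000) π S ≥ K/4`
(`KK_upper`): `2.126 S ≥ 0.7942 + 0.0633 √S` for `S ≥ 0.52` (use `√S ≤ 0.6934 S + 0.3607`).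
-/

open Finset Polynomial

namespace Pool.Agent.RL51

variable {ι : Type} [Fintype ι]

/-- the numerical part of `line_main` -/
theorem lineB_factor {r V : ℝ} (hr : 300 ≤ r) (hV : 13 / 25 * r ≤ V) :
    1 / 4 * (1057 / 1000 * (Real.pi * (V / r))) ≤
      943 / 1000 * (Real.pi * (V / r)) -
        1057 / 1000 * (Real.pi * (V / r)) / 2 *
          (4 * ((39 / 2 * Real.pi + 101 / 100 + r / 4000) + 53 / 50 * Real.pi * V *
              (4 * (188 / 125 * r) / (3 * (r * V)))) ^ 2 * (4 / (3 * (r * V))) +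
            16 * (53 / 50 * Real.pi * V) ^ 2 * (4 / (3 * (r * V))) ^ 2) -
        1057 / 1000 * V / 2 *
          (2 * ((39 / 2 * Real.pi + 101 / 100 + r / 4000) + 53 / 50 * Real.pi * V *
              (4 * (188 / 125 * r) / (3 * (r * V)))) * (4 / (3 * (r * V))) +
            7 * (53 / 50 * Real.pi * V) * (4 / (3 * (r * V))) *
              Real.sqrt (4 / (3 * (r * V)))) := by
  have hr0 : 0 < r := by linarith
  have hV0 : 0 < V := by nlinarith
  have hp0 : 0 < Real.pi := Real.pi_pos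
  have hp1 : 3.1415 < Real.pi := Real.pi_gt_d4
  have hp2 : Real.pi < 3.1416 := Real.pi_lt_d4
  obtain ⟨S, hS⟩ : ∃ S, S = V / r := ⟨_, rfl⟩
  have hVS : V = S * r := by rw [hS]; field_simp
  have hS1 : 13 / 25 ≤ S := by
    rw [hS, le_div_iff₀ hr0]; exact hV
  have hS0 : 0 < S := by linarith
  -- the square root
  obtain ⟨w, hw⟩ : ∃ w, w = Real.sqrt (4 / (3 * (r * V))) := ⟨_, rfl⟩
  have hw0 : 0 ≤ w := by rw [hw]; exact Real.sqrt_nonneg _
  have hw2 : w ^ 2 = 4 / (3 * (r * V)) := by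
    rw [hw]; exact Real.sq_sqrt (by positivity)
  have hv : 4 / (3 * (r * V)) = 4 / (3 * S) / r ^ 2 := by
    rw [hVS]; field_simp
  -- L
  obtain ⟨L, hL⟩ : ∃ L, L = (39 / 2 * Real.pi + 101 / 100 + r / 4000) + 53 / 50 * Real.pi * V *
              (4 * (188 / 125 * r) / (3 * (r * V))) := ⟨_, rfl⟩
  have hL' : L = (39 / 2 + 53 / 50 * (752 / 375)) * Real.pi + 101 / 100 + r / 4000 := by
    rw [hL]; field_simp; ring
  obtain ⟨ℓ, hℓ⟩ : ∃ ℓ, ℓ = L / r := ⟨_, rfl⟩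
  have hLℓ : L = ℓ * r := by rw [hℓ]; field_simp
  have hℓ0 : 0 ≤ ℓ := by
    rw [hℓ, hL']; positivity
  have hℓ1 : ℓ ≤ 2302 / 10000 := by
    rw [hℓ, div_le_iff₀ hr0, hL']
    nlinarith
  -- the product S w r
  obtain ⟨x, hx⟩ : ∃ x, x = S * w * r := ⟨_, rfl⟩
  have hx0 : 0 ≤ x := by rw [hx]; positivity
  have hx2 : x ^ 2 = 4 / 3 * S := by
    rw [hx, mul_pow, mul_pow, hw2, hVS]; field_simp
  have hx1 : x ≤ 4 / 5 * S + 5 / 12 := by
    nlinarith [sq_nonneg (x - 5 / 6)]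
  rw [← hw, ← hL, hLℓ, hv, ← hS]
  -- the four terms
  have t1 : 1057 / 1000 * (Real.pi * S) / 2 * (4 * (ℓ * r) ^ 2 * (4 / (3 * S) / r ^ 2)) =
      1057 / 1000 * (8 / 3) * Real.pi * ℓ ^ 2 := by field_simp; ring
  have t2 : 1057 / 1000 * (Real.pi * S) / 2 *
      (16 * (53 / 50 * Real.pi * V) ^ 2 * (4 / (3 * S) / r ^ 2) ^ 2) =
      (1057 / 1000 * 8 * (53 / 50) ^ 2 * (16 / 9)) * Real.pi ^ 3 * S / r ^ 2 := by
    rw [hVS]; field_simp; ring
  have t3 : 1057 / 1000 * V / 2 * (2 * (ℓ * r) * (4 / (3 * S) / r ^ 2)) =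
      1057 / 1000 * (4 / 3) * ℓ := by
    rw [hVS]; field_simp
  have t4 : 1057 / 1000 * V / 2 * (7 * (53 / 50 * Real.pi * V) * (4 / (3 * S) / r ^ 2) * w) =
      (1057 / 1000 * 7 * (53 / 50) * (2 / 3)) * Real.pi * x / r := by
    rw [hVS, hx]; field_simp; ring
  have e1 : 1057 / 1000 * (8 / 3) * Real.pi * ℓ ^ 2 ≤ 47 / 100 := by
    have : ℓ ^ 2 ≤ (2302 / 10000) ^ 2 := by gcongr
    have h2 : Real.pi * ℓ ^ 2 ≤ 3.1416 * (2302 / 10000) ^ 2 := by gcongr
    nlinarith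
  have e2 : (1057 / 1000 * 8 * (53 / 50) ^ 2 * (16 / 9)) * Real.pi ^ 3 * S / r ^ 2 ≤
      6 / 1000 * S := by
    rw [div_le_iff₀ (by positivity)]
    have h1 : Real.pi ^ 3 ≤ 3.1416 ^ 3 := by gcongr
    have h2 : (300 : ℝ) ^ 2 ≤ r ^ 2 := by gcongr
    have h3 : (1057 / 1000 * 8 * (53 / 50) ^ 2 * (16 / 9)) * Real.pi ^ 3 ≤ 6 / 1000 * r ^ 2 := by
      nlinarith
    calc (1057 / 1000 * 8 * (53 / 50) ^ 2 * (16 / 9)) * Real.pi ^ 3 * S
        ≤ (6 / 1000 * r ^ 2) * S := by gcongr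
      _ = 6 / 1000 * S * r ^ 2 := by ring
  have e3 : 1057 / 1000 * (4 / 3) * ℓ ≤ 325 / 1000 := by nlinarith
  have e4 : (1057 / 1000 * 7 * (53 / 50) * (2 / 3)) * Real.pi * x / r ≤
      (55 / 1000) * (4 / 5 * S + 5 / 12) := by
    rw [div_le_iff₀ hr0]
    have h1 : (1057 / 1000 * 7 * (53 / 50) * (2 / 3)) * Real.pi ≤ 55 / 1000 * r := by nlinarith
    calc (1057 / 1000 * 7 * (53 / 50) * (2 / 3)) * Real.pi * x
        ≤ (55 / 1000 * r) * (4 / 5 * S + 5 / 12) := by gcongr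
      _ = 55 / 1000 * (4 / 5 * S + 5 / 12) * r := by ring
  have e5 : 3.1415 * S ≤ Real.pi * S := by gcongr
  rw [mul_add (1057 / 1000 * (Real.pi * S) / 2), mul_add (1057 / 1000 * V / 2), t1, t2, t3, t4]
  nlinarith

theorem line_main {p : ι → ℝ} {r A B : ℝ} {N1 N2 : ℕ} (hB : Big p r)
    (hW : Win p r A B N1 N2) :
    1 / 4 * KK p r * MZ p r A B ^ 2 ≤
      (Zj p r A B 1 * (starRingEnd ℂ) (Zj p r A B 0)).im := by
  have hr := hB.hr
  have hr0 : 0 < r := by linarith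
  have hφ := phi_pos hr
  have hV := hB.hV
  have hV0 : 0 < VV p := by linarith [hB.V156]
  have hbox : ∀ u ∈ Set.Icc (-A) B, |u| ≤ 5 * (Real.pi / r) := by
    intro u hu
    rw [abs_le]
    exact ⟨by linarith [hW.hA2, hu.1], by linarith [hW.hB2, hu.2]⟩
  have him : ∀ u : ℝ, ((u : ℂ) + wi r).im = Real.pi / r := by
    intro u
    simp [wi]
  have hcont : ContinuousOn (fun u : ℝ => kap p ((u : ℂ) + wi r) - (cc p r : ℂ))
      (Set.Icc (-A) B) := by
    intro u hu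
    have hd : ContinuousAt (kap p) ((u : ℂ) + wi r) := by
      refine (hasDerivAt_kap hB.adm ?_).continuousAt
      have := box_im hr (line_mem_box hr (hbox u hu))
      linarith [Real.pi_gt_three]
    have hl : ContinuousAt (fun u : ℝ => (u : ℂ) + wi r) u := by fun_prop
    exact ((ContinuousAt.comp (f := fun u : ℝ => (u : ℂ) + wi r) (g := kap p) hd hl).sub
      continuousAt_const).continuousWithinAt
  have h := cov_main (κ := fun u : ℝ => kap p ((u : ℂ) + wi r) - (cc p r : ℂ))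
    (L0 := 39 / 2 * Real.pi + 101 / 100 + r / 4000) (L1 := 53 / 50 * Real.pi * VV p)
    (c1 := 1057 / 1000 * VV p) (y0 := 943 / 1000 * (Real.pi * (VV p / r)))
    (y1 := 1057 / 1000 * (Real.pi * (VV p / r)))
    (covHyp_GG hB hW) hcont (by positivity) (by positivity) (by positivity) (by positivity)
    (fun u hu => GG1_im hB (hbox u hu))
    (by
      intro u hu t ht
      have h1 := kap_box hB (line_mem_box hr (hbox t ht)) (line_mem_box hr (hbox u hu))
      have e1 : ((u : ℂ) + wi r) - ((t : ℂ) + wi r) = ((u - t : ℝ) : ℂ) := by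
        push_cast; ring
      rw [e1, Complex.norm_real, Real.norm_eq_abs] at h1
      have h2 := (Complex.abs_re_le_norm _).trans h1
      have e2 : (kap p ((u : ℂ) + wi r) - kap p ((t : ℂ) + wi r) -
          (VV p : ℂ) * ((u - t : ℝ) : ℂ)).re =
          (kap p ((u : ℂ) + wi r)).re - (kap p ((t : ℂ) + wi r)).re - VV p * (u - t) := by
        rw [← Complex.ofReal_mul, Complex.sub_re, Complex.sub_re, Complex.ofReal_re]
      rw [e2] at h2
      simp only [Complex.sub_re, Complex.ofReal_re]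
      have e3 : (kap p ((u : ℂ) + wi r)).re - cc p r - ((kap p ((t : ℂ) + wi r)).re - cc p r) =
        ((kap p ((u : ℂ) + wi r)).re - (kap p ((t : ℂ) + wi r)).re - VV p * (u - t)) +
          VV p * (u - t) := by ring
      rw [e3]
      refine (abs_add_le _ _).trans ?_
      rw [abs_mul, abs_of_pos hV0]
      linarith)
    (by
      intro u hu
      have h1 := kap_im_box hB (line_mem_box hr (hbox u hu))
      rw [him, abs_of_pos hφ] at h1
      simp only [Complex.sub_im, Complex.ofReal_im, sub_zero]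
      have e : Real.pi * (VV p / r) = VV p * (Real.pi / r) := by ring
      rw [e]
      have := (abs_le.1 h1).1
      linarith)
    (by
      intro u hu
      have h1 := kap_im_box hB (line_mem_box hr (hbox u hu))
      rw [him, abs_of_pos hφ] at h1
      simp only [Complex.sub_im, Complex.ofReal_im, sub_zero]
      have e : Real.pi * (VV p / r) = VV p * (Real.pi / r) := by ring
      rw [e]
      have := (abs_le.1 h1).2
      linarith)
  have hf := lineB_factor hr hV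
  have hK := KK_upper hB
  have hI0 : 0 ≤ (∫ u in (-A)..B, Real.exp (GG p r u).re) ^ 2 := sq_nonneg _
  have e1 : Zj p r A B 1 = (VV p : ℂ) * ∫ u in (-A)..B, Complex.exp (GG p r u) *
      (kap p ((u : ℂ) + wi r) - (cc p r : ℂ)) := by
    rw [Zj_eq hB hW 1]; simp only [pow_one]
  have e0 : Zj p r A B 0 = (VV p : ℂ) * ∫ u in (-A)..B, Complex.exp (GG p r u) := by
    rw [Zj_eq hB hW 0]; simp only [pow_zero, mul_one]
  have e2 : (Zj p r A B 1 * (starRingEnd ℂ) (Zj p r A B 0)).im = VV p ^ 2 *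
      ((∫ u in (-A)..B, Complex.exp (GG p r u) *
        (kap p ((u : ℂ) + wi r) - (cc p r : ℂ))) *
        (starRingEnd ℂ) (∫ u in (-A)..B, Complex.exp (GG p r u))).im := by
    rw [e1, e0, map_mul, Complex.conj_ofReal]
    have : ∀ a b : ℂ, ((VV p : ℂ) * a * ((VV p : ℂ) * b)).im = VV p ^ 2 * (a * b).im := by
      intro a b
      have : (VV p : ℂ) * a * ((VV p : ℂ) * b) = ((VV p ^ 2 : ℝ) : ℂ) * (a * b) := by
        push_cast; ring
      rw [this, Complex.im_ofReal_mul]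
    exact this _ _
  rw [e2]
  unfold MZ
  have hV2 : 0 ≤ VV p ^ 2 := sq_nonneg _
  calc 1 / 4 * KK p r * (VV p * ∫ u in (-A)..B, Real.exp (GG p r u).re) ^ 2
      = VV p ^ 2 * ((∫ u in (-A)..B, Real.exp (GG p r u).re) ^ 2 * (1 / 4 * KK p r)) := by ring
    _ ≤ VV p ^ 2 * ((∫ u in (-A)..B, Real.exp (GG p r u).re) ^ 2 *
        (1 / 4 * (1057 / 1000 * (Real.pi * (VV p / r))))) := by gcongr
    _ ≤ _ := by
      refine mul_le_mul_of_nonneg_left (le_trans ?_ h) hV2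
      exact mul_le_mul_of_nonneg_left hf hI0

end Pool.Agent.RL51
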