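import Pool.Agent.RL51.LineA

/-!
# RL51.LineC: upper and lower bounds for the line integrals (task RL51-LineC)

`S = V/r ≥ 0.52`, `a = r V`, `K = KK p r`, `φ = π/r`; `covHyp_GG` gives the hypotheses of `Cov1` with
`b0 = 1.504 r`, `4 b0/(3a) = 2.00534/V`.
* `line_Z0`: `Zj_eq`.
* `line_Z1`: `‖kap (u + iφ) - c‖ ≤ K + 1.057 V |u|` and `mom1`:
  `1.057 V (2.00534/V + 1.1548/√(rV)) = 2.1197 + 1.2207 √S ≤ 2 * 0.943 π S ≤ 2 K` for `S ≥ 0.52`.
* `line_low`: `cov_low` (with `GG1_lip`), `GG_zero`, `re_nu_ge`: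
  `MZ ≥ V 1.07 * 0.942 exp (r Re EE w0 + r Re Lam w0)/√(rV) ≥ MM`.
-/

open Finset Polynomial

namespace Pool.Agent.RL51

variable {ι : Type} [Fintype ι]

lemma Win.absu_le {p : ι → ℝ} {r A B : ℝ} {N1 N2 : ℕ} (hW : Win p r A B N1 N2) {u : ℝ}
    (hu : u ∈ Set.Icc (-A) B) : |u| ≤ 5 * (Real.pi / r) :=
  abs_le.2 ⟨by linarith [hu.1, hW.hA2], by linarith [hu.2, hW.hB2]⟩

theorem line_Z0 {p : ι → ℝ} {r A B : ℝ} {N1 N2 : ℕ} (hB : Big p r)
    (hW : Win p r A B N1 N2) : ‖Zj p r A B 0‖ ≤ MZ p r A B := by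
  have hC := covHyp_GG hB hW
  have hV : 0 < VV p := by linarith [hB.V156]
  rw [Zj_eq hB hW 0, norm_mul, MZ, Complex.norm_real, Real.norm_of_nonneg hV.le]
  refine mul_le_mul_of_nonneg_left ?_ hV.le
  refine (intervalIntegral.norm_integral_le_integral_norm hC.hAB).trans (le_of_eq ?_)
  refine intervalIntegral.integral_congr fun u _ => ?_
  simp [Complex.norm_exp]

theorem line_Z1 {p : ι → ℝ} {r A B : ℝ} {N1 N2 : ℕ} (hB : Big p r)
    (hW : Win p r A B N1 N2) : ‖Zj p r A B 1‖ ≤ 3 * KK p r * MZ p r A B := by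
  have hC := covHyp_GG hB hW
  have hr := hB.hr
  have hr0 : 0 < r := by linarith
  have hV156 := hB.V156
  have hV : 0 < VV p := by linarith
  have hK := KK_ge hB
  have hK0 : 0 ≤ KK p r := by linarith
  have hI0 : 0 ≤ ∫ u in (-A)..B, Real.exp (GG p r u).re :=
    intervalIntegral.integral_nonneg hC.hAB fun u _ => (Real.exp_pos _).le
  have hm1 := mom1 hC
  set I := ∫ u in (-A)..B, Real.exp (GG p r u).re with hI
  rw [Zj_eq hB hW 1, norm_mul, MZ, Complex.norm_real, Real.norm_of_nonneg hV.le, ← hI]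
  have hpt : ∀ u ∈ Set.Icc (-A) B,
      ‖Complex.exp (GG p r u) * (kap p ((u : ℂ) + wi r) - (cc p r : ℂ)) ^ 1‖ ≤
      KK p r * Real.exp (GG p r u).re +
        1057 / 1000 * VV p * (|u| * Real.exp (GG p r u).re) := by
    intro u hu
    have hub := hW.absu_le hu
    have h1 := kap_box hB (wi_mem_box hr) (line_mem_box hr hub)
    rw [norm_mul, pow_one, Complex.norm_exp]
    have h2 : (u : ℂ) + wi r - wi r = (u : ℂ) := by ring
    rw [h2, Complex.norm_real, Real.norm_eq_abs] at h1
    have h3 : kap p ((u : ℂ) + wi r) - (cc p r : ℂ) =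
        (kap p ((u : ℂ) + wi r) - kap p (wi r) - (VV p : ℂ) * (u : ℂ)) +
          ((VV p : ℂ) * (u : ℂ) + (KK p r : ℂ) * Complex.I) := by
      rw [kap_wi p r]; ring
    have h4 : ‖(VV p : ℂ) * (u : ℂ) + (KK p r : ℂ) * Complex.I‖ ≤ VV p * |u| + KK p r := by
      refine (norm_add_le _ _).trans (le_of_eq ?_)
      rw [norm_mul, norm_mul, Complex.norm_real, Complex.norm_real, Complex.norm_real,
        Complex.norm_I, Real.norm_of_nonneg hV.le, Real.norm_of_nonneg hK0, Real.norm_eq_abs,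
        mul_one]
    have h5 : ‖kap p ((u : ℂ) + wi r) - (cc p r : ℂ)‖ ≤ KK p r + 1057 / 1000 * VV p * |u| := by
      rw [h3]
      refine (norm_add_le _ _).trans ?_
      linarith
    calc _ ≤ Real.exp (GG p r u).re * (KK p r + 1057 / 1000 * VV p * |u|) :=
          mul_le_mul_of_nonneg_left h5 (Real.exp_pos _).le
      _ = _ := by ring
  have hc0 : ContinuousOn (fun u => KK p r * Real.exp (GG p r u).re) (Set.Icc (-A) B) :=
    continuousOn_const.mul hC.continuousOn_rho
  have hc1 : ContinuousOn (fun u => 1057 / 1000 * VV p * (|u| * Real.exp (GG p r u).re))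
      (Set.Icc (-A) B) :=
    continuousOn_const.mul (continuous_abs.continuousOn.mul hC.continuousOn_rho)
  have hle : ‖∫ u in (-A)..B, Complex.exp (GG p r u) *
      (kap p ((u : ℂ) + wi r) - (cc p r : ℂ)) ^ 1‖ ≤
      ∫ u in (-A)..B, (KK p r * Real.exp (GG p r u).re +
        1057 / 1000 * VV p * (|u| * Real.exp (GG p r u).re)) := by
    refine intervalIntegral.norm_integral_le_of_norm_le hC.hAB ?_
      ((hC.intble hc0).add (hC.intble hc1))
    filter_upwards with u hu
    exact hpt u ⟨hu.1.le, hu.2⟩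
  rw [intervalIntegral.integral_add (hC.intble hc0) (hC.intble hc1),
    intervalIntegral.integral_const_mul, intervalIntegral.integral_const_mul, ← hI] at hle
  -- the constant
  set s := Real.sqrt (4 / (3 * (r * VV p))) with hs
  have hs0 : 0 ≤ s := Real.sqrt_nonneg _
  have hss : s * s = 4 / (3 * (r * VV p)) := Real.mul_self_sqrt (by positivity)
  set S := VV p / r with hS
  have hVS : VV p = S * r := by rw [hS]; field_simp
  have hS52 : 13 / 25 ≤ S := by
    rw [hS, le_div_iff₀ hr0]; exact hB.hV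
  have hVs : (VV p * s) * (VV p * s) = 4 / 3 * S := by
    have : (VV p * s) * (VV p * s) = VV p * VV p * (s * s) := by ring
    rw [this, hss, hS]; field_simp
  have hVs2 : VV p * s ≤ 4 / 5 * S + 5 / 12 := by
    nlinarith [sq_nonneg (VV p * s - 5 / 6)]
  have h43 : 1057 / 1000 * VV p * (4 * (188 / 125 * r) / (3 * (r * VV p)) + s) =
      1057 / 1000 * (752 / 375) + 1057 / 1000 * (VV p * s) := by
    field_simp
    ring
  have hKl := KK_lower hB
  rw [← hS] at hKl
  have hpi := Real.pi_gt_d4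
  have hK2 : 2 * (943 / 1000 * (3.1415 * S)) ≤ 2 * KK p r := by
    have : 943 / 1000 * (3.1415 * S) ≤ 943 / 1000 * (Real.pi * S) := by
      have := mul_le_mul_of_nonneg_right hpi.le (by linarith : 0 ≤ S)
      linarith
    linarith
  have hconst : 1057 / 1000 * VV p * (4 * (188 / 125 * r) / (3 * (r * VV p)) + s) ≤
      2 * KK p r := by
    rw [h43]
    linarith
  have hfin : 1057 / 1000 * VV p * ∫ u in (-A)..B, |u| * Real.exp (GG p r u).re ≤
      2 * KK p r * I := by
    calc _ ≤ 1057 / 1000 * VV p * ((4 * (188 / 125 * r) / (3 * (r * VV p)) + s) * I) :=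
          mul_le_mul_of_nonneg_left hm1 (by positivity)
      _ = (1057 / 1000 * VV p * (4 * (188 / 125 * r) / (3 * (r * VV p)) + s)) * I := by ring
      _ ≤ _ := mul_le_mul_of_nonneg_right hconst hI0
  calc _ ≤ VV p * (KK p r * I + 2 * KK p r * I) :=
        mul_le_mul_of_nonneg_left (by linarith) hV.le
    _ = _ := by ring

theorem line_low {p : ι → ℝ} {r A B : ℝ} {N1 N2 : ℕ} (hB : Big p r)
    (hW : Win p r A B N1 N2) : MM p r ≤ MZ p r A B := by
  have hC := covHyp_GG hB hW
  have hr := hB.hr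
  have hr0 : 0 < r := by linarith
  have hV156 := hB.V156
  have hV : 0 < VV p := by linarith
  have hrV : 0 < r * VV p := by positivity
  have hpi := Real.pi_gt_three
  have hphi : 0 < Real.pi / r := phi_pos hr
  have hsq : 1 ≤ r * VV p * (4 * (Real.pi / r)) ^ 2 := by
    have h1 : r * VV p * (4 * (Real.pi / r)) ^ 2 = 16 * Real.pi ^ 2 * (VV p / r) := by
      field_simp
      ring
    have h2 : 13 / 25 ≤ VV p / r := by rw [le_div_iff₀ hr0]; exact hB.hV
    rw [h1]
    have h3 : 9 ≤ Real.pi ^ 2 := by nlinarith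
    nlinarith
  have hA1 : 1 ≤ r * VV p * A ^ 2 := by
    refine hsq.trans (mul_le_mul_of_nonneg_left ?_ hrV.le)
    exact pow_le_pow_left₀ (by positivity) hW.hA1 2
  have hB1 : 1 ≤ r * VV p * B ^ 2 := by
    refine hsq.trans (mul_le_mul_of_nonneg_left ?_ hrV.le)
    exact pow_le_pow_left₀ (by positivity) hW.hB1 2
  have hlow := cov_low hC (fun u hu t ht htu => by
    have h1 := GG1_lip hB (hW.absu_le hu) (hW.absu_le ht)
    rw [abs_of_nonneg (sub_nonneg.2 htu)] at h1
    have h2 := (Complex.abs_re_le_norm _).trans h1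
    rw [Complex.add_re, Complex.sub_re, Complex.ofReal_re] at h2
    have h3 := (abs_le.1 h2).1
    have h4 : 0 ≤ r * VV p * (u - t) := mul_nonneg hrV.le (sub_nonneg.2 htu)
    linarith) hA1 hB1
  have hG0 := GG_zero p hr
  have hre : (GG p r 0).re = (r * (EE p (wi r)).re + r * (Lam p (wi r)).re) +
      (nu p (wi r)).re := by
    rw [hG0]; simp
  have hnu := re_nu_ge hB
  set E := Real.exp (r * (EE p (wi r)).re + r * (Lam p (wi r)).re) with hE
  have hE0 : 0 < E := Real.exp_pos _
  have hexp : 471 / 500 * E ≤ Real.exp (GG p r 0).re := by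
    rw [hre, Real.exp_add, ← hE, mul_comm]
    exact mul_le_mul_of_nonneg_left hnu hE0.le
  have hsr : Real.sqrt (VV p / r) = VV p / Real.sqrt (r * VV p) := by
    have h1 : VV p / r = VV p ^ 2 / (r * VV p) := by field_simp
    rw [h1, Real.sqrt_div (by positivity), Real.sqrt_sq hV.le]
  have hsqp : 0 < Real.sqrt (r * VV p) := Real.sqrt_pos.2 hrV
  rw [MM, MZ, hsr, ← hE]
  calc 9 / 10 * (VV p / Real.sqrt (r * VV p)) * E
      ≤ (107 / 100 * (471 / 500)) * (VV p / Real.sqrt (r * VV p)) * E := by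
        refine mul_le_mul_of_nonneg_right ?_ hE0.le
        refine mul_le_mul_of_nonneg_right (by norm_num) (by positivity)
    _ = VV p * (107 / 100 * (471 / 500 * E) / Real.sqrt (r * VV p)) := by ring
    _ ≤ VV p * (107 / 100 * Real.exp (GG p r 0).re / Real.sqrt (r * VV p)) := by
        refine mul_le_mul_of_nonneg_left ?_ hV.le
        refine div_le_div_of_nonneg_right ?_ hsqp.le
        linarith
    _ ≤ _ := mul_le_mul_of_nonneg_left hlow hV.le

end Pool.Agent.RL51
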