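import Pool.Agent.RL51.Contour

/-!
# RL51.Side: the vertical sides are negligible (task RL51-Side)

Let `φ = π/r`, `V = VV p`, `S = V/r ≥ 0.52`, `w = x + i v`, `x ∈ {B, -A}`, `|v| ≤ φ`, `w0 = wi r`,
`Q = exp (r Re EE w0 + r Re Lam w0)`, `K = KK p r`, `c = cc p r`.  Both
`‖Gj w‖` and the claim are invariant under conjugation (`Gj_conj`), so assume `v ≥ 0`.
* `kap x` is a half integer (`Win.hN1`, `Win.hN2`); put `δ = kap w - kap x`.  By `kap_box`
  `‖δ - i v V‖ ≤ 0.057 V v`, so `|Re δ| ≤ 0.057 V v`, `Im δ ≥ 0.943 V v`, `|Re δ| ≤ 0.0605 Im δ`.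
  `|sin (π kap w)| = |cos (π δ)|`, `|cos z|^2 = cosh^2 (Im z) - sin^2 (Re z)
  ≥ cosh^2 y - (0.0605 y)^2 ≥ 0.99^2 cosh^2 y` with `y = π Im δ = π Im (kap w)`
  (`cosh^2 y ≥ 1 + y^2`).  So `|sin (π kap w)| ≥ 0.99 cosh y ≥ 0.49 e^{π Im (kap w)}`.
* So with `g w = r (EE w - kap w w) + iπ kap w` (`|exp (iπ kap w)| = e^{-π Im kap w}`):
  `‖Gj w‖ ≤ (1/0.49) ‖exp (g w + r Lam w)‖ ‖kap w - c‖^j π ‖ss w‖`.
* `saddle`: `Re (g w - r EE w0) ≤ -(rV/2) (x^2 - (v-φ)^2) + 0.0285 rV (x^2 + (v-φ)^2)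
   ≤ -rVφ^2 (0.4715 * 16 - 0.5285) ≤ -7.01 π^2 S ≤ -69 S` (as `x^2 ≥ 16 φ^2`, `|v - φ| ≤ φ`,
   `r V φ^2 = π^2 S`).
* `Lam_box`: `r Re (Lam w - Lam w0) ≤ 1.5 r √26 φ ≤ 24.1`.
* `kap_box`: `‖kap w - c‖ ≤ ‖kap w - kap w0‖ + K ≤ 1.057 V 5.1 φ + K ≤ 5.4 π S + K ≤ 6.8 K`
  (`KK_lower`), `K ≥ 1`, so `‖kap w - c‖^j ≤ 6.8 K^j` for `j ≤ 1`.
* `π ‖ss w‖ ≤ π 1.057 V ≤ 3.33 V = 3.33 S r`.
Altogether `‖Gj w‖ ≤ 46.3 S r K^j e^{24.1 - 69 S} Q` and we need
`46.3 S e^{24.1 - 69 S} ≤ (1/100) (9/10) √S`: `S e^{-69 S} ≤ e^{-68 S} ≤ e^{-35.36}`, `√S ≥ 0.72`,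
`46.3 e^{24.1 - 35.36} ≤ 46.3 * 1.3 * 10^(-5) ≤ 0.0062`.
-/

open Finset Polynomial

namespace Pool.Agent.RL51

variable {ι : Type} [Fintype ι]

/-- `|cos z| ≥ 0.49 e^{Im z}` if `|Re z| ≤ (57/943) Im z` -/
private lemma side_cos_lower {z : ℂ} (hb0 : 0 ≤ z.im) (ha : |z.re| ≤ 57 / 943 * z.im) :
    49 / 100 * Real.exp z.im ≤ ‖Complex.cos z‖ := by
  have h1 : Complex.cos z = ((Real.cos z.re * Real.cosh z.im : ℝ) : ℂ) -
      ((Real.sin z.re * Real.sinh z.im : ℝ) : ℂ) * Complex.I := by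
    conv_lhs => rw [← Complex.re_add_im z, Complex.cos_add_mul_I]
    push_cast
    ring
  have h2 : ‖Complex.cos z‖ ^ 2 = (Real.cos z.re * Real.cosh z.im) ^ 2 +
      (Real.sin z.re * Real.sinh z.im) ^ 2 := by
    rw [h1, Complex.sq_norm, Complex.normSq_apply]
    simp only [Complex.sub_re, Complex.sub_im, Complex.mul_re, Complex.mul_im, Complex.ofReal_re,
      Complex.ofReal_im, Complex.I_re, Complex.I_im]
    ring
  have h3 := Real.cosh_sq z.im
  have h4 := Real.sin_sq_add_cos_sq z.re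
  have h5 : z.im ≤ Real.sinh z.im := Real.self_le_sinh_iff.2 hb0
  have h6 : Real.sin z.re ^ 2 ≤ z.re ^ 2 := Real.sin_sq_le_sq
  have h7 : z.re ^ 2 ≤ (57 / 943 * z.im) ^ 2 := by
    rw [← sq_abs z.re]
    exact pow_le_pow_left₀ (abs_nonneg _) ha 2
  have h8 : z.im ^ 2 ≤ Real.sinh z.im ^ 2 := pow_le_pow_left₀ hb0 h5 2
  have h9 : ‖Complex.cos z‖ ^ 2 = Real.cosh z.im ^ 2 - Real.sin z.re ^ 2 := by
    rw [h2, mul_pow, mul_pow]
    have h10 : Real.cos z.re ^ 2 = 1 - Real.sin z.re ^ 2 := by linarith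
    have h11 : Real.sinh z.im ^ 2 = Real.cosh z.im ^ 2 - 1 := by linarith
    rw [h10, h11]
    ring
  have hc : 0 < Real.cosh z.im := Real.cosh_pos _
  have h12 : (49 / 50 * Real.cosh z.im) ^ 2 ≤ ‖Complex.cos z‖ ^ 2 := by
    rw [h9]
    nlinarith
  have h13 : 49 / 50 * Real.cosh z.im ≤ ‖Complex.cos z‖ :=
    (pow_le_pow_iff_left₀ (by positivity) (norm_nonneg _) two_ne_zero).1 h12
  have h14 : Real.exp z.im ≤ 2 * Real.cosh z.im := by
    rw [Real.cosh_eq]
    have := Real.exp_pos (-z.im)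
    linarith
  linarith

private lemma side_box {p : ι → ℝ} {r A B : ℝ} {N1 N2 : ℕ} (hB : Big p r)
    (hW : Win p r A B N1 N2) {x v : ℝ} (hx : x = B ∨ x = -A) (hv : |v| ≤ Real.pi / r) :
    (16 * (Real.pi / r) ^ 2 ≤ x ^ 2) ∧ x ^ 2 ≤ 25 * (Real.pi / r) ^ 2 ∧
      (x : ℂ) ∈ Box r ∧ (x : ℂ) + v * Complex.I ∈ Box r := by
  have hφ : 0 < Real.pi / r := phi_pos hB.hr
  have h1 : 4 * (Real.pi / r) ≤ |x| ∧ |x| ≤ 5 * (Real.pi / r) := by
    rcases hx with rfl | rfl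
    · rw [abs_of_nonneg (by linarith [hW.hB1])]
      exact ⟨hW.hB1, hW.hB2⟩
    · rw [abs_neg, abs_of_nonneg (by linarith [hW.hA1])]
      exact ⟨hW.hA1, hW.hA2⟩
  refine ⟨?_, ?_, ofReal_mem_box hB.hr h1.2, ?_, ?_⟩
  · rw [← sq_abs x]
    nlinarith [h1.1]
  · rw [← sq_abs x]
    nlinarith [h1.2, abs_nonneg x]
  · simpa using h1.2
  · simpa using hv

private lemma side_half {p : ι → ℝ} {r A B : ℝ} {N1 N2 : ℕ}
    (hW : Win p r A B N1 N2) {x : ℝ} (hx : x = B ∨ x = -A) :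
    ∃ n : ℤ, kap p (x : ℂ) = (n : ℂ) + 1 / 2 := by
  rcases hx with rfl | rfl
  · refine ⟨(N2 : ℤ), ?_⟩
    rw [hW.hN2]
    push_cast
    ring
  · refine ⟨(N1 : ℤ) - 1, ?_⟩
    rw [hW.hN1]
    push_cast
    ring

lemma sin_lower {p : ι → ℝ} {r A B : ℝ} {N1 N2 : ℕ} (hB : Big p r) (hW : Win p r A B N1 N2)
    {x v : ℝ} (hx : x = B ∨ x = -A) (hv0 : 0 ≤ v) (hv : v ≤ Real.pi / r) :
    49 / 100 * Real.exp (Real.pi * (kap p ((x : ℂ) + v * Complex.I)).im) ≤
      ‖Complex.sin ((Real.pi : ℂ) * kap p ((x : ℂ) + v * Complex.I))‖ := by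
  obtain ⟨-, -, hxb, hwb⟩ := side_box hB hW hx (v := v) (by rwa [abs_of_nonneg hv0])
  obtain ⟨n, hn⟩ := side_half hW hx
  have hV : 0 < VV p := by linarith [hB.V156]
  have h1 := kap_box hB hxb hwb
  set w : ℂ := (x : ℂ) + v * Complex.I with hw
  set δ : ℂ := kap p w - kap p (x : ℂ) with hδ
  have h2 : (VV p : ℂ) * (w - x) = ((VV p * v : ℝ) : ℂ) * Complex.I := by
    rw [hw]
    push_cast
    ring
  have h3 : ‖w - x‖ = v := by
    rw [hw, add_sub_cancel_left, norm_mul, Complex.norm_I, mul_one, Complex.norm_real,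
      Real.norm_of_nonneg hv0]
  rw [h2, h3] at h1
  have h4 : |δ.re| ≤ 57 / 1000 * VV p * v := by
    have := (Complex.abs_re_le_norm (δ - ((VV p * v : ℝ) : ℂ) * Complex.I)).trans h1
    simpa using this
  have h5 : |δ.im - VV p * v| ≤ 57 / 1000 * VV p * v := by
    have := (Complex.abs_im_le_norm (δ - ((VV p * v : ℝ) : ℂ) * Complex.I)).trans h1
    simpa using this
  have hVv : 0 ≤ VV p * v := mul_nonneg hV.le hv0
  have h6 : 943 / 1000 * (VV p * v) ≤ δ.im := by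
    have := (abs_le.1 h5).1
    linarith
  have h7 : |δ.re| ≤ 57 / 943 * δ.im := by linarith
  have hδim : 0 ≤ δ.im := le_trans (by positivity) h6
  have h8 : (kap p w).im = δ.im := by
    rw [hδ, Complex.sub_im, kap_im_ofReal, sub_zero]
  have h9 : (Real.pi : ℂ) * kap p w = (Real.pi : ℂ) * δ + Real.pi / 2 + n * Real.pi := by
    have : kap p w = δ + kap p (x : ℂ) := by rw [hδ]; ring
    rw [this, hn]
    ring
  have h10 : Complex.sin ((Real.pi : ℂ) * kap p w) =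
      (-1) ^ n * Complex.cos ((Real.pi : ℂ) * δ) := by
    rw [h9, add_right_comm, Complex.sin_add_pi_div_two]
    exact n.cast_negOnePow ℂ ▸ Complex.cos_antiperiodic.add_int_mul_eq n
  rw [h10, norm_mul, norm_zpow, norm_neg, norm_one, one_zpow, one_mul, h8]
  have h11 : ((Real.pi : ℂ) * δ).im = Real.pi * δ.im := by simp
  have h12 : ((Real.pi : ℂ) * δ).re = Real.pi * δ.re := by simp
  rw [← h11]
  apply side_cos_lower
  · rw [h11]
    exact mul_nonneg Real.pi_pos.le hδim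
  · rw [h11, h12, abs_mul, abs_of_pos Real.pi_pos]
    calc Real.pi * |δ.re| ≤ Real.pi * (57 / 943 * δ.im) :=
          mul_le_mul_of_nonneg_left h7 Real.pi_pos.le
      _ = 57 / 943 * (Real.pi * δ.im) := by ring

/-- the numerical estimate -/
private lemma side_num {S : ℝ} (hS : 13 / 25 ≤ S) :
    100 / 49 * Real.exp (241 / 10 - 69 * S) * (68 / 10) * (333 / 100 * S) ≤
      1 / 100 * (9 / 10 * Real.sqrt S) := by
  have hS0 : 0 < S := by linarith
  have hs : 0 < Real.sqrt S := Real.sqrt_pos.2 hS0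
  have h1 : Real.sqrt S * Real.sqrt S = S := Real.mul_self_sqrt hS0.le
  have h2 : Real.sqrt S ≤ Real.exp S := by
    have h3 : Real.sqrt S ≤ 1 + S := by nlinarith [sq_nonneg (Real.sqrt S - 1)]
    linarith [Real.add_one_le_exp S]
  have h4 : Real.exp (241 / 10 - 69 * S) * Real.exp S ≤ Real.exp (-11) := by
    rw [← Real.exp_add]
    apply Real.exp_le_exp.2
    linarith
  have h5 : Real.exp (-11) ≤ 1 / 50000 := by
    have h6 : (50000 : ℝ) ≤ Real.exp 11 := by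
      have h7 : Real.exp 11 = Real.exp 1 ^ 11 := by
        rw [← Real.exp_nat_mul]
        norm_num
      rw [h7]
      have h8 : (27 / 10 : ℝ) ≤ Real.exp 1 := by
        have := Real.exp_one_gt_d9
        linarith
      calc (50000 : ℝ) ≤ (27 / 10) ^ 11 := by norm_num
        _ ≤ Real.exp 1 ^ 11 := pow_le_pow_left₀ (by norm_num) h8 11
    rw [Real.exp_neg, ← one_div]
    exact one_div_le_one_div_of_le (by norm_num) h6
  have h9 : Real.exp (241 / 10 - 69 * S) * Real.sqrt S ≤ 1 / 50000 :=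
    (mul_le_mul_of_nonneg_left h2 (Real.exp_pos _).le).trans (h4.trans h5)
  have h10 : 100 / 49 * Real.exp (241 / 10 - 69 * S) * (68 / 10) * (333 / 100 * S) =
      (100 / 49 * (68 / 10) * (333 / 100)) *
        (Real.exp (241 / 10 - 69 * S) * Real.sqrt S) * Real.sqrt S := by
    rw [mul_assoc _ (Real.exp (241 / 10 - 69 * S) * Real.sqrt S), mul_assoc (Real.exp _), h1]
    ring
  rw [h10]
  have h11 : (100 / 49 * (68 / 10) * (333 / 100)) *
        (Real.exp (241 / 10 - 69 * S) * Real.sqrt S) ≤ 9 / 1000 := by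
    nlinarith
  calc (100 / 49 * (68 / 10) * (333 / 100)) *
        (Real.exp (241 / 10 - 69 * S) * Real.sqrt S) * Real.sqrt S
      ≤ 9 / 1000 * Real.sqrt S := mul_le_mul_of_nonneg_right h11 hs.le
    _ = 1 / 100 * (9 / 10 * Real.sqrt S) := by ring

private lemma side_aux {p : ι → ℝ} {r A B : ℝ} {N1 N2 : ℕ} (hB : Big p r)
    (hW : Win p r A B N1 N2) {j : ℕ} (hj : j ≤ 1) {x v : ℝ} (hx : x = B ∨ x = -A)
    (hv0 : 0 ≤ v) (hv : v ≤ Real.pi / r) :
    ‖Gj p r j ((x : ℂ) + v * Complex.I)‖ ≤ 1 / 100 * r * MM p r * KK p r ^ j := by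
  obtain ⟨hx1, hx2, hxb, hwb⟩ := side_box hB hW hx (v := v) (by rwa [abs_of_nonneg hv0])
  have hsin := sin_lower hB hW hx hv0 hv
  have hw0b := wi_mem_box hB.hr
  have hr : 0 < r := by linarith [hB.hr]
  have hV : 0 < VV p := by linarith [hB.V156]
  have hπ := Real.pi_pos
  have hπ1 := Real.pi_gt_d4
  have hπ2 := Real.pi_lt_d4
  have hK := KK_lower hB
  have hK1 := KK_ge hB
  have hsad := saddle hB hwb
  have hLam := Lam_box hB hw0b hwb
  have hkap := kap_box hB hw0b hwb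
  have hss := ss_box hB hwb
  have hkw := kap_wi p r
  set w : ℂ := (x : ℂ) + v * Complex.I with hw
  set φ : ℝ := Real.pi / r with hφ
  have hφ0 : 0 < φ := div_pos hπ hr
  set S : ℝ := VV p / r with hS
  have hS1 : 13 / 25 ≤ S := by
    rw [hS, le_div_iff₀ hr]
    exact hB.hV
  have hVS : VV p = S * r := by rw [hS]; field_simp
  have hrφ : r * φ = Real.pi := by rw [hφ]; field_simp
  have hww : w - wi r = (x : ℂ) + ((v - φ : ℝ) : ℂ) * Complex.I := by
    rw [hw, wi, ← hφ]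
    push_cast
    ring
  -- the distance to the saddle point
  have hvφ : (v - φ) ^ 2 ≤ φ ^ 2 := by
    have h1 : 0 ≤ v * (2 * φ - v) := mul_nonneg hv0 (by linarith)
    linarith
  have hd2 : ‖w - wi r‖ ^ 2 = x ^ 2 + (v - φ) ^ 2 := by
    rw [hww, Complex.sq_norm, Complex.normSq_add_mul_I]
  have hd : ‖w - wi r‖ ≤ 51 / 10 * φ := by
    have h1 : ‖w - wi r‖ ^ 2 ≤ (51 / 10 * φ) ^ 2 := by
      rw [hd2]
      have h2 : (51 / 10 * φ) ^ 2 = 2601 / 100 * φ ^ 2 := by ring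
      have h3 : 0 ≤ φ ^ 2 := sq_nonneg φ
      linarith
    exact (pow_le_pow_iff_left₀ (norm_nonneg _) (by positivity) two_ne_zero).1 h1
  -- the exponent
  have hre : (((r : ℂ) * (EE p w - kap p w * w) + (Real.pi : ℂ) * Complex.I * kap p w) -
        (r : ℂ) * EE p (wi r) + (r : ℂ) * (VV p : ℂ) / 2 * (w - wi r) ^ 2).re =
      ((r : ℂ) * (EE p w - kap p w * w)).re - Real.pi * (kap p w).im -
        r * (EE p (wi r)).re + r * VV p / 2 * (x ^ 2 - (v - φ) ^ 2) := by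
    have h1 : ((Real.pi : ℂ) * Complex.I * kap p w).re = -(Real.pi * (kap p w).im) := by
      rw [mul_assoc, Complex.re_ofReal_mul, Complex.I_mul_re]
      ring
    have h2 : ((r : ℂ) * (VV p : ℂ) / 2 * (w - wi r) ^ 2).re =
        r * VV p / 2 * (x ^ 2 - (v - φ) ^ 2) := by
      have h3 : (r : ℂ) * (VV p : ℂ) / 2 = ((r * VV p / 2 : ℝ) : ℂ) := by push_cast; ring
      have h4 : ((w - wi r) ^ 2).re = x ^ 2 - (v - φ) ^ 2 := by
        rw [hww, sq]
        simp only [Complex.mul_re, Complex.add_re, Complex.ofReal_re, Complex.I_re,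
          Complex.ofReal_im, Complex.I_im, Complex.add_im, Complex.mul_im]
        ring
      rw [h3, Complex.re_ofReal_mul, h4]
    rw [Complex.add_re, Complex.sub_re, Complex.add_re, h1, h2, Complex.re_ofReal_mul r (EE p (wi r))]
    ring
  have hexp1 : ((r : ℂ) * (EE p w - kap p w * w)).re - Real.pi * (kap p w).im -
        r * (EE p (wi r)).re ≤ -(69 * S) := by
    have h1 := (Complex.re_le_norm _).trans hsad
    rw [hre, hd2] at h1
    have h2 : r * VV p * φ ^ 2 = Real.pi ^ 2 * S := by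
      rw [hVS]
      calc r * (S * r) * φ ^ 2 = (r * φ) ^ 2 * S := by ring
        _ = Real.pi ^ 2 * S := by rw [hrφ]
    have h3 : 0 < r * VV p := mul_pos hr hV
    have h4 : 9859 / 1000 ≤ Real.pi ^ 2 := by nlinarith
    have h5 : r * VV p * (4715 / 10000 * x ^ 2 - 5285 / 10000 * (v - φ) ^ 2) ≥
        r * VV p * (70155 / 10000 * φ ^ 2) := by
      apply mul_le_mul_of_nonneg_left _ h3.le
      linarith
    have h6 : r * VV p * (70155 / 10000 * φ ^ 2) = 70155 / 10000 * (Real.pi ^ 2 * S) := by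
      rw [← h2]
      ring
    have h7 : 69 * S ≤ 70155 / 10000 * (Real.pi ^ 2 * S) := by
      have h8 : 9859 / 1000 * S ≤ Real.pi ^ 2 * S :=
        mul_le_mul_of_nonneg_right h4 (by linarith)
      linarith
    have h9 : 57 / 2000 * (r * VV p) * (x ^ 2 + (v - φ) ^ 2) -
        r * VV p / 2 * (x ^ 2 - (v - φ) ^ 2) =
        -(r * VV p * (4715 / 10000 * x ^ 2 - 5285 / 10000 * (v - φ) ^ 2)) := by ring
    linarith
  have hexp2 : r * (Lam p w).re - r * (Lam p (wi r)).re ≤ 241 / 10 := by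
    have h1 : (Lam p w).re - (Lam p (wi r)).re ≤ 3 / 2 * (51 / 10 * φ) := by
      have h2 := (Complex.re_le_norm _).trans hLam
      rw [Complex.sub_re] at h2
      exact h2.trans (mul_le_mul_of_nonneg_left hd (by norm_num))
    have h2 := mul_le_mul_of_nonneg_left h1 hr.le
    have h3 : r * (3 / 2 * (51 / 10 * φ)) = 765 / 100 * Real.pi := by
      rw [← hrφ]
      ring
    rw [h3] at h2
    linarith
  -- the polynomial factor
  have hpol : ‖kap p w - (cc p r : ℂ)‖ ≤ 68 / 10 * KK p r := by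
    have h1 : kap p w - (cc p r : ℂ) = (kap p w - kap p (wi r) - (VV p : ℂ) * (w - wi r)) +
        (VV p : ℂ) * (w - wi r) + (KK p r : ℂ) * Complex.I := by
      rw [hkw]
      ring
    rw [h1]
    have h2 : ‖(KK p r : ℂ) * Complex.I‖ = KK p r := by
      rw [norm_mul, Complex.norm_I, mul_one, Complex.norm_real,
        Real.norm_of_nonneg (by linarith)]
    have h3 : ‖(VV p : ℂ) * (w - wi r)‖ = VV p * ‖w - wi r‖ := by
      rw [norm_mul, Complex.norm_real, Real.norm_of_nonneg hV.le]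
    have h4 : VV p * ‖w - wi r‖ ≤ 51 / 10 * (Real.pi * S) := by
      have h5 : VV p * (51 / 10 * φ) = 51 / 10 * (Real.pi * S) := by
        rw [hVS, ← hrφ]
        ring
      rw [← h5]
      exact mul_le_mul_of_nonneg_left hd hV.le
    refine (norm_add_le _ _).trans ?_
    rw [h2]
    have h6 := norm_add_le (kap p w - kap p (wi r) - (VV p : ℂ) * (w - wi r))
      ((VV p : ℂ) * (w - wi r))
    rw [h3] at h6
    have h7 : 57 / 1000 * VV p * ‖w - wi r‖ = 57 / 1000 * (VV p * ‖w - wi r‖) := by ring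
    linarith
  have hpolj : ‖kap p w - (cc p r : ℂ)‖ ^ j ≤ 68 / 10 * KK p r ^ j := by
    rcases Nat.le_one_iff_eq_zero_or_eq_one.1 hj with rfl | rfl
    · norm_num
    · simpa using hpol
  -- the factor `π ss`
  have hpss : ‖(Real.pi : ℂ) * ss p w‖ ≤ 333 / 100 * S * r := by
    have h1 : ‖ss p w‖ ≤ 1057 / 1000 * VV p := by
      have h2 : ss p w = (ss p w - (VV p : ℂ)) + (VV p : ℂ) := by ring
      rw [h2]
      refine (norm_add_le _ _).trans ?_
      rw [Complex.norm_real, Real.norm_of_nonneg hV.le]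
      linarith
    rw [norm_mul, Complex.norm_real, Real.norm_of_nonneg hπ.le]
    have h3 : Real.pi * ‖ss p w‖ ≤ Real.pi * (1057 / 1000 * VV p) :=
      mul_le_mul_of_nonneg_left h1 hπ.le
    have h4 : Real.pi * (1057 / 1000 * VV p) ≤ 333 / 100 * VV p := by
      have h6 : Real.pi * (1057 / 1000) ≤ 333 / 100 := by linarith
      have h7 := mul_le_mul_of_nonneg_right h6 hV.le
      linarith
    have h5 : 333 / 100 * VV p = 333 / 100 * S * r := by rw [hVS]; ring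
    linarith
  -- the norm of `Hf`
  have hHf : ‖Hf p r w‖ = Real.exp (((r : ℂ) * (EE p w - kap p w * w)).re +
      r * (Lam p w).re) := by
    rw [Hf, Complex.norm_exp, Complex.add_re, Complex.re_ofReal_mul r (Lam p w)]
  have hQ : ‖Hf p r w‖ ≤ Real.exp (241 / 10 - 69 * S) *
      Real.exp (r * (EE p (wi r)).re + r * (Lam p (wi r)).re) *
        Real.exp (Real.pi * (kap p w).im) := by
    rw [hHf, ← Real.exp_add, ← Real.exp_add]
    apply Real.exp_le_exp.2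
    linarith
  set Q : ℝ := Real.exp (r * (EE p (wi r)).re + r * (Lam p (wi r)).re) with hQdef
  have hQ0 : 0 < Q := Real.exp_pos _
  set E : ℝ := Real.exp (Real.pi * (kap p w).im) with hE
  have hE0 : 0 < E := Real.exp_pos _
  have hnum := side_num hS1
  have hKj : 0 < KK p r ^ j := pow_pos (by linarith) j
  -- assembly
  have hG : ‖Gj p r j w‖ = ‖Hf p r w‖ * ‖kap p w - (cc p r : ℂ)‖ ^ j *
      ‖(Real.pi : ℂ) * ss p w‖ / ‖Complex.sin ((Real.pi : ℂ) * kap p w)‖ := by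
    rw [Gj, Fj, norm_div, norm_mul, norm_mul (Hf p r w), norm_pow]
  have hMM : MM p r = 9 / 10 * Real.sqrt S * Q := by rw [MM]
  rw [hG, div_le_iff₀ (lt_of_lt_of_le (by positivity) hsin), hMM]
  have hA : ‖Hf p r w‖ * ‖kap p w - (cc p r : ℂ)‖ ^ j * ‖(Real.pi : ℂ) * ss p w‖ ≤
      (Real.exp (241 / 10 - 69 * S) * Q * E) * (68 / 10 * KK p r ^ j) * (333 / 100 * S * r) := by
    gcongr
  refine hA.trans ?_
  have hC : 0 ≤ r * Q * KK p r ^ j * E := by positivity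
  have hD : (Real.exp (241 / 10 - 69 * S) * Q * E) * (68 / 10 * KK p r ^ j) *
      (333 / 100 * S * r) = 49 / 100 * ((100 / 49 * Real.exp (241 / 10 - 69 * S) * (68 / 10) *
        (333 / 100 * S)) * (r * Q * KK p r ^ j * E)) := by ring
  rw [hD]
  have hF : (100 / 49 * Real.exp (241 / 10 - 69 * S) * (68 / 10) *
        (333 / 100 * S)) * (r * Q * KK p r ^ j * E) ≤
      (1 / 100 * (9 / 10 * Real.sqrt S)) * (r * Q * KK p r ^ j * E) :=
    mul_le_mul_of_nonneg_right hnum hC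
  calc 49 / 100 * ((100 / 49 * Real.exp (241 / 10 - 69 * S) * (68 / 10) *
        (333 / 100 * S)) * (r * Q * KK p r ^ j * E))
      ≤ 49 / 100 * ((1 / 100 * (9 / 10 * Real.sqrt S)) * (r * Q * KK p r ^ j * E)) :=
        mul_le_mul_of_nonneg_left hF (by norm_num)
    _ = 1 / 100 * r * (9 / 10 * Real.sqrt S * Q) * KK p r ^ j * (49 / 100 * E) := by ring
    _ ≤ 1 / 100 * r * (9 / 10 * Real.sqrt S * Q) * KK p r ^ j *
        ‖Complex.sin ((Real.pi : ℂ) * kap p w)‖ := by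
        apply mul_le_mul_of_nonneg_left hsin
        positivity

theorem side_bound {p : ι → ℝ} {r A B : ℝ} {N1 N2 : ℕ} (hB : Big p r)
    (hW : Win p r A B N1 N2) {j : ℕ} (hj : j ≤ 1) {x v : ℝ} (hx : x = B ∨ x = -A)
    (hv : |v| ≤ Real.pi / r) :
    ‖Gj p r j ((x : ℂ) + v * Complex.I)‖ ≤ 1 / 100 * r * MM p r * KK p r ^ j := by
  rcases le_total 0 v with h | h
  · rw [abs_of_nonneg h] at hv
    exact side_aux hB hW hj hx h hv
  · have hv' : -v ≤ Real.pi / r := by rwa [abs_of_nonpos h] at hv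
    have h1 := side_aux hB hW hj hx (neg_nonneg.2 h) hv'
    have h2 : (x : ℂ) + v * Complex.I =
        (starRingEnd ℂ) ((x : ℂ) + ((-v : ℝ) : ℂ) * Complex.I) := by
      simp
    rw [h2, Gj_conj hB j (side_box hB hW hx (v := -v) (by rwa [abs_neg])).2.2.2,
      RCLike.norm_conj]
    exact h1

end Pool.Agent.RL51
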