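import Pool.Agent.RL51.LineB
import Pool.Agent.RL51.LineC
import Pool.Agent.RL51.Side
import Pool.Agent.RL51.FarB

/-!
# RL51.RegB: regime B (task RL51-RegB)

Take a window (`exists_win`).  For `j = 0, 1` the full alternating sums
`∑_{k ≤ n} (-1)^k P_k^r (k - c)^j` vanish.  Split off the terms outside `[N1, N2]` (`far_bound`;
`N2 ≤ card ι` by `Win.le3`); with `contour` and `side_bound` (each vertical side contributes at
most `(1/(2π)) 2φ (1/100) r M K^j = (1/100) M K^j`):
`|2 Re Zj| ≤ (0.01 + 0.02) M K^j`, so `|Re Zj| ≤ (1/50) K^j MZ` (`line_low`).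
Then `(1/4) K MZ^2 ≤ Im (Z1 conj Z0) = Im Z1 Re Z0 - Re Z1 Im Z0
  ≤ 3 K MZ (1/50) MZ + (1/50) K MZ MZ = 0.08 K MZ^2` (`line_main`, `line_Z0`, `line_Z1`),
contradiction to `MZ ≥ MM > 0`, `K > 0`.
-/

open Finset Polynomial

namespace Pool.Agent.RL51

variable {ι : Type} [Fintype ι]

lemma MM_pos {p : ι → ℝ} {r : ℝ} (hB : Big p r) : 0 < MM p r := by
  have hr := hB.hr
  have hV := hB.hV
  have hr0 : 0 < r := by linarith
  have hV0 : 0 < VV p := by linarith
  unfold MM
  have : 0 < Real.sqrt (VV p / r) := Real.sqrt_pos.2 (by positivity)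
  positivity

lemma side_int {p : ι → ℝ} {r A B : ℝ} {N1 N2 : ℕ} (hB : Big p r)
    (hW : Win p r A B N1 N2) {j : ℕ} (hj : j ≤ 1) {x : ℝ} (hx : x = B ∨ x = -A) :
    ‖(1 / (2 * (Real.pi : ℂ))) *
      (∫ y in (-(Real.pi / r))..(Real.pi / r), Gj p r j ((x : ℂ) + y * Complex.I))‖ ≤
      1 / 100 * MM p r * KK p r ^ j := by
  have hr := hB.hr
  have hr0 : 0 < r := by linarith
  have hpi := Real.pi_pos
  have hφ : 0 < Real.pi / r := by positivity
  have h1 : ‖∫ y in (-(Real.pi / r))..(Real.pi / r), Gj p r j ((x : ℂ) + y * Complex.I)‖ ≤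
      (1 / 100 * r * MM p r * KK p r ^ j) * |Real.pi / r - -(Real.pi / r)| := by
    refine intervalIntegral.norm_integral_le_of_norm_le_const (fun y hy => ?_)
    rw [Set.uIoc_of_le (by linarith)] at hy
    exact side_bound hB hW hj hx (abs_le.2 ⟨by linarith [hy.1], hy.2⟩)
  rw [abs_of_pos (by linarith)] at h1
  rw [norm_mul]
  have h2 : ‖(1 / (2 * (Real.pi : ℂ)))‖ = 1 / (2 * Real.pi) := by
    rw [norm_div, norm_mul, Complex.norm_real, Real.norm_of_nonneg hpi.le]
    simp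
  rw [h2]
  calc 1 / (2 * Real.pi) * ‖∫ y in (-(Real.pi / r))..(Real.pi / r),
        Gj p r j ((x : ℂ) + y * Complex.I)‖
      ≤ 1 / (2 * Real.pi) * ((1 / 100 * r * MM p r * KK p r ^ j) *
          (Real.pi / r - -(Real.pi / r))) := by
        exact mul_le_mul_of_nonneg_left h1 (by positivity)
    _ = _ := by
        field_simp
        ring

lemma re_Zj {p : ι → ℝ} {r A B : ℝ} {N1 N2 : ℕ} (hB : Big p r) (hW : Win p r A B N1 N2) {j : ℕ}
    (hj : j ≤ 1)
    (h : ∑ k ∈ range (Fintype.card ι + 1),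
      (-1 : ℝ) ^ k * (PP p k ^ r * ((k : ℝ) - cc p r) ^ j) = 0) :
    |(Zj p r A B j).re| ≤ 1 / 50 * KK p r ^ j * MZ p r A B := by
  have hN := Win.le3 hB hW
  have hfar := far_bound hB hW hj
  have hcon := contour hB hW j
  have hlow := line_low hB hW
  have hK : 0 < KK p r := by linarith [KK_ge hB]
  have hM := MM_pos hB
  have hKj : 0 < KK p r ^ j := pow_pos hK j
  -- splitting the sum
  have hsplit := Finset.sum_filter_add_sum_filter_not (range (Fintype.card ι + 1))
    (fun k => k < N1 ∨ N2 < k)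
    (fun k : ℕ => (-1 : ℝ) ^ k * (PP p k ^ r * ((k : ℝ) - cc p r) ^ j))
  have hset : (range (Fintype.card ι + 1)).filter (fun k => ¬ (k < N1 ∨ N2 < k)) = Icc N1 N2 := by
    ext k
    simp only [Finset.mem_filter, Finset.mem_range, Finset.mem_Icc]
    omega
  rw [hset, h] at hsplit
  have habs : |∑ k ∈ (range (Fintype.card ι + 1)).filter (fun k => k < N1 ∨ N2 < k),
      (-1 : ℝ) ^ k * (PP p k ^ r * ((k : ℝ) - cc p r) ^ j)| ≤ 1 / 100 * MM p r * KK p r ^ j := by
    refine (Finset.abs_sum_le_sum_abs _ _).trans (le_trans (le_of_eq ?_) hfar)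
    refine Finset.sum_congr rfl (fun k _ => ?_)
    rw [abs_mul, abs_mul, abs_pow, abs_pow, abs_neg, abs_one, one_pow, one_mul,
      abs_of_nonneg (Real.rpow_nonneg (PP_nonneg hB.adm k) r)]
  have hs1 := side_int hB hW hj (x := B) (Or.inl rfl)
  have hs2 := side_int hB hW hj (x := -A) (Or.inr rfl)
  have hre := congrArg Complex.re hcon
  rw [Complex.ofReal_re, Complex.sub_re, Complex.add_re, Complex.add_re, Complex.conj_re] at hre
  have ha1 := (Complex.abs_re_le_norm _).trans hs1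
  have ha2 := (Complex.abs_re_le_norm _).trans hs2
  have e1 := abs_le.1 habs
  have e2 := abs_le.1 ha1
  have e3 := abs_le.1 ha2
  have hMZ : MM p r * KK p r ^ j ≤ MZ p r A B * KK p r ^ j :=
    mul_le_mul_of_nonneg_right hlow hKj.le
  rw [abs_le]
  constructor <;> nlinarith [mul_pos hM hKj]

theorem regimeB {p : ι → ℝ} {r : ℝ} (hB : Big p r)
    (h0 : ∑ k ∈ range (Fintype.card ι + 1), (-1 : ℝ) ^ k * PP p k ^ r = 0)
    (h1 : ∑ k ∈ range (Fintype.card ι + 1), (-1 : ℝ) ^ k * (k * PP p k ^ r) = 0) : False := by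
  obtain ⟨A, B, N1, N2, hW⟩ := exists_win hB
  have hz0 : ∑ k ∈ range (Fintype.card ι + 1),
      (-1 : ℝ) ^ k * (PP p k ^ r * ((k : ℝ) - cc p r) ^ 0) = 0 := by
    simpa using h0
  have hz1 : ∑ k ∈ range (Fintype.card ι + 1),
      (-1 : ℝ) ^ k * (PP p k ^ r * ((k : ℝ) - cc p r) ^ 1) = 0 := by
    calc ∑ k ∈ range (Fintype.card ι + 1),
          (-1 : ℝ) ^ k * (PP p k ^ r * ((k : ℝ) - cc p r) ^ 1)
        = ∑ k ∈ range (Fintype.card ι + 1), (-1 : ℝ) ^ k * (k * PP p k ^ r) -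
          cc p r * ∑ k ∈ range (Fintype.card ι + 1), (-1 : ℝ) ^ k * PP p k ^ r := by
          rw [Finset.mul_sum, ← Finset.sum_sub_distrib]
          refine Finset.sum_congr rfl (fun k _ => ?_)
          ring
      _ = 0 := by rw [h0, h1]; ring
  have r0 := re_Zj hB hW (j := 0) (by norm_num) hz0
  have r1 := re_Zj hB hW (j := 1) le_rfl hz1
  have n0 := line_Z0 hB hW
  have n1 := line_Z1 hB hW
  have hm := line_main hB hW
  have hK : 0 < KK p r := by linarith [KK_ge hB]
  have hMZ : 0 < MZ p r A B := (MM_pos hB).trans_le (line_low hB hW)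
  have i0 := (Complex.abs_im_le_norm (Zj p r A B 0)).trans n0
  have i1 := (Complex.abs_im_le_norm (Zj p r A B 1)).trans n1
  rw [pow_zero, mul_one] at r0
  rw [pow_one] at r1
  rw [Complex.mul_im, Complex.conj_re, Complex.conj_im] at hm
  have b1 : (Zj p r A B 1).im * (Zj p r A B 0).re ≤
      (3 * KK p r * MZ p r A B) * (1 / 50 * MZ p r A B) := by
    refine (le_abs_self _).trans ?_
    rw [abs_mul]
    exact mul_le_mul i1 r0 (abs_nonneg _) (by positivity)
  have b2 : (Zj p r A B 1).re * -(Zj p r A B 0).im ≤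
      (1 / 50 * KK p r * MZ p r A B) * (MZ p r A B) := by
    refine (le_abs_self _).trans ?_
    rw [abs_mul, abs_neg]
    exact mul_le_mul r1 i0 (abs_nonneg _) (by positivity)
  have hpos : 0 < KK p r * MZ p r A B ^ 2 := by positivity
  nlinarith

end Pool.Agent.RL51
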