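import Pool.Agent.RL51.TauC

/-!
# RL51.VarLB: lower bound for the variance in regime B (task RL51-VarLB)

For `i` let `e = cs (univ.erase i) y` and `a = cs univ y`, so `a 0 = e 0`,
`a (k+1) = e (k+1) + y_i e k`.  Put `pis y i k = y_i e k/a (k+1)` (the probability that `i` belongs to
the random `(k+1)`-subset).
* `sum_pis`: `∑_i y_i e_k^{(i)} = (k+1) a_{k+1}` (derivative of the product: `X * P' `, or double
  counting), so `∑_i pis y i k = k + 1` for `k + 1 ≤ card ι`.
* `pis_bounds`: `pis = y_i/(y_i + R)`, `R = e (k+1)/e k = tau e k`, and by the mediant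
  inequality and log-concavity of `e` (`tau_anti`): `a (k+1)/a k = (e (k+1) + y e k)/(e k + y e (k-1))`
  lies between `e (k+1)/e k` and `e k/e (k-1)`, so `tau a (k+1) ≤ R ≤ tau a k`.  (For `k = 0`:
  `R = e 1 ≤ a 1 = tau a 0`.  If `k + 2 > card ι` then `tau a (k+1) = 0`.)
* `var_lb` with `m = l + 1`: `ε = 1 - τ_m/τ_{m-1}` satisfies `(1-ε)^r > 1/5`, so
  `ε < 1.6095/r` (`log 5 ≤ 1.6095`; `(1-ε)^r ≤ exp (-ε r)`, `exp 1.6095 ≥ 5`).  By `tau_line`
  `τ_{m+9} ≥ τ_{m-1} (1 - 10 ε) > 0`, so `m + 9 < card ι`, and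
  `9 = ∑_i (pis y i (m+8) - pis y i (m-1)) ≤ ∑_i (y_i/(y_i + τ_{m+9}) - y_i/(y_i + τ_{m-1}))
     = ∑_i y_i (τ_{m-1} - τ_{m+9})/((y_i + τ_{m+9})(y_i + τ_{m-1}))
     ≤ ((τ_{m-1} - τ_{m+9})/τ_{m+9}) ∑_i y_i/(1+y_i)^2`
  because `τ_{m+9} ≤ 1 ≤ τ_{m-1}` gives `y_i + τ_{m-1} ≥ y_i + 1` and
  `y_i + τ_{m+9} ≥ τ_{m+9} (y_i + 1)`.  As `(τ_{m-1} - τ_{m+9})/τ_{m+9} ≤ 10ε/(1 - 10ε)`,
  `V ≥ 9 (1 - 10 ε)/(10 ε) = 0.9/ε - 9 ≥ 0.9 r/1.6095 - 9 ≥ 0.5591 r - 9 ≥ 0.52 r` (`r ≥ 300`).
-/

open Finset Polynomial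

namespace Pool.Agent.RL51

variable {ι : Type} [Fintype ι] [DecidableEq ι]

noncomputable def pis (y : ι → ℝ) (i : ι) (k : ℕ) : ℝ :=
  y i * cs (univ.erase i) y k / cs univ y (k + 1)

omit [Fintype ι] in
lemma sum_erase (s : Finset ι) (y : ι → ℝ) :
    ∀ k, ∑ i ∈ s, y i * cs (s.erase i) y k = ((k : ℝ) + 1) * cs s y (k + 1) := by
  induction s using Finset.induction_on with
  | empty =>
    intro k
    rw [Finset.sum_empty, cs_of_gt _ _ (by simp), mul_zero]
  | insert j s hj ih =>
    intro k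
    rw [Finset.sum_insert hj, Finset.erase_insert hj]
    have hins : ∀ i ∈ s, (insert j s).erase i = insert j (s.erase i) := by
      intro i hi
      exact Finset.erase_insert_of_ne (fun h => hj (h ▸ hi))
    have hnot : ∀ i ∈ s, j ∉ s.erase i := fun i _ h => hj (Finset.mem_of_mem_erase h)
    rcases Nat.eq_zero_or_pos k with h0 | h0
    · subst h0
      have h1 := ih 0
      simp only [cs_zero, mul_one] at h1 ⊢
      rw [h1, cs_insert hj, cs_zero]
      push_cast
      ring
    · obtain ⟨k', rfl⟩ : ∃ k', k = k' + 1 := ⟨k - 1, by omega⟩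
      have h1 := ih (k' + 1)
      have h2 := ih k'
      have h3 : ∑ i ∈ s, y i * cs ((insert j s).erase i) y (k' + 1) =
          ∑ i ∈ s, y i * cs (s.erase i) y (k' + 1) +
            y j * ∑ i ∈ s, y i * cs (s.erase i) y k' := by
        rw [Finset.mul_sum, ← Finset.sum_add_distrib]
        refine Finset.sum_congr rfl (fun i hi => ?_)
        rw [hins i hi, cs_insert (hnot i hi)]
        ring
      rw [h3, h1, h2, cs_insert hj y (k' + 1)]
      push_cast
      ring

lemma sum_pis {y : ι → ℝ} (hy : ∀ i, 0 < y i) {k : ℕ} (hk : k + 1 ≤ Fintype.card ι) :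
    ∑ i, pis y i k = (k : ℝ) + 1 := by
  have hpos : 0 < cs univ y (k + 1) := cs_pos univ hy (by rw [Finset.card_univ]; exact hk)
  unfold pis
  rw [← Finset.sum_div, sum_erase, mul_div_assoc, div_self hpos.ne', mul_one]

omit [Fintype ι] [DecidableEq ι] in
lemma cs_logconc (s : Finset ι) {y : ι → ℝ} (hy : ∀ i, 0 < y i) (k : ℕ) :
    cs s y k * cs s y (k + 2) ≤ cs s y (k + 1) ^ 2 := by
  rcases Nat.lt_or_ge s.card (k + 2) with h | h
  · rw [cs_of_gt s y h, mul_zero]
    positivity
  · have h1 := tau_anti s hy (Nat.le_succ k)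
    have p0 := cs_pos s hy (show k ≤ s.card by omega)
    have p1 := cs_pos s hy (show k + 1 ≤ s.card by omega)
    unfold tau at h1
    rw [div_le_div_iff₀ p1 p0] at h1
    have h1' : cs s y (k + 2) * cs s y k ≤ cs s y (k + 1) * cs s y (k + 1) := h1
    nlinarith

lemma cs_univ_succ (y : ι → ℝ) (i : ι) (k : ℕ) :
    cs univ y (k + 1) = cs (univ.erase i) y (k + 1) + y i * cs (univ.erase i) y k := by
  have h : (univ : Finset ι) = insert i (univ.erase i) :=
    (Finset.insert_erase (Finset.mem_univ i)).symm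
  conv_lhs => rw [h]
  exact cs_insert (Finset.notMem_erase i univ) y k

lemma pis_bounds {y : ι → ℝ} (hy : ∀ i, 0 < y i) (i : ι) {k : ℕ}
    (hk : k + 1 ≤ Fintype.card ι) :
    y i / (y i + tau (cs univ y) k) ≤ pis y i k ∧
      pis y i k ≤ y i / (y i + tau (cs univ y) (k + 1)) := by
  have hyi := hy i
  have hcu : (univ : Finset ι).card = Fintype.card ι := Finset.card_univ
  have hce : (univ.erase i : Finset ι).card = Fintype.card ι - 1 := by
    rw [Finset.card_erase_of_mem (Finset.mem_univ i), hcu]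
  have a0 : 0 < cs univ y k := cs_pos univ hy (by rw [hcu]; omega)
  have a1 : 0 < cs univ y (k + 1) := cs_pos univ hy (by rw [hcu]; exact hk)
  have a2 : 0 ≤ cs univ y (k + 2) := cs_nonneg univ hy _
  have e0 : 0 < cs (univ.erase i) y k := cs_pos _ hy (by rw [hce]; omega)
  have e1 : 0 ≤ cs (univ.erase i) y (k + 1) := cs_nonneg _ hy _
  have e2 : 0 ≤ cs (univ.erase i) y (k + 2) := cs_nonneg _ hy _
  have r1 := cs_univ_succ y i k
  have r2 := cs_univ_succ y i (k + 1)
  have hlc := cs_logconc (univ.erase i) hy k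
  constructor
  · have key : cs (univ.erase i) y (k + 1) * cs univ y k ≤
        cs (univ.erase i) y k * cs univ y (k + 1) := by
      rcases Nat.eq_zero_or_pos k with h0 | h0
      · subst h0
        rw [cs_zero, cs_zero, r1, cs_zero]
        nlinarith
      · obtain ⟨k', rfl⟩ : ∃ k', k = k' + 1 := ⟨k - 1, by omega⟩
        have hlc' := cs_logconc (univ.erase i) hy k'
        rw [r1, cs_univ_succ y i k']
        nlinarith
    unfold pis tau
    rw [div_le_div_iff₀ (by positivity) a1]
    have : cs univ y (k + 1) ≤ cs (univ.erase i) y k * (y i + cs univ y (k + 1) / cs univ y k) := by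
      rw [mul_add, mul_div_assoc', ← sub_le_iff_le_add', le_div_iff₀ a0]
      rw [r1] at key ⊢
      nlinarith
    nlinarith
  · have key : cs (univ.erase i) y k * cs univ y (k + 2) ≤
        cs (univ.erase i) y (k + 1) * cs univ y (k + 1) := by
      rw [r1, show cs univ y (k + 2) = cs univ y (k + 1 + 1) from rfl, r2]
      have : cs (univ.erase i) y (k + 1 + 1) = cs (univ.erase i) y (k + 2) := rfl
      rw [this]
      nlinarith
    unfold pis tau
    have hd : 0 < y i + cs univ y (k + 1 + 1) / cs univ y (k + 1) := by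
      have : 0 ≤ cs univ y (k + 1 + 1) / cs univ y (k + 1) := div_nonneg a2 a1.le
      linarith
    rw [div_le_div_iff₀ a1 hd]
    have : cs (univ.erase i) y k * (y i + cs univ y (k + 1 + 1) / cs univ y (k + 1)) ≤
        cs univ y (k + 1) := by
      rw [mul_add, mul_div_assoc', ← le_sub_iff_add_le', div_le_iff₀ a1]
      have e : cs univ y (k + 1 + 1) = cs univ y (k + 2) := rfl
      rw [e]
      calc cs (univ.erase i) y k * cs univ y (k + 2)
          ≤ cs (univ.erase i) y (k + 1) * cs univ y (k + 1) := key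
        _ = _ := by rw [r1]; ring
    nlinarith

lemma exp_ge_five : (5 : ℝ) ≤ Real.exp (1.6095) := by
  have h := Real.sum_le_exp_of_nonneg (x := 1.6095) (by norm_num) 12
  refine le_trans ?_ h
  simp only [Finset.sum_range_succ, Finset.sum_range_zero, Nat.factorial]
  norm_num

/-- here `m = l + 1` is the index of the maximal coefficient -/
theorem var_lb {y : ι → ℝ} (hy : ∀ i, 0 < y i) {r : ℝ} (hr : 300 ≤ r) {l : ℕ}
    (h1 : 1 ≤ tau (cs univ y) l) (h2 : tau (cs univ y) (l + 1) ≤ 1)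
    (h3 : tau (cs univ y) l ^ r < 5 * tau (cs univ y) (l + 1) ^ r) :
    13 / 25 * r ≤ ∑ i, y i / (1 + y i) ^ 2 := by
  have hr0 : 0 < r := by linarith
  obtain ⟨a, ha⟩ : ∃ a, a = tau (cs univ y) l := ⟨_, rfl⟩
  obtain ⟨b, hb⟩ : ∃ b, b = tau (cs univ y) (l + 1) := ⟨_, rfl⟩
  obtain ⟨c, hc⟩ : ∃ c, c = tau (cs univ y) (l + 10) := ⟨_, rfl⟩
  rw [← ha] at h1 h3
  rw [← hb] at h2 h3
  have ha0 : 0 < a := by linarith
  have hb0 : 0 ≤ b := by rw [hb]; exact tau_nonneg univ hy _
  have hbpos : 0 < b := by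
    rcases hb0.eq_or_lt with h | h
    · exfalso
      rw [← h, Real.zero_rpow hr0.ne', mul_zero] at h3
      exact absurd h3 (not_lt.2 (Real.rpow_nonneg ha0.le r))
    · exact h
  -- the relative gap
  obtain ⟨ε, hε⟩ : ∃ ε, ε = 1 - b / a := ⟨_, rfl⟩
  have hba : b / a = 1 - ε := by rw [hε]; ring
  have hab : b = (1 - ε) * a := by rw [← hba]; field_simp
  have hε1 : 0 < 1 - ε := by rw [← hba]; positivity
  have h4 : 1 < 5 * (1 - ε) ^ r := by
    rw [hab, Real.mul_rpow hε1.le ha0.le, ← mul_assoc] at h3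
    have har : 0 < a ^ r := Real.rpow_pos_of_pos ha0 r
    by_contra hcon
    push Not at hcon
    nlinarith
  have h5 : (1 - ε) ^ r ≤ Real.exp (-(ε * r)) := by
    have : 1 - ε ≤ Real.exp (-ε) := by linarith [Real.add_one_le_exp (-ε)]
    calc (1 - ε) ^ r ≤ Real.exp (-ε) ^ r := Real.rpow_le_rpow hε1.le this hr0.le
      _ = Real.exp (-(ε * r)) := by rw [← Real.exp_mul]; congr 1; ring
  have h6 : ε * r < 1.6095 := by
    by_contra hcon
    push Not at hcon
    have h7 : Real.exp (-(ε * r)) ≤ Real.exp (-1.6095) := Real.exp_le_exp.2 (by linarith)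
    have h8 : Real.exp (-1.6095) ≤ 1 / 5 := by
      rw [Real.exp_neg, inv_eq_one_div]
      exact one_div_le_one_div_of_le (by norm_num) exp_ge_five
    linarith
  have hεs : 10 * ε < 1 := by
    have : ε * 300 < 1.6095 ∨ ε ≤ 0 := by
      rcases le_or_gt ε 0 with h | h
      · exact Or.inr h
      · left; nlinarith
    rcases this with h | h
    · linarith
    · linarith
  -- the line bound
  have h9 := tau_line univ hy l 9
  have e9 : l + 1 + 9 = l + 10 := by ring
  rw [e9, ← ha, ← hb, ← hc] at h9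
  have h10 : (1 - 10 * ε) * a ≤ c := by
    push_cast at h9
    rw [hab] at h9
    linarith
  have hc0 : 0 < c := lt_of_lt_of_le (mul_pos (by linarith) ha0) h10
  have hcard : l + 10 < Fintype.card ι := by
    by_contra hcon
    push Not at hcon
    have := tau_of_ge univ y (show (univ : Finset ι).card ≤ l + 10 by
      rw [Finset.card_univ]; exact hcon)
    rw [← hc] at this
    linarith
  have hcb : c ≤ b := by
    rw [hc, hb]
    exact tau_anti univ hy (by omega)
  have hac : 0 ≤ a - c := by linarith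
  -- the sum
  have s1 := sum_pis hy (k := l + 9) (by omega)
  have s2 := sum_pis hy (k := l) (by omega)
  have hterm : ∀ i, pis y i (l + 9) - pis y i l ≤ (a - c) / c * (y i / (1 + y i) ^ 2) := by
    intro i
    have hyi := hy i
    have b1 := (pis_bounds hy i (k := l + 9) (by omega)).2
    have b2 := (pis_bounds hy i (k := l) (by omega)).1
    have e10 : l + 9 + 1 = l + 10 := by ring
    rw [e10, ← hc] at b1
    rw [← ha] at b2
    have h11 : y i / (y i + c) - y i / (y i + a) = y i * (a - c) / ((y i + c) * (y i + a)) := by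
      have : 0 < y i + c := by linarith
      have : 0 < y i + a := by linarith
      field_simp
      ring
    have h12 : c * (1 + y i) ^ 2 ≤ (y i + c) * (y i + a) := by
      have g1 : c * (1 + y i) ≤ y i + c := by nlinarith
      have g2 : 1 + y i ≤ y i + a := by linarith
      calc c * (1 + y i) ^ 2 = (c * (1 + y i)) * (1 + y i) := by ring
        _ ≤ (y i + c) * (y i + a) := mul_le_mul g1 g2 (by linarith) (by linarith)
    calc pis y i (l + 9) - pis y i l ≤ y i / (y i + c) - y i / (y i + a) := by linarith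
      _ = y i * (a - c) / ((y i + c) * (y i + a)) := h11
      _ ≤ y i * (a - c) / (c * (1 + y i) ^ 2) :=
          div_le_div_of_nonneg_left (by positivity) (by positivity) h12
      _ = (a - c) / c * (y i / (1 + y i) ^ 2) := by
          field_simp
  have hsum : (9 : ℝ) ≤ (a - c) / c * ∑ i, y i / (1 + y i) ^ 2 := by
    calc (9 : ℝ) = ∑ i, (pis y i (l + 9) - pis y i l) := by
          rw [Finset.sum_sub_distrib, s1, s2]; push_cast; ring
      _ ≤ ∑ i, (a - c) / c * (y i / (1 + y i) ^ 2) := Finset.sum_le_sum (fun i _ => hterm i)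
      _ = _ := by rw [← Finset.mul_sum]
  set V := ∑ i, y i / (1 + y i) ^ 2 with hV
  have hV0 : 0 ≤ V := Finset.sum_nonneg (fun i _ => by have := hy i; positivity)
  -- final computation
  have h13 : 9 * (1 - 10 * ε) ≤ 10 * ε * V := by
    have g1 : 9 * c ≤ (a - c) * V := by
      rw [div_mul_eq_mul_div, le_div_iff₀ hc0] at hsum
      exact hsum
    have g2 : a - c ≤ 10 * ε * a := by linarith
    have g3 : 9 * ((1 - 10 * ε) * a) ≤ 10 * ε * a * V := by
      calc 9 * ((1 - 10 * ε) * a) ≤ 9 * c := by linarith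
        _ ≤ (a - c) * V := g1
        _ ≤ 10 * ε * a * V := mul_le_mul_of_nonneg_right g2 hV0
    have g4 : a * (9 * (1 - 10 * ε)) ≤ a * (10 * ε * V) := by linarith
    exact le_of_mul_le_mul_left g4 ha0
  have h14 : 9 * (1 - 10 * ε) * r ≤ 10 * (ε * r) * V := by
    calc 9 * (1 - 10 * ε) * r ≤ 10 * ε * V * r := mul_le_mul_of_nonneg_right h13 hr0.le
      _ = _ := by ring
  have h15 : 10 * (ε * r) * V ≤ 16.095 * V := mul_le_mul_of_nonneg_right (by linarith) hV0
  nlinarith

end Pool.Agent.RL51
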