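import Pool.Agent.RL51.RegA
import Pool.Agent.RL51.RegB
import Pool.Agent.RL51.VarLB

/-!
# RL51.Nd: the alternating sums do not vanish simultaneously (task RL51-Nd)

`nd_core`: let `a = cs univ y`, `n = card ι ≥ 1`, `m` an index of its maximal term.
* Reversal: `a (n - k) = (∏ y_i) cs univ y⁻¹ k` (`k ≤ n`), so for the sequence of `y⁻¹` the two sums
  vanish as well (`T0' = ± c T0`, `T1' = ± c (n T0 - T1)`).  So we may assume `m = l + 1 ≥ 1` and
  `a (m+1) ≤ a (m-1)`: otherwise `m = 0` or `a (m-1) < a (m+1)`, and the reversed sequence has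
  its maximum at `n - m ≥ 1` and satisfies this.
* If `5 τ_m^r ≤ τ_{m-1}^r` use `regA`.
* Otherwise `τ_{m-1} ≥ 1 ≥ τ_m`, `var_lb` gives `V = ∑ y_i/(1+y_i)^2 ≥ 0.52 r`; with
  `p_i = y_i/(1+y_i)`: `p_i (1-p_i) = y_i/(1+y_i)^2`, `p_i/(1-p_i) = y_i`, and `PP_eq_cs` shows that
  `PP p k = (∏ (1 - p_i)) a_k`, so `regimeB` applies.

`nd`: from `PF n b`, `PF.exists_roots` gives `b k = b 0 * cs univ y k` for some
`y : Fin n → ℝ`, `y > 0` (`k ≤ n`).  For `x < 0` put `ρ = (-x)^(1/r)`, `y' = ρ y`:
`b_k^r x^k = b_0^r (-1)^k (cs univ y' k)^r`.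
-/

open Finset Polynomial

namespace Pool.Agent.RL51

open Pool.Agent.H62LR

lemma cs_reverse_aux {ι : Type} [DecidableEq ι] (s : Finset ι) {y : ι → ℝ} (hy : ∀ i, 0 < y i) :
    ∀ k ≤ s.card, cs s y (s.card - k) = (∏ i ∈ s, y i) * cs s (fun i => (y i)⁻¹) k := by
  induction s using Finset.induction_on with
  | empty =>
    intro k hk
    rw [Finset.card_empty] at hk
    have : k = 0 := by omega
    subst this
    rw [Finset.card_empty, Finset.prod_empty, cs_zero, cs_zero]
    norm_num
  | insert i s hi ih =>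
    intro k hk
    have hyi := hy i
    rw [Finset.card_insert_of_notMem hi] at hk ⊢
    rw [Finset.prod_insert hi]
    rcases Nat.eq_zero_or_pos k with h0 | h0
    · subst h0
      rw [Nat.sub_zero, cs_insert hi, cs_of_gt s y (Nat.lt_succ_self _), cs_zero, zero_add]
      have := ih 0 (Nat.zero_le _)
      rw [Nat.sub_zero, cs_zero] at this
      rw [this]
      ring
    · obtain ⟨k', rfl⟩ : ∃ k', k = k' + 1 := ⟨k - 1, by omega⟩
      rw [cs_insert hi]
      rcases Nat.lt_or_ge k' s.card with h1 | h1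
      · obtain ⟨m, hm⟩ : ∃ m, s.card - k' = m + 1 := ⟨s.card - k' - 1, by omega⟩
        have e1 : s.card + 1 - (k' + 1) = m + 1 := by omega
        have e2 : s.card - (k' + 1) = m := by omega
        have i1 := ih k' h1.le
        have i2 := ih (k' + 1) h1
        rw [hm] at i1
        rw [e2] at i2
        rw [e1, cs_insert hi, i1, i2]
        field_simp
        ring
      · have h2 : k' = s.card := by omega
        subst h2
        have i1 := ih s.card le_rfl
        rw [Nat.sub_self, cs_zero] at i1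
        rw [Nat.sub_self, cs_zero, cs_of_gt s _ (Nat.lt_succ_self _), zero_add]
        calc (1 : ℝ) = (y i * (y i)⁻¹) * 1 := by rw [mul_inv_cancel₀ hyi.ne']; ring
          _ = (y i * (y i)⁻¹) * ((∏ i ∈ s, y i) * cs s (fun i => (y i)⁻¹) s.card) := by
            rw [← i1]
          _ = _ := by ring

lemma cs_reverse {ι : Type} [Fintype ι] {y : ι → ℝ} (hy : ∀ i, 0 < y i) {k : ℕ}
    (hk : k ≤ Fintype.card ι) :
    cs univ y (Fintype.card ι - k) = (∏ i, y i) * cs univ (fun i => (y i)⁻¹) k := by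
  classical
  exact cs_reverse_aux univ hy k hk

lemma cs_scale_aux {ι : Type} [DecidableEq ι] (s : Finset ι) (y : ι → ℝ) (ρ : ℝ) :
    ∀ k, cs s (fun i => ρ * y i) k = ρ ^ k * cs s y k := by
  induction s using Finset.induction_on with
  | empty =>
    intro k
    rcases Nat.eq_zero_or_pos k with h | h
    · subst h
      rw [cs_zero, cs_zero]; ring
    · rw [cs_of_gt _ _ (by simpa using h), cs_of_gt _ _ (by simpa using h)]; ring
  | insert i s hi ih =>
    intro k
    rcases Nat.eq_zero_or_pos k with h | h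
    · subst h
      rw [cs_zero, cs_zero]; ring
    · obtain ⟨k', rfl⟩ : ∃ k', k = k' + 1 := ⟨k - 1, by omega⟩
      rw [cs_insert hi, cs_insert hi, ih, ih]
      ring

/-- the case where the maximal index is `l + 1` and the left neighbour is at least the right one -/
lemma nd_core_aux {ι : Type} [Fintype ι] {y : ι → ℝ} (hy : ∀ i, 0 < y i) {r : ℝ} (hr : 300 ≤ r)
    {l : ℕ} (hl : l + 1 ≤ Fintype.card ι) (hmax : ∀ k, cs univ y k ≤ cs univ y (l + 1))
    (hside : cs univ y (l + 2) ≤ cs univ y l)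
    (h0 : ∑ k ∈ range (Fintype.card ι + 1), (-1 : ℝ) ^ k * cs univ y k ^ r = 0)
    (h1 : ∑ k ∈ range (Fintype.card ι + 1), (-1 : ℝ) ^ k * (k * cs univ y k ^ r) = 0) : False := by
  classical
  rcases le_or_gt (5 * tau (cs univ y) (l + 1) ^ r) (tau (cs univ y) l ^ r) with h5 | h5
  · exact regA hy hr hl hmax hside h5 h0 h1
  · have pl : 0 < cs univ y l := cs_pos univ hy (by rw [Finset.card_univ]; omega)
    have pl1 : 0 < cs univ y (l + 1) := cs_pos univ hy (by rw [Finset.card_univ]; omega)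
    have t1 : 1 ≤ tau (cs univ y) l := by
      unfold tau
      rw [le_div_iff₀ pl, one_mul]
      exact hmax l
    have t2 : tau (cs univ y) (l + 1) ≤ 1 := by
      unfold tau
      rw [div_le_iff₀ pl1, one_mul]
      exact hmax _
    have hV := var_lb hy hr t1 t2 h5
    set p : ι → ℝ := fun i => y i / (1 + y i) with hp
    have hp1 : ∀ i, 1 - p i = 1 / (1 + y i) := by
      intro i
      have := hy i
      rw [hp]
      field_simp
      ring
    have hadm : Adm p := by
      intro i
      have h := hy i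
      refine ⟨by rw [hp]; positivity, ?_⟩
      have h2 := hp1 i
      have h3 : 0 < 1 / (1 + y i) := by positivity
      linarith
    have hVV : VV p = ∑ i, y i / (1 + y i) ^ 2 := by
      unfold VV
      refine Finset.sum_congr rfl (fun i _ => ?_)
      have := hy i
      rw [hp1, hp]
      field_simp
    have hB : Big p r := ⟨hadm, hr, by rw [hVV]; exact hV⟩
    have hpy : (fun i => p i / (1 - p i)) = y := by
      funext i
      have := hy i
      rw [hp1, hp]
      field_simp
    have hQ : 0 < ∏ i, (1 - p i) := Finset.prod_pos (fun i _ => by linarith [(hadm i).2])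
    have hPP : ∀ k, PP p k ^ r = (∏ i, (1 - p i)) ^ r * cs univ y k ^ r := by
      intro k
      rw [PP_eq_cs hadm, hpy, Real.mul_rpow hQ.le (cs_nonneg univ hy k)]
    refine regimeB hB ?_ ?_
    · calc ∑ k ∈ range (Fintype.card ι + 1), (-1 : ℝ) ^ k * PP p k ^ r
          = (∏ i, (1 - p i)) ^ r *
            ∑ k ∈ range (Fintype.card ι + 1), (-1 : ℝ) ^ k * cs univ y k ^ r := by
            rw [Finset.mul_sum]
            refine Finset.sum_congr rfl (fun k _ => ?_)
            rw [hPP]; ring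
        _ = 0 := by rw [h0, mul_zero]
    · calc ∑ k ∈ range (Fintype.card ι + 1), (-1 : ℝ) ^ k * (k * PP p k ^ r)
          = (∏ i, (1 - p i)) ^ r *
            ∑ k ∈ range (Fintype.card ι + 1), (-1 : ℝ) ^ k * (k * cs univ y k ^ r) := by
            rw [Finset.mul_sum]
            refine Finset.sum_congr rfl (fun k _ => ?_)
            rw [hPP]; ring
        _ = 0 := by rw [h1, mul_zero]

theorem nd_core {ι : Type} [Fintype ι] {y : ι → ℝ} (hy : ∀ i, 0 < y i) {r : ℝ} (hr : 300 ≤ r)
    (h0 : ∑ k ∈ range (Fintype.card ι + 1), (-1 : ℝ) ^ k * cs univ y k ^ r = 0)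
    (h1 : ∑ k ∈ range (Fintype.card ι + 1), (-1 : ℝ) ^ k * (k * cs univ y k ^ r) = 0) : False := by
  classical
  obtain ⟨n, hn⟩ : ∃ n, Fintype.card ι = n := ⟨_, rfl⟩
  have hcu : (univ : Finset ι).card = n := by rw [Finset.card_univ, hn]
  rw [hn] at h0 h1
  rcases Nat.eq_zero_or_pos n with hn0 | hn0
  · subst hn0
    rw [zero_add, Finset.sum_range_one, cs_zero] at h0
    norm_num at h0
  obtain ⟨m, hm, hmmax⟩ := Finset.exists_max_image (range (n + 1)) (fun k => cs univ y k)
    ⟨0, by simp⟩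
  have hmn : m ≤ n := by simpa [Nat.lt_succ_iff] using hm
  have hmax : ∀ k, cs univ y k ≤ cs univ y m := by
    intro k
    rcases Nat.lt_or_ge k (n + 1) with h | h
    · exact hmmax k (Finset.mem_range.2 h)
    · rw [cs_of_gt univ y (show (univ : Finset ι).card < k by rw [hcu]; omega)]
      exact cs_nonneg univ hy m
  by_cases hgood : 1 ≤ m ∧ cs univ y (m + 1) ≤ cs univ y (m - 1)
  · obtain ⟨l, rfl⟩ : ∃ l, m = l + 1 := ⟨m - 1, by omega⟩
    have hs := hgood.2
    rw [show l + 1 + 1 = l + 2 by rfl, show l + 1 - 1 = l by omega] at hs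
    exact nd_core_aux hy hr (by rw [hn]; exact hmn) hmax hs (by rw [hn]; exact h0)
      (by rw [hn]; exact h1)
  · -- the reversed sequence
    have hy' : ∀ i, 0 < (y i)⁻¹ := fun i => inv_pos.2 (hy i)
    have hP : 0 < ∏ i, y i := Finset.prod_pos (fun i _ => hy i)
    have hrev : ∀ k ≤ n, cs univ (fun i => (y i)⁻¹) k = (∏ i, y i)⁻¹ * cs univ y (n - k) := by
      intro k hk
      have h := cs_reverse hy (k := k) (by rw [hn]; exact hk)
      rw [hn] at h
      rw [h, ← mul_assoc, inv_mul_cancel₀ hP.ne', one_mul]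
    have hmn' : m < n := by
      rcases Nat.lt_or_ge m n with h | h
      · exact h
      · exfalso
        have hmn2 : m = n := le_antisymm hmn h
        refine hgood ⟨by omega, ?_⟩
        rw [cs_of_gt univ y (show (univ : Finset ι).card < m + 1 by rw [hcu]; omega)]
        exact cs_nonneg univ hy _
    obtain ⟨l, hl⟩ : ∃ l, n - m = l + 1 := ⟨n - m - 1, by omega⟩
    have hQ : 0 ≤ (∏ i, y i)⁻¹ := (inv_pos.2 hP).le
    have hmax' : ∀ k, cs univ (fun i => (y i)⁻¹) k ≤ cs univ (fun i => (y i)⁻¹) (l + 1) := by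
      intro k
      rcases Nat.lt_or_ge k (n + 1) with h | h
      · rw [hrev k (by omega), hrev (l + 1) (by omega), show n - (l + 1) = m by omega]
        exact mul_le_mul_of_nonneg_left (hmax _) hQ
      · rw [cs_of_gt univ _ (show (univ : Finset ι).card < k by rw [hcu]; omega)]
        exact cs_nonneg univ hy' _
    have hside' : cs univ (fun i => (y i)⁻¹) (l + 2) ≤ cs univ (fun i => (y i)⁻¹) l := by
      rcases Nat.eq_zero_or_pos m with h | h
      · rw [cs_of_gt univ _ (show (univ : Finset ι).card < l + 2 by rw [hcu]; omega)]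
        exact cs_nonneg univ hy' _
      · rw [hrev (l + 2) (by omega), hrev l (by omega), show n - (l + 2) = m - 1 by omega,
          show n - l = m + 1 by omega]
        refine mul_le_mul_of_nonneg_left ?_ hQ
        by_contra hc
        push Not at hc
        exact hgood ⟨h, hc.le⟩
    have hterm : ∀ k ≤ n, cs univ (fun i => (y i)⁻¹) (n - k) ^ r =
        (∏ i, y i)⁻¹ ^ r * cs univ y k ^ r := by
      intro k hk
      rw [hrev (n - k) (by omega), show n - (n - k) = k by omega,
        Real.mul_rpow hQ (cs_nonneg univ hy k)]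
    have hsgn : ∀ k ≤ n, (-1 : ℝ) ^ (n - k) = (-1) ^ n * (-1) ^ k := by
      intro k hk
      have e : (-1 : ℝ) ^ n = (-1) ^ (n - k) * (-1) ^ k := by
        rw [← pow_add]; congr 1; omega
      rw [e, mul_assoc, ← mul_pow]
      norm_num
    have h0' : ∑ k ∈ range (n + 1), (-1 : ℝ) ^ k * cs univ (fun i => (y i)⁻¹) k ^ r = 0 := by
      rw [← Finset.sum_range_reflect]
      calc ∑ k ∈ range (n + 1), (-1 : ℝ) ^ (n + 1 - 1 - k) *
            cs univ (fun i => (y i)⁻¹) (n + 1 - 1 - k) ^ r
          = (-1) ^ n * (∏ i, y i)⁻¹ ^ r *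
              ∑ k ∈ range (n + 1), (-1 : ℝ) ^ k * cs univ y k ^ r := by
            rw [Finset.mul_sum]
            refine Finset.sum_congr rfl (fun k hk => ?_)
            have hk' : k ≤ n := by simpa [Nat.lt_succ_iff] using hk
            rw [show n + 1 - 1 - k = n - k by omega, hterm k hk', hsgn k hk']
            ring
        _ = 0 := by rw [h0, mul_zero]
    have h1' : ∑ k ∈ range (n + 1), (-1 : ℝ) ^ k *
        ((k : ℝ) * cs univ (fun i => (y i)⁻¹) k ^ r) = 0 := by
      rw [← Finset.sum_range_reflect]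
      calc ∑ k ∈ range (n + 1), (-1 : ℝ) ^ (n + 1 - 1 - k) *
            (((n + 1 - 1 - k : ℕ) : ℝ) * cs univ (fun i => (y i)⁻¹) (n + 1 - 1 - k) ^ r)
          = (-1) ^ n * (∏ i, y i)⁻¹ ^ r *
              (n * ∑ k ∈ range (n + 1), (-1 : ℝ) ^ k * cs univ y k ^ r -
                ∑ k ∈ range (n + 1), (-1 : ℝ) ^ k * (k * cs univ y k ^ r)) := by
            rw [Finset.mul_sum, ← Finset.sum_sub_distrib, Finset.mul_sum]
            refine Finset.sum_congr rfl (fun k hk => ?_)
            have hk' : k ≤ n := by simpa [Nat.lt_succ_iff] using hk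
            rw [show n + 1 - 1 - k = n - k by omega, hterm k hk', hsgn k hk', Nat.cast_sub hk']
            ring
        _ = 0 := by rw [h0, h1]; ring
    exact nd_core_aux (y := fun i => (y i)⁻¹) hy' hr (l := l) (by rw [hn]; omega) hmax' hside'
      (by rw [hn]; exact h0') (by rw [hn]; exact h1')

lemma exists_y {n : ℕ} {b : ℕ → ℝ} (hb : PF n b) :
    ∃ y : Fin n → ℝ, (∀ i, 0 < y i) ∧ ∀ k ≤ n, b k = b 0 * cs univ y k := by
  obtain ⟨m, hcard, hpos, hprod⟩ := hb.exists_roots
  obtain ⟨L, rfl⟩ : ∃ L : List ℝ, (L : Multiset ℝ) = m := Quot.exists_rep m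
  have hlen : L.length = n := by simpa using hcard
  subst hlen
  refine ⟨fun i => L.get i, fun l => hpos _ (by simp), fun k hk => ?_⟩
  have h1 := congrArg (fun q => q.coeff k) hprod
  simp only [coeff_C_mul] at h1
  rw [Pool.Agent.H62LR.coeff_poly, if_pos hk] at h1
  rw [h1]
  congr 1
  unfold cs
  congr 1
  rw [Multiset.map_coe, Multiset.prod_coe, ← List.prod_ofFn]
  congr 1
  conv_lhs => rw [← List.ofFn_get L, List.map_ofFn]
  rfl

theorem nd {n : ℕ} {b : ℕ → ℝ} (hb : PF n b) {r : ℝ} (hr : 300 ≤ r) {x : ℝ} (hx : x < 0)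
    (h0 : ∑ k ∈ range (n + 1), b k ^ r * x ^ k = 0)
    (h1 : ∑ k ∈ range (n + 1), (k : ℝ) * (b k ^ r * x ^ k) = 0) : False := by
  obtain ⟨y, hy, hby⟩ := exists_y hb
  have hr0 : 0 < r := by linarith
  obtain ⟨ρ, hρ⟩ : ∃ ρ : ℝ, ρ = (-x) ^ (1 / r) := ⟨_, rfl⟩
  have hρ0 : 0 < ρ := by rw [hρ]; exact Real.rpow_pos_of_pos (by linarith) _
  have hb0 := hb.1 0 (Nat.zero_le _)
  have hb0r : 0 < b 0 ^ r := Real.rpow_pos_of_pos hb0 r
  have hy' : ∀ i, 0 < ρ * y i := fun i => mul_pos hρ0 (hy i)
  have hcs : ∀ k, cs univ (fun i => ρ * y i) k = ρ ^ k * cs univ y k := by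
    classical
    exact cs_scale_aux univ y ρ
  have hρr : ∀ k : ℕ, (ρ ^ k) ^ r = (-x) ^ k := by
    intro k
    rw [← Real.rpow_natCast ρ k, ← Real.rpow_mul hρ0.le, hρ, ← Real.rpow_mul (by linarith),
      ← Real.rpow_natCast (-x) k]
    congr 1
    field_simp
  have hterm : ∀ k ≤ n, b k ^ r * x ^ k =
      b 0 ^ r * ((-1) ^ k * cs univ (fun i => ρ * y i) k ^ r) := by
    intro k hk
    rw [hby k hk, Real.mul_rpow hb0.le (cs_nonneg univ hy k), hcs,
      Real.mul_rpow (by positivity) (cs_nonneg univ hy k), hρr, ← mul_assoc ((-1 : ℝ) ^ k),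
      ← mul_pow]
    rw [show -1 * -x = x by ring]
    ring
  refine nd_core hy' hr ?_ ?_
  · rw [Fintype.card_fin]
    have : b 0 ^ r * ∑ k ∈ range (n + 1), (-1 : ℝ) ^ k * cs univ (fun i => ρ * y i) k ^ r = 0 := by
      rw [Finset.mul_sum, ← h0]
      refine Finset.sum_congr rfl (fun k hk => ?_)
      rw [hterm k (by simpa [Nat.lt_succ_iff] using hk)]
    exact (mul_eq_zero.1 this).resolve_left hb0r.ne'
  · rw [Fintype.card_fin]
    have : b 0 ^ r * ∑ k ∈ range (n + 1), (-1 : ℝ) ^ k *
        ((k : ℝ) * cs univ (fun i => ρ * y i) k ^ r) = 0 := by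
      rw [Finset.mul_sum, ← h1]
      refine Finset.sum_congr rfl (fun k hk => ?_)
      rw [hterm k (by simpa [Nat.lt_succ_iff] using hk)]
      ring
    exact (mul_eq_zero.1 this).resolve_left hb0r.ne'

end Pool.Agent.RL51
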