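import Pool.Agent.RL51.WinE

/-!
# RL51.Nu: the slowly varying factor on the line `Im w = π/r` (task RL51-Nu)

`V = VV p`, `S = V/r ≥ 0.52`, `w = u + wi r`, `|u| ≤ 5 π/r`, so `w ∈ Box r`, `Im w = π/r`.
* `E = exp (2πi kap w)`: by `kap_im_box` `Im kap w ≥ 0.943 V π/r = 0.943 π S`, so
  `‖E‖ ≤ exp (-2 * 0.943 π² S) ≤ exp (-18.6 S) ≤ 1/15000` and
  `S ‖E‖ ≤ S exp (-18.6 S) ≤ 0.52 exp (-9.672) ≤ 3.3 * 10^(-5)` (`s exp (-18.6 s)` is decreasing for
  `s ≥ 1/18.6`: e.g. `S = 0.52 (1 + t)`, `1 + t ≤ exp t`).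
* `‖ss/V - 1‖ ≤ 0.057` (`ss_box`), so both logarithms in `nu` are of numbers in `slitPlane`.
* `nu1_le`: `‖dd/ss‖ ≤ 1.01` (`norm_dd_le_re`), and
  `‖2πi ss E/(1-E)‖ ≤ 2π 1.057 V ‖E‖ 1.0001 ≤ 6.65 r S ‖E‖ ≤ r/4000`.
* `nu1_lip`: `‖(2πi ss E/(1-E))'‖ = ‖2πi (dd E/(1-E) + 2πi ss^2 E/(1-E)^2)‖
   ≤ 2π 1.0003 ‖E‖ (1.06 V + 2π (1.057 V)^2) ≤ 44.3 V^2 ‖E‖ ≤ 44.3 * 3.3 * 10^(-5) r V ≤ 0.0015 r V`,
  and `ddss_lip` gives `12 ≤ 0.0005 r V`.
-/

open Finset Polynomial

namespace Pool.Agent.RL51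

variable {ι : Type} [Fintype ι]

/-- `E = exp (2πi kap w)` -/
private noncomputable def Ex (p : ι → ℝ) (w : ℂ) : ℂ :=
  Complex.exp (2 * (Real.pi : ℂ) * Complex.I * kap p w)

private lemma line_im (r u : ℝ) : ((u : ℂ) + wi r).im = Real.pi / r := by
  simp [wi, -Complex.ofReal_div]

private lemma line_re (r u : ℝ) : ((u : ℂ) + wi r).re = u := by
  simp [wi, -Complex.ofReal_div]

private lemma exp_num : 15760 ≤ Real.exp (9672 / 1000) := by
  have h1 : (2.7182818283 : ℝ) ^ 9 ≤ Real.exp 9 := by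
    have h := Real.exp_one_gt_d9
    have h2 : Real.exp 9 = Real.exp 1 ^ 9 := by
      rw [← Real.exp_nat_mul]; norm_num
    rw [h2]
    exact pow_le_pow_left₀ (by norm_num) h.le 9
  have h3 := Real.sum_le_exp_of_nonneg (x := 672 / 1000) (by norm_num) 4
  have h4 : Real.exp (9672 / 1000) = Real.exp 9 * Real.exp (672 / 1000) := by
    rw [← Real.exp_add]; norm_num
  rw [h4]
  have h5 : (19480 / 10000 : ℝ) ≤ Real.exp (672 / 1000) := by
    refine le_trans ?_ h3
    norm_num [Finset.sum_range_succ, Nat.factorial]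
  calc (15760 : ℝ) ≤ (2.7182818283 : ℝ) ^ 9 * (19480 / 10000) := by norm_num
    _ ≤ _ := mul_le_mul h1 h5 (by norm_num) (Real.exp_pos _).le

private lemma norm_E {p : ι → ℝ} {r : ℝ} (hB : Big p r) {u : ℝ} (hu : |u| ≤ 5 * (Real.pi / r)) :
    ‖Complex.exp (2 * (Real.pi : ℂ) * Complex.I * kap p ((u : ℂ) + wi r))‖ ≤
      Real.exp (-(186 / 10 * (VV p / r))) := by
  have hr := hB.hr
  have hr0 : 0 < r := by linarith
  have hV := hB.V156
  rw [Complex.norm_exp]
  apply Real.exp_le_exp.2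
  have h1 : (2 * (Real.pi : ℂ) * Complex.I * kap p ((u : ℂ) + wi r)).re =
      -(2 * Real.pi * (kap p ((u : ℂ) + wi r)).im) := by
    simp [Complex.mul_re, Complex.mul_im]
  rw [h1]
  have h2 := kap_im_box hB (line_mem_box hr hu)
  rw [line_im] at h2
  have hphi := phi_pos hr
  rw [abs_of_pos hphi] at h2
  have h3 := (abs_le.1 h2).1
  have h4 : 943 / 1000 * (VV p * (Real.pi / r)) ≤ (kap p ((u : ℂ) + wi r)).im := by
    nlinarith
  have hpi := Real.pi_gt_d4
  have hS : 0 < VV p / r := by positivity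
  have h5 : VV p * (Real.pi / r) = Real.pi * (VV p / r) := by ring
  rw [h5] at h4
  have h6 : (9.869 : ℝ) ≤ Real.pi * Real.pi := by nlinarith
  have h7 : 2 * Real.pi * (943 / 1000 * (Real.pi * (VV p / r))) ≤
      2 * Real.pi * (kap p ((u : ℂ) + wi r)).im :=
    mul_le_mul_of_nonneg_left h4 (by positivity)
  have h8 : 186 / 10 * (VV p / r) ≤ 2 * Real.pi * (943 / 1000 * (Real.pi * (VV p / r))) := by
    have : 2 * Real.pi * (943 / 1000 * (Real.pi * (VV p / r))) =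
        (1886 / 1000 * (Real.pi * Real.pi)) * (VV p / r) := by ring
    rw [this]
    exact mul_le_mul_of_nonneg_right (by linarith) hS.le
  linarith

private lemma S_ge {p : ι → ℝ} {r : ℝ} (hB : Big p r) : 13 / 25 ≤ VV p / r := by
  have hr := hB.hr
  have hr0 : 0 < r := by linarith
  rw [le_div_iff₀ hr0]
  exact hB.hV

lemma E_le {p : ι → ℝ} {r : ℝ} (hB : Big p r) {u : ℝ} (hu : |u| ≤ 5 * (Real.pi / r)) :
    ‖Complex.exp (2 * (Real.pi : ℂ) * Complex.I * kap p ((u : ℂ) + wi r))‖ ≤ 1 / 15000 := by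
  refine (norm_E hB hu).trans ?_
  have hS := S_ge hB
  have h1 : Real.exp (-(186 / 10 * (VV p / r))) ≤ Real.exp (-(9672 / 1000)) :=
    Real.exp_le_exp.2 (by linarith)
  refine h1.trans ?_
  rw [Real.exp_neg, one_div]
  exact inv_anti₀ (by norm_num) (by linarith [exp_num])

lemma V_E_le {p : ι → ℝ} {r : ℝ} (hB : Big p r) {u : ℝ} (hu : |u| ≤ 5 * (Real.pi / r)) :
    VV p * ‖Complex.exp (2 * (Real.pi : ℂ) * Complex.I * kap p ((u : ℂ) + wi r))‖ ≤
      33 / 1000000 * r := by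
  have hr := hB.hr
  have hr0 : 0 < r := by linarith
  have hV := hB.V156
  have hS := S_ge hB
  set s := VV p / r with hs
  have hVs : VV p = s * r := by rw [hs]; field_simp
  have h1 := norm_E hB hu
  have h2 : VV p * ‖Complex.exp (2 * (Real.pi : ℂ) * Complex.I * kap p ((u : ℂ) + wi r))‖ ≤
      s * r * Real.exp (-(186 / 10 * s)) := by
    rw [hVs]
    exact mul_le_mul_of_nonneg_left h1 (by positivity)
  refine h2.trans ?_
  have h3 : s * Real.exp (-(186 / 10 * s)) ≤ 33 / 1000000 := by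
    have h4 : s ≤ 13 / 25 * Real.exp (s / (13 / 25) - 1) := by
      have := Real.add_one_le_exp (s / (13 / 25) - 1)
      have h5 : s = 13 / 25 * (s / (13 / 25)) := by field_simp
      nlinarith
    calc s * Real.exp (-(186 / 10 * s))
        ≤ 13 / 25 * Real.exp (s / (13 / 25) - 1) * Real.exp (-(186 / 10 * s)) :=
          mul_le_mul_of_nonneg_right h4 (Real.exp_pos _).le
      _ = 13 / 25 * Real.exp (s / (13 / 25) - 1 - 186 / 10 * s) := by
          rw [mul_assoc, ← Real.exp_add]; ring_nf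
      _ ≤ 13 / 25 * Real.exp (-(9672 / 1000)) := by
          refine mul_le_mul_of_nonneg_left (Real.exp_le_exp.2 ?_) (by norm_num)
          have : s / (13 / 25) = 25 / 13 * s := by ring
          rw [this]; linarith
      _ ≤ 33 / 1000000 := by
          rw [Real.exp_neg]
          have h6 : (Real.exp (9672 / 1000))⁻¹ ≤ (15760 : ℝ)⁻¹ :=
            inv_anti₀ (by norm_num) exp_num
          calc 13 / 25 * (Real.exp (9672 / 1000))⁻¹ ≤ 13 / 25 * (15760 : ℝ)⁻¹ :=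
                mul_le_mul_of_nonneg_left h6 (by norm_num)
            _ ≤ 33 / 1000000 := by norm_num
  calc s * r * Real.exp (-(186 / 10 * s)) = s * Real.exp (-(186 / 10 * s)) * r := by ring
    _ ≤ 33 / 1000000 * r := mul_le_mul_of_nonneg_right h3 hr0.le

private lemma ss_facts {p : ι → ℝ} {r : ℝ} (hB : Big p r) {w : ℂ} (hw : w ∈ Box r) :
    943 / 1000 * VV p ≤ (ss p w).re ∧ ‖ss p w‖ ≤ 1057 / 1000 * VV p := by
  have h := ss_box hB hw
  have hV := hB.V156
  constructor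
  · have h1 : |(ss p w - (VV p : ℂ)).re| ≤ 57 / 1000 * VV p := (Complex.abs_re_le_norm _).trans h
    rw [Complex.sub_re, Complex.ofReal_re] at h1
    have := (abs_le.1 h1).1
    linarith
  · have h2 : ‖ss p w‖ ≤ ‖ss p w - (VV p : ℂ)‖ + ‖(VV p : ℂ)‖ := by
      simpa using norm_add_le (ss p w - (VV p : ℂ)) (VV p : ℂ)
    have h3 : ‖(VV p : ℂ)‖ = VV p := by
      rw [Complex.norm_real, Real.norm_of_nonneg (by linarith)]
    rw [h3] at h2
    linarith

private lemma ss_ne {p : ι → ℝ} {r : ℝ} (hB : Big p r) {w : ℂ} (hw : w ∈ Box r) :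
    ss p w ≠ 0 := by
  intro h
  have h1 := (ss_facts hB hw).1
  have hV := hB.V156
  rw [h] at h1
  simp at h1
  linarith

private lemma strip {r : ℝ} (hr : 300 ≤ r) {w : ℂ} (hw : w ∈ Box r) : |w.im| < Real.pi := by
  have h := box_im hr hw
  have := Real.pi_gt_three
  linarith

private lemma one_sub_E {p : ι → ℝ} {r : ℝ} (hB : Big p r) {u : ℝ}
    (hu : |u| ≤ 5 * (Real.pi / r)) :
    14999 / 15000 ≤
      (1 - Complex.exp (2 * (Real.pi : ℂ) * Complex.I * kap p ((u : ℂ) + wi r))).re := by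
  have h := (Complex.re_le_norm _).trans (E_le hB hu)
  rw [Complex.sub_re, Complex.one_re]
  linarith

private lemma one_sub_E_norm {p : ι → ℝ} {r : ℝ} (hB : Big p r) {u : ℝ}
    (hu : |u| ≤ 5 * (Real.pi / r)) :
    14999 / 15000 ≤
      ‖1 - Complex.exp (2 * (Real.pi : ℂ) * Complex.I * kap p ((u : ℂ) + wi r))‖ :=
  (one_sub_E hB hu).trans (Complex.re_le_norm _)

private lemma one_sub_E_ne {p : ι → ℝ} {r : ℝ} (hB : Big p r) {u : ℝ}
    (hu : |u| ≤ 5 * (Real.pi / r)) :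
    1 - Complex.exp (2 * (Real.pi : ℂ) * Complex.I * kap p ((u : ℂ) + wi r)) ≠ 0 := by
  intro h
  have h1 := one_sub_E_norm hB hu
  rw [h, norm_zero] at h1
  norm_num at h1

private lemma V_ne {p : ι → ℝ} {r : ℝ} (hB : Big p r) : (VV p : ℂ) ≠ 0 := by
  have hV := hB.V156
  exact_mod_cast (by linarith : VV p ≠ 0)

theorem exp_nu {p : ι → ℝ} {r : ℝ} (hB : Big p r) {u : ℝ} (hu : |u| ≤ 5 * (Real.pi / r)) :
    Complex.exp (nu p ((u : ℂ) + wi r)) = ss p ((u : ℂ) + wi r) / ((VV p : ℂ) *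
      (1 - Complex.exp (2 * (Real.pi : ℂ) * Complex.I * kap p ((u : ℂ) + wi r)))) := by
  unfold nu
  have hw := line_mem_box hB.hr hu
  rw [Complex.exp_sub, Complex.exp_log (div_ne_zero (ss_ne hB hw) (V_ne hB)),
    Complex.exp_log (one_sub_E_ne hB hu), div_div]

private lemma hasDerivAt_E {p : ι → ℝ} (hp : Adm p) {w : ℂ} (hw : |w.im| < Real.pi) :
    HasDerivAt (fun z => Complex.exp (2 * (Real.pi : ℂ) * Complex.I * kap p z))
      (Complex.exp (2 * (Real.pi : ℂ) * Complex.I * kap p w) *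
        (2 * (Real.pi : ℂ) * Complex.I * ss p w)) w :=
  ((hasDerivAt_kap hp hw).const_mul (2 * (Real.pi : ℂ) * Complex.I)).cexp

theorem hasDerivAt_nu {p : ι → ℝ} {r : ℝ} (hB : Big p r) {u : ℝ}
    (hu : |u| ≤ 5 * (Real.pi / r)) :
    HasDerivAt (nu p) (nu1 p ((u : ℂ) + wi r)) ((u : ℂ) + wi r) := by
  have hw := line_mem_box hB.hr hu
  have hst := strip hB.hr hw
  have hV := hB.V156
  have h1 : HasDerivAt (fun z => ss p z / (VV p : ℂ)) (dd p ((u : ℂ) + wi r) / (VV p : ℂ))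
      ((u : ℂ) + wi r) := (hasDerivAt_ss hB.adm hst).div_const _
  have hs1 : ss p ((u : ℂ) + wi r) / (VV p : ℂ) ∈ Complex.slitPlane := by
    left
    rw [Complex.div_ofReal_re]
    have := (ss_facts hB hw).1
    apply div_pos _ (by linarith)
    linarith
  have h2 := h1.clog hs1
  have hE := hasDerivAt_E (p := p) hB.adm hst
  have h3 : HasDerivAt (fun z => 1 - Complex.exp (2 * (Real.pi : ℂ) * Complex.I * kap p z))
      (-(Complex.exp (2 * (Real.pi : ℂ) * Complex.I * kap p ((u : ℂ) + wi r)) *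
        (2 * (Real.pi : ℂ) * Complex.I * ss p ((u : ℂ) + wi r)))) ((u : ℂ) + wi r) := by
    simpa using hE.const_sub 1
  have hs2 : (1 - Complex.exp (2 * (Real.pi : ℂ) * Complex.I * kap p ((u : ℂ) + wi r))) ∈
      Complex.slitPlane := by
    left
    have := one_sub_E hB hu
    linarith
  have h4 := h3.clog hs2
  have h5 := h2.sub h4
  have h6 : (fun z => Complex.log (ss p z / (VV p : ℂ))) -
      (fun z => Complex.log (1 - Complex.exp (2 * (Real.pi : ℂ) * Complex.I * kap p z))) =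
      nu p := by
    funext z
    simp [nu]
  rw [h6] at h5
  refine h5.congr_deriv ?_
  unfold nu1
  have hne := ss_ne hB hw
  have hne2 := one_sub_E_ne hB hu
  have hVne := V_ne hB
  field_simp
  ring

private lemma dd_le {p : ι → ℝ} {r : ℝ} (hB : Big p r) {w : ℂ} (hw : w ∈ Box r) :
    ‖dd p w‖ ≤ 101 / 100 * ‖ss p w‖ := by
  have h := box_im hB.hr hw
  have h1 := norm_dd_le_re hB.adm (w := w) (by linarith)
  have h2 := Complex.re_le_norm (ss p w)
  linarith

theorem nu1_le {p : ι → ℝ} {r : ℝ} (hB : Big p r) {u : ℝ} (hu : |u| ≤ 5 * (Real.pi / r)) :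
    ‖nu1 p ((u : ℂ) + wi r)‖ ≤ 101 / 100 + r / 4000 := by
  have hw := line_mem_box hB.hr hu
  have hr := hB.hr
  have hV := hB.V156
  unfold nu1
  refine (norm_add_le _ _).trans (add_le_add ?_ ?_)
  · rw [norm_div, div_le_iff₀ (norm_pos_iff.2 (ss_ne hB hw))]
    exact dd_le hB hw
  · rw [norm_div, div_le_iff₀ (norm_pos_iff.2 (one_sub_E_ne hB hu))]
    have h1 := one_sub_E_norm hB hu
    have h2 := (ss_facts hB hw).2
    have h3 := V_E_le hB hu
    have hpi := Real.pi_lt_d4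
    have h4 : ‖2 * (Real.pi : ℂ) * Complex.I * ss p ((u : ℂ) + wi r) *
        Complex.exp (2 * (Real.pi : ℂ) * Complex.I * kap p ((u : ℂ) + wi r))‖ =
        2 * Real.pi * (‖ss p ((u : ℂ) + wi r)‖ *
          ‖Complex.exp (2 * (Real.pi : ℂ) * Complex.I * kap p ((u : ℂ) + wi r))‖) := by
      rw [norm_mul, norm_mul, norm_mul, norm_mul]
      simp [abs_of_pos Real.pi_pos]
      ring
    rw [h4]
    set e := ‖Complex.exp (2 * (Real.pi : ℂ) * Complex.I * kap p ((u : ℂ) + wi r))‖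
    have he : 0 ≤ e := norm_nonneg _
    have h5 : ‖ss p ((u : ℂ) + wi r)‖ * e ≤ 1057 / 1000 * (33 / 1000000 * r) := by
      calc ‖ss p ((u : ℂ) + wi r)‖ * e ≤ (1057 / 1000 * VV p) * e :=
            mul_le_mul_of_nonneg_right h2 he
        _ = 1057 / 1000 * (VV p * e) := by ring
        _ ≤ _ := mul_le_mul_of_nonneg_left h3 (by norm_num)
    have h6 : 2 * Real.pi * (‖ss p ((u : ℂ) + wi r)‖ * e) ≤
        2 * 3.1416 * (1057 / 1000 * (33 / 1000000 * r)) := by
      apply mul_le_mul _ h5 (by positivity) (by norm_num)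
      linarith
    refine h6.trans ?_
    have h7 : r / 4000 * (14999 / 15000) ≤ r / 4000 *
        ‖1 - Complex.exp (2 * (Real.pi : ℂ) * Complex.I * kap p ((u : ℂ) + wi r))‖ :=
      mul_le_mul_of_nonneg_left h1 (by linarith)
    refine le_trans ?_ h7
    linarith

/-- the second summand of `nu1` -/
private noncomputable def G2 (p : ι → ℝ) (w : ℂ) : ℂ :=
  2 * (Real.pi : ℂ) * Complex.I * ss p w *
    Complex.exp (2 * (Real.pi : ℂ) * Complex.I * kap p w) /
      (1 - Complex.exp (2 * (Real.pi : ℂ) * Complex.I * kap p w))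

/-- its derivative -/
private noncomputable def G2' (p : ι → ℝ) (w : ℂ) : ℂ :=
  2 * (Real.pi : ℂ) * Complex.I *
    (dd p w * Complex.exp (2 * (Real.pi : ℂ) * Complex.I * kap p w) /
      (1 - Complex.exp (2 * (Real.pi : ℂ) * Complex.I * kap p w)) +
    2 * (Real.pi : ℂ) * Complex.I * ss p w ^ 2 *
      Complex.exp (2 * (Real.pi : ℂ) * Complex.I * kap p w) /
      (1 - Complex.exp (2 * (Real.pi : ℂ) * Complex.I * kap p w)) ^ 2)

private lemma hasDerivAt_G2 {p : ι → ℝ} {r : ℝ} (hB : Big p r) {u : ℝ}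
    (hu : |u| ≤ 5 * (Real.pi / r)) :
    HasDerivAt (G2 p) (G2' p ((u : ℂ) + wi r)) ((u : ℂ) + wi r) := by
  have hw := line_mem_box hB.hr hu
  have hst := strip hB.hr hw
  have hE := hasDerivAt_E (p := p) hB.adm hst
  have hs := (hasDerivAt_ss hB.adm hst).const_mul (2 * (Real.pi : ℂ) * Complex.I)
  have h3 : HasDerivAt (fun z => 1 - Complex.exp (2 * (Real.pi : ℂ) * Complex.I * kap p z))
      (-(Complex.exp (2 * (Real.pi : ℂ) * Complex.I * kap p ((u : ℂ) + wi r)) *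
        (2 * (Real.pi : ℂ) * Complex.I * ss p ((u : ℂ) + wi r)))) ((u : ℂ) + wi r) := by
    simpa using hE.const_sub 1
  have h4 := (hs.mul hE).div h3 (one_sub_E_ne hB hu)
  have h5 : HasDerivAt (G2 p) _ ((u : ℂ) + wi r) := h4
  convert h5 using 1
  unfold G2'
  have hne2 := one_sub_E_ne hB hu
  simp only [Pi.mul_apply]
  field_simp
  ring

private lemma G2'_le {p : ι → ℝ} {r : ℝ} (hB : Big p r) {u : ℝ}
    (hu : |u| ≤ 5 * (Real.pi / r)) :
    ‖G2' p ((u : ℂ) + wi r)‖ ≤ 3 / 2000 * (r * VV p) := by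
  have hw := line_mem_box hB.hr hu
  have hr := hB.hr
  have hV := hB.V156
  have h1 := one_sub_E_norm hB hu
  have hd := one_sub_E_ne hB hu
  have h2 := (ss_facts hB hw).2
  have h3 := V_E_le hB hu
  have hpi := Real.pi_lt_d4
  have hpi0 := Real.pi_pos
  have hdd := dd_le hB hw
  unfold G2'
  set E := Complex.exp (2 * (Real.pi : ℂ) * Complex.I * kap p ((u : ℂ) + wi r)) with hE
  set s := ss p ((u : ℂ) + wi r)
  set d := dd p ((u : ℂ) + wi r)
  have he : 0 ≤ ‖E‖ := norm_nonneg _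
  have hn2 : ‖(2 * (Real.pi : ℂ) * Complex.I)‖ = 2 * Real.pi := by
    simp [abs_of_pos Real.pi_pos]
  rw [norm_mul, hn2]
  have hN : 0 < ‖1 - E‖ := norm_pos_iff.2 hd
  have a1 : ‖d * E / (1 - E)‖ ≤ 1069 / 1000 * (VV p * ‖E‖) := by
    rw [norm_div, norm_mul, div_le_iff₀ hN]
    have b1 : ‖d‖ ≤ 106757 / 100000 * VV p := by linarith
    have b2 : ‖d‖ * ‖E‖ ≤ 106757 / 100000 * VV p * ‖E‖ := mul_le_mul_of_nonneg_right b1 he
    have b3 : 1069 / 1000 * (VV p * ‖E‖) * (14999 / 15000) ≤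
        1069 / 1000 * (VV p * ‖E‖) * ‖1 - E‖ :=
      mul_le_mul_of_nonneg_left h1 (by positivity)
    have b4 : 0 ≤ VV p * ‖E‖ := by positivity
    nlinarith
  have a2 : ‖2 * (Real.pi : ℂ) * Complex.I * s ^ 2 * E / (1 - E) ^ 2‖ ≤
      2 * Real.pi * (11175 / 10000 * (VV p * (VV p * ‖E‖))) := by
    rw [norm_div, norm_mul, norm_mul, hn2, norm_pow, norm_pow, div_le_iff₀ (by positivity)]
    have c1 : ‖s‖ ^ 2 ≤ (1057 / 1000 * VV p) ^ 2 := pow_le_pow_left₀ (norm_nonneg _) h2 2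
    have c2 : (14999 / 15000 : ℝ) ^ 2 ≤ ‖1 - E‖ ^ 2 := pow_le_pow_left₀ (by norm_num) h1 2
    have c3 : 0 ≤ VV p * (VV p * ‖E‖) := by positivity
    calc 2 * Real.pi * ‖s‖ ^ 2 * ‖E‖ ≤ 2 * Real.pi * (1057 / 1000 * VV p) ^ 2 * ‖E‖ := by
          gcongr
      _ = 2 * Real.pi * ((1057 / 1000) ^ 2 * (VV p * (VV p * ‖E‖))) := by ring
      _ ≤ 2 * Real.pi * (11175 / 10000 * (VV p * (VV p * ‖E‖)) * (14999 / 15000) ^ 2) := by
          refine mul_le_mul_of_nonneg_left ?_ (by positivity)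
          nlinarith
      _ ≤ 2 * Real.pi * (11175 / 10000 * (VV p * (VV p * ‖E‖)) * ‖1 - E‖ ^ 2) := by
          refine mul_le_mul_of_nonneg_left ?_ (by positivity)
          exact mul_le_mul_of_nonneg_left c2 (by positivity)
      _ = _ := by ring
  have a3 : ‖d * E / (1 - E) + 2 * (Real.pi : ℂ) * Complex.I * s ^ 2 * E / (1 - E) ^ 2‖ ≤
      1069 / 1000 * (VV p * ‖E‖) + 2 * Real.pi * (11175 / 10000 * (VV p * (VV p * ‖E‖))) :=
    (norm_add_le _ _).trans (add_le_add a1 a2)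
  have a4 : 1069 / 1000 * (VV p * ‖E‖) ≤ 7 / 1000 * (VV p * (VV p * ‖E‖)) := by
    have : 0 ≤ VV p * ‖E‖ := by positivity
    nlinarith
  have a5 : 0 ≤ VV p * (VV p * ‖E‖) := by positivity
  have a6 : ‖d * E / (1 - E) + 2 * (Real.pi : ℂ) * Complex.I * s ^ 2 * E / (1 - E) ^ 2‖ ≤
      7030 / 1000 * (VV p * (VV p * ‖E‖)) := by
    refine a3.trans ?_
    have : 2 * Real.pi * (11175 / 10000 * (VV p * (VV p * ‖E‖))) ≤
        2 * 3.1416 * (11175 / 10000 * (VV p * (VV p * ‖E‖))) := by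
      refine mul_le_mul_of_nonneg_right ?_ (by positivity)
      linarith
    nlinarith
  have a7 : VV p * (VV p * ‖E‖) ≤ VV p * (33 / 1000000 * r) :=
    mul_le_mul_of_nonneg_left h3 (by linarith)
  have a8 : 0 ≤ r * VV p := by
    have : 0 ≤ r := by linarith
    positivity
  calc 2 * Real.pi * ‖d * E / (1 - E) + 2 * (Real.pi : ℂ) * Complex.I * s ^ 2 * E / (1 - E) ^ 2‖
      ≤ 2 * 3.1416 * (7030 / 1000 * (VV p * (33 / 1000000 * r))) := by
        apply mul_le_mul (by linarith) _ (norm_nonneg _) (by norm_num)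
        exact a6.trans (mul_le_mul_of_nonneg_left a7 (by norm_num))
    _ ≤ 3 / 2000 * (r * VV p) := by nlinarith

theorem nu1_lip {p : ι → ℝ} {r : ℝ} (hB : Big p r) {u t : ℝ} (hu : |u| ≤ 5 * (Real.pi / r))
    (ht : |t| ≤ 5 * (Real.pi / r)) :
    ‖nu1 p ((u : ℂ) + wi r) - nu1 p ((t : ℂ) + wi r)‖ ≤ 1 / 500 * (r * VV p) * |u - t| := by
  have hr := hB.hr
  have hV := hB.V156
  have hwu := line_mem_box hr hu
  have hwt := line_mem_box hr ht
  have hsub : ‖((u : ℂ) + wi r) - ((t : ℂ) + wi r)‖ = |u - t| := by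
    have : ((u : ℂ) + wi r) - ((t : ℂ) + wi r) = ((u - t : ℝ) : ℂ) := by push_cast; ring
    rw [this, Complex.norm_real, Real.norm_eq_abs]
  have h1 := ddss_lip hB.adm hV (box_small hr hwt) (box_small hr hwu) (box_im hr hwt)
    (box_im hr hwu)
  rw [hsub] at h1
  have h2 : ‖G2 p ((u : ℂ) + wi r) - G2 p ((t : ℂ) + wi r)‖ ≤
      3 / 2000 * (r * VV p) * |u - t| := by
    have hconv : Convex ℝ (Set.Icc (-(5 * (Real.pi / r))) (5 * (Real.pi / r))) := convex_Icc _ _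
    have key := hconv.norm_image_sub_le_of_norm_hasDerivWithin_le
      (f := fun x : ℝ => G2 p ((x : ℂ) + wi r)) (f' := fun x : ℝ => G2' p ((x : ℂ) + wi r))
      (C := 3 / 2000 * (r * VV p)) (x := t) (y := u) ?_ ?_ (abs_le.1 ht) (abs_le.1 hu)
    · simpa [Real.norm_eq_abs] using key
    · intro x hx
      have hx' : |x| ≤ 5 * (Real.pi / r) := abs_le.2 hx
      have hd := hasDerivAt_G2 hB hx'
      have hlin : HasDerivAt (fun y : ℝ => (y : ℂ) + wi r) 1 x := by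
        simpa using (Complex.ofRealCLM.hasDerivAt (x := x)).add_const (wi r)
      have := hd.scomp x hlin
      simpa [Function.comp_def] using this.hasDerivWithinAt
    · intro x hx
      exact G2'_le hB (abs_le.2 hx)
  have h3 : nu1 p ((u : ℂ) + wi r) - nu1 p ((t : ℂ) + wi r) =
      (dd p ((u : ℂ) + wi r) / ss p ((u : ℂ) + wi r) -
        dd p ((t : ℂ) + wi r) / ss p ((t : ℂ) + wi r)) +
      (G2 p ((u : ℂ) + wi r) - G2 p ((t : ℂ) + wi r)) := by
    unfold nu1 G2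
    ring
  rw [h3]
  refine (norm_add_le _ _).trans ?_
  have h4 : (12 : ℝ) ≤ 1 / 2000 * (r * VV p) := by nlinarith
  have h5 : 12 * |u - t| ≤ 1 / 2000 * (r * VV p) * |u - t| :=
    mul_le_mul_of_nonneg_right h4 (abs_nonneg _)
  calc _ ≤ 12 * |u - t| + 3 / 2000 * (r * VV p) * |u - t| := add_le_add h1 h2
    _ ≤ 1 / 2000 * (r * VV p) * |u - t| + 3 / 2000 * (r * VV p) * |u - t| := by linarith
    _ = _ := by ring

/-- `‖ss/V‖ ≥ 0.943`, `‖1 - E‖ ≤ 1 + 1/15000` -/
theorem re_nu_ge {p : ι → ℝ} {r : ℝ} (hB : Big p r) :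
    471 / 500 ≤ Real.exp (nu p (wi r)).re := by
  have hr := hB.hr
  have hV := hB.V156
  have hphi := phi_pos hr
  have hu : |(0 : ℝ)| ≤ 5 * (Real.pi / r) := by rw [abs_zero]; positivity
  have h := exp_nu hB hu
  have hw := line_mem_box hr hu
  have h1 := (ss_facts hB hw).1
  have h2 := E_le hB hu
  simp only [Complex.ofReal_zero, zero_add] at h hw h1 h2
  rw [← Complex.norm_exp, h, norm_div, norm_mul]
  have h3 : ‖(VV p : ℂ)‖ = VV p := by
    rw [Complex.norm_real, Real.norm_of_nonneg (by linarith)]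
  rw [h3]
  have h4 : ‖1 - Complex.exp (2 * (Real.pi : ℂ) * Complex.I * kap p (wi r))‖ ≤ 15001 / 15000 := by
    refine (norm_sub_le _ _).trans ?_
    rw [norm_one]
    linarith
  have hpos : 0 < ‖1 - Complex.exp (2 * (Real.pi : ℂ) * Complex.I * kap p (wi r))‖ := by
    have := one_sub_E_ne hB hu
    simp only [Complex.ofReal_zero, zero_add] at this
    exact norm_pos_iff.2 this
  rw [le_div_iff₀ (by positivity)]
  have h5 := h1.trans (Complex.re_le_norm _)
  calc 471 / 500 * (VV p * ‖1 - Complex.exp (2 * (Real.pi : ℂ) * Complex.I * kap p (wi r))‖)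
      ≤ 471 / 500 * (VV p * (15001 / 15000)) := by
        gcongr
    _ ≤ 943 / 1000 * VV p := by nlinarith
    _ ≤ _ := h5

end Pool.Agent.RL51
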