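import Pool.Agent.RL51.Basic

/-!
# RL51.Pk: the point probabilities (task RL51-Pk)

`gen p w = ∏ (1 - p_i + p_i e^w) = ∑_j PP p j e^{jw}` (evaluate the polynomial at `e^w`), hence for
real `x`: `(1/2π) ∫_{-π}^{π} gen p (x + iθ) e^{-k(x + iθ)} dθ = PP p k`, because
`∫_{-π}^{π} e^{i(j-k)θ} dθ = 2π δ_{jk}`.  If `kap p x = k` this reads
`PP p k = gen p x e^{-kx} ell p x`, and `gen p x = exp (EE p x)`.
-/

open Finset Polynomial

namespace Pool.Agent.RL51

variable {ι : Type} [Fintype ι]

/-- the polynomial has degree at most the number of factors -/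
lemma natDegree_PPpoly (p : ι → ℝ) :
    (∏ i, (C (1 - p i) + C (p i) * X) : ℝ[X]).natDegree ≤ Fintype.card ι := by
  refine (Polynomial.natDegree_prod_le _ _).trans ?_
  refine (Finset.sum_le_sum (g := fun _ => 1) fun i _ => ?_).trans ?_
  · refine (Polynomial.natDegree_add_le _ _).trans ?_
    rw [Polynomial.natDegree_C]
    refine max_le (by norm_num) ?_
    exact (Polynomial.natDegree_C_mul_le _ _).trans Polynomial.natDegree_X_le
  · simp

lemma gen_eq_sum (p : ι → ℝ) (w : ℂ) :
    gen p w = ∑ j ∈ range (Fintype.card ι + 1), (PP p j : ℂ) * Complex.exp (j * w) := by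
  have h1 : gen p w =
      Polynomial.aeval (Complex.exp w) (∏ i, (C (1 - p i) + C (p i) * X) : ℝ[X]) := by
    unfold gen bb
    rw [map_prod]
    refine Finset.prod_congr rfl fun i _ => ?_
    simp
  rw [h1, Polynomial.aeval_eq_sum_range' (n := Fintype.card ι + 1)
    (Nat.lt_succ_of_le (natDegree_PPpoly p))]
  refine Finset.sum_congr rfl fun j _ => ?_
  rw [← Complex.exp_nat_mul]
  unfold PP
  rw [Complex.real_smul]

lemma PP_zero_of_gt (p : ι → ℝ) {k : ℕ} (hk : Fintype.card ι < k) : PP p k = 0 := by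
  unfold PP
  exact Polynomial.coeff_eq_zero_of_natDegree_lt ((natDegree_PPpoly p).trans_lt hk)

lemma coeff_factor_mul (a b : ℝ) (Q : ℝ[X]) (k : ℕ) :
    ((C a + C b * X) * Q).coeff k = a * Q.coeff k + b * (if k = 0 then 0 else Q.coeff (k - 1)) := by
  rw [add_mul, Polynomial.coeff_add, Polynomial.coeff_C_mul, mul_assoc, Polynomial.coeff_C_mul]
  congr 2
  rcases Nat.eq_zero_or_pos k with h | h
  · subst h; simp
  · obtain ⟨m, rfl⟩ : ∃ m, k = m + 1 := ⟨k - 1, by omega⟩
    simp [Polynomial.coeff_X_mul]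

omit [Fintype ι] in
lemma coeff_prod_nonneg {p : ι → ℝ} (hp : Adm p) (s : Finset ι) (k : ℕ) :
    0 ≤ (∏ i ∈ s, (C (1 - p i) + C (p i) * X) : ℝ[X]).coeff k := by
  classical
  induction s using Finset.induction_on generalizing k with
  | empty => simp [Polynomial.coeff_one]; split_ifs <;> norm_num
  | insert a s ha ih =>
    rw [Finset.prod_insert ha, coeff_factor_mul]
    have h1 := (hp a).1
    have h2 : 0 < 1 - p a := by linarith [(hp a).2]
    have h3 := ih k
    have h4 := ih (k - 1)
    split_ifs <;> positivity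

omit [Fintype ι] in
lemma coeff_prod_pos {p : ι → ℝ} (hp : Adm p) (s : Finset ι) (k : ℕ) (hk : k ≤ s.card) :
    0 < (∏ i ∈ s, (C (1 - p i) + C (p i) * X) : ℝ[X]).coeff k := by
  classical
  induction s using Finset.induction_on generalizing k with
  | empty =>
    have : k = 0 := by simpa using hk
    subst this; simp
  | insert a s ha ih =>
    rw [Finset.prod_insert ha, coeff_factor_mul]
    rw [Finset.card_insert_of_notMem ha] at hk
    have h1 := (hp a).1
    have h2 : 0 < 1 - p a := by linarith [(hp a).2]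
    split_ifs with h
    · have := ih k (by omega)
      rw [mul_zero, add_zero]
      positivity
    · have h3 := coeff_prod_nonneg hp s k
      have h4 := ih (k - 1) (by omega)
      positivity

lemma PP_nonneg {p : ι → ℝ} (hp : Adm p) (k : ℕ) : 0 ≤ PP p k :=
  coeff_prod_nonneg hp _ k

lemma PP_pos {p : ι → ℝ} (hp : Adm p) {k : ℕ} (hk : k ≤ Fintype.card ι) : 0 < PP p k :=
  coeff_prod_pos hp _ k (by simpa using hk)

/-- relation with `cs`: `1 - p + p X = (1-p) (1 + (p/(1-p)) X)` -/
lemma PP_eq_cs {p : ι → ℝ} (hp : Adm p) (k : ℕ) :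
    PP p k = (∏ i, (1 - p i)) * cs univ (fun i => p i / (1 - p i)) k := by
  unfold PP cs
  rw [← Polynomial.coeff_C_mul, map_prod, ← Finset.prod_mul_distrib]
  congr 1
  refine Finset.prod_congr rfl fun i _ => ?_
  have h2 : 1 - p i ≠ 0 := by have := (hp i).2; intro h; linarith
  rw [mul_add, mul_one, ← mul_assoc, ← Polynomial.C_mul]
  congr 3
  field_simp

/-- orthogonality of the exponentials -/
lemma integral_exp_int (n : ℤ) :
    ∫ θ in (-Real.pi)..Real.pi, Complex.exp ((n : ℂ) * ((θ : ℂ) * Complex.I)) =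
      if n = 0 then 2 * (Real.pi : ℂ) else 0 := by
  split_ifs with h
  · subst h
    simp
    ring
  · have hc : ((n : ℂ) * Complex.I) ≠ 0 :=
      mul_ne_zero (by exact_mod_cast h) Complex.I_ne_zero
    have h1 : ∀ θ : ℝ, Complex.exp ((n : ℂ) * ((θ : ℂ) * Complex.I)) =
        Complex.exp (((n : ℂ) * Complex.I) * (θ : ℂ)) := by
      intro θ; congr 1; ring
    simp_rw [h1]
    rw [integral_exp_mul_complex hc]
    have h2 : Complex.exp ((n : ℂ) * Complex.I * (Real.pi : ℂ)) =
        Complex.exp ((n : ℂ) * Complex.I * ((-Real.pi : ℝ) : ℂ)) := by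
      rw [Complex.exp_eq_exp_iff_exists_int]
      refine ⟨n, ?_⟩
      push_cast
      ring
    rw [h2, sub_self, zero_div]

theorem PP_eq {p : ι → ℝ} (hp : Adm p) {x : ℝ} {k : ℕ} (hk : kap p (x : ℂ) = k) :
    (PP p k : ℂ) = Complex.exp (EE p x - k * x) * ell p x := by
  have him : |((x : ℂ)).im| < Real.pi := by simp [Real.pi_pos]
  have hgen : gen p (x : ℂ) ≠ 0 := gen_ne hp him
  have hEE := exp_EE hp him
  have hI : (∫ θ in (-Real.pi)..Real.pi,
      gen p (x + θ * Complex.I) / gen p x * Complex.exp (-(kap p x * (θ * Complex.I)))) =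
      2 * (Real.pi : ℂ) * ((PP p k : ℂ) * Complex.exp (k * x)) / gen p x := by
    have h1 : ∀ θ : ℝ, gen p (x + θ * Complex.I) / gen p x *
        Complex.exp (-(kap p x * (θ * Complex.I))) =
        ∑ j ∈ range (Fintype.card ι + 1), ((PP p j : ℂ) * Complex.exp (j * x) / gen p x) *
          Complex.exp ((((j : ℤ) - (k : ℤ) : ℤ) : ℂ) * ((θ : ℂ) * Complex.I)) := by
      intro θ
      rw [gen_eq_sum p (x + θ * Complex.I), hk, Finset.sum_div, Finset.sum_mul]
      refine Finset.sum_congr rfl fun j _ => ?_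
      have h2 : Complex.exp ((j : ℂ) * ((x : ℂ) + θ * Complex.I)) *
          Complex.exp (-((k : ℂ) * (θ * Complex.I))) =
          Complex.exp (j * x) *
            Complex.exp ((((j : ℤ) - (k : ℤ) : ℤ) : ℂ) * ((θ : ℂ) * Complex.I)) := by
        rw [← Complex.exp_add, ← Complex.exp_add]
        congr 1
        push_cast
        ring
      calc (PP p j : ℂ) * Complex.exp ((j : ℂ) * ((x : ℂ) + θ * Complex.I)) / gen p x *
            Complex.exp (-((k : ℂ) * (θ * Complex.I)))
          = (PP p j : ℂ) / gen p x * (Complex.exp ((j : ℂ) * ((x : ℂ) + θ * Complex.I)) *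
            Complex.exp (-((k : ℂ) * (θ * Complex.I)))) := by ring
        _ = _ := by rw [h2]; ring
    simp_rw [h1]
    rw [intervalIntegral.integral_finsetSum]
    · have h3 : ∀ j ∈ range (Fintype.card ι + 1), (∫ θ in (-Real.pi)..Real.pi,
          ((PP p j : ℂ) * Complex.exp (j * x) / gen p x) *
          Complex.exp ((((j : ℤ) - (k : ℤ) : ℤ) : ℂ) * ((θ : ℂ) * Complex.I))) =
          if j = k then 2 * (Real.pi : ℂ) * ((PP p k : ℂ) * Complex.exp (k * x)) / gen p x
          else 0 := by
        intro j _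
        rw [intervalIntegral.integral_const_mul, integral_exp_int]
        by_cases hjk : j = k
        · subst hjk
          simp
          ring
        · have : ((j : ℤ) - (k : ℤ)) ≠ 0 := by omega
          simp [this, hjk]
      rw [Finset.sum_congr rfl h3, Finset.sum_ite_eq']
      split_ifs with hmem
      · rfl
      · have : PP p k = 0 := PP_zero_of_gt p (by
          rw [Finset.mem_range] at hmem; omega)
        rw [this]
        simp
    · intro j _
      apply Continuous.intervalIntegrable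
      fun_prop
  unfold ell
  rw [hI, Complex.exp_sub, hEE]
  have hpi : (Real.pi : ℂ) ≠ 0 := by exact_mod_cast Real.pi_ne_zero
  have he : Complex.exp ((k : ℂ) * (x : ℂ)) ≠ 0 := Complex.exp_ne_zero _
  field_simp

end Pool.Agent.RL51
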