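import Pool.Agent.RL51.TauC

/-!
# RL51.RegA: regime A (task RL51-RegA)

Let `m = l + 1` be an index of the maximal term of `a = cs univ y`, `n = card ι`, and
`x_j = (a (m+j)/a m)^r` for `-m ≤ j ≤ n - m` (`x_j = 0` for `j > n - m`).
Assume `a (m+1) ≤ a (m-1)`, i.e. `x_1 ≤ x_{-1}`, and `5 τ_m^r ≤ τ_{m-1}^r`, i.e. `5 x_1 x_{-1} ≤ 1`
(`x_1 = τ_m^r`, `x_{-1} = τ_{m-1}^{-r}`).  Claim:
`F = ∑_{j=-m}^{n-m} (-1)^j (1 + j) x_j > 0`.  But
`(-1)^m a_m^r F = ∑_k (-1)^k (1 + k - m) a_k^r = (1 - m) T0 + T1`, which contradicts `T0 = T1 = 0`.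

Proof of the claim.  The term `j = 0` is `1`, `j = 1` gives `-2 x_1`, `j = -1` gives `0`.
* `j ≥ 2`: `3 x_2 - 4 x_3 + 5 x_4 - ... ≥ 0`, alternating with decreasing terms:
  `x_{j+1}/x_j = τ_{m+j}^r ≤ τ_m^r = x_1 ≤ 1/√5 ≤ 3/4 ≤ (1+j)/(2+j)` (`tau_anti`).
* `j ≤ -2`, `j = -i`: `∑_{i ≥ 2} (-1)^{i+1} (i-1) x_{-i} ≥ - x_{-2}` since
  `2 x_{-3} - 3 x_{-4} + ... ≥ 0`: `x_{-i-1}/x_{-i} = τ_{m-i-1}^{-r} ≤ τ_{m-2}^{-r}` for `i ≥ 1`
  and by convexity (`tau_conv`) `τ_{m-2} ≥ 2 τ_{m-1} - τ_m = τ_{m-1} (2 - θ)`, `θ = τ_m/τ_{m-1}`,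
  `θ^r ≤ 1/5`, so `(2 - θ)^r ≥ 4.9` (`two_sub_rpow`): let `θ0 = 5^{-1/r} ≥ θ`, then
  `(2-θ)^r ≥ (2-θ0)^r` and `(2-θ0)^r θ0^r = (1 - (1-θ0)^2)^r ≥ 1 - r (1-θ0)^2` (Bernoulli), with
  `θ0 = exp (-log 5/r) ≥ 1 - log 5/r`, so `r (1-θ0)^2 ≤ (log 5)^2/r ≤ 2.6/300`
  and `(2-θ0)^r ≥ 5 * 0.991`.
  Hence `x_{-2}/x_{-1} = τ_{m-2}^{-r} ≤ τ_{m-1}^{-r}/4.9 = x_{-1}/4.9 ≤ 1/4.9 ≤ 2/3`.
So `F ≥ 1 - 2 x_1 - x_{-1}^2/4.9` with `x_1 ≤ min (x_{-1}, 1/(5 x_{-1}))`, `x_{-1} ≤ 1`:
if `x_{-1} ≤ 9/20`: `F ≥ 1 - 2 x_1 - 0.0414` and `x_1^2 ≤ x_1 x_{-1} ≤ 1/5`, `2 x_1 ≤ 0.8945`.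
If `x := x_{-1} ≥ 9/20`: `F ≥ 1 - 2/(5x) - x^2/4.9 > 0` on `[9/20, 1]`
(concave; `x = 0.45`: `1 - 0.8889 - 0.0414 > 0`; `x = 1`: `1 - 0.4 - 0.2041 > 0`).

The alternating estimates are `Pool.Agent.H62LR.alt_dec`, `alt_inc` in `Pool/Agent/H62LR/Small.lean`
(or do your own induction).
-/

open Finset Polynomial

namespace Pool.Agent.RL51

variable {ι : Type} [Fintype ι]

/-- alternating sums of nonnegative decreasing sequences -/
lemma regA_alt_dec (T : ℕ → ℝ) (h0 : ∀ k, 0 ≤ T k) (hdec : ∀ k, T (k + 1) ≤ T k) (m : ℕ) :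
    0 ≤ ∑ j ∈ range m, (-1 : ℝ) ^ j * T j ∧ ∑ j ∈ range m, (-1 : ℝ) ^ j * T j ≤ T 0 := by
  induction m generalizing T with
  | zero => simpa using h0 0
  | succ m ih =>
    have h1 := ih (fun k => T (k + 1)) (fun k => h0 _) (fun k => hdec _)
    have e : ∑ j ∈ range m, (-1 : ℝ) ^ (j + 1) * T (j + 1) =
        -∑ j ∈ range m, (-1 : ℝ) ^ j * T (j + 1) := by
      rw [← Finset.sum_neg_distrib]
      apply Finset.sum_congr rfl
      intro j _
      rw [pow_succ]
      ring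
    rw [Finset.sum_range_succ', e]
    have h2 := hdec 0
    simp only [zero_add] at h1 h2
    simp only [pow_zero, one_mul]
    constructor
    · linarith [h1.1, h1.2]
    · linarith [h1.1, h1.2]

/-- alternating sums of nonnegative increasing sequences -/
lemma regA_alt_inc (T : ℕ → ℝ) (m : ℕ) (h0 : 0 ≤ T 0) (hinc : ∀ j, j < m → T j ≤ T (j + 1)) :
    0 ≤ (-1 : ℝ) ^ m * ∑ j ∈ range (m + 1), (-1) ^ j * T j ∧
      (-1 : ℝ) ^ m * ∑ j ∈ range (m + 1), (-1) ^ j * T j ≤ T m := by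
  induction m with
  | zero => simpa using h0
  | succ m ih =>
    have h1 := ih (fun j hj => hinc j (by omega))
    have h2 := hinc m (by omega)
    rw [Finset.sum_range_succ, mul_add]
    have e1 : (-1 : ℝ) ^ (m + 1) * ((-1) ^ (m + 1) * T (m + 1)) = T (m + 1) := by
      rw [← mul_assoc, ← mul_pow]
      norm_num
    rw [e1, pow_succ]
    constructor
    · nlinarith [h1.1, h1.2]
    · nlinarith [h1.1, h1.2]

/-- `(2 - θ)^r ≥ 4.9` if `θ^r ≤ 1/5` -/
lemma two_sub_rpow {θ r : ℝ} (hθ : 0 ≤ θ) (hr : 300 ≤ r) (h : 5 * θ ^ r ≤ 1) :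
    49 / 10 ≤ (2 - θ) ^ r := by
  have hr0 : 0 < r := by linarith
  have hlog0 : 0 < Real.log 5 := Real.log_pos (by norm_num)
  have hlog2 : Real.log 5 ≤ 2 := by
    rw [Real.log_le_iff_le_exp (by norm_num)]
    have h1 := Real.exp_one_gt_d9
    have h2 : Real.exp 2 = Real.exp 1 * Real.exp 1 := by rw [← Real.exp_add]; norm_num
    rw [h2]
    nlinarith
  set t : ℝ := Real.exp (-(Real.log 5 / r)) with ht
  have ht0 : 0 < t := Real.exp_pos _
  have ht1 : t ≤ 1 := by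
    rw [ht, Real.exp_le_one_iff]
    have : 0 < Real.log 5 / r := div_pos hlog0 hr0
    linarith
  have htr : t ^ r = 1 / 5 := by
    rw [ht, ← Real.exp_mul]
    have : -(Real.log 5 / r) * r = -Real.log 5 := by field_simp
    rw [this, Real.exp_neg, Real.exp_log (by norm_num)]
    norm_num
  have hθt : θ ≤ t := by
    by_contra hcon
    push Not at hcon
    have h1 : t ^ r < θ ^ r := Real.rpow_lt_rpow ht0.le hcon hr0
    rw [htr] at h1
    linarith
  have h1t : 1 - t ≤ Real.log 5 / r := by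
    have := Real.add_one_le_exp (-(Real.log 5 / r))
    rw [← ht] at this
    linarith
  have hsq : r * (1 - t) ^ 2 ≤ 4 / 300 := by
    have h2 : (1 - t) ^ 2 ≤ (Real.log 5 / r) ^ 2 :=
      pow_le_pow_left₀ (by linarith) h1t 2
    have h3 : r * (Real.log 5 / r) ^ 2 = Real.log 5 ^ 2 / r := by field_simp
    have h4 : Real.log 5 ^ 2 / r ≤ 4 / 300 := by
      rw [div_le_div_iff₀ hr0 (by norm_num)]
      nlinarith
    calc r * (1 - t) ^ 2 ≤ r * (Real.log 5 / r) ^ 2 := mul_le_mul_of_nonneg_left h2 hr0.le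
      _ ≤ 4 / 300 := by rw [h3]; exact h4
  have hB : 1 - r * (1 - t) ^ 2 ≤ ((2 - t) * t) ^ r := by
    have h5 := one_add_mul_self_le_rpow_one_add (s := -(1 - t) ^ 2) (p := r)
      (by nlinarith) (by linarith)
    have e1 : 1 + -(1 - t) ^ 2 = (2 - t) * t := by ring
    rw [e1] at h5
    linarith
  rw [Real.mul_rpow (by linarith) ht0.le, htr] at hB
  have h6 : (2 - t) ^ r ≤ (2 - θ) ^ r := Real.rpow_le_rpow (by linarith) (by linarith) hr0.le
  linarith

/-- here `m = l + 1` is the index of the maximal coefficient -/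
theorem regA {y : ι → ℝ} (hy : ∀ i, 0 < y i) {r : ℝ} (hr : 300 ≤ r) {l : ℕ}
    (hl : l + 1 ≤ Fintype.card ι) (hmax : ∀ k, cs univ y k ≤ cs univ y (l + 1))
    (hside : cs univ y (l + 2) ≤ cs univ y l)
    (h5 : 5 * tau (cs univ y) (l + 1) ^ r ≤ tau (cs univ y) l ^ r)
    (h0 : ∑ k ∈ range (Fintype.card ι + 1), (-1 : ℝ) ^ k * cs univ y k ^ r = 0)
    (h1 : ∑ k ∈ range (Fintype.card ι + 1), (-1 : ℝ) ^ k * (k * cs univ y k ^ r) = 0) : False := by
  have hr0 : 0 < r := by linarith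
  set n := Fintype.card ι with hn
  have hcard : (univ : Finset ι).card = n := Finset.card_univ
  set a : ℕ → ℝ := cs univ y with ha
  have hapos : ∀ k, k ≤ n → 0 < a k := fun k hk => cs_pos univ hy (by rw [hcard]; exact hk)
  have hazero : ∀ k, n < k → a k = 0 := fun k hk => cs_of_gt univ y (by rw [hcard]; exact hk)
  have hanonneg : ∀ k, 0 ≤ a k := fun k => cs_nonneg univ hy k
  have htau0 : ∀ k, 0 ≤ tau a k := fun k => tau_nonneg univ hy k
  have hanti : Antitone (tau a) := tau_anti univ hy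
  set b : ℕ → ℝ := fun k => a k ^ r with hb
  set t : ℕ → ℝ := fun k => tau a k ^ r with ht
  have hb0 : ∀ k, 0 ≤ b k := fun k => Real.rpow_nonneg (hanonneg k) r
  have hbz : ∀ k, n < k → b k = 0 := by
    intro k hk
    simp only [hb, hazero k hk]
    exact Real.zero_rpow (ne_of_gt hr0)
  have ht0 : ∀ k, 0 ≤ t k := fun k => Real.rpow_nonneg (htau0 k) r
  have htanti : ∀ i j, i ≤ j → t j ≤ t i := fun i j hij =>
    Real.rpow_le_rpow (htau0 j) (hanti hij) hr0.le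
  have hrec : ∀ k, k ≤ n → b (k + 1) = t k * b k := by
    intro k hk
    have h2 : a (k + 1) = tau a k * a k := by
      simp only [tau]
      rw [div_mul_cancel₀]
      exact (hapos k hk).ne'
    simp only [hb, ht]
    rw [h2, Real.mul_rpow (htau0 k) (hanonneg k)]
  -- basic facts on the ratios around the maximum
  have hbm : 0 < b (l + 1) := Real.rpow_pos_of_pos (hapos _ hl) r
  have hbl : 0 < b l := Real.rpow_pos_of_pos (hapos _ (by omega)) r
  have hbmax : ∀ k, b k ≤ b (l + 1) := fun k => Real.rpow_le_rpow (hanonneg k) (hmax k) hr0.le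
  have hbside : b (l + 2) ≤ b l := Real.rpow_le_rpow (hanonneg _) hside hr0.le
  have hr1 : b (l + 1) = t l * b l := hrec l (by omega)
  have hr2 : b (l + 2) = t (l + 1) * b (l + 1) := hrec (l + 1) hl
  have h5' : 5 * t (l + 1) ≤ t l := h5
  set u : ℝ := b l / b (l + 1) with hu
  have hu0 : 0 < u := div_pos hbl hbm
  have hu1 : u ≤ 1 := by rw [hu, div_le_one hbm]; exact hbmax l
  set x : ℝ := t (l + 1) with hx
  have hx0 : 0 ≤ x := ht0 _
  have hblu : b l = u * b (l + 1) := by rw [hu, div_mul_cancel₀]; exact hbm.ne'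
  have htl : t l * u = 1 := by
    have : t l * u * b (l + 1) = b (l + 1) := by rw [mul_assoc, ← hblu, ← hr1]
    exact mul_right_cancel₀ hbm.ne' (by rw [this, one_mul])
  have hxu : x ≤ u := by
    have : x * b (l + 1) ≤ u * b (l + 1) := by rw [← hr2, ← hblu]; exact hbside
    exact le_of_mul_le_mul_right this hbm
  have h5xu : 5 * x * u ≤ 1 := by
    calc 5 * x * u ≤ t l * u := mul_le_mul_of_nonneg_right h5' hu0.le
      _ = 1 := htl
  have hxx : 5 * x ^ 2 ≤ 1 := by nlinarith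
  have hx34 : x ≤ 3 / 4 := by nlinarith
  -- the combined sum
  have hS : ∑ k ∈ range (n + 1), (-1 : ℝ) ^ k * (((k : ℝ) - l) * b k) = 0 := by
    have e : ∀ k ∈ range (n + 1), (-1 : ℝ) ^ k * (((k : ℝ) - l) * b k) =
        (-1 : ℝ) ^ k * (k * b k) - l * ((-1 : ℝ) ^ k * b k) := by
      intro k _
      ring
    rw [Finset.sum_congr rfl e, Finset.sum_sub_distrib, ← Finset.mul_sum]
    have h0' : ∑ k ∈ range (n + 1), (-1 : ℝ) ^ k * b k = 0 := h0
    have h1' : ∑ k ∈ range (n + 1), (-1 : ℝ) ^ k * (k * b k) = 0 := h1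
    rw [h0', h1']
    ring
  have hS2 : ∑ k ∈ range (l + 3 + n), (-1 : ℝ) ^ k * (((k : ℝ) - l) * b k) = 0 := by
    rw [← hS]
    symm
    apply Finset.sum_subset (Finset.range_subset_range.2 (by omega))
    intro k _ hk
    rw [Finset.mem_range, not_lt] at hk
    rw [hbz k (by omega)]
    ring
  -- upper part
  have hup := regA_alt_dec (fun j => ((j : ℝ) + 3) * b (l + 3 + j))
    (fun k => mul_nonneg (by positivity) (hb0 _)) (by
      intro j
      by_cases hj : l + 3 + j ≤ n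
      · have h2 := hrec (l + 3 + j) hj
        have h3 : t (l + 3 + j) ≤ x := htanti _ _ (by omega)
        have h4 := hb0 (l + 3 + j)
        have e1 : l + 3 + (j + 1) = l + 3 + j + 1 := by ring
        have hj0 : (0 : ℝ) ≤ (j : ℝ) := Nat.cast_nonneg j
        have h6 : ((j : ℝ) + 1 + 3) * t (l + 3 + j) ≤ (j : ℝ) + 3 := by
          have := ht0 (l + 3 + j)
          nlinarith
        rw [e1, h2]
        push_cast
        calc ((j : ℝ) + 1 + 3) * (t (l + 3 + j) * b (l + 3 + j))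
            = (((j : ℝ) + 1 + 3) * t (l + 3 + j)) * b (l + 3 + j) := by ring
          _ ≤ ((j : ℝ) + 3) * b (l + 3 + j) := mul_le_mul_of_nonneg_right h6 h4
      · have h2 : b (l + 3 + (j + 1)) = 0 := hbz _ (by omega)
        rw [h2, mul_zero]
        exact mul_nonneg (by positivity) (hb0 _)) n
  have hsplit : ∑ k ∈ range (l + 3 + n), (-1 : ℝ) ^ k * (((k : ℝ) - l) * b k) =
      ∑ k ∈ range (l + 3), (-1 : ℝ) ^ k * (((k : ℝ) - l) * b k) +
        (-1 : ℝ) ^ (l + 3) * ∑ j ∈ range n, (-1 : ℝ) ^ j * (((j : ℝ) + 3) * b (l + 3 + j)) := by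
    rw [Finset.sum_range_add, Finset.mul_sum]
    congr 1
    apply Finset.sum_congr rfl
    intro j _
    rw [pow_add]
    push_cast
    ring
  rw [hsplit, Finset.sum_range_succ, Finset.sum_range_succ, Finset.sum_range_succ] at hS2
  -- lower part
  have hlow : -(u ^ 2 / (49 / 10)) * b (l + 1) ≤
      (-1 : ℝ) ^ (l + 1) * ∑ k ∈ range l, (-1 : ℝ) ^ k * (((k : ℝ) - l) * b k) := by
    rcases Nat.eq_zero_or_pos l with hl0 | hlpos
    · subst hl0
      simp only [Finset.range_zero, Finset.sum_empty, mul_zero]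
      have : 0 ≤ u ^ 2 / (49 / 10) * b (0 + 1) := by positivity
      linarith
    · obtain ⟨p, rfl⟩ : ∃ p, l = p + 1 := ⟨l - 1, by omega⟩
      -- the ratio below
      have hconv := tau_conv univ hy p
      have htlpos : 0 < tau a (p + 1) := tau_pos univ hy (by rw [hcard]; omega)
      set θ : ℝ := tau a (p + 2) / tau a (p + 1) with hθ
      have hθ0 : 0 ≤ θ := div_nonneg (htau0 _) (htau0 _)
      have htlr : 0 < t (p + 1) := Real.rpow_pos_of_pos htlpos r
      have hθr : 5 * θ ^ r ≤ 1 := by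
        rw [hθ, Real.div_rpow (htau0 _) (htau0 _), ← mul_div_assoc, div_le_one htlr]
        exact h5'
      have hθ2 := two_sub_rpow hθ0 hr hθr
      have hθ1 : θ ≤ 1 := by
        rw [hθ, div_le_one htlpos]
        exact hanti (by omega)
      have h6 : tau a (p + 1) * (2 - θ) ≤ tau a p := by
        have : tau a (p + 1) * (2 - θ) = 2 * tau a (p + 1) - tau a (p + 2) := by
          rw [hθ]
          field_simp
        rw [this]
        have : 2 * tau a (p + 1) ≤ tau a p + tau a (p + 2) := hconv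
        linarith
      have h7 : 49 / 10 * t (p + 1) ≤ t p := by
        have h8 : (tau a (p + 1) * (2 - θ)) ^ r ≤ t p :=
          Real.rpow_le_rpow (mul_nonneg htlpos.le (by linarith)) h6 hr0.le
        rw [Real.mul_rpow htlpos.le (by linarith)] at h8
        calc 49 / 10 * t (p + 1) ≤ (2 - θ) ^ r * t (p + 1) :=
              mul_le_mul_of_nonneg_right hθ2 htlr.le
          _ = t (p + 1) * (2 - θ) ^ r := by ring
          _ ≤ t p := h8
      have ht1 : 1 ≤ t (p + 1) := by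
        by_contra hcon
        push Not at hcon
        have : t (p + 1) * u < 1 := by nlinarith
        linarith
      have htp : 49 / 10 ≤ t p := by linarith
      have hinc := regA_alt_inc (fun k => ((p : ℝ) + 1 - k) * b k) p
        (by simp only [Nat.cast_zero, sub_zero]; exact mul_nonneg (by positivity) (hb0 0)) (by
          intro j hj
          have h8 := hrec j (by omega)
          have h9 : t p ≤ t j := htanti _ _ (by omega)
          rw [h8]
          have hj1 : (j : ℝ) + 1 ≤ p := by exact_mod_cast hj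
          push_cast
          have h10 : (p : ℝ) + 1 - j ≤ ((p : ℝ) + 1 - (j + 1)) * t j := by nlinarith
          calc ((p : ℝ) + 1 - j) * b j ≤ (((p : ℝ) + 1 - (j + 1)) * t j) * b j :=
                mul_le_mul_of_nonneg_right h10 (hb0 j)
            _ = ((p : ℝ) + 1 - (j + 1)) * (t j * b j) := by ring)
      have h11 : b (p + 1) = t p * b p := hrec p (by omega)
      have h12 : b p ≤ u ^ 2 / (49 / 10) * b (p + 1 + 1) := by
        have e1 : b (p + 1) = u * b (p + 1 + 1) := hblu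
        -- `t p * b p = u * b m`, `t p ≥ 4.9 t (p+1)`, `t (p+1) * u = 1`
        have h13 : 49 / 10 * t (p + 1) * b p ≤ u * b (p + 1 + 1) := by
          rw [← e1, h11]
          exact mul_le_mul_of_nonneg_right h7 (hb0 p)
        have h14 : u * (49 / 10 * t (p + 1) * b p) ≤ u * (u * b (p + 1 + 1)) :=
          mul_le_mul_of_nonneg_left h13 hu0.le
        have e2 : u * (49 / 10 * t (p + 1) * b p) = 49 / 10 * b p := by
          calc u * (49 / 10 * t (p + 1) * b p) = 49 / 10 * (t (p + 1) * u) * b p := by ring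
            _ = 49 / 10 * b p := by rw [htl]; ring
        rw [e2] at h14
        calc b p = (49 / 10 * b p) / (49 / 10) := by ring
          _ ≤ (u * (u * b (p + 1 + 1))) / (49 / 10) := by gcongr
          _ = u ^ 2 / (49 / 10) * b (p + 1 + 1) := by ring
      have e3 : (-1 : ℝ) ^ (p + 1 + 1) * ∑ k ∈ range (p + 1), (-1 : ℝ) ^ k *
          (((k : ℝ) - ((p + 1 : ℕ) : ℝ)) * b k) =
          -((-1 : ℝ) ^ p * ∑ k ∈ range (p + 1), (-1 : ℝ) ^ k * (((p : ℝ) + 1 - k) * b k)) := by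
        rw [pow_add, pow_add, Finset.mul_sum, Finset.mul_sum, ← Finset.sum_neg_distrib]
        apply Finset.sum_congr rfl
        intro k _
        push_cast
        ring
      rw [e3]
      have h15 := hinc.2
      have e4 : (p : ℝ) + 1 - p = 1 := by ring
      rw [e4, one_mul] at h15
      linarith
  -- assemble
  have hkey : b (l + 1) - 2 * b (l + 2) - u ^ 2 / (49 / 10) * b (l + 1) ≤ 0 := by
    have h2 : (-1 : ℝ) ^ (l + 1) * (∑ k ∈ range l, (-1 : ℝ) ^ k * (((k : ℝ) - l) * b k) +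
        (-1 : ℝ) ^ l * (((l : ℝ) - l) * b l) +
        (-1 : ℝ) ^ (l + 1) * ((((l + 1 : ℕ) : ℝ) - l) * b (l + 1)) +
        (-1 : ℝ) ^ (l + 2) * ((((l + 2 : ℕ) : ℝ) - l) * b (l + 2)) +
        (-1 : ℝ) ^ (l + 3) * ∑ j ∈ range n, (-1 : ℝ) ^ j * (((j : ℝ) + 3) * b (l + 3 + j))) = 0 := by
      rw [hS2, mul_zero]
    have e1 : (-1 : ℝ) ^ (l + 1) * (-1 : ℝ) ^ (l + 1) = 1 := by
      rw [← mul_pow]; norm_num
    have e2 : (-1 : ℝ) ^ (l + 1) * (-1 : ℝ) ^ (l + 2) = -1 := by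
      rw [pow_succ (-1 : ℝ) (l + 1), ← mul_assoc, e1]; ring
    have e3 : (-1 : ℝ) ^ (l + 1) * (-1 : ℝ) ^ (l + 3) = 1 := by
      rw [pow_succ (-1 : ℝ) (l + 2), ← mul_assoc, e2]; ring
    have h3 := hup.1
    have e4 : (((l + 1 : ℕ) : ℝ) - l) = 1 := by push_cast; ring
    have e5 : (((l + 2 : ℕ) : ℝ) - l) = 2 := by push_cast; ring
    rw [e4, e5, mul_add, mul_add, mul_add, mul_add, ← mul_assoc ((-1 : ℝ) ^ (l + 1)) ((-1 : ℝ) ^ (l + 1)),
      ← mul_assoc ((-1 : ℝ) ^ (l + 1)) ((-1 : ℝ) ^ (l + 2)),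
      ← mul_assoc ((-1 : ℝ) ^ (l + 1)) ((-1 : ℝ) ^ (l + 3)), e1, e2, e3] at h2
    have e6 : (-1 : ℝ) ^ (l + 1) * ((-1 : ℝ) ^ l * (((l : ℝ) - l) * b l)) = 0 := by ring
    rw [e6] at h2
    linarith
  have hr2' : b (l + 2) = x * b (l + 1) := hr2
  rw [hr2'] at hkey
  have hfac : (1 - 2 * x - u ^ 2 / (49 / 10)) * b (l + 1) ≤ 0 := by
    calc (1 - 2 * x - u ^ 2 / (49 / 10)) * b (l + 1)
        = b (l + 1) - 2 * (x * b (l + 1)) - u ^ 2 / (49 / 10) * b (l + 1) := by ring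
      _ ≤ 0 := hkey
  have hneg : 1 - 2 * x - u ^ 2 / (49 / 10) ≤ 0 := by
    by_contra hcon
    push Not at hcon
    have := mul_pos hcon hbm
    linarith
  -- numerical contradiction
  rcases le_total u (9 / 20) with hc | hc
  · have h16 : x ≤ 4473 / 10000 := by nlinarith
    nlinarith
  · -- `x ≤ 1/(5u)`
    have h17 : u * (1 - 2 * x - u ^ 2 / (49 / 10)) ≤ 0 := mul_nonpos_of_nonneg_of_nonpos hu0.le hneg
    have h18 : u - 2 / 5 - u ^ 3 / (49 / 10) ≤ 0 := by nlinarith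
    nlinarith [mul_nonneg (sub_nonneg.2 hc) (sub_nonneg.2 hu1), mul_nonneg (mul_nonneg (sub_nonneg.2 hc) (sub_nonneg.2 hu1)) hu0.le]

end Pool.Agent.RL51
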