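import Pool.Agent.RL51.Basic

/-!
# RL51.SB: bounds for one factor (task RL51-SB)

Write `w = x + i v`, `E = e^x`, `D = bR q x = 1 - q + q E > 0`, `S = S1 q x = q (1-q) E / D^2`.
`S ≤ 1/4` because `(1-q) * (q E) ≤ ((1 - q + q E)/2)^2`.  We have
`‖bb q w‖^2 = (1-q)^2 + q^2 E^2 + 2 q (1-q) E cos v = D^2 - 2 q (1-q) E (1 - cos v)`
`= D^2 (1 - 4 S sin^2 (v/2))`, so `D^2 cos^2 (v/2) ≤ ‖bb q w‖^2 ≤ D^2`.
-/

open Finset Polynomial

namespace Pool.Agent.RL51

lemma sb_bb_re (q : ℝ) (w : ℂ) :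
    (bb q w).re = 1 - q + q * (Real.exp w.re * Real.cos w.im) := by
  simp [bb, Complex.exp_re]

lemma sb_bb_im (q : ℝ) (w : ℂ) :
    (bb q w).im = q * (Real.exp w.re * Real.sin w.im) := by
  simp [bb, Complex.exp_im]

lemma normSq_bb (q : ℝ) (w : ℂ) :
    Complex.normSq (bb q w) =
      bR q w.re ^ 2 - 2 * (q * (1 - q) * Real.exp w.re) * (1 - Real.cos w.im) := by
  rw [Complex.normSq_apply, sb_bb_re, sb_bb_im, bR]
  have h := Real.sin_sq_add_cos_sq w.im
  have h2 : Real.sin w.im ^ 2 = 1 - Real.cos w.im ^ 2 := by linarith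
  have h3 : (1 - q + q * (Real.exp w.re * Real.cos w.im)) *
      (1 - q + q * (Real.exp w.re * Real.cos w.im)) +
      q * (Real.exp w.re * Real.sin w.im) * (q * (Real.exp w.re * Real.sin w.im)) =
      (1 - q + q * (Real.exp w.re * Real.cos w.im)) ^ 2 +
      q ^ 2 * Real.exp w.re ^ 2 * Real.sin w.im ^ 2 := by ring
  rw [h3, h2]
  ring

lemma S1_pos {q : ℝ} (h0 : 0 < q) (h1 : q < 1) (x : ℝ) : 0 < S1 q x := by
  have h := bR_pos h0 h1 x
  have h' : 0 < 1 - q := by linarith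
  unfold S1
  positivity

/-- `4 (1 - q) q E ≤ D^2` -/
lemma sb_four (q x : ℝ) : 4 * (q * (1 - q) * Real.exp x) ≤ bR q x ^ 2 := by
  unfold bR
  nlinarith [sq_nonneg (1 - q - q * Real.exp x)]

lemma S1_le_quarter {q : ℝ} (h0 : 0 < q) (h1 : q < 1) (x : ℝ) : S1 q x ≤ 1 / 4 := by
  have h := bR_pos h0 h1 x
  unfold S1
  rw [div_le_div_iff₀ (by positivity) (by norm_num)]
  have := sb_four q x
  linarith

/-- For `x ≥ 0` use `1 ≤ D ≤ e^x`, for `x ≤ 0` use `e^x ≤ D ≤ 1`. -/
lemma S1_le {q : ℝ} (h0 : 0 < q) (h1 : q < 1) (x : ℝ) :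
    S1 q x ≤ Real.exp |x| * (q * (1 - q)) := by
  have hD := bR_pos h0 h1 x
  have h' : 0 < 1 - q := by linarith
  have hE := Real.exp_pos x
  have hqq : 0 < q * (1 - q) := mul_pos h0 h'
  have key : Real.exp x ≤ Real.exp |x| * bR q x ^ 2 := by
    rcases le_total 0 x with hx | hx
    · rw [abs_of_nonneg hx]
      have h1E : 1 ≤ Real.exp x := Real.one_le_exp hx
      have hD1 : 1 ≤ bR q x := by
        unfold bR
        nlinarith
      have : 1 ≤ bR q x ^ 2 := one_le_pow₀ hD1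
      nlinarith
    · rw [abs_of_nonpos hx]
      have hE1 : Real.exp x ≤ 1 := Real.exp_le_one_iff.2 hx
      have hDE : Real.exp x ≤ bR q x := by
        unfold bR
        nlinarith
      have hmul : Real.exp (-x) * Real.exp x = 1 := by
        rw [← Real.exp_add]
        simp
      have hsq : Real.exp x ^ 2 ≤ bR q x ^ 2 := pow_le_pow_left₀ hE.le hDE 2
      calc Real.exp x = Real.exp (-x) * Real.exp x * Real.exp x := by rw [hmul, one_mul]
        _ = Real.exp (-x) * Real.exp x ^ 2 := by ring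
        _ ≤ Real.exp (-x) * bR q x ^ 2 :=
          mul_le_mul_of_nonneg_left hsq (Real.exp_pos _).le
  unfold S1
  rw [div_le_iff₀ (by positivity)]
  calc q * (1 - q) * Real.exp x ≤ q * (1 - q) * (Real.exp |x| * bR q x ^ 2) :=
        mul_le_mul_of_nonneg_left key hqq.le
    _ = Real.exp |x| * (q * (1 - q)) * bR q x ^ 2 := by ring

lemma S1_ge {q : ℝ} (h0 : 0 < q) (h1 : q < 1) (x : ℝ) :
    Real.exp (-|x|) * (q * (1 - q)) ≤ S1 q x := by
  have hD := bR_pos h0 h1 x
  have h' : 0 < 1 - q := by linarith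
  have hE := Real.exp_pos x
  have hqq : 0 < q * (1 - q) := mul_pos h0 h'
  have key : Real.exp (-|x|) * bR q x ^ 2 ≤ Real.exp x := by
    rcases le_total 0 x with hx | hx
    · rw [abs_of_nonneg hx]
      have h1E : 1 ≤ Real.exp x := Real.one_le_exp hx
      have hDE : bR q x ≤ Real.exp x := by
        unfold bR
        nlinarith
      have hmul : Real.exp (-x) * Real.exp x = 1 := by
        rw [← Real.exp_add]
        simp
      have hsq : bR q x ^ 2 ≤ Real.exp x ^ 2 := pow_le_pow_left₀ hD.le hDE 2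
      calc Real.exp (-x) * bR q x ^ 2 ≤ Real.exp (-x) * Real.exp x ^ 2 :=
            mul_le_mul_of_nonneg_left hsq (Real.exp_pos _).le
        _ = Real.exp (-x) * Real.exp x * Real.exp x := by ring
        _ = Real.exp x := by rw [hmul, one_mul]
    · rw [abs_of_nonpos hx, neg_neg]
      have hE1 : Real.exp x ≤ 1 := Real.exp_le_one_iff.2 hx
      have hD1 : bR q x ≤ 1 := by
        unfold bR
        nlinarith
      have : bR q x ^ 2 ≤ 1 := pow_le_one₀ hD.le hD1
      nlinarith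
  unfold S1
  rw [le_div_iff₀ (by positivity)]
  calc Real.exp (-|x|) * (q * (1 - q)) * bR q x ^ 2
        = q * (1 - q) * (Real.exp (-|x|) * bR q x ^ 2) := by ring
    _ ≤ q * (1 - q) * Real.exp x := mul_le_mul_of_nonneg_left key hqq.le

lemma sb_cos_half_pos {v : ℝ} (hv : |v| < Real.pi) : 0 < Real.cos (v / 2) := by
  rw [abs_lt] at hv
  apply Real.cos_pos_of_mem_Ioo
  constructor
  · linarith [hv.1]
  · linarith [hv.2]

lemma sb_one_sub_cos (v : ℝ) : 1 - Real.cos v = 2 * (1 - Real.cos (v / 2) ^ 2) := by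
  have h := Real.cos_sq (v / 2)
  rw [show 2 * (v / 2) = v by ring] at h
  rw [h]
  ring

lemma bb_lower {q : ℝ} (h0 : 0 < q) (h1 : q < 1) {w : ℂ} (hw : |w.im| < Real.pi) :
    bR q w.re * Real.cos (w.im / 2) ≤ ‖bb q w‖ := by
  have hD := bR_pos h0 h1 w.re
  have hc := sb_cos_half_pos hw
  have hc1 : Real.cos (w.im / 2) ^ 2 ≤ 1 := Real.cos_sq_le_one _
  have h4 := sb_four q w.re
  have hns := normSq_bb q w
  rw [sb_one_sub_cos w.im] at hns
  have hsq : (bR q w.re * Real.cos (w.im / 2)) ^ 2 ≤ ‖bb q w‖ ^ 2 := by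
    rw [← Complex.normSq_eq_norm_sq, hns]
    nlinarith
  exact (pow_le_pow_iff_left₀ (by positivity) (norm_nonneg _) two_ne_zero).1 hsq

lemma bb_upper {q : ℝ} (h0 : 0 < q) (h1 : q < 1) (w : ℂ) : ‖bb q w‖ ≤ bR q w.re := by
  have hD := bR_pos h0 h1 w.re
  have h' : 0 < 1 - q := by linarith
  have hE := Real.exp_pos w.re
  have hns := normSq_bb q w
  have hcos := Real.cos_le_one w.im
  have hsq : ‖bb q w‖ ^ 2 ≤ bR q w.re ^ 2 := by
    rw [← Complex.normSq_eq_norm_sq, hns]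
    have : 0 ≤ 2 * (q * (1 - q) * Real.exp w.re) * (1 - Real.cos w.im) :=
      mul_nonneg (by positivity) (by linarith)
    linarith
  exact (pow_le_pow_iff_left₀ (norm_nonneg _) hD.le two_ne_zero).1 hsq

lemma sb_norm_s1 {q : ℝ} (h0 : 0 < q) (h1 : q < 1) (w : ℂ) :
    ‖s1 q w‖ = q * (1 - q) * Real.exp w.re / ‖bb q w‖ ^ 2 := by
  have h' : 0 < 1 - q := by linarith
  unfold s1
  rw [norm_div, norm_mul, norm_mul, norm_pow, Complex.norm_exp]
  have h2 : ‖(q : ℂ)‖ = q := by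
    rw [Complex.norm_real, Real.norm_of_nonneg h0.le]
  have h3 : ‖(1 : ℂ) - (q : ℂ)‖ = 1 - q := by
    rw [← Complex.ofReal_one, ← Complex.ofReal_sub, Complex.norm_real, Real.norm_of_nonneg h'.le]
  rw [h2, h3]

/-- `‖s1‖ = q (1-q) E / ‖bb‖^2`. -/
lemma norm_s1_le {q : ℝ} (h0 : 0 < q) (h1 : q < 1) {w : ℂ} (hw : |w.im| < Real.pi) :
    ‖s1 q w‖ ≤ S1 q w.re / Real.cos (w.im / 2) ^ 2 := by
  have hD := bR_pos h0 h1 w.re
  have h' : 0 < 1 - q := by linarith
  have hc := sb_cos_half_pos hw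
  have hlow := bb_lower h0 h1 hw
  rw [sb_norm_s1 h0 h1, S1, div_div, ← mul_pow]
  apply div_le_div_of_nonneg_left (by positivity) (by positivity)
  exact pow_le_pow_left₀ (by positivity) hlow 2

/-- Put `z = e^{-iv/2} bb q w = D cos (v/2) + i δ sin (v/2)` with `δ = q E - (1 - q)`, `|δ| ≤ D`.
Then `s1 q w = q (1-q) E / z^2`, so
`Re s1 = q (1-q) E * (D^2 cos^2 (v/2) - δ^2 sin^2 (v/2)) / |z|^4
  ≥ q (1-q) E * D^2 cos v / D^4 = S cos v`,
as `|z| ≤ D` and `cos v ≥ 0`. -/
lemma re_s1_ge {q : ℝ} (h0 : 0 < q) (h1 : q < 1) {w : ℂ} (hw : |w.im| ≤ Real.pi / 2) :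
    S1 q w.re * Real.cos w.im ≤ (s1 q w).re := by
  have hD := bR_pos h0 h1 w.re
  have h' : 0 < 1 - q := by linarith
  have hE := Real.exp_pos w.re
  have hpi := Real.pi_pos
  have hw' : |w.im| < Real.pi := by linarith
  have hcos : 0 ≤ Real.cos w.im := by
    rw [abs_le] at hw
    exact Real.cos_nonneg_of_mem_Icc ⟨by linarith [hw.1], hw.2⟩
  have hcos1 := Real.cos_le_one w.im
  have hne := bb_ne h0 h1 hw'
  have hN : 0 < Complex.normSq (bb q w) := Complex.normSq_pos.2 hne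
  have hNle : Complex.normSq (bb q w) ≤ bR q w.re ^ 2 := by
    rw [Complex.normSq_eq_norm_sq]
    exact pow_le_pow_left₀ (norm_nonneg _) (bb_upper h0 h1 w) 2
  -- the real part
  have hre : (s1 q w).re = q * (1 - q) * Real.exp w.re *
      (((1 - q) ^ 2 + (q * Real.exp w.re) ^ 2) * Real.cos w.im +
        2 * ((1 - q) * (q * Real.exp w.re))) / Complex.normSq (bb q w) ^ 2 := by
    have h1' : s1 q w = ((q * (1 - q) * Real.exp w.re : ℝ) : ℂ) *
        ((Complex.exp (w.im * Complex.I)) * (starRingEnd ℂ (bb q w)) ^ 2) /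
          ((Complex.normSq (bb q w) ^ 2 : ℝ) : ℂ) := by
      unfold s1
      have hexp : Complex.exp w = (Real.exp w.re : ℂ) * Complex.exp (w.im * Complex.I) := by
        rw [Complex.ofReal_exp, ← Complex.exp_add, Complex.re_add_im]
      have hn2 : ((Complex.normSq (bb q w) ^ 2 : ℝ) : ℂ) =
          bb q w ^ 2 * (starRingEnd ℂ (bb q w)) ^ 2 := by
        rw [Complex.ofReal_pow, ← Complex.mul_conj, mul_pow]
      have hcne : (starRingEnd ℂ) (bb q w) ≠ 0 := by
        intro h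
        exact hne ((map_eq_zero (starRingEnd ℂ)).1 h)
      rw [hn2, hexp]
      push_cast
      field_simp
    rw [h1', Complex.div_ofReal_re, Complex.re_ofReal_mul]
    congr 2
    have he : Complex.exp (w.im * Complex.I) =
        ⟨Real.cos w.im, Real.sin w.im⟩ := by
      apply Complex.ext
      · rw [Complex.exp_ofReal_mul_I_re]
      · rw [Complex.exp_ofReal_mul_I_im]
    rw [he, pow_two]
    simp only [Complex.mul_re, Complex.mul_im, Complex.conj_re, Complex.conj_im]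
    rw [sb_bb_re, sb_bb_im]
    have hs := Real.sin_sq_add_cos_sq w.im
    have hs2 : Real.sin w.im ^ 2 = 1 - Real.cos w.im ^ 2 := by linarith
    ring_nf
    rw [hs2]
    ring
  rw [hre, S1, div_mul_eq_mul_div]
  have hc0 : 0 < q * (1 - q) * Real.exp w.re := by positivity
  have hab : 0 ≤ (1 - q) * (q * Real.exp w.re) := by positivity
  have hnum : bR q w.re ^ 2 * Real.cos w.im ≤
      ((1 - q) ^ 2 + (q * Real.exp w.re) ^ 2) * Real.cos w.im +
        2 * ((1 - q) * (q * Real.exp w.re)) := by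
    have h3 : bR q w.re ^ 2 * Real.cos w.im =
        ((1 - q) ^ 2 + (q * Real.exp w.re) ^ 2) * Real.cos w.im +
          2 * ((1 - q) * (q * Real.exp w.re)) * Real.cos w.im := by
      unfold bR
      ring
    rw [h3]
    have h4 : 2 * ((1 - q) * (q * Real.exp w.re)) * Real.cos w.im ≤
        2 * ((1 - q) * (q * Real.exp w.re)) * 1 :=
      mul_le_mul_of_nonneg_left hcos1 (by positivity)
    linarith
  have hN2 : Complex.normSq (bb q w) ^ 2 ≤ (bR q w.re ^ 2) ^ 2 := pow_le_pow_left₀ hN.le hNle 2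
  rw [div_le_div_iff₀ (by positivity) (by positivity)]
  calc q * (1 - q) * Real.exp w.re * Real.cos w.im * Complex.normSq (bb q w) ^ 2
        ≤ q * (1 - q) * Real.exp w.re * Real.cos w.im * (bR q w.re ^ 2) ^ 2 :=
        mul_le_mul_of_nonneg_left hN2 (mul_nonneg hc0.le hcos)
    _ = q * (1 - q) * Real.exp w.re * (bR q w.re ^ 2 * Real.cos w.im) * bR q w.re ^ 2 := by ring
    _ ≤ q * (1 - q) * Real.exp w.re * (((1 - q) ^ 2 + (q * Real.exp w.re) ^ 2) * Real.cos w.im +
        2 * ((1 - q) * (q * Real.exp w.re))) * bR q w.re ^ 2 :=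
        mul_le_mul_of_nonneg_right (mul_le_mul_of_nonneg_left hnum hc0.le) (by positivity)

/-- `1 - 2 k1 = (1 - q - q e^w)/bb` and `|1 - q - q e^w|^2 = D^2 - 2 q (1-q) E (1 + cos v) ≤ D^2`,
so `|1 - 2 k1| ≤ 1/cos (v/2)`. -/
lemma norm_d1_le {q : ℝ} (h0 : 0 < q) (h1 : q < 1) {w : ℂ} (hw : |w.im| < Real.pi) :
    ‖d1 q w‖ ≤ S1 q w.re / Real.cos (w.im / 2) ^ 3 := by
  have hD := bR_pos h0 h1 w.re
  have h' : 0 < 1 - q := by linarith
  have hE := Real.exp_pos w.re
  have hc := sb_cos_half_pos hw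
  have hlow := bb_lower h0 h1 hw
  have hne := bb_ne h0 h1 hw
  have hs := norm_s1_le h0 h1 hw
  have heq : 1 - 2 * k1 q w = (1 - (q : ℂ) - (q : ℂ) * Complex.exp w) / bb q w := by
    unfold k1
    rw [eq_div_iff hne, sub_mul, one_mul, mul_assoc, div_mul_cancel₀ _ hne]
    unfold bb
    ring
  have hnum : ‖(1 - (q : ℂ) - (q : ℂ) * Complex.exp w)‖ ≤ bR q w.re := by
    have hsq : ‖(1 - (q : ℂ) - (q : ℂ) * Complex.exp w)‖ ^ 2 ≤ bR q w.re ^ 2 := by
      rw [← Complex.normSq_eq_norm_sq, Complex.normSq_apply]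
      have hre : (1 - (q : ℂ) - (q : ℂ) * Complex.exp w).re =
          1 - q - q * (Real.exp w.re * Real.cos w.im) := by
        simp [Complex.exp_re]
      have him : (1 - (q : ℂ) - (q : ℂ) * Complex.exp w).im =
          - (q * (Real.exp w.re * Real.sin w.im)) := by
        simp [Complex.exp_im]
      rw [hre, him]
      have hs1 := Real.sin_sq_add_cos_sq w.im
      have hs2 : Real.sin w.im ^ 2 = 1 - Real.cos w.im ^ 2 := by linarith
      have h3 : (1 - q - q * (Real.exp w.re * Real.cos w.im)) *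
          (1 - q - q * (Real.exp w.re * Real.cos w.im)) +
          -(q * (Real.exp w.re * Real.sin w.im)) * -(q * (Real.exp w.re * Real.sin w.im)) =
          (1 - q - q * (Real.exp w.re * Real.cos w.im)) ^ 2 +
          q ^ 2 * Real.exp w.re ^ 2 * Real.sin w.im ^ 2 := by ring
      rw [h3, hs2]
      have h4 : (1 - q - q * (Real.exp w.re * Real.cos w.im)) ^ 2 +
          q ^ 2 * Real.exp w.re ^ 2 * (1 - Real.cos w.im ^ 2) =
          bR q w.re ^ 2 - 2 * (q * (1 - q) * Real.exp w.re) * (1 + Real.cos w.im) := by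
        unfold bR
        ring
      rw [h4]
      have h5 := Real.neg_one_le_cos w.im
      have h6 : 0 ≤ 2 * (q * (1 - q) * Real.exp w.re) * (1 + Real.cos w.im) :=
        mul_nonneg (by positivity) (by linarith)
      linarith
    exact (pow_le_pow_iff_left₀ (norm_nonneg _) hD.le two_ne_zero).1 hsq
  have hk : ‖1 - 2 * k1 q w‖ ≤ 1 / Real.cos (w.im / 2) := by
    rw [heq, norm_div, div_le_div_iff₀ (norm_pos_iff.2 hne) hc, one_mul]
    calc ‖(1 - (q : ℂ) - (q : ℂ) * Complex.exp w)‖ * Real.cos (w.im / 2)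
          ≤ bR q w.re * Real.cos (w.im / 2) := mul_le_mul_of_nonneg_right hnum hc.le
      _ ≤ ‖bb q w‖ := hlow
  have hSpos := S1_pos h0 h1 w.re
  unfold d1
  rw [norm_mul]
  calc ‖s1 q w‖ * ‖1 - 2 * k1 q w‖
        ≤ (S1 q w.re / Real.cos (w.im / 2) ^ 2) * (1 / Real.cos (w.im / 2)) :=
        mul_le_mul hs hk (norm_nonneg _) (by positivity)
    _ = S1 q w.re / Real.cos (w.im / 2) ^ 3 := by
        rw [div_mul_div_comm, mul_one]
        congr 1

/-- `Im k1 = q (1-q) E sin v / ‖bb‖^2`. -/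
lemma im_k1 {q : ℝ} (h0 : 0 < q) (h1 : q < 1) {w : ℂ} (hw : |w.im| < Real.pi) :
    (k1 q w).im = q * (1 - q) * Real.exp w.re * Real.sin w.im / Complex.normSq (bb q w) := by
  have hne := bb_ne h0 h1 hw
  have hN : Complex.normSq (bb q w) ≠ 0 := fun h => hne (Complex.normSq_eq_zero.1 h)
  unfold k1
  rw [Complex.div_im, sb_bb_re, sb_bb_im]
  have hre : ((q : ℂ) * Complex.exp w).re = q * (Real.exp w.re * Real.cos w.im) := by
    simp [Complex.exp_re]
  have him : ((q : ℂ) * Complex.exp w).im = q * (Real.exp w.re * Real.sin w.im) := by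
    simp [Complex.exp_im]
  rw [hre, him, ← sub_div]
  congr 1
  ring

end Pool.Agent.RL51
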