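import Pool.Agent.RL51.SB

/-!
# RL51.SumB: bounds for the sums `ss`, `dd` (task RL51-SumB)

Sum the bounds of `SB.lean`.  Numerical facts used: `cos x ≥ 1 - x^2/2`, `e^{1/5} ≤ 1.2215`,
`e^{-1/5} ≥ 0.8187`, `e^{27/500} ≤ 1.0555`.
* `re_ss_ge`: `cos (1/5) e^{-1/5} ≥ 0.98 * 0.8187 ≥ 0.8`.
* `norm_ss_le`: `e^{1/5}/cos^2 (1/10) ≤ 1.2215/0.995^2 ≤ 1.24`.
* `norm_dd_le`: `e^{1/5}/cos^3 (7/20) ≤ 1.2215/0.93875^3 ≤ 1.48`.
* `norm_dd_le_re`: `‖d1‖ ≤ S1/cos^3 (1/20) ≤ 1.01 * S1 * cos (1/10) ≤ 1.01 * Re s1`.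
* `norm_dd_small`: `e^{27/500}/cos^3 (27/1000) ≤ 1.0555/0.9989 ≤ 1.06`.
-/

open Finset Polynomial

namespace Pool.Agent.RL51

variable {ι : Type} [Fintype ι]

private lemma sumB_exp_fifth : Real.exp (1 / 5) ≤ 12215 / 10000 := by
  have h := Real.exp_bound' (x := 1 / 5) (by norm_num) (by norm_num) (n := 5) (by norm_num)
  refine h.trans ?_
  norm_num [Finset.sum_range_succ, Nat.factorial]

private lemma sumB_exp_small : Real.exp (27 / 500) ≤ 10555 / 10000 := by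
  have h := Real.exp_bound' (x := 27 / 500) (by norm_num) (by norm_num) (n := 4) (by norm_num)
  refine h.trans ?_
  norm_num [Finset.sum_range_succ, Nat.factorial]

private lemma sumB_exp_neg : 8186 / 10000 ≤ Real.exp (-(1 / 5)) := by
  rw [Real.exp_neg, le_inv_comm₀ (by norm_num) (Real.exp_pos _)]
  exact sumB_exp_fifth.trans (by norm_num)

private lemma sumB_cos {x y : ℝ} (h : |x| ≤ y) : 1 - y ^ 2 / 2 ≤ Real.cos x := by
  have h1 := Real.one_sub_sq_div_two_le_cos (x := x)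
  have h2 : x ^ 2 ≤ y ^ 2 := sq_le_sq' (by linarith [(abs_le.1 h).1]) (abs_le.1 h).2
  linarith

private lemma sumB_pi {x y : ℝ} (h : |x| ≤ y) (hy : y ≤ 3) : |x| < Real.pi :=
  lt_of_le_of_lt (h.trans hy) Real.pi_gt_three

private lemma sumB_half {x y : ℝ} (h : |x| ≤ y) : |x / 2| ≤ y / 2 := by
  rw [abs_div, abs_two]
  linarith

private lemma sumB_q {p : ι → ℝ} (hp : Adm p) (i : ι) : 0 ≤ p i * (1 - p i) :=
  mul_nonneg (hp i).1.le (by linarith [(hp i).2])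

/-- common bound: exponential factor and cosine power -/
private lemma sumB_div {S E q e c n : ℝ} (hS : S ≤ E * q) (hq : 0 ≤ q) (hE : E ≤ e) (hc : 0 < c)
    (hn : e ≤ n * c) (hS0 : 0 ≤ S) {c' : ℝ} (hcc : c ≤ c') : S / c' ≤ n * q := by
  have hc' : 0 < c' := lt_of_lt_of_le hc hcc
  have h1 : S / c' ≤ S / c := div_le_div_of_nonneg_left hS0 hc hcc
  refine h1.trans ?_
  rw [div_le_iff₀ hc]
  calc S ≤ E * q := hS
    _ ≤ e * q := mul_le_mul_of_nonneg_right hE hq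
    _ ≤ n * c * q := mul_le_mul_of_nonneg_right hn hq
    _ = n * q * c := by ring

lemma re_ss_ge {p : ι → ℝ} (hp : Adm p) {w : ℂ} (h1 : |w.re| ≤ 1 / 5) (h2 : |w.im| ≤ 1 / 5) :
    4 / 5 * VV p ≤ (ss p w).re := by
  unfold ss VV
  rw [Complex.re_sum, Finset.mul_sum]
  refine Finset.sum_le_sum fun i _ => ?_
  have hpi : |w.im| ≤ Real.pi / 2 := by
    have := Real.pi_gt_three
    linarith
  have k1 := re_s1_ge (hp i).1 (hp i).2 hpi
  have k2 := S1_ge (hp i).1 (hp i).2 w.re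
  have k3 := sumB_cos h2
  have k4 : Real.exp (-(1 / 5)) ≤ Real.exp (-|w.re|) := Real.exp_le_exp.2 (by linarith)
  have k5 := sumB_exp_neg
  have hq := sumB_q hp i
  have k6 : 8186 / 10000 * (p i * (1 - p i)) ≤ S1 (p i) w.re :=
    le_trans (mul_le_mul_of_nonneg_right (k5.trans k4) hq) k2
  have k7 : 98 / 100 ≤ Real.cos w.im := le_trans (by norm_num) k3
  have k8 : (8186 / 10000 * (p i * (1 - p i))) * (98 / 100) ≤ S1 (p i) w.re * Real.cos w.im :=
    mul_le_mul k6 k7 (by norm_num) (S1_pos (hp i).1 (hp i).2 _).le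
  linarith

lemma norm_ss_le {p : ι → ℝ} (hp : Adm p) {w : ℂ} (h1 : |w.re| ≤ 1 / 5) (h2 : |w.im| ≤ 1 / 5) :
    ‖ss p w‖ ≤ 31 / 25 * VV p := by
  unfold ss VV
  rw [Finset.mul_sum]
  refine (norm_sum_le _ _).trans (Finset.sum_le_sum fun i _ => ?_)
  refine (norm_s1_le (hp i).1 (hp i).2 (sumB_pi h2 (by norm_num))).trans ?_
  have k3 := sumB_cos (sumB_half h2)
  have k4 : 995 / 1000 ≤ Real.cos (w.im / 2) := le_trans (by norm_num) k3
  exact sumB_div (S1_le (hp i).1 (hp i).2 w.re) (sumB_q hp i)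
    (Real.exp_le_exp.2 h1) (c := (995 / 1000) ^ 2) (by norm_num)
    (sumB_exp_fifth.trans (by norm_num)) (S1_pos (hp i).1 (hp i).2 _).le
    (pow_le_pow_left₀ (by norm_num) k4 2)

lemma norm_dd_le {p : ι → ℝ} (hp : Adm p) {w : ℂ} (h1 : |w.re| ≤ 1 / 5) (h2 : |w.im| ≤ 7 / 10) :
    ‖dd p w‖ ≤ 37 / 25 * VV p := by
  unfold dd VV
  rw [Finset.mul_sum]
  refine (norm_sum_le _ _).trans (Finset.sum_le_sum fun i _ => ?_)
  refine (norm_d1_le (hp i).1 (hp i).2 (sumB_pi h2 (by norm_num))).trans ?_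
  have k3 := sumB_cos (sumB_half h2)
  have k4 : 93875 / 100000 ≤ Real.cos (w.im / 2) := le_trans (by norm_num) k3
  exact sumB_div (S1_le (hp i).1 (hp i).2 w.re) (sumB_q hp i)
    (Real.exp_le_exp.2 h1) (c := (93875 / 100000) ^ 3) (by norm_num)
    (sumB_exp_fifth.trans (by norm_num)) (S1_pos (hp i).1 (hp i).2 _).le
    (pow_le_pow_left₀ (by norm_num) k4 3)

lemma norm_dd_le_re {p : ι → ℝ} (hp : Adm p) {w : ℂ} (h2 : |w.im| ≤ 1 / 10) :
    ‖dd p w‖ ≤ 101 / 100 * (ss p w).re := by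
  unfold dd ss
  rw [Complex.re_sum, Finset.mul_sum]
  refine (norm_sum_le _ _).trans (Finset.sum_le_sum fun i _ => ?_)
  refine (norm_d1_le (hp i).1 (hp i).2 (sumB_pi h2 (by norm_num))).trans ?_
  have hpi : |w.im| ≤ Real.pi / 2 := by
    have := Real.pi_gt_three
    linarith
  have k1 := re_s1_ge (hp i).1 (hp i).2 hpi
  have k3 := sumB_cos (sumB_half h2)
  have k4 : 99875 / 100000 ≤ Real.cos (w.im / 2) := le_trans (by norm_num) k3
  have k5 := sumB_cos h2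
  have k6 : 995 / 1000 ≤ Real.cos w.im := le_trans (by norm_num) k5
  have hS := (S1_pos (hp i).1 (hp i).2 w.re).le
  have k7 : S1 (p i) w.re * (995 / 1000) ≤ S1 (p i) w.re * Real.cos w.im :=
    mul_le_mul_of_nonneg_left k6 hS
  have k8 : (99875 / 100000 : ℝ) ^ 3 ≤ Real.cos (w.im / 2) ^ 3 :=
    pow_le_pow_left₀ (by norm_num) k4 3
  have k9 : S1 (p i) w.re / Real.cos (w.im / 2) ^ 3 ≤ S1 (p i) w.re / (99875 / 100000) ^ 3 :=
    div_le_div_of_nonneg_left hS (by norm_num) k8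
  refine k9.trans ?_
  rw [div_le_iff₀ (by norm_num)]
  nlinarith

lemma norm_dd_small {p : ι → ℝ} (hp : Adm p) {w : ℂ} (h : ‖w‖ ≤ 27 / 500) :
    ‖dd p w‖ ≤ 53 / 50 * VV p := by
  have h1 : |w.re| ≤ 27 / 500 := (Complex.abs_re_le_norm w).trans h
  have h2 : |w.im| ≤ 27 / 500 := (Complex.abs_im_le_norm w).trans h
  unfold dd VV
  rw [Finset.mul_sum]
  refine (norm_sum_le _ _).trans (Finset.sum_le_sum fun i _ => ?_)
  refine (norm_d1_le (hp i).1 (hp i).2 (sumB_pi h2 (by norm_num))).trans ?_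
  have k3 := sumB_cos (sumB_half h2)
  have k4 : 9996 / 10000 ≤ Real.cos (w.im / 2) := le_trans (by norm_num) k3
  exact sumB_div (S1_le (hp i).1 (hp i).2 w.re) (sumB_q hp i)
    (Real.exp_le_exp.2 h1) (c := (9996 / 10000) ^ 3) (by norm_num)
    (sumB_exp_small.trans (by norm_num)) (S1_pos (hp i).1 (hp i).2 _).le
    (pow_le_pow_left₀ (by norm_num) k4 3)

lemma ss_zero (p : ι → ℝ) : ss p 0 = (VV p : ℂ) := by
  unfold ss VV s1 bb
  push_cast
  refine Finset.sum_congr rfl fun i _ => ?_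
  simp

/-- mean value inequality on the ball of radius `27/500` (`ss_zero`, `hasDerivAt_ss`,
`norm_dd_small`): apply it on the convex set `closedBall 0 ‖w‖`. -/
lemma ss_near {p : ι → ℝ} (hp : Adm p) {w : ℂ} (h : ‖w‖ ≤ 27 / 500) :
    ‖ss p w - (VV p : ℂ)‖ ≤ 53 / 50 * ‖w‖ * VV p := by
  have hmem : ∀ z ∈ Metric.closedBall (0 : ℂ) ‖w‖, ‖z‖ ≤ 27 / 500 := by
    intro z hz
    rw [mem_closedBall_zero_iff] at hz
    exact hz.trans h
  have key := (convex_closedBall (0 : ℂ) ‖w‖).norm_image_sub_le_of_norm_hasDerivWithin_le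
    (f := ss p) (f' := dd p) (C := 53 / 50 * VV p) (x := 0) (y := w)
    (fun z hz => (hasDerivAt_ss hp (sumB_pi ((Complex.abs_im_le_norm z).trans (hmem z hz))
      (by norm_num))).hasDerivWithinAt)
    (fun z hz => norm_dd_small hp (hmem z hz))
    (Metric.mem_closedBall_self (norm_nonneg _)) (by simp)
  rw [ss_zero, sub_zero] at key
  refine key.trans (le_of_eq ?_)
  ring

end Pool.Agent.RL51
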