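import Pool.Agent.RL51.Defs

/-!
# RL51.Tau: elementary symmetric functions and their ratios, basics (task RL51-Tau)

Adding one root: `cs (insert i s) y (k+1) = cs s y (k+1) + y i * cs s y k`.  With `τ k = tau (cs s y) k`
(it is `0` for `k ≥ s.card`) and `y = y i`, the new ratios are
`τ' 0 = τ 0 + y`, `τ' (k+1) = τ k (τ (k+1) + y)/(τ k + y)`.
-/

open Finset Polynomial

namespace Pool.Agent.RL51

variable {ι : Type}

section
variable [DecidableEq ι]

lemma cs_empty_zero (y : ι → ℝ) : cs (∅ : Finset ι) y 0 = 1 := by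
  simp [cs]

lemma cs_zero (s : Finset ι) (y : ι → ℝ) : cs s y 0 = 1 := by
  unfold cs
  rw [Polynomial.coeff_zero_eq_eval_zero, Polynomial.eval_prod]
  simp

lemma cs_insert {s : Finset ι} {i : ι} (hi : i ∉ s) (y : ι → ℝ) (k : ℕ) :
    cs (insert i s) y (k + 1) = cs s y (k + 1) + y i * cs s y k := by
  unfold cs
  rw [prod_insert hi, add_mul, one_mul, Polynomial.coeff_add, mul_assoc,
    Polynomial.coeff_C_mul, Polynomial.coeff_X_mul]

end

lemma cs_of_gt (s : Finset ι) (y : ι → ℝ) {k : ℕ} (hk : s.card < k) : cs s y k = 0 := by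
  unfold cs
  apply Polynomial.coeff_eq_zero_of_natDegree_lt
  refine lt_of_le_of_lt (Polynomial.natDegree_prod_le s _) ?_
  refine lt_of_le_of_lt (sum_le_card_nsmul s _ 1 fun i _ => ?_) (by simpa using hk)
  refine (Polynomial.natDegree_add_le _ _).trans ?_
  simp only [Polynomial.natDegree_one, zero_le, sup_of_le_right]
  exact (Polynomial.natDegree_C_mul_le _ _).trans Polynomial.natDegree_X_le

lemma cs_nonneg (s : Finset ι) {y : ι → ℝ} (hy : ∀ i, 0 < y i) (k : ℕ) : 0 ≤ cs s y k := by
  classical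
  induction s using Finset.induction_on generalizing k with
  | empty =>
    cases k with
    | zero => rw [cs_zero]; exact zero_le_one
    | succ k => rw [cs_of_gt _ _ (by simp)]
  | insert i s hi ih =>
    cases k with
    | zero => rw [cs_zero]; exact zero_le_one
    | succ k =>
      rw [cs_insert hi]
      exact add_nonneg (ih _) (mul_nonneg (hy i).le (ih _))

lemma cs_pos (s : Finset ι) {y : ι → ℝ} (hy : ∀ i, 0 < y i) {k : ℕ} (hk : k ≤ s.card) :
    0 < cs s y k := by
  classical
  induction s using Finset.induction_on generalizing k with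
  | empty =>
    have hk0 : k = 0 := by simpa using hk
    rw [hk0, cs_zero]
    exact zero_lt_one
  | insert i s hi ih =>
    cases k with
    | zero => rw [cs_zero]; exact zero_lt_one
    | succ k =>
      rw [cs_insert hi]
      rw [card_insert_of_notMem hi] at hk
      exact add_pos_of_nonneg_of_pos (cs_nonneg s hy _) (mul_pos (hy i) (ih (by omega)))

lemma tau_nonneg (s : Finset ι) {y : ι → ℝ} (hy : ∀ i, 0 < y i) (k : ℕ) :
    0 ≤ tau (cs s y) k :=
  div_nonneg (cs_nonneg s hy _) (cs_nonneg s hy _)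

lemma tau_pos (s : Finset ι) {y : ι → ℝ} (hy : ∀ i, 0 < y i) {k : ℕ} (hk : k < s.card) :
    0 < tau (cs s y) k :=
  div_pos (cs_pos s hy hk) (cs_pos s hy hk.le)

lemma tau_of_ge (s : Finset ι) (y : ι → ℝ) {k : ℕ} (hk : s.card ≤ k) :
    tau (cs s y) k = 0 := by
  unfold tau
  rw [cs_of_gt s y (by omega : s.card < k + 1), zero_div]

end Pool.Agent.RL51
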