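import Pool.Agent.RL51.HfM
import Pool.Agent.RL51.LamD
import Pool.Agent.RL51.Taylor

/-!
# RL51.WinB: estimates in the box (task RL51-WinB)

`φ = π/r ≤ 0.0105`.  For `w ∈ Box r`: `‖w‖ ≤ √26 φ ≤ 5.1 φ ≤ 0.05341 ≤ 27/500`, `|Im w| ≤ 11/1000`, so
by `ss_near` `‖ss w - V‖ ≤ 1.06 * √26 * π/300 V ≤ 0.057 V` (`√26 π/300 ≤ 0.0534`).
The box is convex, contains `0` and `wi r = iφ`, and is closed under conjugation.

* `kap_box`: mean value inequality for `kap w - V w` (derivative `ss - V`).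
-/

open Finset Polynomial

namespace Pool.Agent.RL51

variable {ι : Type} [Fintype ι]

lemma Big.V156 {p : ι → ℝ} {r : ℝ} (hB : Big p r) : 156 ≤ VV p := by
  have h1 := hB.hr
  have h2 := hB.hV
  linarith

lemma phi_pos {r : ℝ} (hr : 300 ≤ r) : 0 < Real.pi / r := by
  have := Real.pi_pos
  positivity

lemma phi_le {r : ℝ} (hr : 300 ≤ r) : Real.pi / r ≤ 21 / 2000 := by
  have h1 := Real.pi_lt_d2
  have h0 : 0 < r := by linarith
  rw [div_le_iff₀ h0]
  nlinarith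

lemma box_norm {r : ℝ} (hr : 300 ≤ r) {w : ℂ} (hw : w ∈ Box r) :
    ‖w‖ ≤ 51 / 10 * (Real.pi / r) := by
  obtain ⟨h1, h2⟩ := hw
  have h0 := phi_pos hr
  apply abs_le_of_sq_le_sq' _ (by positivity) |>.2
  rw [← Complex.normSq_eq_norm_sq, Complex.normSq_apply]
  have h3 : w.re * w.re ≤ (5 * (Real.pi / r)) ^ 2 := by
    rw [← abs_mul_abs_self, ← pow_two]
    exact pow_le_pow_left₀ (abs_nonneg _) h1 2
  have h4 : w.im * w.im ≤ (Real.pi / r) ^ 2 := by
    rw [← abs_mul_abs_self, ← pow_two]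
    exact pow_le_pow_left₀ (abs_nonneg _) h2 2
  nlinarith [sq_nonneg (Real.pi / r)]

lemma box_small {r : ℝ} (hr : 300 ≤ r) {w : ℂ} (hw : w ∈ Box r) : ‖w‖ ≤ 27 / 500 := by
  have h1 := box_norm hr hw
  have h2 := phi_le hr
  linarith

lemma box_im {r : ℝ} (hr : 300 ≤ r) {w : ℂ} (hw : w ∈ Box r) : |w.im| ≤ 11 / 1000 := by
  have h1 := hw.2
  have h2 := phi_le hr
  linarith

lemma box_convex (r : ℝ) : Convex ℝ (Box r) := by
  intro w hw z hz a b ha hb hab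
  obtain ⟨h1, h2⟩ := hw
  obtain ⟨h3, h4⟩ := hz
  refine ⟨?_, ?_⟩
  · have : (a • w + b • z).re = a * w.re + b * z.re := by simp
    rw [this]
    calc |a * w.re + b * z.re| ≤ |a * w.re| + |b * z.re| := abs_add_le _ _
      _ = a * |w.re| + b * |z.re| := by rw [abs_mul, abs_mul, abs_of_nonneg ha, abs_of_nonneg hb]
      _ ≤ a * (5 * (Real.pi / r)) + b * (5 * (Real.pi / r)) := by gcongr
      _ = 5 * (Real.pi / r) := by rw [← add_mul, hab, one_mul]
  · have : (a • w + b • z).im = a * w.im + b * z.im := by simp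
    rw [this]
    calc |a * w.im + b * z.im| ≤ |a * w.im| + |b * z.im| := abs_add_le _ _
      _ = a * |w.im| + b * |z.im| := by rw [abs_mul, abs_mul, abs_of_nonneg ha, abs_of_nonneg hb]
      _ ≤ a * (Real.pi / r) + b * (Real.pi / r) := by gcongr
      _ = Real.pi / r := by rw [← add_mul, hab, one_mul]

lemma zero_mem_box {r : ℝ} (hr : 300 ≤ r) : (0 : ℂ) ∈ Box r := by
  have h0 := phi_pos hr
  refine ⟨?_, ?_⟩
  · simp only [Complex.zero_re, abs_zero]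
    positivity
  · simp only [Complex.zero_im, abs_zero]
    exact h0.le

lemma wi_re (r : ℝ) : (wi r).re = 0 := by
  simp only [wi, Complex.re_ofReal_mul, Complex.I_re, mul_zero]

lemma wi_im (r : ℝ) : (wi r).im = Real.pi / r := by
  simp only [wi, Complex.im_ofReal_mul, Complex.I_im, mul_one]

lemma wi_mem_box {r : ℝ} (hr : 300 ≤ r) : wi r ∈ Box r := by
  have h0 := phi_pos hr
  refine ⟨?_, ?_⟩
  · rw [wi_re, abs_zero]
    positivity
  · rw [wi_im, abs_of_pos h0]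

lemma conj_mem_box {r : ℝ} {w : ℂ} (hw : w ∈ Box r) : (starRingEnd ℂ) w ∈ Box r := by
  obtain ⟨h1, h2⟩ := hw
  refine ⟨?_, ?_⟩
  · rw [Complex.conj_re]
    exact h1
  · rw [Complex.conj_im, abs_neg]
    exact h2

/-- points of the line `Im w = π/r` -/
lemma line_mem_box {r : ℝ} (hr : 300 ≤ r) {u : ℝ} (hu : |u| ≤ 5 * (Real.pi / r)) :
    (u : ℂ) + wi r ∈ Box r := by
  have h0 := phi_pos hr
  refine ⟨?_, ?_⟩
  · rw [Complex.add_re, wi_re, add_zero, Complex.ofReal_re]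
    exact hu
  · rw [Complex.add_im, wi_im, Complex.ofReal_im, zero_add, abs_of_pos h0]

/-- real points -/
lemma ofReal_mem_box {r : ℝ} (hr : 300 ≤ r) {u : ℝ} (hu : |u| ≤ 5 * (Real.pi / r)) :
    (u : ℂ) ∈ Box r := by
  have h0 := phi_pos hr
  refine ⟨?_, ?_⟩
  · rw [Complex.ofReal_re]
    exact hu
  · rw [Complex.ofReal_im, abs_zero]
    exact h0.le

lemma box_im_pi {r : ℝ} (hr : 300 ≤ r) {w : ℂ} (hw : w ∈ Box r) : |w.im| < Real.pi := by
  have h1 := box_im hr hw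
  have h2 := Real.pi_gt_three
  linarith

lemma ss_box {p : ι → ℝ} {r : ℝ} (hB : Big p r) {w : ℂ} (hw : w ∈ Box r) :
    ‖ss p w - (VV p : ℂ)‖ ≤ 57 / 1000 * VV p := by
  have hV := hB.V156
  have h1 := ss_near hB.adm (box_small hB.hr hw)
  have h2 := box_norm hB.hr hw
  have h3 := phi_le hB.hr
  have h4 : ‖w‖ ≤ 51 / 10 * (21 / 2000) := h2.trans (by linarith)
  calc ‖ss p w - (VV p : ℂ)‖ ≤ 53 / 50 * ‖w‖ * VV p := h1
    _ ≤ 53 / 50 * (51 / 10 * (21 / 2000)) * VV p := by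
        have : 0 ≤ VV p := by linarith
        gcongr
    _ ≤ 57 / 1000 * VV p := by nlinarith

lemma kap_box {p : ι → ℝ} {r : ℝ} (hB : Big p r) {w w' : ℂ} (hw : w ∈ Box r) (hw' : w' ∈ Box r) :
    ‖kap p w' - kap p w - (VV p : ℂ) * (w' - w)‖ ≤ 57 / 1000 * VV p * ‖w' - w‖ := by
  have hd : ∀ z ∈ Box r, HasDerivWithinAt (fun z : ℂ => kap p z - (VV p : ℂ) * z)
      (ss p z - (VV p : ℂ)) (Box r) z := by
    intro z hz
    have h1 := hasDerivAt_kap hB.adm (box_im_pi hB.hr hz)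
    have h2 : HasDerivAt (fun z : ℂ => (VV p : ℂ) * z) (VV p : ℂ) z := by
      simpa using (hasDerivAt_id z).const_mul (VV p : ℂ)
    exact (h1.sub h2).hasDerivWithinAt
  have h3 := (box_convex r).norm_image_sub_le_of_norm_hasDerivWithin_le hd
    (fun z hz => ss_box hB hz) hw hw'
  have h4 : kap p w' - kap p w - (VV p : ℂ) * (w' - w) =
      (fun z : ℂ => kap p z - (VV p : ℂ) * z) w' - (fun z : ℂ => kap p z - (VV p : ℂ) * z) w := by
    ring
  rw [h4]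
  exact h3

lemma re_mem_box {r : ℝ} (hr : 300 ≤ r) {w : ℂ} (hw : w ∈ Box r) : ((w.re : ℝ) : ℂ) ∈ Box r :=
  ofReal_mem_box hr hw.1

lemma kap_im_box {p : ι → ℝ} {r : ℝ} (hB : Big p r) {w : ℂ} (hw : w ∈ Box r) :
    |(kap p w).im - VV p * w.im| ≤ 57 / 1000 * VV p * |w.im| := by
  have h1 := kap_box hB (re_mem_box hB.hr hw) hw
  have h2 : w - ((w.re : ℝ) : ℂ) = (w.im : ℂ) * Complex.I := by
    apply Complex.ext <;> simp
  have h3 : (kap p w - kap p ((w.re : ℝ) : ℂ) - (VV p : ℂ) * (w - ((w.re : ℝ) : ℂ))).im =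
      (kap p w).im - VV p * w.im := by
    rw [h2]
    simp only [Complex.sub_im, kap_im_ofReal, Complex.im_ofReal_mul, Complex.I_im]
    ring
  have h4 : ‖w - ((w.re : ℝ) : ℂ)‖ = |w.im| := by
    rw [h2, norm_mul, Complex.norm_I, mul_one, Complex.norm_real, Real.norm_eq_abs]
  rw [← h3, ← h4]
  exact (Complex.abs_im_le_norm _).trans h1

lemma kap_re_box {p : ι → ℝ} {r : ℝ} (hB : Big p r) {x y : ℝ} (hx : (x : ℂ) ∈ Box r)
    (hy : (y : ℂ) ∈ Box r) (hxy : x ≤ y) :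
    |(kap p (y : ℂ)).re - (kap p (x : ℂ)).re - VV p * (y - x)| ≤ 57 / 1000 * VV p * (y - x) := by
  have h1 := kap_box hB hx hy
  have h3 : (kap p (y : ℂ) - kap p (x : ℂ) - (VV p : ℂ) * ((y : ℂ) - (x : ℂ))).re =
      (kap p (y : ℂ)).re - (kap p (x : ℂ)).re - VV p * (y - x) := by
    rw [← Complex.ofReal_sub, ← Complex.ofReal_mul]
    simp only [Complex.sub_re, Complex.ofReal_re]
  have h4 : ‖(y : ℂ) - (x : ℂ)‖ = y - x := by
    rw [← Complex.ofReal_sub, Complex.norm_real, Real.norm_of_nonneg (by linarith)]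
  rw [← h3]
  rw [h4] at h1
  exact (Complex.abs_re_le_norm _).trans h1

lemma kap_re_lower {p : ι → ℝ} {r : ℝ} (hB : Big p r) {x y : ℝ} (hx : (x : ℂ) ∈ Box r)
    (hy : (y : ℂ) ∈ Box r) (hxy : x ≤ y) :
    943 / 1000 * VV p * (y - x) ≤ (kap p (y : ℂ)).re - (kap p (x : ℂ)).re := by
  have h1 := (abs_le.mp (kap_re_box hB hx hy hxy)).1
  nlinarith

lemma kap_re_upper {p : ι → ℝ} {r : ℝ} (hB : Big p r) {x y : ℝ} (hx : (x : ℂ) ∈ Box r)
    (hy : (y : ℂ) ∈ Box r) (hxy : x ≤ y) :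
    (kap p (y : ℂ)).re - (kap p (x : ℂ)).re ≤ 1057 / 1000 * VV p * (y - x) := by
  have h1 := (abs_le.mp (kap_re_box hB hx hy hxy)).2
  nlinarith

lemma KK_abs {p : ι → ℝ} {r : ℝ} (hB : Big p r) :
    |KK p r - VV p * (Real.pi / r)| ≤ 57 / 1000 * VV p * (Real.pi / r) := by
  have h1 := kap_im_box hB (wi_mem_box hB.hr)
  rw [wi_im, abs_of_pos (phi_pos hB.hr)] at h1
  exact h1

lemma KK_lower {p : ι → ℝ} {r : ℝ} (hB : Big p r) :
    943 / 1000 * (Real.pi * (VV p / r)) ≤ KK p r := by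
  have h1 := (abs_le.mp (KK_abs hB)).1
  have h2 : Real.pi * (VV p / r) = VV p * (Real.pi / r) := by ring
  rw [h2]
  linarith

lemma KK_upper {p : ι → ℝ} {r : ℝ} (hB : Big p r) :
    KK p r ≤ 1057 / 1000 * (Real.pi * (VV p / r)) := by
  have h1 := (abs_le.mp (KK_abs hB)).2
  have h2 : Real.pi * (VV p / r) = VV p * (Real.pi / r) := by ring
  rw [h2]
  linarith

lemma KK_ge {p : ι → ℝ} {r : ℝ} (hB : Big p r) : 3 / 2 ≤ KK p r := by
  have h1 := KK_lower hB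
  have h0 : 0 < r := by linarith [hB.hr]
  have h2 : 13 / 25 ≤ VV p / r := by
    rw [le_div_iff₀ h0]
    exact hB.hV
  have h3 := Real.pi_gt_d2
  nlinarith

lemma kap_wi (p : ι → ℝ) (r : ℝ) : kap p (wi r) = (cc p r : ℂ) + (KK p r : ℂ) * Complex.I :=
  (Complex.re_add_im _).symm

end Pool.Agent.RL51
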