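import Pool.Agent.RL51.WinB

/-!
# RL51.WinC: quadratic expansions in the box (task RL51-WinC)

`φ = π/r ≤ 0.0105`, `‖ss w - V‖ ≤ 0.057 V` in `Box r` (`ss_box`).
* `EE_wi`: the function `g w = EE w - kap 0 * w - V w^2/2` has
  `g' w = kap w - kap 0 - V w`, `‖g' w‖ ≤ 0.057 V ‖w‖`, so `‖g (iφ)‖ ≤ 0.0285 V φ^2` (`seg_bound`,
  `n = 1`) and `Re EE (iφ) ≥ - V φ^2/2 - 0.0285 V φ^2` as `kap 0` is real and `EE 0 = 0`.
* `saddle`: the function `D w = r (EE w - kap w * w) + iπ kap w - r EE (iφ) + (r V/2) (w - iφ)^2`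
  vanishes at `iφ` (`r φ = π`) and has derivative `-r (ss w - V) (w - iφ)`, of norm at most
  `0.057 r V ‖w - iφ‖`; use `seg_bound` with `n = 1`.
* `real_G`: the function `D x = EE x - kap x * x + V x^2/2` vanishes at `0`, and has derivative
  `-(ss x - V) x`; so `‖D x‖ ≤ 0.0285 V x^2`.
* `Lam_box`: mean value inequality from `Lam_deriv_le`.
-/

open Finset Polynomial

namespace Pool.Agent.RL51

variable {ι : Type} [Fintype ι]

private lemma winC_pi {r : ℝ} (hr : 300 ≤ r) {w : ℂ} (hw : w ∈ Box r) : |w.im| < Real.pi :=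
  lt_of_le_of_lt (box_im hr hw) (by have := Real.pi_gt_three; linarith)

private lemma winC_seg {r : ℝ} {w h : ℂ} (hw : w ∈ Box r) (hwh : w + h ∈ Box r) {t : ℝ}
    (ht : t ∈ Set.Icc (0 : ℝ) 1) : w + (t : ℂ) * h ∈ Box r := by
  have h1 := (box_convex r).add_smul_mem hw hwh ht
  rwa [Complex.real_smul] at h1

private lemma winC_rphi {r : ℝ} (hr : 300 ≤ r) :
    (r : ℂ) * wi r = (Real.pi : ℂ) * Complex.I := by
  have h0 : r * (Real.pi / r) = Real.pi := by
    have : r ≠ 0 := by linarith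
    field_simp
  unfold wi
  rw [← mul_assoc, ← Complex.ofReal_mul, h0]

private lemma winC_norm_wi {r : ℝ} (hr : 300 ≤ r) : ‖wi r‖ = Real.pi / r := by
  unfold wi
  rw [norm_mul, Complex.norm_I, mul_one, Complex.norm_real,
    Real.norm_of_nonneg (phi_pos hr).le]

lemma EE_wi {p : ι → ℝ} {r : ℝ} (hB : Big p r) :
    -(1057 / 2000 * VV p * (Real.pi / r) ^ 2) ≤ (EE p (wi r)).re := by
  have h0 := zero_mem_box hB.hr
  have h1 := wi_mem_box hB.hr
  have h1' : (0 : ℂ) + wi r ∈ Box r := by rwa [zero_add]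
  have key := seg_bound (g := fun w => EE p w - kap p 0 * w - (VV p : ℂ) * w ^ 2 / 2)
    (g1 := fun w => kap p w - kap p 0 - (VV p : ℂ) * w) (w := 0) (h := wi r)
    (C := 57 / 1000 * VV p * (Real.pi / r)) 1
    (by
      intro t ht
      have hb := winC_seg h0 h1' ht
      have e1 := hasDerivAt_EE hB.adm (winC_pi hB.hr hb)
      have e2 := (hasDerivAt_id ((0 : ℂ) + (t : ℂ) * wi r)).const_mul (kap p 0)
      have e3 := (((hasDerivAt_id ((0 : ℂ) + (t : ℂ) * wi r)).pow 2).const_mul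
        (VV p : ℂ)).div_const 2
      refine ((e1.sub e2).sub e3).congr_deriv ?_
      simp only [id]
      push_cast
      ring)
    (by
      intro t ht
      have hb := winC_seg h0 h1' ht
      have h2 := kap_box hB h0 hb
      have h3 : (0 : ℂ) + (t : ℂ) * wi r - 0 = (t : ℂ) * wi r := by ring
      have h4 : ‖(t : ℂ) * wi r‖ = t * (Real.pi / r) := by
        rw [norm_mul, Complex.norm_real, Real.norm_of_nonneg ht.1, winC_norm_wi hB.hr]
      rw [h3, h4] at h2
      rw [zero_add] at h2 ⊢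
      refine h2.trans (le_of_eq ?_)
      ring)
  rw [winC_norm_wi hB.hr] at key
  have hre := (abs_le.1 ((Complex.abs_re_le_norm _).trans key)).1
  have hk0 : (kap p 0).im = 0 := by
    have := kap_im_ofReal p 0
    rwa [Complex.ofReal_zero] at this
  have e : (EE p (0 + wi r) - kap p 0 * (0 + wi r) - (VV p : ℂ) * (0 + wi r) ^ 2 / 2 -
      (EE p 0 - kap p 0 * 0 - (VV p : ℂ) * 0 ^ 2 / 2)).re
      = (EE p (wi r)).re + VV p * (Real.pi / r) ^ 2 / 2 := by
    have h5 : EE p (0 + wi r) - kap p 0 * (0 + wi r) - (VV p : ℂ) * (0 + wi r) ^ 2 / 2 -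
      (EE p 0 - kap p 0 * 0 - (VV p : ℂ) * 0 ^ 2 / 2)
      = EE p (wi r) - kap p 0 * (((Real.pi / r : ℝ) : ℂ) * Complex.I)
        + ((VV p * (Real.pi / r) ^ 2 / 2 : ℝ) : ℂ) := by
      rw [EE_zero, zero_add]
      have h6 : wi r ^ 2 = -(((Real.pi / r : ℝ) : ℂ) ^ 2) := by
        unfold wi
        rw [mul_pow, Complex.I_sq]
        ring
      rw [h6]
      unfold wi
      push_cast
      ring
    rw [h5, Complex.add_re, Complex.sub_re, Complex.ofReal_re, Complex.mul_re,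
      Complex.re_ofReal_mul, Complex.im_ofReal_mul, Complex.I_re, Complex.I_im, hk0]
    ring
  rw [e] at hre
  push_cast at hre
  linarith

lemma saddle {p : ι → ℝ} {r : ℝ} (hB : Big p r) {w : ℂ} (hw : w ∈ Box r) :
    ‖((r : ℂ) * (EE p w - kap p w * w) + (Real.pi : ℂ) * Complex.I * kap p w) -
        (r : ℂ) * EE p (wi r) + (r : ℂ) * (VV p : ℂ) / 2 * (w - wi r) ^ 2‖ ≤
      57 / 2000 * (r * VV p) * ‖w - wi r‖ ^ 2 := by
  have h1 := wi_mem_box hB.hr
  have hr0 : 0 ≤ r := by linarith [hB.hr]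
  have h1' : wi r + (w - wi r) ∈ Box r := by rwa [add_sub_cancel]
  have hrp := winC_rphi hB.hr
  have key := seg_bound
    (g := fun z => ((r : ℂ) * (EE p z - kap p z * z) + (Real.pi : ℂ) * Complex.I * kap p z) -
        (r : ℂ) * EE p (wi r) + (r : ℂ) * (VV p : ℂ) / 2 * (z - wi r) ^ 2)
    (g1 := fun z => -(r : ℂ) * (ss p z - (VV p : ℂ)) * (z - wi r)) (w := wi r) (h := w - wi r)
    (C := 57 / 1000 * (r * VV p) * ‖w - wi r‖) 1
    (by
      intro t ht
      have hb := winC_seg h1 h1' ht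
      have e1 := hasDerivAt_EE hB.adm (winC_pi hB.hr hb)
      have e2 := hasDerivAt_kap hB.adm (winC_pi hB.hr hb)
      have e3 := hasDerivAt_id (wi r + (t : ℂ) * (w - wi r))
      have e4 := ((((e1.sub (e2.mul e3)).const_mul (r : ℂ)).add
        (e2.const_mul ((Real.pi : ℂ) * Complex.I))).sub_const ((r : ℂ) * EE p (wi r))).add
        (((e3.sub_const (wi r)).pow 2).const_mul ((r : ℂ) * (VV p : ℂ) / 2))
      refine e4.congr_deriv ?_
      simp only [id]
      push_cast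
      rw [← hrp]
      ring)
    (by
      intro t ht
      have hb := winC_seg h1 h1' ht
      have h2 := ss_box hB hb
      have h3 : wi r + (t : ℂ) * (w - wi r) - wi r = (t : ℂ) * (w - wi r) := by ring
      rw [h3, norm_mul, norm_mul, norm_neg, Complex.norm_real, Real.norm_of_nonneg hr0, norm_mul,
        Complex.norm_real, Real.norm_of_nonneg ht.1]
      have h4 := mul_le_mul_of_nonneg_left h2 hr0
      have h5 := mul_le_mul_of_nonneg_right h4
        (mul_nonneg ht.1 (norm_nonneg (w - wi r)))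
      refine h5.trans (le_of_eq ?_)
      ring)
  have e : ∀ z, z = wi r → ((r : ℂ) * (EE p z - kap p z * z) +
      (Real.pi : ℂ) * Complex.I * kap p z) - (r : ℂ) * EE p (wi r) +
      (r : ℂ) * (VV p : ℂ) / 2 * (z - wi r) ^ 2 = 0 := by
    intro z hz
    rw [hz, ← hrp]
    ring
  rw [e (wi r) rfl, sub_zero, add_sub_cancel] at key
  refine key.trans (le_of_eq ?_)
  push_cast
  ring

lemma real_G {p : ι → ℝ} {r : ℝ} (hB : Big p r) {x : ℝ} (hx : (x : ℂ) ∈ Box r) :
    (EE p (x : ℂ)).re - (kap p (x : ℂ)).re * x ≤ -(943 / 2000 * VV p * x ^ 2) := by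
  have h0 := zero_mem_box hB.hr
  have h1' : (0 : ℂ) + (x : ℂ) ∈ Box r := by rwa [zero_add]
  have key := seg_bound
    (g := fun z => EE p z - kap p z * z + (VV p : ℂ) * z ^ 2 / 2)
    (g1 := fun z => -(ss p z - (VV p : ℂ)) * z) (w := 0) (h := (x : ℂ))
    (C := 57 / 1000 * VV p * |x|) 1
    (by
      intro t ht
      have hb := winC_seg h0 h1' ht
      have e1 := hasDerivAt_EE hB.adm (winC_pi hB.hr hb)
      have e2 := hasDerivAt_kap hB.adm (winC_pi hB.hr hb)
      have e3 := hasDerivAt_id ((0 : ℂ) + (t : ℂ) * (x : ℂ))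
      have e4 := (e1.sub (e2.mul e3)).add (((e3.pow 2).const_mul (VV p : ℂ)).div_const 2)
      refine e4.congr_deriv ?_
      simp only [id]
      push_cast
      ring)
    (by
      intro t ht
      have hb := winC_seg h0 h1' ht
      have h2 := ss_box hB hb
      have h3 : ‖(0 : ℂ) + (t : ℂ) * (x : ℂ)‖ = t * |x| := by
        rw [zero_add, norm_mul, Complex.norm_real, Complex.norm_real, Real.norm_of_nonneg ht.1,
          Real.norm_eq_abs]
      rw [norm_mul, norm_neg, h3]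
      have h5 := mul_le_mul_of_nonneg_right h2 (mul_nonneg ht.1 (abs_nonneg x))
      refine h5.trans (le_of_eq ?_)
      ring)
  rw [Complex.norm_real, Real.norm_eq_abs] at key
  have hre := (Complex.re_le_norm _).trans key
  have e : (EE p (0 + (x : ℂ)) - kap p (0 + (x : ℂ)) * (0 + (x : ℂ))
      + (VV p : ℂ) * (0 + (x : ℂ)) ^ 2 / 2 -
      (EE p 0 - kap p 0 * 0 + (VV p : ℂ) * 0 ^ 2 / 2)).re
      = (EE p (x : ℂ)).re - (kap p (x : ℂ)).re * x + VV p * x ^ 2 / 2 := by
    have h5 : EE p (0 + (x : ℂ)) - kap p (0 + (x : ℂ)) * (0 + (x : ℂ))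
      + (VV p : ℂ) * (0 + (x : ℂ)) ^ 2 / 2 -
      (EE p 0 - kap p 0 * 0 + (VV p : ℂ) * 0 ^ 2 / 2)
      = EE p (x : ℂ) - kap p (x : ℂ) * (x : ℂ) + ((VV p * x ^ 2 / 2 : ℝ) : ℂ) := by
      rw [EE_zero, zero_add]
      push_cast
      ring
    rw [h5, Complex.add_re, Complex.sub_re, Complex.ofReal_re, Complex.re_mul_ofReal]
  rw [e] at hre
  have hab : |x| * |x| = x ^ 2 := by rw [abs_mul_abs_self]; ring
  have h6 : 57 / 1000 * VV p * |x| * |x| / ((1 : ℕ) + 1) = 57 / 2000 * VV p * x ^ 2 := by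
    rw [← hab]
    push_cast
    ring
  rw [h6] at hre
  linarith

lemma Lam_box {p : ι → ℝ} {r : ℝ} (hB : Big p r) {w w' : ℂ} (hw : w ∈ Box r) (hw' : w' ∈ Box r) :
    ‖Lam p w' - Lam p w‖ ≤ 3 / 2 * ‖w' - w‖ := by
  refine (box_convex r).norm_image_sub_le_of_norm_deriv_le (𝕜 := ℂ) (f := Lam p)
    (fun z hz => ?_) (fun z hz => ?_) hw hw'
  · exact differentiableAt_Lam hB.adm hB.V156
      (lt_of_le_of_lt (box_small hB.hr hz) (by norm_num))
  · exact Lam_deriv_le hB.adm hB.V156 (box_small hB.hr hz)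

end Pool.Agent.RL51
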