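import Pool.Agent.RL51.WinC

/-!
# RL51.WinE: existence and properties of the window (task RL51-WinE)

`kap p` is real, continuous and strictly increasing on the real axis, with values in `(0, card ι)`
(each `k1 q x ∈ (0,1)`).  `kap (5φ) - kap (4φ) ≥ 0.943 V φ ≥ 0.943 π 0.52 > 1` (`kap_re_lower`),
so there is a half integer `N2 + 1/2 ∈ [kap (4φ), kap (5φ)]` and `B ∈ [4φ, 5φ]` with
`kap B = N2 + 1/2` (IVT; `kap > 0` gives `N2 ≥ 0` as a natural number: the half integer is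
positive).  Similarly `A`, with `kap (-A) = N1 - 1/2 > 0`, so `N1 ≥ 1`.
`kap B - kap (-A) ≥ 0.943 V 8 φ ≥ 12`, so `N2 - N1 ≥ 11`.  `kap B < card ι` gives
`N2 + 1 ≤ card ι` (`ι` is nonempty because `VV p > 0`).
-/

open Finset Polynomial

namespace Pool.Agent.RL51

variable {ι : Type} [Fintype ι]

/-- `k1` at real points -/
lemma k1_ofReal (q x : ℝ) : k1 q (x : ℂ) = ((q * Real.exp x / bR q x : ℝ) : ℂ) := by
  unfold k1
  rw [bb_ofReal]
  push_cast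
  rfl

/-- `kap` at real points -/
lemma kap_ofReal_eq (p : ι → ℝ) (x : ℝ) :
    kap p (x : ℂ) = ((∑ i, p i * Real.exp x / bR (p i) x : ℝ) : ℂ) := by
  unfold kap
  rw [Complex.ofReal_sum]
  exact Finset.sum_congr rfl fun i _ => k1_ofReal _ _

lemma kap_re_ofReal (p : ι → ℝ) (x : ℝ) :
    (kap p (x : ℂ)).re = ∑ i, p i * Real.exp x / bR (p i) x := by
  rw [kap_ofReal_eq, Complex.ofReal_re]

lemma kap_coe_re (p : ι → ℝ) (x : ℝ) : (((kap p (x : ℂ)).re : ℝ) : ℂ) = kap p (x : ℂ) := by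
  rw [kap_re_ofReal, ← kap_ofReal_eq]

lemma Big.nonempty {p : ι → ℝ} {r : ℝ} (hB : Big p r) : Nonempty ι := by
  by_contra h
  rw [not_nonempty_iff] at h
  have h1 := hB.V156
  unfold VV at h1
  simp at h1
  linarith

lemma kap_re_pos' {p : ι → ℝ} {r : ℝ} (hB : Big p r) (x : ℝ) : 0 < (kap p (x : ℂ)).re := by
  haveI := hB.nonempty
  rw [kap_re_ofReal]
  refine Finset.sum_pos (fun i _ => ?_) Finset.univ_nonempty
  have h1 := bR_pos (hB.adm i).1 (hB.adm i).2 x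
  have h2 := (hB.adm i).1
  positivity

lemma kap_re_lt_card {p : ι → ℝ} {r : ℝ} (hB : Big p r) (x : ℝ) :
    (kap p (x : ℂ)).re < Fintype.card ι := by
  haveI := hB.nonempty
  rw [kap_re_ofReal]
  have h : (Fintype.card ι : ℝ) = ∑ _i : ι, (1 : ℝ) := by simp
  rw [h]
  refine Finset.sum_lt_sum_of_nonempty Finset.univ_nonempty (fun i _ => ?_)
  have h1 := bR_pos (hB.adm i).1 (hB.adm i).2 x
  rw [div_lt_one h1]
  unfold bR
  linarith [(hB.adm i).2]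

lemma continuous_kap_re {p : ι → ℝ} (hp : Adm p) :
    Continuous fun x : ℝ => (kap p (x : ℂ)).re := by
  rw [continuous_iff_continuousAt]
  intro x
  have him : |((x : ℂ)).im| < Real.pi := by simp [Real.pi_pos]
  have h1 : ContinuousAt (kap p) (x : ℂ) := (hasDerivAt_kap hp him).continuousAt
  have h2 : ContinuousAt (fun y : ℝ => (y : ℂ)) x := Complex.continuous_ofReal.continuousAt
  have h3 : ContinuousAt (fun y : ℝ => kap p (y : ℂ)) x :=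
    ContinuousAt.comp (f := fun y : ℝ => (y : ℂ)) (g := kap p) h1 h2
  exact Complex.continuous_re.continuousAt.comp h3

lemma V_phi {p : ι → ℝ} {r : ℝ} (hB : Big p r) : 1632 / 1000 ≤ VV p * (Real.pi / r) := by
  have hr : 0 < r := by linarith [hB.hr]
  have h1 : 13 / 25 * r * (Real.pi / r) ≤ VV p * (Real.pi / r) :=
    mul_le_mul_of_nonneg_right hB.hV (phi_pos hB.hr).le
  have h2 : 13 / 25 * r * (Real.pi / r) = 13 / 25 * Real.pi := by field_simp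
  have h3 := Real.pi_gt_d2
  rw [h2] at h1
  nlinarith

theorem exists_win {p : ι → ℝ} {r : ℝ} (hB : Big p r) :
    ∃ (A B : ℝ) (N1 N2 : ℕ), Win p r A B N1 N2 := by
  have hφ := phi_pos hB.hr
  have hV := V_phi hB
  have hmem : ∀ {u : ℝ}, |u| ≤ 5 * (Real.pi / r) → (u : ℂ) ∈ Box r :=
    fun h => ofReal_mem_box hB.hr h
  set φ := Real.pi / r with hφd
  have hcont := continuous_kap_re hB.adm
  -- the right end
  have hr1 := kap_re_lower hB (x := 4 * φ) (y := 5 * φ)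
    (hmem (by rw [abs_of_nonneg (by linarith)]; linarith))
    (hmem (by rw [abs_of_nonneg (by linarith)])) (by linarith)
  have hl1 := kap_re_lower hB (x := -(5 * φ)) (y := -(4 * φ))
    (hmem (by rw [abs_neg, abs_of_nonneg (by linarith)]))
    (hmem (by rw [abs_neg, abs_of_nonneg (by linarith)]; linarith)) (by linarith)
  have hgr : (kap p ((4 * φ : ℝ) : ℂ)).re + 1 ≤ (kap p ((5 * φ : ℝ) : ℂ)).re := by nlinarith
  have hgl : (kap p ((-(5 * φ) : ℝ) : ℂ)).re + 1 ≤ (kap p ((-(4 * φ) : ℝ) : ℂ)).re := by nlinarith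
  have hp4 := kap_re_pos' hB (4 * φ)
  have hp5 := kap_re_pos' hB (-(5 * φ))
  -- `B`
  obtain ⟨B, ⟨hB1, hB2⟩, hB3⟩ := intermediate_value_Icc (a := 4 * φ) (b := 5 * φ) (by linarith)
    hcont.continuousOn (show ((⌈(kap p ((4 * φ : ℝ) : ℂ)).re - 1 / 2⌉ : ℝ) + 1 / 2) ∈
      Set.Icc ((kap p ((4 * φ : ℝ) : ℂ)).re) ((kap p ((5 * φ : ℝ) : ℂ)).re) from
      ⟨by linarith [Int.le_ceil ((kap p ((4 * φ : ℝ) : ℂ)).re - 1 / 2)],
       by linarith [Int.ceil_lt_add_one ((kap p ((4 * φ : ℝ) : ℂ)).re - 1 / 2)]⟩)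
  obtain ⟨A, ⟨hA1, hA2⟩, hA3⟩ := intermediate_value_Icc (a := -(5 * φ)) (b := -(4 * φ))
    (by linarith)
    hcont.continuousOn (show ((⌈(kap p ((-(5 * φ) : ℝ) : ℂ)).re + 1 / 2⌉ : ℝ) - 1 / 2) ∈
      Set.Icc ((kap p ((-(5 * φ) : ℝ) : ℂ)).re) ((kap p ((-(4 * φ) : ℝ) : ℂ)).re) from
      ⟨by linarith [Int.le_ceil ((kap p ((-(5 * φ) : ℝ) : ℂ)).re + 1 / 2)],
       by linarith [Int.ceil_lt_add_one ((kap p ((-(5 * φ) : ℝ) : ℂ)).re + 1 / 2)]⟩)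
  have hm1 : 0 ≤ ⌈(kap p ((4 * φ : ℝ) : ℂ)).re - 1 / 2⌉ := by
    have h1 := Int.le_ceil ((kap p ((4 * φ : ℝ) : ℂ)).re - 1 / 2)
    have h2 : (-1 : ℝ) < (⌈(kap p ((4 * φ : ℝ) : ℂ)).re - 1 / 2⌉ : ℝ) := by linarith
    have h3 : (-1 : ℤ) < ⌈(kap p ((4 * φ : ℝ) : ℂ)).re - 1 / 2⌉ := by exact_mod_cast h2
    omega
  have hm2 : 0 ≤ ⌈(kap p ((-(5 * φ) : ℝ) : ℂ)).re + 1 / 2⌉ := by
    have h1 := Int.le_ceil ((kap p ((-(5 * φ) : ℝ) : ℂ)).re + 1 / 2)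
    have h2 : (0 : ℝ) < (⌈(kap p ((-(5 * φ) : ℝ) : ℂ)).re + 1 / 2⌉ : ℝ) := by linarith
    have h3 : (0 : ℤ) < ⌈(kap p ((-(5 * φ) : ℝ) : ℂ)).re + 1 / 2⌉ := by exact_mod_cast h2
    omega
  obtain ⟨N2, hN2⟩ := Int.eq_ofNat_of_zero_le hm1
  obtain ⟨N1, hN1⟩ := Int.eq_ofNat_of_zero_le hm2
  rw [hN2] at hB3
  rw [hN1] at hA3
  refine ⟨-A, B, N1, N2, by linarith, by linarith, hB1, hB2, ?_, ?_⟩
  · rw [neg_neg, ← kap_coe_re]
    have : (kap p (A : ℂ)).re = (N1 : ℝ) - 1 / 2 := by simpa using hA3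
    rw [this]
    push_cast
    rfl
  · rw [← kap_coe_re]
    have : (kap p (B : ℂ)).re = (N2 : ℝ) + 1 / 2 := by simpa using hB3
    rw [this]
    push_cast
    rfl

lemma Win.re1 {p : ι → ℝ} {r A B : ℝ} {N1 N2 : ℕ} (hW : Win p r A B N1 N2) :
    (kap p ((-A : ℝ) : ℂ)).re = (N1 : ℝ) - 1 / 2 := by
  have h := hW.hN1
  have h2 : ((N1 : ℂ) - 1 / 2) = (((N1 : ℝ) - 1 / 2 : ℝ) : ℂ) := by push_cast; rfl
  rw [h2] at h
  rw [h, Complex.ofReal_re]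

lemma Win.re2 {p : ι → ℝ} {r A B : ℝ} {N1 N2 : ℕ} (hW : Win p r A B N1 N2) :
    (kap p (B : ℂ)).re = (N2 : ℝ) + 1 / 2 := by
  have h := hW.hN2
  have h2 : ((N2 : ℂ) + 1 / 2) = (((N2 : ℝ) + 1 / 2 : ℝ) : ℂ) := by push_cast; rfl
  rw [h2] at h
  rw [h, Complex.ofReal_re]

theorem Win.le1 {p : ι → ℝ} {r A B : ℝ} {N1 N2 : ℕ} (hB : Big p r) (hW : Win p r A B N1 N2) :
    1 ≤ N1 := by
  have h1 := kap_re_pos' hB (-A)
  rw [hW.re1] at h1
  have h2 : (0 : ℝ) < (N1 : ℝ) := by linarith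
  exact_mod_cast h2

theorem Win.le2 {p : ι → ℝ} {r A B : ℝ} {N1 N2 : ℕ} (hB : Big p r) (hW : Win p r A B N1 N2) :
    N1 + 2 ≤ N2 := by
  have hφ := phi_pos hB.hr
  have hV := V_phi hB
  have hA1 := hW.hA1
  have hA2 := hW.hA2
  have hB1 := hW.hB1
  have hB2 := hW.hB2
  have h := kap_re_lower hB (x := -A) (y := B)
    (ofReal_mem_box hB.hr (by rw [abs_neg, abs_of_nonneg (by linarith)]; linarith))
    (ofReal_mem_box hB.hr (by rw [abs_of_nonneg (by linarith)]; linarith)) (by linarith)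
  rw [hW.re1, hW.re2] at h
  have hV0 : 0 ≤ VV p := by linarith [hB.V156]
  have h2 : VV p * (8 * (Real.pi / r)) ≤ VV p * (B - -A) :=
    mul_le_mul_of_nonneg_left (by linarith) hV0
  have h3 : (N1 : ℝ) + 2 ≤ N2 := by nlinarith
  exact_mod_cast h3

theorem Win.le3 {p : ι → ℝ} {r A B : ℝ} {N1 N2 : ℕ} (hB : Big p r) (hW : Win p r A B N1 N2) :
    N2 + 1 ≤ Fintype.card ι := by
  have h1 := kap_re_lt_card hB B
  rw [hW.re2] at h1
  have h2 : (N2 : ℝ) < (Fintype.card ι : ℝ) := by linarith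
  exact_mod_cast h2

/-- the nodes -/
theorem Win.node {p : ι → ℝ} {r A B : ℝ} {N1 N2 : ℕ} (hB : Big p r) (hW : Win p r A B N1 N2)
    {k : ℕ} (hk : k ∈ Icc N1 N2) : ∃ x : ℝ, -A < x ∧ x < B ∧ kap p (x : ℂ) = k := by
  have hφ := phi_pos hB.hr
  have hA1 := hW.hA1
  have hB1 := hW.hB1
  rw [Finset.mem_Icc] at hk
  have hk1 : (N1 : ℝ) ≤ k := by exact_mod_cast hk.1
  have hk2 : (k : ℝ) ≤ N2 := by exact_mod_cast hk.2
  have hr1 := hW.re1
  have hr2 := hW.re2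
  obtain ⟨x, ⟨hx1, hx2⟩, hx3⟩ := intermediate_value_Icc (a := -A) (b := B) (by linarith)
    (continuous_kap_re hB.adm).continuousOn (show (k : ℝ) ∈
      Set.Icc ((kap p ((-A : ℝ) : ℂ)).re) ((kap p (B : ℂ)).re) from
      ⟨by rw [hr1]; linarith, by rw [hr2]; linarith⟩)
  have hx3' : (kap p (x : ℂ)).re = k := hx3
  refine ⟨x, lt_of_le_of_ne hx1 ?_, lt_of_le_of_ne hx2 ?_, ?_⟩
  · rintro rfl
    rw [hr1] at hx3'
    linarith
  · rintro rfl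
    rw [hr2] at hx3'
    linarith
  · rw [← kap_coe_re, hx3']
    simp

theorem Win.mem_box {p : ι → ℝ} {r A B : ℝ} {N1 N2 : ℕ} (hW : Win p r A B N1 N2)
    {w : ℂ} (h1 : w.re ∈ Set.Icc (-A) B) (h2 : |w.im| ≤ Real.pi / r) : w ∈ Box r := by
  have hA2 := hW.hA2
  have hB2 := hW.hB2
  exact ⟨abs_le.mpr ⟨by linarith [h1.1], by linarith [h1.2]⟩, h2⟩

end Pool.Agent.RL51
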